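import Mathlib

/-! From a failure of the Eisenbud-Mazur containment to a nontrivial evolution. -/

namespace Pool.Agent.W450.EM

open MvPolynomial TensorProduct KaehlerDifferential

/-- a derivation of a polynomial ring is given by the partial derivatives -/
theorem der_eq {K σ M : Type*} [Field K] [Fintype σ] [AddCommGroup M] [Module K M]
    [Module (MvPolynomial σ K) M] [IsScalarTower K (MvPolynomial σ K) M]
    (d : Derivation K (MvPolynomial σ K) M) (f : MvPolynomial σ K) :
    d f = ∑ i, pderiv i f • d (X i) := by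
  classical
  induction f using MvPolynomial.induction_on with
  | C c =>
    rw [← algebraMap_eq, Derivation.map_algebraMap]
    symm
    apply Finset.sum_eq_zero
    intro i _
    rw [Derivation.map_algebraMap, zero_smul]
  | add p q hp hq =>
    rw [map_add, hp, hq, ← Finset.sum_add_distrib]
    apply Finset.sum_congr rfl
    intro i _
    rw [map_add, add_smul]
  | mul_X p j hp =>
    rw [Derivation.leibniz, hp, Finset.smul_sum]
    have h1 : ∀ i, pderiv i (p * X j) • d (X i) =
        (p * (if j = i then (1 : MvPolynomial σ K) else 0)) • d (X i) +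
          (X j : MvPolynomial σ K) • (pderiv i p • d (X i)) := by
      intro i
      rw [Derivation.leibniz, pderiv_X, add_smul, smul_eq_mul, smul_eq_mul, mul_smul (X j)]
      congr 2
      simp [Pi.single_apply]
    rw [Finset.sum_congr rfl fun i _ => h1 i, Finset.sum_add_distrib]
    congr 1
    rw [Finset.sum_eq_single j]
    · simp
    · intro i _ hi
      rw [if_neg (Ne.symm hi), mul_zero, zero_smul]
    · simp

/-- the general lemma -/
theorem evol {K σ T R : Type*} [Field K] [Fintype σ] [CommRing T] [CommRing R]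
    [Algebra K T] [Algebra K R] [Algebra (MvPolynomial σ K) T] [Algebra (MvPolynomial σ K) R]
    [Algebra T R] [IsScalarTower K (MvPolynomial σ K) T] [IsScalarTower K T R]
    [IsScalarTower (MvPolynomial σ K) T R]
    (hs : Function.Surjective (algebraMap T R)) (F : MvPolynomial σ K)
    (hF : algebraMap (MvPolynomial σ K) R F = 0)
    (hd : ∀ i, algebraMap (MvPolynomial σ K) R (pderiv i F) = 0)
    (hk : ∀ t : T, algebraMap T R t = 0 → ∃ s, t = s * algebraMap (MvPolynomial σ K) T F) :
    Function.Bijective (KaehlerDifferential.mapBaseChange K T R) := by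
  refine ⟨?_, KaehlerDifferential.mapBaseChange_surjective K T R hs⟩
  have h1 : (1 : R) ⊗ₜ[T] (D K T (algebraMap (MvPolynomial σ K) T F)) = 0 := by
    have h2 := der_eq ((D K T).compAlgebraMap (MvPolynomial σ K)) F
    rw [Derivation.compAlgebraMap_apply] at h2
    rw [h2, TensorProduct.tmul_sum]
    apply Finset.sum_eq_zero
    intro i _
    rw [← algebraMap_smul T (pderiv i F), ← TensorProduct.smul_tmul, Algebra.smul_def, mul_one,
      ← IsScalarTower.algebraMap_apply, hd, TensorProduct.zero_tmul]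
  rw [← LinearMap.ker_eq_bot, eq_bot_iff]
  intro x hx
  have hx2 : x ∈ (LinearMap.ker (KaehlerDifferential.mapBaseChange K T R)).restrictScalars T := hx
  rw [← KaehlerDifferential.range_kerCotangentToTensor K T R hs] at hx2
  obtain ⟨y, rfl⟩ := hx2
  obtain ⟨⟨t, ht⟩, rfl⟩ := Ideal.toCotangent_surjective _ y
  rw [KaehlerDifferential.kerCotangentToTensor_toCotangent]
  obtain ⟨s, rfl⟩ := hk t (RingHom.mem_ker.mp ht)
  rw [Submodule.mem_bot]
  change (1 : R) ⊗ₜ[T] (D K T (s * algebraMap (MvPolynomial σ K) T F)) = 0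
  rw [Derivation.leibniz, TensorProduct.tmul_add, TensorProduct.tmul_smul, h1, smul_zero, zero_add,
    ← TensorProduct.smul_tmul, Algebra.smul_def, mul_one, ← IsScalarTower.algebraMap_apply, hF,
    TensorProduct.zero_tmul]

/-- a hyperplane of `I` avoiding `f` -/
theorem exists_hyper {S : Type*} [CommRing S] [IsLocalRing S] [IsNoetherianRing S] (I : Ideal S)
    (f : S) (hf : f ∈ I) (hf' : f ∉ IsLocalRing.maximalIdeal S * I) :
    ∃ J : Ideal S, J ≤ I ∧ f ∉ J ∧ ∀ g ∈ I, ∃ s, g - s * f ∈ J := by
  let A : Set (Ideal S) := {J | IsLocalRing.maximalIdeal S * I ≤ J ∧ J ≤ I ∧ f ∉ J}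
  have hA : A.Nonempty := ⟨_, le_rfl, Ideal.mul_le_right, hf'⟩
  obtain ⟨J, ⟨h1, h2, h3⟩, hmax⟩ := set_has_maximal_iff_noetherian.mpr ‹_› A hA
  refine ⟨J, h2, h3, ?_⟩
  intro g hg
  by_cases hgJ : g ∈ J
  · exact ⟨0, by simpa using hgJ⟩
  have h4 : J < J ⊔ Ideal.span {g} := by
    rw [left_lt_sup]
    intro h
    exact hgJ (h (Ideal.mem_span_singleton_self g))
  have h5 : f ∈ J ⊔ Ideal.span {g} := by
    by_contra h
    exact hmax _ ⟨h1.trans le_sup_left, sup_le h2 ((Ideal.span_singleton_le_iff_mem _).mpr hg), h⟩ h4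
  obtain ⟨j, hj, z, hz, hjz⟩ := Submodule.mem_sup.mp h5
  obtain ⟨s, rfl⟩ := Ideal.mem_span_singleton'.mp hz
  by_cases hs : s ∈ IsLocalRing.maximalIdeal S
  · exfalso
    apply h3
    rw [← hjz]
    exact J.add_mem hj (h1 (Ideal.mul_mem_mul hs hg))
  · have hu : IsUnit s := by
      by_contra hc
      exact hs ((IsLocalRing.mem_maximalIdeal s).mpr hc)
    obtain ⟨u, rfl⟩ := hu
    refine ⟨↑u⁻¹, ?_⟩
    rw [← hjz]
    have : g - ↑u⁻¹ * (j + ↑u * g) = -(↑u⁻¹ * j) := by
      have h6 : (↑u⁻¹ : S) * (↑u * g) = g := by rw [← mul_assoc, Units.inv_mul, one_mul]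
      rw [mul_add, h6]; ring
    rw [this]
    exact neg_mem (Ideal.mul_mem_left J _ hj)

end Pool.Agent.W450.EM
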