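import Mathlib

/-! Combinatorics of the weights `18 ^ j` and `343 * 18 ^ j` modulo 601. -/

namespace Pool.Agent.W450.EM

instance fact601 : Fact (Nat.Prime 601) := ⟨by norm_num⟩

/-- weight of a variable: class (`false` for `x`, `true` for `y`) and index -/
def wt (v : Bool × Fin 15) : ZMod 601 :=
  (if v.1 then 343 else 1) * 18 ^ v.2.val

theorem pow15 : (18 : ZMod 601) ^ 15 = 1 := by decide

theorem pow_mod15 (n : ℕ) : (18 : ZMod 601) ^ n = 18 ^ (n % 15) := by
  conv_lhs => rw [← Nat.div_add_mod n 15, pow_add, pow_mul, pow15, one_pow, one_mul]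

/-- rotation of a variable -/
def rot (k : Fin 15) (v : Bool × Fin 15) : Bool × Fin 15 := (v.1, v.2 + k)

theorem wt_rot (k : Fin 15) (v : Bool × Fin 15) : wt (rot k v) = 18 ^ k.val * wt v := by
  have h : (v.2 + k).val = (v.2.val + k.val) % 15 := Fin.val_add v.2 k
  simp only [wt, rot]
  rw [h, ← pow_mod15, pow_add, ← mul_assoc, mul_comm]
  rfl

/-- normalisation: rotate so that the first variable has index 0 -/
theorem wt_norm (i : Fin 15) (v : Bool × Fin 15) :
    wt v = 18 ^ i.val * wt (rot (-i) v) := by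
  rw [← wt_rot]
  congr 1
  simp [rot]

set_option maxRecDepth 100000 in
theorem c1 : ∀ j < 15, ∀ k < 15, ∀ l < 15,
    (1 + 18 ^ j + 18 ^ k + 343 * 18 ^ l) % 601 ≠ 0 := by decide +kernel

set_option maxRecDepth 100000 in
theorem c2 : ∀ j < 15, ∀ k < 15, ∀ l < 15,
    (1 + 18 ^ j + 343 * 18 ^ k + 343 * 18 ^ l) % 601 ≠ 0 := by decide +kernel

set_option maxRecDepth 100000 in
theorem c3 : ∀ j < 15, ∀ k < 15, ∀ l < 15,
    (1 + 343 * 18 ^ j + 343 * 18 ^ k + 343 * 18 ^ l) % 601 ≠ 0 := by decide +kernel

set_option maxRecDepth 100000 in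
theorem c4 : ∀ j < 15, ∀ k < 15, (1 + 18 ^ j + 343 * 18 ^ k) % 601 ≠ 0 := by decide +kernel

theorem cast_ne {n : ℕ} (h : n % 601 ≠ 0) : (n : ZMod 601) ≠ 0 := by
  rw [Ne, ZMod.natCast_eq_zero_iff]
  intro h2
  exact h (Nat.mod_eq_zero_of_dvd h2)

theorem wt_false (j : Fin 15) : wt (false, j) = ((18 ^ j.val : ℕ) : ZMod 601) := by
  simp [wt]

theorem wt_true (j : Fin 15) : wt (true, j) = ((343 * 18 ^ j.val : ℕ) : ZMod 601) := by
  simp [wt]

/-- no weight zero monomial of type (2,1) -/
theorem no21 (i j l : Fin 15) : wt (false, i) + wt (false, j) + wt (true, l) ≠ 0 := by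
  rw [wt_norm i (false, i), wt_norm i (false, j), wt_norm i (true, l), ← mul_add, ← mul_add]
  apply mul_ne_zero
  · apply pow_ne_zero; decide
  · simp only [rot, add_neg_cancel, wt_false, wt_true]
    have := cast_ne (c4 (j + -i).val (Fin.is_lt _) (l + -i).val (Fin.is_lt _))
    push_cast at this ⊢
    simpa using this

/-- no weight zero monomial of type (3,1) -/
theorem no31 (i j k l : Fin 15) :
    wt (false, i) + wt (false, j) + wt (false, k) + wt (true, l) ≠ 0 := by
  rw [wt_norm i (false, i), wt_norm i (false, j), wt_norm i (false, k), wt_norm i (true, l),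
    ← mul_add, ← mul_add, ← mul_add]
  apply mul_ne_zero
  · apply pow_ne_zero; decide
  · simp only [rot, add_neg_cancel, wt_false, wt_true]
    have := cast_ne (c1 (j + -i).val (Fin.is_lt _) (k + -i).val (Fin.is_lt _)
      (l + -i).val (Fin.is_lt _))
    push_cast at this ⊢
    simpa using this

/-- no weight zero monomial of type (2,2) -/
theorem no22 (i j k l : Fin 15) :
    wt (false, i) + wt (false, j) + wt (true, k) + wt (true, l) ≠ 0 := by
  rw [wt_norm i (false, i), wt_norm i (false, j), wt_norm i (true, k), wt_norm i (true, l),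
    ← mul_add, ← mul_add, ← mul_add]
  apply mul_ne_zero
  · apply pow_ne_zero; decide
  · simp only [rot, add_neg_cancel, wt_false, wt_true]
    have := cast_ne (c2 (j + -i).val (Fin.is_lt _) (k + -i).val (Fin.is_lt _)
      (l + -i).val (Fin.is_lt _))
    push_cast at this ⊢
    simpa using this

/-- no weight zero monomial of type (1,3) -/
theorem no13 (i j k l : Fin 15) :
    wt (false, i) + wt (true, j) + wt (true, k) + wt (true, l) ≠ 0 := by
  rw [wt_norm i (false, i), wt_norm i (true, j), wt_norm i (true, k), wt_norm i (true, l),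
    ← mul_add, ← mul_add, ← mul_add]
  apply mul_ne_zero
  · apply pow_ne_zero; decide
  · simp only [rot, add_neg_cancel, wt_false, wt_true]
    have := cast_ne (c3 (j + -i).val (Fin.is_lt _) (k + -i).val (Fin.is_lt _)
      (l + -i).val (Fin.is_lt _))
    push_cast at this ⊢
    simpa using this

end Pool.Agent.W450.EM
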