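import Mathlib

/-! Second order Taylor expansion for multivariate polynomials, and the differential
criterion for membership in the square of the kernel of a split surjection. -/

namespace Pool.Agent.W450.EM

open MvPolynomial

theorem taylor_two {K σ S' : Type*} [CommRing K] [Fintype σ] [CommRing S'] [Algebra K S']
    (a b : σ → S') (J : Ideal S') (hb : ∀ i, b i ∈ J) (f : MvPolynomial σ K) :
    aeval (fun i => a i + b i) f - aeval a f - ∑ i, b i * aeval a (pderiv i f) ∈ J ^ 2 := by
  classical
  induction f using MvPolynomial.induction_on with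
  | C c => simp
  | add p q hp hq =>
    have := Ideal.add_mem _ hp hq
    convert this using 1
    simp only [map_add, mul_add, Finset.sum_add_distrib]
    ring
  | mul_X p j hp =>
    have hsum : ∑ i, b i * aeval a (pderiv i p) ∈ J :=
      Ideal.sum_mem _ fun i _ => Ideal.mul_mem_right _ _ (hb i)
    have h1 : b j * ∑ i, b i * aeval a (pderiv i p) ∈ J ^ 2 := by
      rw [sq]
      exact Ideal.mul_mem_mul (hb j) hsum
    have h2 := Ideal.mul_mem_right (a j + b j) _ hp
    have h3 := Ideal.add_mem _ h1 h2
    convert h3 using 1
    have e1 : ∑ i, b i * aeval a (pderiv i (p * X j)) =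
        a j * ∑ i, b i * aeval a (pderiv i p) + b j * aeval a p := by
      have : ∀ i, b i * aeval a (pderiv i (p * X j)) =
          a j * (b i * aeval a (pderiv i p)) + (if j = i then b i * aeval a p else 0) := by
        intro i
        rw [pderiv_mul, pderiv_X, map_add, map_mul, map_mul, aeval_X]
        by_cases h : j = i
        · subst h
          simp
          ring
        · simp [h]
          ring
      rw [Finset.sum_congr rfl fun i _ => this i, Finset.sum_add_distrib, ← Finset.mul_sum]
      simp
    rw [e1]
    simp only [map_mul, aeval_X]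
    ring

/-- if `φ` has a section `s`, then a polynomial in the kernel of `φ` all of whose partial
derivatives are in the kernel lies in the square of the kernel -/
theorem mem_ker_sq {K σ B : Type*} [CommRing K] [Fintype σ] [CommRing B] [Algebra K B]
    (φ : MvPolynomial σ K →ₐ[K] B) (s : B →ₐ[K] MvPolynomial σ K)
    (hs : ∀ b, φ (s b) = b) (f : MvPolynomial σ K) (hf : φ f = 0)
    (hd : ∀ i, φ (pderiv i f) = 0) : f ∈ (RingHom.ker φ) ^ 2 := by
  have hb : ∀ i, X i - s (φ (X i)) ∈ RingHom.ker φ := by
    intro i
    rw [RingHom.mem_ker, map_sub, hs, sub_self]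
  have h := taylor_two (fun i => s (φ (X i))) (fun i => X i - s (φ (X i))) (RingHom.ker φ) hb f
  have e : ∀ g : MvPolynomial σ K, aeval (fun i => s (φ (X i))) g = s (φ g) := by
    intro g
    have : (aeval fun i => s (φ (X i))) = s.comp φ := by
      ext i
      simp
    rw [this]
    rfl
  have e2 : aeval (fun i => s (φ (X i)) + (X i - s (φ (X i)))) f = f := by
    have : (fun i => s (φ (X i)) + (X i - s (φ (X i)))) = (X : σ → MvPolynomial σ K) := by
      funext i
      ring
    rw [this, aeval_X_left_apply]
  have e3 : ∑ i, (X i - s (φ (X i))) * aeval (fun i => s (φ (X i))) (pderiv i f) = 0 :=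
    Finset.sum_eq_zero fun i _ => by rw [e, hd, map_zero, mul_zero]
  rw [e2, e, hf, map_zero, sub_zero, e3, sub_zero] at h
  exact h

end Pool.Agent.W450.EM
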