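import Mathlib
import Pool.Agent.W450.EMTaylor

/-! From a finite family of parametrised curves and a functional to a failure of the
Eisenbud-Mazur containment in the local ring at the origin. -/

namespace Pool.Agent.W450.EM

open MvPolynomial

section

variable {K σ : Type*} [Field K]

/-- the maximal ideal of the origin -/
noncomputable def orig (K σ : Type*) [Field K] : Ideal (MvPolynomial σ K) :=
  RingHom.ker (constantCoeff : MvPolynomial σ K →+* K)

instance : (orig K σ).IsPrime := RingHom.ker_isPrime _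

variable {Ψ : Type*}

/-- the ideal of the union of the curves -/
noncomputable def I0 (φ : Ψ → MvPolynomial σ K →ₐ[K] Polynomial K) : Ideal (MvPolynomial σ K) :=
  ⨅ ψ, RingHom.ker (φ ψ)

theorem mem_I0 {φ : Ψ → MvPolynomial σ K →ₐ[K] Polynomial K} {g : MvPolynomial σ K} :
    g ∈ I0 φ ↔ ∀ ψ, φ ψ g = 0 := by
  simp [I0]

theorem I0_isRadical (φ : Ψ → MvPolynomial σ K →ₐ[K] Polynomial K) : (I0 φ).IsRadical :=
  Ideal.isRadical_iInf _ fun ψ => (RingHom.ker_isPrime (φ ψ)).isRadical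

theorem ker_le_orig (φ : MvPolynomial σ K →ₐ[K] Polynomial K)
    (h0 : ∀ i, (φ (X i)).eval 0 = 0) : RingHom.ker φ ≤ orig K σ := by
  intro g hg
  rw [orig, RingHom.mem_ker]
  have h1 : ∀ g : MvPolynomial σ K, constantCoeff g = (φ g).eval 0 := by
    intro g
    have : (MvPolynomial.aeval (fun _ => (0 : K)) : MvPolynomial σ K →ₐ[K] K) =
        (Polynomial.aeval (0 : K)).comp φ := by
      ext i
      simp [Polynomial.coe_aeval_eq_eval, h0 i]
    have h2 := congrArg (fun l => l g) this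
    simp only [AlgHom.comp_apply, Polynomial.coe_aeval_eq_eval] at h2
    rw [← h2]
    exact (MvPolynomial.aeval_zero' g).symm
  rw [h1, (RingHom.mem_ker).mp hg, Polynomial.eval_zero]

theorem functional_mul (φ : Ψ → MvPolynomial σ K →ₐ[K] Polynomial K)
    (κ : MvPolynomial σ K →ₗ[K] K) (hκ : ∀ i, ∀ g ∈ I0 φ, κ (X i * g) = 0)
    (r g : MvPolynomial σ K) (hg : g ∈ I0 φ) : κ (r * g) = constantCoeff r * κ g := by
  induction r using MvPolynomial.induction_on generalizing g with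
  | C c => rw [constantCoeff_C, ← smul_eq_C_mul, map_smul, smul_eq_mul]
  | add p q hp hq => rw [add_mul, map_add, map_add, add_mul, hp g hg, hq g hg]
  | mul_X p j hp =>
    rw [mul_assoc, hp _ (Ideal.mul_mem_left _ _ hg), hκ j g hg, map_mul, constantCoeff_X,
      mul_zero, zero_mul]

end

/-- The Eisenbud-Mazur containment fails. -/
theorem em_fails (K : Type) [Field K] (n : ℕ) {Ψ : Type} [Fintype Ψ] [Nonempty Ψ]
    (φ : Ψ → MvPolynomial (Fin n) K →ₐ[K] Polynomial K)
    (s : Ψ → Polynomial K →ₐ[K] MvPolynomial (Fin n) K)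
    (hs : ∀ ψ b, φ ψ (s ψ b) = b)
    (h0 : ∀ ψ i, (φ ψ (X i)).eval 0 = 0)
    (e : Ψ → MvPolynomial (Fin n) K)
    (he : ∀ ψ ψ', ψ' ≠ ψ → φ ψ' (e ψ) = 0) (he' : ∀ ψ, φ ψ (e ψ) ≠ 0)
    (f : MvPolynomial (Fin n) K) (hf : ∀ ψ, φ ψ f = 0) (hd : ∀ ψ i, φ ψ (pderiv i f) = 0)
    (κ : MvPolynomial (Fin n) K →ₗ[K] K) (hκ : ∀ i, ∀ g ∈ I0 φ, κ (X i * g) = 0)
    (hκf : κ f ≠ 0) :
    ∃ I : Ideal (Localization.AtPrime (orig K (Fin n))), I.IsRadical ∧ I ≠ ⊤ ∧
      ∃ r : Localization.AtPrime (orig K (Fin n)),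
        (∀ P ∈ I.minimalPrimes, ∃ s : Localization.AtPrime (orig K (Fin n)),
          s ∉ P ∧ s * r ∈ I ^ 2) ∧
        r ∉ IsLocalRing.maximalIdeal (Localization.AtPrime (orig K (Fin n))) * I := by
  classical
  set P := orig K (Fin n) with hP
  set R := Localization.AtPrime P with hR
  let M := P.primeCompl
  have hle : ∀ ψ, RingHom.ker (φ ψ) ≤ P := fun ψ => ker_le_orig (φ ψ) (h0 ψ)
  have hdis : ∀ ψ, Disjoint (M : Set (MvPolynomial (Fin n) K)) (RingHom.ker (φ ψ)) := by
    intro ψ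
    rw [Set.disjoint_left]
    intro g hg hg'
    exact hg (hle ψ hg')
  refine ⟨(I0 φ).map (algebraMap _ R), ?_, ?_, algebraMap _ R f, ?_, ?_⟩
  · intro x hx
    have h1 := IsLocalization.map_radical M R (I0 φ)
    rw [(I0_isRadical φ).radical] at h1
    rw [h1]
    exact hx
  · intro htop
    have h1 : (I0 φ).map (algebraMap _ R) ≤ IsLocalRing.maximalIdeal R := by
      rw [← Localization.AtPrime.map_eq_maximalIdeal]
      apply Ideal.map_mono
      obtain ⟨ψ⟩ := (inferInstance : Nonempty Ψ)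
      exact (iInf_le _ ψ).trans (hle ψ)
    rw [htop] at h1
    exact (IsLocalRing.maximalIdeal.isMaximal R).ne_top (top_le_iff.mp h1)
  · intro Q hQ
    obtain ⟨⟨hQp, hQI⟩, hQmin⟩ := hQ
    have hcp : (Q.comap (algebraMap (MvPolynomial (Fin n) K) R)).IsPrime := Ideal.comap_isPrime _ _
    have h1 : (Finset.univ.inf fun ψ => RingHom.ker (φ ψ)) ≤
        Q.comap (algebraMap (MvPolynomial (Fin n) K) R) := by
      rw [← Ideal.map_le_iff_le_comap]
      refine le_trans (Ideal.map_mono ?_) hQI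
      rw [I0, ← Finset.inf_univ_eq_iInf]
    obtain ⟨ψ, _, hψ⟩ := (Ideal.IsPrime.inf_le' hcp).mp h1
    rw [← Ideal.map_le_iff_le_comap] at hψ
    have hpr : ((RingHom.ker (φ ψ)).map (algebraMap (MvPolynomial (Fin n) K) R)).IsPrime :=
      IsLocalization.isPrime_of_isPrime_disjoint M R _ (RingHom.ker_isPrime _) (hdis ψ)
    have h2 := hQmin ⟨hpr, Ideal.map_mono (iInf_le _ ψ)⟩ hψ
    have hQe : algebraMap _ R (e ψ ^ 2) ∉ Q := by
      intro h3
      have h4 := h2 h3
      rw [IsLocalization.algebraMap_mem_map_algebraMap_iff M] at h4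
      obtain ⟨m, hm, hm2⟩ := h4
      rw [RingHom.mem_ker, map_mul, map_pow] at hm2
      rcases mul_eq_zero.mp hm2 with h5 | h5
      · exact hm (hle ψ (RingHom.mem_ker.mpr h5))
      · exact he' ψ (pow_eq_zero_iff (two_ne_zero) |>.mp h5)
    refine ⟨algebraMap _ R (e ψ ^ 2), hQe, ?_⟩
    rw [← map_mul, ← Ideal.map_pow]
    apply Ideal.mem_map_of_mem
    have h3 : f ∈ (RingHom.ker (φ ψ)) ^ 2 := mem_ker_sq (φ ψ) (s ψ) (hs ψ) f (hf ψ) (hd ψ)
    have h4 : ∀ g ∈ RingHom.ker (φ ψ), e ψ * g ∈ I0 φ := by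
      intro g hg
      rw [mem_I0]
      intro ψ'
      rw [map_mul]
      by_cases h : ψ' = ψ
      · subst h
        rw [RingHom.mem_ker.mp hg, mul_zero]
      · rw [he ψ ψ' h, zero_mul]
    rw [sq] at h3
    refine Submodule.mul_induction_on h3 ?_ ?_
    · intro a ha b hb
      have : e ψ ^ 2 * (a * b) = (e ψ * a) * (e ψ * b) := by ring
      rw [this, sq]
      exact Ideal.mul_mem_mul (h4 a ha) (h4 b hb)
    · intro a b ha hb
      rw [mul_add]
      exact Ideal.add_mem _ ha hb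
  · intro h
    rw [← Localization.AtPrime.map_eq_maximalIdeal, ← Ideal.map_mul,
      IsLocalization.algebraMap_mem_map_algebraMap_iff M] at h
    obtain ⟨m, hm, hm2⟩ := h
    have h1 : κ (m * f) = constantCoeff m * κ f :=
      functional_mul φ κ hκ m f (mem_I0.mpr hf)
    have h2 : κ (m * f) = 0 := by
      refine Submodule.mul_induction_on hm2 ?_ ?_
      · intro a ha b hb
        rw [functional_mul φ κ hκ a b hb]
        have : constantCoeff a = 0 := ha
        rw [this, zero_mul]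
      · intro a b ha hb
        rw [map_add, ha, hb, add_zero]
    rw [h1] at h2
    rcases mul_eq_zero.mp h2 with h3 | h3
    · exact hm h3
    · exact hκf h3

end Pool.Agent.W450.EM
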