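import Mathlib
import Pool.Agent.W450.EMComb
import Pool.Agent.W450.EMLoc

/-! The curves, the polynomial and the functional. -/

namespace Pool.Agent.W450.EM

open MvPolynomial

/-- index set of the variables -/
abbrev V := Fin 30

/-- class and index of a variable -/
noncomputable def ev : V ≃ Bool × Fin 15 := Fintype.equivOfCardEq (by simp)

/-- weight -/
noncomputable def W (i : V) : ZMod 601 := wt (ev i)

/-- weight of an exponent vector -/
noncomputable def sw : (V →₀ ℕ) →+ ZMod 601 :=
  Finsupp.liftAddHom (fun i => multiplesHom (ZMod 601) (W i))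

/-- degree in the `x` variables -/
noncomputable def da : (V →₀ ℕ) →+ ℕ :=
  Finsupp.liftAddHom (fun i => multiplesHom ℕ (if (ev i).1 then 0 else 1))

/-- degree in the `y` variables -/
noncomputable def db : (V →₀ ℕ) →+ ℕ :=
  Finsupp.liftAddHom (fun i => multiplesHom ℕ (if (ev i).1 then 1 else 0))

theorem sw_single (i : V) (n : ℕ) : sw (Finsupp.single i n) = n • W i := by simp [sw]
theorem da_single (i : V) (n : ℕ) :
    da (Finsupp.single i n) = n * (if (ev i).1 then 0 else 1) := by simp [da]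
theorem db_single (i : V) (n : ℕ) :
    db (Finsupp.single i n) = n * (if (ev i).1 then 1 else 0) := by simp [db]

/-- `x` variable -/
noncomputable def vx (j : Fin 15) : V := ev.symm (false, j)
/-- `y` variable -/
noncomputable def vy (j : Fin 15) : V := ev.symm (true, j)

theorem W_vx (j : Fin 15) : W (vx j) = wt (false, j) := by simp [W, vx]
theorem W_vy (j : Fin 15) : W (vy j) = wt (true, j) := by simp [W, vy]

theorem exA {α : V →₀ ℕ} {n : ℕ} (h : da α = n + 1) :
    ∃ j β, α = Finsupp.single (vx j) 1 + β ∧ da β = n ∧ db β = db α := by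
  have h1 : ∃ i, α i ≠ 0 ∧ (ev i).1 = false := by
    by_contra hc
    push Not at hc
    have h2 : da α = 0 := by
      rw [da, Finsupp.liftAddHom_apply, Finsupp.sum]
      apply Finset.sum_eq_zero
      intro i hi
      have h3 := hc i (Finsupp.mem_support_iff.mp hi)
      have h4 : (ev i).1 = true := by simpa using h3
      simp [h4]
    omega
  obtain ⟨i, hi, hc⟩ := h1
  have h2 : i = vx (ev i).2 := by
    rw [vx, ← hc]
    simp
  have h3 : Finsupp.single i 1 + (α - Finsupp.single i 1) = α :=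
    add_tsub_cancel_of_le (Finsupp.single_le_iff.mpr (Nat.one_le_iff_ne_zero.mpr hi))
  refine ⟨(ev i).2, α - Finsupp.single i 1, ?_, ?_, ?_⟩
  · rw [← h2, h3]
  · have h4 := congrArg da h3
    rw [map_add, da_single, hc, h] at h4
    simp at h4
    omega
  · have h4 := congrArg db h3
    rw [map_add, db_single, hc] at h4
    simpa using h4

theorem exB {α : V →₀ ℕ} {n : ℕ} (h : db α = n + 1) :
    ∃ j β, α = Finsupp.single (vy j) 1 + β ∧ db β = n ∧ da β = da α := by
  have h1 : ∃ i, α i ≠ 0 ∧ (ev i).1 = true := by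
    by_contra hc
    push Not at hc
    have h2 : db α = 0 := by
      rw [db, Finsupp.liftAddHom_apply, Finsupp.sum]
      apply Finset.sum_eq_zero
      intro i hi
      have h3 := hc i (Finsupp.mem_support_iff.mp hi)
      have h4 : (ev i).1 = false := by simpa using h3
      simp [h4]
    omega
  obtain ⟨i, hi, hc⟩ := h1
  have h2 : i = vy (ev i).2 := by
    rw [vy, ← hc]
    simp
  have h3 : Finsupp.single i 1 + (α - Finsupp.single i 1) = α :=
    add_tsub_cancel_of_le (Finsupp.single_le_iff.mpr (Nat.one_le_iff_ne_zero.mpr hi))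
  refine ⟨(ev i).2, α - Finsupp.single i 1, ?_, ?_, ?_⟩
  · rw [← h2, h3]
  · have h4 := congrArg db h3
    rw [map_add, db_single, hc, h] at h4
    simp at h4
    omega
  · have h4 := congrArg da h3
    rw [map_add, da_single, hc] at h4
    simpa using h4

theorem ex0 {α : V →₀ ℕ} (ha : da α = 0) (hb : db α = 0) : α = 0 := by
  by_contra h
  obtain ⟨i, hi⟩ := Finsupp.ne_iff.mp h
  have hi' : α i ≠ 0 := hi
  have h3 : Finsupp.single i 1 + (α - Finsupp.single i 1) = α :=
    add_tsub_cancel_of_le (Finsupp.single_le_iff.mpr (Nat.one_le_iff_ne_zero.mpr hi'))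
  have h4 := congrArg da h3
  have h5 := congrArg db h3
  rw [map_add, da_single, ha] at h4
  rw [map_add, db_single, hb] at h5
  by_cases hc : (ev i).1 = true
  · simp [hc] at h5
  · simp [hc] at h4

/-- excluded types -/
theorem excluded (i : V) (hi : (ev i).1 = false) {α : V →₀ ℕ}
    (h : (da α = 2 ∧ db α = 1) ∨ (da α = 1 ∧ db α = 2) ∨ (da α = 0 ∧ db α = 3) ∨
      (da α = 1 ∧ db α = 1)) : W i + sw α ≠ 0 := by
  have hi2 : W i = wt (false, (ev i).2) := by
    rw [W, ← hi]
  rcases h with ⟨h1, h2⟩ | ⟨h1, h2⟩ | ⟨h1, h2⟩ | ⟨h1, h2⟩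
  · obtain ⟨j, β, rfl, h3, h4⟩ := exA h1
    obtain ⟨k, γ, rfl, h5, h6⟩ := exA h3
    rw [h2] at h4
    rw [h4] at h6
    obtain ⟨l, δ, rfl, h7, h8⟩ := exB h6
    rw [h5] at h8
    rw [ex0 h8 h7]
    simp only [map_add, sw_single, one_smul, map_zero, add_zero, W_vx, W_vy, hi2]
    have := no31 (ev i).2 j k l
    intro h9
    apply this
    rw [← h9]
    ring
  · obtain ⟨j, β, rfl, h3, h4⟩ := exA h1
    rw [h2] at h4
    obtain ⟨k, γ, rfl, h5, h6⟩ := exB h4
    rw [h3] at h6
    obtain ⟨l, δ, rfl, h7, h8⟩ := exB h5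
    rw [h6] at h8
    rw [ex0 h8 h7]
    simp only [map_add, sw_single, one_smul, map_zero, add_zero, W_vx, W_vy, hi2]
    have := no22 (ev i).2 j k l
    intro h9
    apply this
    rw [← h9]
    ring
  · obtain ⟨j, β, rfl, h3, h4⟩ := exB h2
    rw [h1] at h4
    obtain ⟨k, γ, rfl, h5, h6⟩ := exB h3
    rw [h4] at h6
    obtain ⟨l, δ, rfl, h7, h8⟩ := exB h5
    rw [h6] at h8
    rw [ex0 h8 h7]
    simp only [map_add, sw_single, one_smul, map_zero, add_zero, W_vx, W_vy, hi2]
    have := no13 (ev i).2 j k l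
    intro h9
    apply this
    rw [← h9]
    ring
  · obtain ⟨j, β, rfl, h3, h4⟩ := exA h1
    rw [h2] at h4
    obtain ⟨k, γ, rfl, h5, h6⟩ := exB h4
    rw [h3] at h6
    rw [ex0 h6 h5]
    simp only [map_add, sw_single, one_smul, map_zero, add_zero, W_vx, W_vy, hi2]
    have := no21 (ev i).2 j k
    intro h9
    apply this
    rw [← h9]
    ring

/-- the two parametrising polynomials -/
noncomputable def rho (c : Bool) : Polynomial ℂ :=
  if c then Polynomial.X else Polynomial.X + Polynomial.X ^ 2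

/-- the curve attached to a character -/
noncomputable def phi (ψ : AddChar (ZMod 601) ℂ) : MvPolynomial V ℂ →ₐ[ℂ] Polynomial ℂ :=
  aeval (fun i => Polynomial.C (ψ (W i)) * rho (ev i).1)

theorem phi_X (ψ : AddChar (ZMod 601) ℂ) (i : V) :
    phi ψ (X i) = Polynomial.C (ψ (W i)) * rho (ev i).1 := by
  rw [phi, aeval_X]

theorem phi_monomial (ψ : AddChar (ZMod 601) ℂ) (α : V →₀ ℕ) :
    phi ψ (monomial α 1) = Polynomial.C (ψ (sw α)) *
      ((Polynomial.X + Polynomial.X ^ 2) ^ da α * Polynomial.X ^ db α) := by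
  induction α using Finsupp.induction_linear with
  | zero => simp
  | add f g hf hg =>
    have : (monomial (f + g) 1 : MvPolynomial V ℂ) = monomial f 1 * monomial g 1 := by
      rw [monomial_mul, mul_one]
    rw [this, map_mul, hf, hg, map_add sw, map_add da, map_add db, AddChar.map_add_eq_mul,
      pow_add, pow_add, Polynomial.C_mul]
    ring
  | single i n =>
    rw [← X_pow_eq_monomial, map_pow, phi_X, sw_single, da_single, db_single,
      AddChar.map_nsmul_eq_pow, mul_pow, Polynomial.C_pow]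
    congr 1
    by_cases hc : (ev i).1 = true
    · simp [hc, rho]
    · simp [hc, rho]

/-- sections -/
noncomputable def sec (ψ : AddChar (ZMod 601) ℂ) : Polynomial ℂ →ₐ[ℂ] MvPolynomial V ℂ :=
  Polynomial.aeval (C (ψ (-W (vy 0))) * X (vy 0))

theorem phi_vy (ψ : AddChar (ZMod 601) ℂ) (j : Fin 15) :
    phi ψ (X (vy j)) = Polynomial.C (ψ (W (vy j))) * Polynomial.X := by
  rw [phi_X, vy]
  simp [rho]

theorem phi_sec (ψ : AddChar (ZMod 601) ℂ) (b : Polynomial ℂ) : phi ψ (sec ψ b) = b := by
  have : (phi ψ).comp (sec ψ) = AlgHom.id ℂ _ := by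
    apply Polynomial.algHom_ext
    rw [AlgHom.comp_apply, sec, Polynomial.aeval_X, map_mul, phi_vy, ← algebraMap_eq,
      AlgHom.commutes, Polynomial.algebraMap_eq, ← mul_assoc, ← Polynomial.C_mul,
      ← AddChar.map_add_eq_mul, neg_add_cancel, AddChar.map_zero_eq_one, map_one, one_mul]
    rfl
  exact congrArg (fun l => l b) this

theorem phi_eval (ψ : AddChar (ZMod 601) ℂ) (i : V) : (phi ψ (X i)).eval 0 = 0 := by
  rw [phi_X, rho]
  split_ifs <;> simp

theorem delta_ne : W (vy 1) - W (vy 0) ≠ 0 := by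
  rw [W_vy, W_vy]
  decide

theorem char_inj {ψ ψ' : AddChar (ZMod 601) ℂ}
    (h : ψ (W (vy 1) - W (vy 0)) = ψ' (W (vy 1) - W (vy 0))) : ψ = ψ' := by
  ext a
  set δ := W (vy 1) - W (vy 0) with hδ
  have h1 : a = (a * δ⁻¹).val • δ := by
    rw [nsmul_eq_mul, ZMod.natCast_zmod_val, mul_assoc, inv_mul_cancel₀ delta_ne, mul_one]
  rw [h1, AddChar.map_nsmul_eq_pow, AddChar.map_nsmul_eq_pow, h]

open Classical in
/-- separating elements -/
noncomputable def eps (ψ : AddChar (ZMod 601) ℂ) : MvPolynomial V ℂ :=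
  ∏ ψ' ∈ Finset.univ.erase ψ, (X (vy 1) - C (ψ' (W (vy 1) - W (vy 0))) * X (vy 0))

theorem phi_factor (ψ ψ' : AddChar (ZMod 601) ℂ) :
    phi ψ (X (vy 1) - C (ψ' (W (vy 1) - W (vy 0))) * X (vy 0)) =
      Polynomial.C ((ψ (W (vy 1) - W (vy 0)) - ψ' (W (vy 1) - W (vy 0))) * ψ (W (vy 0))) *
        Polynomial.X := by
  have h1 : ψ (W (vy 1)) = ψ (W (vy 1) - W (vy 0)) * ψ (W (vy 0)) := by
    rw [← AddChar.map_add_eq_mul, sub_add_cancel]
  rw [map_sub, map_mul, phi_vy, phi_vy, ← algebraMap_eq, AlgHom.commutes,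
    Polynomial.algebraMap_eq, h1]
  simp only [Polynomial.C_mul, Polynomial.C_sub]
  ring

theorem phi_eps_ne (ψ : AddChar (ZMod 601) ℂ) : phi ψ (eps ψ) ≠ 0 := by
  classical
  rw [eps, map_prod, Finset.prod_ne_zero_iff]
  intro ψ' h'
  rw [phi_factor]
  have h1 : ψ' ≠ ψ := Finset.ne_of_mem_erase h'
  apply mul_ne_zero
  · rw [Ne, Polynomial.C_eq_zero]
    apply mul_ne_zero
    · intro h2
      exact h1 (char_inj (sub_eq_zero.mp h2)).symm
    · exact (ψ.val_isUnit _).ne_zero
  · exact Polynomial.X_ne_zero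

theorem phi_eps_zero (ψ ψ' : AddChar (ZMod 601) ℂ) (h : ψ' ≠ ψ) : phi ψ' (eps ψ) = 0 := by
  classical
  rw [eps, map_prod]
  apply Finset.prod_eq_zero (Finset.mem_erase.mpr ⟨h, Finset.mem_univ ψ'⟩)
  rw [phi_factor, sub_self, zero_mul, map_zero, zero_mul]

open Classical in
/-- values of the functional -/
noncomputable def kapv (α : V →₀ ℕ) : ℂ :=
  if sw α = 0 then (if da α = 4 ∧ db α = 0 then 1 else if da α = 3 ∧ db α = 0 then 2 else 0)
  else 0

/-- the functional -/
noncomputable def kap : MvPolynomial V ℂ →ₗ[ℂ] ℂ := (basisMonomials V ℂ).constr ℂ kapv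

theorem kap_monomial (α : V →₀ ℕ) : kap (monomial α 1) = kapv α := by
  have := (basisMonomials V ℂ).constr_basis ℂ kapv α
  rwa [coe_basisMonomials] at this

open Classical in
/-- auxiliary functional -/
noncomputable def auxv (i : V) (α : V →₀ ℕ) : ℂ :=
  if W i + sw α = 0 then
    ((Polynomial.X + Polynomial.X ^ 2 : Polynomial ℂ) ^ da α * Polynomial.X ^ db α).coeff 3
  else 0

/-- auxiliary functional -/
noncomputable def aux (i : V) : MvPolynomial V ℂ →ₗ[ℂ] ℂ :=
  (basisMonomials V ℂ).constr ℂ (auxv i)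

theorem aux_monomial (i : V) (α : V →₀ ℕ) : aux i (monomial α 1) = auxv i α := by
  have := (basisMonomials V ℂ).constr_basis ℂ (auxv i) α
  rwa [coe_basisMonomials] at this

theorem aux_eq (i : V) (g : MvPolynomial V ℂ) :
    (601 : ℂ) * aux i g = ∑ ψ : AddChar (ZMod 601) ℂ, ψ (W i) * (phi ψ g).coeff 3 := by
  classical
  let l1 : MvPolynomial V ℂ →ₗ[ℂ] ℂ := (601 : ℂ) • aux i
  let l2 : MvPolynomial V ℂ →ₗ[ℂ] ℂ := ∑ ψ : AddChar (ZMod 601) ℂ,
    (ψ (W i)) • ((Polynomial.lcoeff ℂ 3).comp (phi ψ).toLinearMap)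
  have h : l1 = l2 := by
    apply (basisMonomials V ℂ).ext
    intro α
    rw [coe_basisMonomials]
    simp only [l1, l2, LinearMap.smul_apply, LinearMap.sum_apply, LinearMap.comp_apply,
      AlgHom.toLinearMap_apply, Polynomial.lcoeff_apply, smul_eq_mul]
    rw [aux_monomial, auxv]
    have h1 : ∀ ψ : AddChar (ZMod 601) ℂ, ψ (W i) * (phi ψ (monomial α 1)).coeff 3 =
        ψ (W i + sw α) * ((Polynomial.X + Polynomial.X ^ 2 : Polynomial ℂ) ^ da α *
          Polynomial.X ^ db α).coeff 3 := by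
      intro ψ
      rw [phi_monomial, Polynomial.coeff_C_mul, AddChar.map_add_eq_mul]
      ring
    rw [Finset.sum_congr rfl fun ψ _ => h1 ψ, ← Finset.sum_mul, AddChar.sum_apply_eq_ite]
    split_ifs with h2
    · rw [ZMod.card]; norm_num
    · simp
  have h2 := congrArg (fun l => l g) h
  simpa [l1, l2] using h2

theorem aux_zero (i : V) (g : MvPolynomial V ℂ) (hg : g ∈ I0 phi) : aux i g = 0 := by
  have h := aux_eq i g
  rw [mem_I0] at hg
  have h1 : ∑ ψ : AddChar (ZMod 601) ℂ, ψ (W i) * (phi ψ g).coeff 3 = 0 := by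
    apply Finset.sum_eq_zero
    intro ψ _
    rw [hg ψ, Polynomial.coeff_zero, mul_zero]
  rw [h1] at h
  exact (mul_eq_zero.mp h).resolve_left (by norm_num)

theorem coeff3 (a b : ℕ) :
    ((Polynomial.X + Polynomial.X ^ 2 : Polynomial ℂ) ^ a * Polynomial.X ^ b).coeff 3 =
      if a + b ≤ 3 then (a.choose (3 - (a + b)) : ℂ) else 0 := by
  have h : (Polynomial.X + Polynomial.X ^ 2 : Polynomial ℂ) ^ a * Polynomial.X ^ b =
      (1 + Polynomial.X) ^ a * Polynomial.X ^ (a + b) := by
    have : (Polynomial.X + Polynomial.X ^ 2 : Polynomial ℂ) =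
        (1 + Polynomial.X) * Polynomial.X := by ring
    rw [this, mul_pow, pow_add]
    ring
  rw [h, Polynomial.coeff_mul_X_pow']
  split_ifs with h1
  · rw [Polynomial.coeff_one_add_X_pow]
  · rfl

theorem kap_X_mul (i : V) (g : MvPolynomial V ℂ) (hg : g ∈ I0 phi) : kap (X i * g) = 0 := by
  classical
  by_cases hi : (ev i).1 = true
  · have : kap.comp (LinearMap.mulLeft ℂ (X i)) = 0 := by
      apply (basisMonomials V ℂ).ext
      intro α
      rw [coe_basisMonomials, LinearMap.comp_apply, LinearMap.mulLeft_apply, X, monomial_mul,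
        mul_one, kap_monomial, kapv, LinearMap.zero_apply]
      have h1 : db (Finsupp.single i 1 + α) = 1 + db α := by
        rw [map_add, db_single, hi]; rfl
      rw [h1]
      have h2 : ¬ (1 + db α = 0) := by omega
      simp [h2]
    exact congrArg (fun l => l g) this
  · have hi' : (ev i).1 = false := by simpa using hi
    have : kap.comp (LinearMap.mulLeft ℂ (X i)) = aux i := by
      apply (basisMonomials V ℂ).ext
      intro α
      rw [coe_basisMonomials, LinearMap.comp_apply, LinearMap.mulLeft_apply, X, monomial_mul,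
        mul_one, kap_monomial, kapv, aux_monomial, auxv, coeff3]
      have h1 : db (Finsupp.single i 1 + α) = db α := by
        rw [map_add, db_single, hi']; simp
      have h2 : da (Finsupp.single i 1 + α) = 1 + da α := by
        rw [map_add, da_single, hi']; simp
      have h3 : sw (Finsupp.single i 1 + α) = W i + sw α := by
        rw [map_add, sw_single, one_smul]
      rw [h1, h2, h3]
      by_cases h0 : W i + sw α = 0
      · rw [if_pos h0, if_pos h0]
        have hex : ¬ ((da α = 2 ∧ db α = 1) ∨ (da α = 1 ∧ db α = 2) ∨ (da α = 0 ∧ db α = 3) ∨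
            (da α = 1 ∧ db α = 1)) := fun h => excluded i hi' h h0
        generalize da α = a at *
        generalize db α = b at *
        by_cases hab : a + b ≤ 3
        · rw [if_pos hab]
          have ha : a ≤ 3 := by omega
          have hb : b ≤ 3 := by omega
          interval_cases a <;> interval_cases b <;> simp_all <;> norm_num [Nat.choose]
        · rw [if_neg hab, if_neg (by omega), if_neg (by omega)]
      · rw [if_neg h0, if_neg h0]
    have h2 := congrArg (fun l => l g) this
    simp only [LinearMap.comp_apply, LinearMap.mulLeft_apply] at h2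
    rw [h2]
    exact aux_zero i g hg

end Pool.Agent.W450.EM
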