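import Mathlib
import Pool.Agent.W450.EMData

/-! The polynomial. -/

namespace Pool.Agent.W450.EM

open MvPolynomial

/-- exponent vector of the rotated monomial -/
noncomputable def mexp (L : List (Bool × Fin 15)) (k : Fin 15) : V →₀ ℕ :=
  (L.map fun v => Finsupp.single (ev.symm (rot k v)) 1).sum

/-- number of entries of a class -/
def cnt (c : Bool) (L : List (Bool × Fin 15)) : ℕ := (L.map fun v => if v.1 = c then 1 else 0).sum

theorem sw_mexp (L : List (Bool × Fin 15)) (k : Fin 15) :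
    sw (mexp L k) = 18 ^ k.val * (L.map wt).sum := by
  rw [mexp, map_list_sum, List.map_map, ← List.sum_map_mul_left]
  congr 1
  apply List.map_congr_left
  intro v _
  simp only [Function.comp_apply]
  rw [sw_single, one_smul, W, Equiv.apply_symm_apply, wt_rot]

theorem da_mexp (L : List (Bool × Fin 15)) (k : Fin 15) : da (mexp L k) = cnt false L := by
  rw [mexp, map_list_sum, List.map_map, cnt]
  congr 1
  apply List.map_congr_left
  rintro ⟨c, j⟩ _
  simp only [Function.comp_apply]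
  rw [da_single, Equiv.apply_symm_apply, rot]
  cases c <;> simp

theorem db_mexp (L : List (Bool × Fin 15)) (k : Fin 15) : db (mexp L k) = cnt true L := by
  rw [mexp, map_list_sum, List.map_map, cnt]
  congr 1
  apply List.map_congr_left
  rintro ⟨c, j⟩ _
  simp only [Function.comp_apply]
  rw [db_single, Equiv.apply_symm_apply, rot]
  cases c <;> simp

theorem sum_single_rot (i : V) (v : Bool × Fin 15) :
    ∑ k : Fin 15, (Finsupp.single (ev.symm (rot k v)) 1 : V →₀ ℕ) i =
      if v.1 = (ev i).1 then 1 else 0 := by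
  classical
  obtain ⟨⟨c, j⟩, rfl⟩ := ev.symm.surjective i
  obtain ⟨c', j'⟩ := v
  simp only [rot, Finsupp.single_apply, EmbeddingLike.apply_eq_iff_eq, Prod.mk.injEq,
    Equiv.apply_symm_apply]
  by_cases h : c' = c
  · subst h
    simp only [true_and, if_true]
    rw [Finset.sum_eq_single (j - j')]
    · simp
    · intro k _ hk
      rw [if_neg]
      intro h1
      apply hk
      rw [← h1]
      simp
    · simp
  · simp [h]

theorem sum_mexp (L : List (Bool × Fin 15)) (i : V) :
    ∑ k : Fin 15, mexp L k i = cnt (ev i).1 L := by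
  induction L with
  | nil => simp [mexp, cnt]
  | cons v L ih =>
    have h1 : ∀ k, mexp (v :: L) k i =
        (Finsupp.single (ev.symm (rot k v)) 1 : V →₀ ℕ) i + mexp L k i := by
      intro k
      simp [mexp]
    rw [Finset.sum_congr rfl fun k _ => h1 k, Finset.sum_add_distrib, ih, sum_single_rot]
    simp [cnt]

/-- invariant polynomial of a list -/
noncomputable def inv (L : List (Bool × Fin 15)) : MvPolynomial V ℂ :=
  ∑ k : Fin 15, monomial (mexp L k) 1

theorem phi_inv (ψ : AddChar (ZMod 601) ℂ) (L : List (Bool × Fin 15)) (h : (L.map wt).sum = 0) :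
    phi ψ (inv L) = 15 * ((Polynomial.X + Polynomial.X ^ 2) ^ cnt false L *
      Polynomial.X ^ cnt true L) := by
  rw [inv, map_sum]
  have h1 : ∀ k : Fin 15, phi ψ (monomial (mexp L k) 1) =
      (Polynomial.X + Polynomial.X ^ 2) ^ cnt false L * Polynomial.X ^ cnt true L := by
    intro k
    rw [phi_monomial, sw_mexp, h, mul_zero, AddChar.map_zero_eq_one, map_one, one_mul, da_mexp,
      db_mexp]
  rw [Finset.sum_congr rfl fun k _ => h1 k, Finset.sum_const, Finset.card_univ, Fintype.card_fin,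
    nsmul_eq_mul]
  rfl

theorem X_pderiv_inv (ψ : AddChar (ZMod 601) ℂ) (L : List (Bool × Fin 15)) (i : V)
    (h : (L.map wt).sum = 0) :
    phi ψ (X i * pderiv i (inv L)) = ((cnt (ev i).1 L : ℕ) : Polynomial ℂ) *
      ((Polynomial.X + Polynomial.X ^ 2) ^ cnt false L * Polynomial.X ^ cnt true L) := by
  rw [inv, map_sum, Finset.mul_sum, map_sum]
  have h1 : ∀ k : Fin 15, phi ψ (X i * pderiv i (monomial (mexp L k) 1)) =
      ((mexp L k i : ℕ) : Polynomial ℂ) * ((Polynomial.X + Polynomial.X ^ 2) ^ cnt false L *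
        Polynomial.X ^ cnt true L) := by
    intro k
    rw [X_mul_pderiv_monomial, map_nsmul, phi_monomial, sw_mexp, h, mul_zero,
      AddChar.map_zero_eq_one, map_one, one_mul, da_mexp, db_mexp, nsmul_eq_mul]
  rw [Finset.sum_congr rfl fun k _ => h1 k, ← Finset.sum_mul, ← Nat.cast_sum, sum_mexp]

theorem kap_inv (L : List (Bool × Fin 15)) (h : (L.map wt).sum = 0) :
    kap (inv L) = 15 * (if cnt false L = 4 ∧ cnt true L = 0 then 1 else
      if cnt false L = 3 ∧ cnt true L = 0 then 2 else 0) := by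
  rw [inv, map_sum]
  have h1 : ∀ k : Fin 15, kap (monomial (mexp L k) 1) =
      (if cnt false L = 4 ∧ cnt true L = 0 then 1 else
      if cnt false L = 3 ∧ cnt true L = 0 then 2 else 0) := by
    intro k
    rw [kap_monomial, kapv, sw_mexp, h, mul_zero, if_pos rfl, da_mexp, db_mexp]
  rw [Finset.sum_congr rfl fun k _ => h1 k, Finset.sum_const, Finset.card_univ, Fintype.card_fin,
    nsmul_eq_mul]
  rfl

/-- the eleven weight zero monomials -/
def mons : List (List (Bool × Fin 15)) :=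
  [[(false, 0), (false, 5), (false, 10)],
   [(false, 0), (true, 0), (true, 4)],
   [(true, 0), (true, 5), (true, 10)],
   [(false, 0), (false, 0), (false, 6), (false, 14)],
   [(true, 0), (true, 0), (true, 6), (true, 14)],
   [(false, 0), (false, 0), (false, 0), (true, 9), (true, 10)],
   [(false, 0), (false, 2), (true, 0), (true, 12), (true, 13)],
   [(true, 0), (true, 0), (true, 2), (true, 9), (true, 13)],
   [(false, 0), (false, 0), (true, 0), (true, 0), (true, 4), (true, 4)],
   [(false, 0), (true, 0), (true, 0), (true, 4), (true, 5), (true, 10)],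
   [(true, 0), (true, 0), (true, 0), (true, 3), (true, 5), (true, 11)]]

theorem mons_wt : ∀ L ∈ mons, (L.map wt).sum = 0 := by decide +kernel

/-- coefficients -/
def coe : Fin 11 → ℤ := ![2, -6, 4, -3, 3, 6, 6, -6, -3, -6, -5]

/-- the lists -/
def mon (t : Fin 11) : List (Bool × Fin 15) := mons.get (t.cast rfl)

/-- the polynomial -/
noncomputable def F : MvPolynomial V ℂ :=
  ∑ t : Fin 11, ((coe t : ℤ) : MvPolynomial V ℂ) * inv (mon t)

theorem mon_wt (t : Fin 11) : ((mon t).map wt).sum = 0 :=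
  mons_wt _ (List.get_mem _ _)

/-- numbers of `x` in the monomials -/
theorem cntx (t : Fin 11) : cnt false (mon t) = (![3,1,0,4,0,3,2,0,2,1,0] : Fin 11 → ℕ) t := by
  revert t; decide +kernel

/-- numbers of `y` in the monomials -/
theorem cnty (t : Fin 11) : cnt true (mon t) = (![0,2,3,0,4,2,3,5,4,5,6] : Fin 11 → ℕ) t := by
  revert t; decide +kernel

theorem phi_F (ψ : AddChar (ZMod 601) ℂ) : phi ψ F = 0 := by
  rw [F, map_sum]
  have h1 : ∀ t : Fin 11, phi ψ (((coe t : ℤ) : MvPolynomial V ℂ) * inv (mon t)) =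
      ((coe t : ℤ) : Polynomial ℂ) * (15 * ((Polynomial.X + Polynomial.X ^ 2) ^
        ((![3,1,0,4,0,3,2,0,2,1,0] : Fin 11 → ℕ) t)
        * Polynomial.X ^ ((![0,2,3,0,4,2,3,5,4,5,6] : Fin 11 → ℕ) t))) := by
    intro t
    rw [map_mul, map_intCast, phi_inv ψ _ (mon_wt t), cntx t, cnty t]
  rw [Finset.sum_congr rfl fun t _ => h1 t]
  simp [Fin.sum_univ_succ, coe]
  ring

theorem X_pderiv_F (ψ : AddChar (ZMod 601) ℂ) (i : V) : phi ψ (X i * pderiv i F) = 0 := by
  rw [F, map_sum, Finset.mul_sum, map_sum]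
  by_cases hi : (ev i).1 = true
  · have h1 : ∀ t : Fin 11, phi ψ (X i * pderiv i (((coe t : ℤ) : MvPolynomial V ℂ) * inv (mon t))) =
        ((coe t : ℤ) : Polynomial ℂ) *
          ((((![0,2,3,0,4,2,3,5,4,5,6] : Fin 11 → ℕ) t : ℕ) : Polynomial ℂ) *
          ((Polynomial.X + Polynomial.X ^ 2) ^ ((![3,1,0,4,0,3,2,0,2,1,0] : Fin 11 → ℕ) t)
          * Polynomial.X ^ ((![0,2,3,0,4,2,3,5,4,5,6] : Fin 11 → ℕ) t))) := by
      intro t
      have h2 : X i * pderiv i (((coe t : ℤ) : MvPolynomial V ℂ) * inv (mon t)) =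
          ((coe t : ℤ) : MvPolynomial V ℂ) * (X i * pderiv i (inv (mon t))) := by
        rw [← zsmul_eq_mul, map_zsmul, mul_smul_comm, zsmul_eq_mul]
      rw [h2, map_mul, map_intCast, X_pderiv_inv ψ _ i (mon_wt t), hi, cntx t, cnty t]
    rw [Finset.sum_congr rfl fun t _ => h1 t]
    simp [Fin.sum_univ_succ, coe]
    ring
  · have hi' : (ev i).1 = false := by simpa using hi
    have h1 : ∀ t : Fin 11, phi ψ (X i * pderiv i (((coe t : ℤ) : MvPolynomial V ℂ) * inv (mon t))) =
        ((coe t : ℤ) : Polynomial ℂ) *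
          ((((![3,1,0,4,0,3,2,0,2,1,0] : Fin 11 → ℕ) t : ℕ) : Polynomial ℂ) *
          ((Polynomial.X + Polynomial.X ^ 2) ^ ((![3,1,0,4,0,3,2,0,2,1,0] : Fin 11 → ℕ) t)
          * Polynomial.X ^ ((![0,2,3,0,4,2,3,5,4,5,6] : Fin 11 → ℕ) t))) := by
      intro t
      have h2 : X i * pderiv i (((coe t : ℤ) : MvPolynomial V ℂ) * inv (mon t)) =
          ((coe t : ℤ) : MvPolynomial V ℂ) * (X i * pderiv i (inv (mon t))) := by
        rw [← zsmul_eq_mul, map_zsmul, mul_smul_comm, zsmul_eq_mul]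
      rw [h2, map_mul, map_intCast, X_pderiv_inv ψ _ i (mon_wt t), hi', cntx t, cnty t]
    rw [Finset.sum_congr rfl fun t _ => h1 t]
    simp [Fin.sum_univ_succ, coe]
    ring

theorem phi_X_ne (ψ : AddChar (ZMod 601) ℂ) (i : V) : phi ψ (X i) ≠ 0 := by
  rw [phi_X]
  apply mul_ne_zero
  · rw [Ne, Polynomial.C_eq_zero]
    exact (ψ.val_isUnit _).ne_zero
  · rw [rho]
    split_ifs
    · exact Polynomial.X_ne_zero
    · intro h
      have h1 := congrArg (fun p => Polynomial.coeff p 1) h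
      simp [Polynomial.coeff_X_pow] at h1

theorem phi_pderiv_F (ψ : AddChar (ZMod 601) ℂ) (i : V) : phi ψ (pderiv i F) = 0 := by
  have h := X_pderiv_F ψ i
  rw [map_mul] at h
  exact (mul_eq_zero.mp h).resolve_left (phi_X_ne ψ i)

theorem kap_F : kap F ≠ 0 := by
  rw [F, map_sum]
  have h1 : ∀ t : Fin 11, kap (((coe t : ℤ) : MvPolynomial V ℂ) * inv (mon t)) =
      ((coe t : ℤ) : ℂ) * (15 * (if (![3,1,0,4,0,3,2,0,2,1,0] : Fin 11 → ℕ) t = 4 ∧
        (![0,2,3,0,4,2,3,5,4,5,6] : Fin 11 → ℕ) t = 0 then 1 else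
      if (![3,1,0,4,0,3,2,0,2,1,0] : Fin 11 → ℕ) t = 3 ∧
        (![0,2,3,0,4,2,3,5,4,5,6] : Fin 11 → ℕ) t = 0 then 2 else 0)) := by
    intro t
    rw [← zsmul_eq_mul, map_zsmul, kap_inv _ (mon_wt t), cntx t, cnty t, zsmul_eq_mul]
  rw [Finset.sum_congr rfl fun t _ => h1 t]
  simp [Fin.sum_univ_succ, coe]
  norm_num

end Pool.Agent.W450.EM
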