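import Mathlib

/-! A combinatorial identity over the rank one idempotents of the 3 x 3 matrices
over the field with two elements. -/

namespace Pool.Agent.W450.Der

open Matrix

theorem frame_identity {M : Type*} [AddCommGroup M]
    (ω : (Fin 3 → ZMod 2) → (Fin 3 → ZMod 2) → M) (E : M)
    (h : ∀ U1 F1 U2 F2 U3 F3 : Fin 3 → ZMod 2,
      vecMulVec U1 F1 + vecMulVec U2 F2 + vecMulVec U3 F3 = 1 →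
        ω U1 F1 + ω U2 F2 + ω U3 F3 = E) :
    (6 : ℤ) • ω ![1, 0, 0] ![1, 0, 0] = (2 : ℤ) • E := by
  have h0 := h ![1, 0, 0] ![1, 0, 0] ![0, 1, 0] ![0, 1, 0] ![0, 0, 1] ![0, 0, 1] (by decide)
  have h1 := h ![1, 0, 0] ![1, 0, 0] ![0, 1, 0] ![0, 1, 1] ![0, 1, 1] ![0, 0, 1] (by decide)
  have h2 := h ![1, 0, 0] ![1, 0, 0] ![0, 0, 1] ![0, 1, 1] ![0, 1, 1] ![0, 1, 0] (by decide)
  have h3 := h ![1, 0, 0] ![1, 1, 0] ![1, 1, 0] ![0, 1, 0] ![0, 0, 1] ![0, 0, 1] (by decide)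
  have h4 := h ![1, 0, 0] ![1, 1, 0] ![1, 1, 0] ![0, 1, 1] ![1, 1, 1] ![0, 0, 1] (by decide)
  have h5 := h ![1, 0, 0] ![1, 1, 0] ![0, 0, 1] ![0, 1, 1] ![1, 1, 1] ![0, 1, 0] (by decide)
  have h6 := h ![1, 0, 0] ![1, 0, 1] ![0, 1, 0] ![0, 1, 0] ![1, 0, 1] ![0, 0, 1] (by decide)
  have h7 := h ![1, 0, 0] ![1, 0, 1] ![0, 1, 0] ![0, 1, 1] ![1, 1, 1] ![0, 0, 1] (by decide)
  have h8 := h ![1, 0, 0] ![1, 0, 1] ![1, 0, 1] ![0, 1, 1] ![1, 1, 1] ![0, 1, 0] (by decide)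
  have h9 := h ![1, 0, 0] ![1, 1, 1] ![1, 1, 0] ![0, 1, 0] ![1, 0, 1] ![0, 0, 1] (by decide)
  have h10 := h ![1, 0, 0] ![1, 1, 1] ![1, 1, 0] ![0, 1, 1] ![0, 1, 1] ![0, 0, 1] (by decide)
  have h11 := h ![1, 0, 0] ![1, 1, 1] ![1, 0, 1] ![0, 1, 1] ![0, 1, 1] ![0, 1, 0] (by decide)
  have h12 := h ![0, 1, 0] ![0, 1, 0] ![0, 0, 1] ![1, 0, 1] ![1, 0, 1] ![1, 0, 0] (by decide)
  have h13 := h ![0, 1, 0] ![1, 1, 0] ![1, 1, 0] ![1, 0, 0] ![0, 0, 1] ![0, 0, 1] (by decide)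
  have h14 := h ![0, 1, 0] ![1, 1, 0] ![1, 1, 0] ![1, 0, 1] ![1, 1, 1] ![0, 0, 1] (by decide)
  have h15 := h ![0, 1, 0] ![1, 1, 0] ![0, 0, 1] ![1, 0, 1] ![1, 1, 1] ![1, 0, 0] (by decide)
  have h16 := h ![0, 1, 0] ![0, 1, 1] ![0, 1, 1] ![1, 0, 1] ![1, 1, 1] ![1, 0, 0] (by decide)
  have h17 := h ![0, 1, 0] ![1, 1, 1] ![1, 1, 0] ![1, 0, 0] ![0, 1, 1] ![0, 0, 1] (by decide)
  have h18 := h ![0, 1, 0] ![1, 1, 1] ![1, 1, 0] ![1, 0, 1] ![1, 0, 1] ![0, 0, 1] (by decide)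
  have h19 := h ![0, 1, 0] ![1, 1, 1] ![1, 0, 1] ![1, 0, 0] ![0, 1, 1] ![1, 0, 1] (by decide)
  have h20 := h ![1, 1, 0] ![1, 0, 0] ![0, 0, 1] ![1, 1, 1] ![0, 1, 1] ![1, 1, 0] (by decide)
  have h21 := h ![1, 1, 0] ![0, 1, 0] ![0, 0, 1] ![1, 1, 1] ![1, 0, 1] ![1, 1, 0] (by decide)
  have h22 := h ![1, 1, 0] ![1, 0, 1] ![1, 0, 1] ![1, 1, 0] ![1, 1, 1] ![1, 1, 1] (by decide)
  have h23 := h ![1, 1, 0] ![0, 1, 1] ![0, 1, 1] ![1, 1, 0] ![1, 1, 1] ![1, 1, 1] (by decide)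
  have h24 := h ![0, 0, 1] ![1, 0, 1] ![1, 0, 1] ![1, 1, 0] ![1, 1, 1] ![0, 1, 0] (by decide)
  have h25 := h ![0, 0, 1] ![0, 1, 1] ![0, 1, 1] ![1, 1, 0] ![1, 1, 1] ![1, 0, 0] (by decide)
  have h26 := h ![0, 0, 1] ![1, 1, 1] ![1, 0, 1] ![1, 0, 0] ![0, 1, 1] ![0, 1, 0] (by decide)
  have h27 := h ![1, 0, 1] ![0, 1, 1] ![0, 1, 1] ![1, 0, 1] ![1, 1, 1] ![1, 1, 1] (by decide)
  linear_combination (norm := module) (2 : ℤ) • h0 + (2 : ℤ) • h1 + (2 : ℤ) • h2 + (-1 : ℤ) • h3 + (2 : ℤ) • h4 + (-1 : ℤ) • h5 + (-1 : ℤ) • h6 + (-1 : ℤ) • h7 + (2 : ℤ) • h8 + (2 : ℤ) • h9 + (-1 : ℤ) • h10 + (-1 : ℤ) • h11 + (-1 : ℤ) • h12 + (-1 : ℤ) • h13 + (-1 : ℤ) • h14 + (2 : ℤ) • h15 + (-1 : ℤ) • h16 + (-1 : ℤ) • h17 + (-1 : ℤ) • h18 + (2 : ℤ) • h19 + (2 : ℤ) • h20 + (-1 : ℤ) • h21 + (2 : ℤ) • h22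 + (-1 : ℤ) • h23 + (-1 : ℤ) • h24 + (-1 : ℤ) • h25 + (-1 : ℤ) • h26 + (-1 : ℤ) • h27

end Pool.Agent.W450.Der
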