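import Mathlib
import Pool.Agent.W450.DerComb

/-! Derivations on algebras generated by the monoid of rank one matrices
over the field with two elements. -/

namespace Pool.Agent.W450.Der

open Matrix

section general

variable {k B M ι : Type*} [Field k] [CharZero k] [CommRing B] [Algebra k B]
  [AddCommGroup M] [Module k M] [Module B M] [IsScalarTower k B M]

/-- cancelling a nonzero natural number -/
theorem smul_natCast_cancel (k : Type*) {B M : Type*} [Field k] [CharZero k] [CommRing B]
    [Algebra k B] [AddCommGroup M] [Module k M] [Module B M] [IsScalarTower k B M]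
    {n : ℕ} (hn : n ≠ 0) {m : M} (h : (n : B) • m = 0) : m = 0 := by
  have h1 : ((n : k)) • m = 0 := by
    have h2 : (n : B) = algebraMap k B (n : k) := by simp
    rw [h2, algebraMap_smul] at h
    exact h
  have h3 : (n : k) ≠ 0 := by exact_mod_cast hn
  exact (smul_eq_zero.mp h1).resolve_left h3

theorem smul_natCast_inj (k : Type*) {B M : Type*} [Field k] [CharZero k] [CommRing B]
    [Algebra k B] [AddCommGroup M] [Module k M] [Module B M] [IsScalarTower k B M]
    {n : ℕ} (hn : n ≠ 0) {m m' : M}
    (h : (n : B) • m = (n : B) • m') : m = m' := by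
  have : (n : B) • (m - m') = 0 := by rw [smul_sub, h, sub_self]
  exact sub_eq_zero.mp (smul_natCast_cancel k hn this)

/-- products of `j` generators -/
inductive IsMon (x : ι → B) : ℕ → B → Prop
  | one : IsMon x 0 1
  | mul {j : ℕ} {z : B} (i : ι) : IsMon x j z → IsMon x (j + 1) (z * x i)

theorem IsMon.mul_mul {x : ι → B} {d j : ℕ} {a z : B} (ha : IsMon x d a) (hz : IsMon x j z) :
    IsMon x (d + j) (a * z) := by
  induction hz with
  | one => simpa using ha
  | mul i _ ih =>
    have := IsMon.mul i ih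
    rw [mul_assoc] at this
    exact this

theorem isMon_gen (x : ι → B) (i : ι) : IsMon x 1 (x i) := by
  have := IsMon.mul (x := x) i IsMon.one
  simpa using this

variable {x : ι → B} {D : Derivation k B M}

omit [CharZero k] [IsScalarTower k B M] in
theorem swap_of_mon (h0 : ∀ a b c, x c • x a • D (x b) = x c • x b • D (x a))
    {j : ℕ} {z : B} (hz : IsMon x (j + 1) z) (a b : ι) :
    z • x a • D (x b) = z • x b • D (x a) := by
  cases hz with
  | mul i h =>
    rw [mul_smul, mul_smul, h0]

theorem euler_mon (h0 : ∀ a b c, x c • x a • D (x b) = x c • x b • D (x a))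
    (i : ι) {j : ℕ} {z : B} (hz : IsMon x (j + 2) z) :
    (((j + 2 : ℕ) : B) + 1) • (z • D (x i)) = D (z * x i) := by
  induction j generalizing z i with
  | zero =>
    cases hz with
    | mul b h =>
      cases h with
      | mul a h' =>
        cases h'
        have e1 := h0 b i a
        have e2 := h0 a i b
        simp only [one_mul, Derivation.leibniz, smul_add]
        simp only [smul_smul] at e1 e2 ⊢
        push_cast
        linear_combination (norm := module) e1 + e2
  | succ j ih =>
    cases hz with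
    | mul a h =>
      rename_i z'
      have h2 := swap_of_mon h0 (j := j + 1) h i a
      have h3 := ih a h
      have h4 : D (z' * x a * x i) = (z' * x a) • D (x i) + x i • D (z' * x a) :=
        D.leibniz _ _
      rw [h4, ← h3]
      simp only [smul_smul] at h2 ⊢
      push_cast
      linear_combination (norm := module) (-((j : B) + 2 + 1)) • h2

/-- the Euler relation for a product -/
theorem euler_mul (h0 : ∀ a b c, x c • x a • D (x b) = x c • x b • D (x a))
    {d N : ℕ} {a p : B} (ha : IsMon x d a) (hp : IsMon x (N + 3) p) :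
    ((N + 3 + d : ℕ) : B) • (a • D p) = ((N + 3 : ℕ) : B) • D (a * p) := by
  cases hp with
  | mul i h =>
    rename_i z
    have h1 := euler_mon h0 i (j := N) h
    have h2 : IsMon x (d + N + 2) (a * z) := ha.mul_mul h
    have h3 := euler_mon h0 i (j := d + N) h2
    rw [← h1, ← mul_assoc, ← h3]
    simp only [smul_smul]
    push_cast
    congr 1
    ring

/-- two equal monomials of different degrees have zero differential, after
multiplication by a generator -/
theorem der_eq_zero (h0 : ∀ a b c, x c • x a • D (x b) = x c • x b • D (x a))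
    {d N : ℕ} {a p q : B} (ha : IsMon x (d + 1) a) (hp : IsMon x (N + 3) p)
    (hq : IsMon x (N + 4) q) (hpq : p + q = 0) : D (a * q) = 0 := by
  have h1 := euler_mul h0 ha hp
  have h2 := euler_mul h0 ha (N := N + 1) hq
  have h3 : a • D p + a • D q = 0 := by
    rw [← smul_add, ← map_add, hpq, map_zero, smul_zero]
  have h4 : D (a * p) + D (a * q) = 0 := by
    rw [← map_add, ← mul_add, hpq, mul_zero, map_zero]
  have h5 : ((d + 1 : ℕ) : B) • D (a * q) = 0 := by
    have e1 : D (a * p) = - D (a * q) := eq_neg_of_add_eq_zero_left h4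
    have e2 : a • D p = - (a • D q) := eq_neg_of_add_eq_zero_left h3
    rw [e1, e2] at h1
    push_cast at h1 h2 ⊢
    linear_combination (norm := module) (-(N + 1 + 3 + (d + 1) : B)) • h1
      - ((N + 3 + (d + 1) : B)) • h2
  exact smul_natCast_cancel k (Nat.succ_ne_zero d) h5

end general

section torsion

variable {k B M I J : Type*} [Field k] [CharZero k] [CommRing B] [Algebra k B]
  [AddCommGroup M] [Module k M] [Module B M] [IsScalarTower k B M]

/-- the rank one matrix attached to a pair of vectors -/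
def gg (i : (I → ZMod 2) × (J → ZMod 2)) : Matrix I J (ZMod 2) := vecMulVec i.1 i.2

theorem gg_vecMul (Um : Matrix (Fin 3) I (ZMod 2)) (Vm : Matrix (Fin 3) J (ZMod 2))
    (U F : Fin 3 → ZMod 2) :
    gg (U ᵥ* Um, F ᵥ* Vm) = Umᵀ * vecMulVec U F * Vm := by
  rw [gg, Matrix.mul_vecMulVec, Matrix.vecMulVec_mul, Matrix.mulVec_transpose]

theorem three_smul {x : (I → ZMod 2) × (J → ZMod 2) → B} (D : Derivation k B M)
    (hq : ∀ a b c d, gg a + gg b = gg c + gg d → x a * x b = x c * x d)
    (hc : ∀ a b c a' b' c', gg a + gg b + gg c = gg a' + gg b' + gg c' →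
      x a * x b * x c = x a' * x b' * x c')
    (a b c : (I → ZMod 2) × (J → ZMod 2)) :
    (6 : ℤ) • ((x b * x c) • D (x a)) = (2 : ℤ) • D (x a * x b * x c) := by
  classical
  let Y2 : Matrix I J (ZMod 2) → B := fun s =>
    if h : ∃ ab : ((I → ZMod 2) × (J → ZMod 2)) × ((I → ZMod 2) × (J → ZMod 2)),
        gg ab.1 + gg ab.2 = s then x h.choose.1 * x h.choose.2 else 0
  have hY : ∀ a b, Y2 (gg a + gg b) = x a * x b := by
    intro a b
    have h : ∃ ab : ((I → ZMod 2) × (J → ZMod 2)) × ((I → ZMod 2) × (J → ZMod 2)),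
        gg ab.1 + gg ab.2 = gg a + gg b := ⟨(a, b), rfl⟩
    have : Y2 (gg a + gg b) = x h.choose.1 * x h.choose.2 := dif_pos h
    rw [this]
    exact hq _ _ _ _ h.choose_spec
  let Um : Matrix (Fin 3) I (ZMod 2) := ![a.1, b.1, c.1]
  let Vm : Matrix (Fin 3) J (ZMod 2) := ![a.2, b.2, c.2]
  let idx : (Fin 3 → ZMod 2) → (Fin 3 → ZMod 2) → (I → ZMod 2) × (J → ZMod 2) :=
    fun U F => (U ᵥ* Um, F ᵥ* Vm)
  have hgg : ∀ U F, gg (idx U F) = Umᵀ * vecMulVec U F * Vm := fun U F => gg_vecMul Um Vm U F
  have i1 : idx ![1, 0, 0] ![1, 0, 0] = a := by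
    ext j <;> simp [idx, Um, Vm, vecMul, dotProduct, Fin.sum_univ_three]
  have i2 : idx ![0, 1, 0] ![0, 1, 0] = b := by
    ext j <;> simp [idx, Um, Vm, vecMul, dotProduct, Fin.sum_univ_three]
  have i3 : idx ![0, 0, 1] ![0, 0, 1] = c := by
    ext j <;> simp [idx, Um, Vm, vecMul, dotProduct, Fin.sum_univ_three]
  let χ : Matrix I J (ZMod 2) := Umᵀ * (1 : Matrix (Fin 3) (Fin 3) (ZMod 2)) * Vm
  have hsum : ∀ U1 F1 U2 F2 U3 F3 : Fin 3 → ZMod 2,
      vecMulVec U1 F1 + vecMulVec U2 F2 + vecMulVec U3 F3 = 1 →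
      gg (idx U1 F1) + gg (idx U2 F2) + gg (idx U3 F3) = χ := by
    intro U1 F1 U2 F2 U3 F3 h
    rw [hgg, hgg, hgg, ← Matrix.add_mul, ← Matrix.mul_add, ← Matrix.add_mul, ← Matrix.mul_add, h]
  have hχ : gg a + gg b + gg c = χ := by
    have := hsum ![1, 0, 0] ![1, 0, 0] ![0, 1, 0] ![0, 1, 0] ![0, 0, 1] ![0, 0, 1] (by decide)
    rwa [i1, i2, i3] at this
  let ω : (Fin 3 → ZMod 2) → (Fin 3 → ZMod 2) → M := fun U F =>
    Y2 (χ - gg (idx U F)) • D (x (idx U F))
  have key := frame_identity ω (D (x a * x b * x c)) (by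
    intro U1 F1 U2 F2 U3 F3 h
    have hs := hsum _ _ _ _ _ _ h
    have e1 : χ - gg (idx U1 F1) = gg (idx U2 F2) + gg (idx U3 F3) := by rw [← hs]; abel
    have e2 : χ - gg (idx U2 F2) = gg (idx U1 F1) + gg (idx U3 F3) := by rw [← hs]; abel
    have e3 : χ - gg (idx U3 F3) = gg (idx U1 F1) + gg (idx U2 F2) := by rw [← hs]; abel
    have e4 : x a * x b * x c = x (idx U1 F1) * x (idx U2 F2) * x (idx U3 F3) :=
      hc _ _ _ _ _ _ (by rw [hχ, hs])
    simp only [ω]
    rw [e1, e2, e3, hY, hY, hY, e4]
    simp only [Derivation.leibniz, smul_add, smul_smul]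
    module)
  have e1 : ω ![1, 0, 0] ![1, 0, 0] = (x b * x c) • D (x a) := by
    simp only [ω]
    rw [i1]
    have : χ - gg a = gg b + gg c := by rw [← hχ]; abel
    rw [this, hY]
  rw [e1] at key
  exact key

theorem torsion_killed {x : (I → ZMod 2) × (J → ZMod 2) → B} (D : Derivation k B M)
    (hq : ∀ a b c d, gg a + gg b = gg c + gg d → x a * x b = x c * x d)
    (hc : ∀ a b c a' b' c', gg a + gg b + gg c = gg a' + gg b' + gg c' →
      x a * x b * x c = x a' * x b' * x c')
    (a b c : (I → ZMod 2) × (J → ZMod 2)) :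
    x c • x a • D (x b) = x c • x b • D (x a) := by
  have h1 := three_smul D hq hc a b c
  have h2 := three_smul D hq hc b a c
  rw [mul_comm (x b) (x a), ← h1] at h2
  have h3 : ((6 : ℕ) : B) • ((x a * x c) • D (x b)) = ((6 : ℕ) : B) • ((x b * x c) • D (x a)) := by
    push_cast
    linear_combination (norm := module) h2
  have h4 := smul_natCast_inj k (by norm_num) h3
  rw [smul_smul, smul_smul, mul_comm (x c) (x a), mul_comm (x c) (x b)]
  exact h4

end torsion

end Pool.Agent.W450.Der
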