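import Mathlib
import Pool.Agent.W450.DerMon

/-! The dual module of an algebra and a bound for the derivations into it. -/

namespace Pool.Agent.W450.Der

section dual

variable (k B : Type*) [Field k] [CommRing B] [Algebra k B]

/-- the dual of an algebra, as a module over it -/
def DualMod := B →ₗ[k] k

noncomputable instance : AddCommGroup (DualMod k B) :=
  inferInstanceAs (AddCommGroup (B →ₗ[k] k))

noncomputable instance : Module k (DualMod k B) :=
  inferInstanceAs (Module k (B →ₗ[k] k))

variable {k B}

/-- evaluation -/
def DualMod.ev (f : DualMod k B) : B →ₗ[k] k := f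

theorem DualMod.ext {f g : DualMod k B} (h : ∀ b, f.ev b = g.ev b) : f = g :=
  LinearMap.ext h

theorem DualMod.ev_add (f g : DualMod k B) (b : B) : (f + g).ev b = f.ev b + g.ev b := rfl

theorem DualMod.ev_zero (b : B) : (0 : DualMod k B).ev b = 0 := rfl

theorem DualMod.ev_ksmul (c : k) (f : DualMod k B) (b : B) : (c • f).ev b = c * f.ev b := rfl

noncomputable instance : SMul B (DualMod k B) where
  smul b f := (f.ev.comp (LinearMap.mulLeft k b) : B →ₗ[k] k)

theorem DualMod.ev_smul (a : B) (f : DualMod k B) (b : B) : (a • f).ev b = f.ev (a * b) := rfl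

noncomputable instance : Module B (DualMod k B) where
  one_smul f := DualMod.ext fun b => by rw [DualMod.ev_smul, one_mul]
  mul_smul a b f := DualMod.ext fun c => by
    rw [DualMod.ev_smul, DualMod.ev_smul, DualMod.ev_smul]
    congr 1
    ring
  smul_zero a := DualMod.ext fun c => by rw [DualMod.ev_smul]; rfl
  smul_add a f g := DualMod.ext fun c => rfl
  add_smul a b f := DualMod.ext fun c => by
    rw [DualMod.ev_smul, DualMod.ev_add, DualMod.ev_smul, DualMod.ev_smul, add_mul, map_add]
  zero_smul f := DualMod.ext fun c => by rw [DualMod.ev_smul, zero_mul, map_zero]; rfl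

instance : IsScalarTower k B (DualMod k B) where
  smul_assoc c b f := DualMod.ext fun a => by
    rw [DualMod.ev_smul, DualMod.ev_ksmul, DualMod.ev_smul, smul_mul_assoc, map_smul, smul_eq_mul]

instance [Module.Finite k B] : Module.Finite k (DualMod k B) :=
  inferInstanceAs (Module.Finite k (B →ₗ[k] k))

theorem finrank_dualMod [Module.Finite k B] :
    Module.finrank k (DualMod k B) = Module.finrank k B :=
  Subspace.dual_finrank_eq

end dual

section bound

variable {k B ι : Type*} [Field k] [CharZero k] [CommRing B] [Algebra k B]
  [Module.Finite k B] [Fintype ι] {x : ι → B}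

/-- the data determining a derivation into the dual -/
noncomputable def derMap (x : ι → B) :
    Derivation k B (DualMod k B) →ₗ[k] Module.Dual k B × (ι × ι → k) where
  toFun D := ({ toFun := fun b => (D b).ev 1
                map_add' := fun a b => by rw [map_add, DualMod.ev_add]
                map_smul' := fun c b => by
                  rw [Derivation.map_smul, DualMod.ev_ksmul]; rfl },
    fun ij => (D (x ij.2)).ev (x ij.1))
  map_add' D E := rfl
  map_smul' c D := rfl

omit [CharZero k] [Module.Finite k B] [Fintype ι] in
theorem derMap_fst (D : Derivation k B (DualMod k B)) (b : B) :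
    (derMap x D).1 b = (D b).ev 1 := rfl

omit [CharZero k] [Module.Finite k B] [Fintype ι] in
theorem derMap_snd (D : Derivation k B (DualMod k B)) (i j : ι) :
    (derMap x D).2 (i, j) = (D (x j)).ev (x i) := rfl

omit [Module.Finite k B] [Fintype ι] in
theorem derMap_injective (hgen : ∀ b : B, b ∈ Submodule.span k {z | ∃ j, IsMon x j z})
    (h0 : ∀ (D : Derivation k B (DualMod k B)) a b c,
      x c • x a • D (x b) = x c • x b • D (x a)) :
    Function.Injective (derMap (k := k) x) := by
  rw [injective_iff_map_eq_zero]
  intro D hD
  have h1 : ∀ b, (D b).ev 1 = 0 := fun b => by rw [← derMap_fst (x := x), hD]; rfl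
  have h2 : ∀ i j, (D (x j)).ev (x i) = 0 := fun i j => by
    rw [← derMap_snd (x := x), hD]; rfl
  have h3 : ∀ j, D (x j) = 0 := by
    intro j
    apply DualMod.ext
    intro b
    have hb := hgen b
    induction hb using Submodule.span_induction with
    | zero => rw [map_zero, map_zero]
    | add a b _ _ ha hb => rw [map_add, map_add, ha, hb]
    | smul c a _ ha => rw [map_smul, map_smul, ha]
    | mem z hz =>
      obtain ⟨d, hd⟩ := hz
      rw [DualMod.ev_zero]
      match d, hd with
      | 0, hd =>
        cases hd
        exact h1 _
      | 1, hd =>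
        cases hd with
        | mul i h =>
          cases h
          rw [one_mul]
          exact h2 i j
      | d + 2, hd =>
        have e1 := euler_mon (h0 D) j hd
        have e2 : ((((d + 2 : ℕ) : B) + 1) • (z • D (x j))).ev 1 = 0 := by
          rw [e1]; exact h1 _
        have e3 : ((((d + 2 : ℕ) : B) + 1) • (z • D (x j))).ev 1 =
            ((d + 2 : ℕ) + 1 : k) * (D (x j)).ev z := by
          rw [DualMod.ev_smul, DualMod.ev_smul]
          have : z * ((((d + 2 : ℕ) : B) + 1) * 1) = ((d + 2 : ℕ) + 1 : k) • z := by
            rw [Algebra.smul_def, map_add, map_natCast, map_one]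
            ring
          rw [this, map_smul, smul_eq_mul]
        rw [e3] at e2
        have e4 : (((d + 2 : ℕ) : k) + 1) ≠ 0 := by exact_mod_cast Nat.succ_ne_zero (d + 2)
        exact (mul_eq_zero.mp e2).resolve_left e4
  have h4 : ∀ j (z : B), IsMon x j z → D z = 0 := by
    intro j z hz
    induction hz with
    | one => exact D.map_one_eq_zero
    | mul i _ ih => rw [Derivation.leibniz, ih, h3, smul_zero, smul_zero, add_zero]
  ext b
  have hb := hgen b
  rw [Derivation.zero_apply]
  induction hb using Submodule.span_induction with
  | zero => exact map_zero D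
  | add a b _ _ ha hb => rw [map_add, ha, hb, add_zero]
  | smul c a _ ha => rw [Derivation.map_smul, ha, smul_zero]
  | mem z hz =>
    obtain ⟨d, hd⟩ := hz
    exact h4 d z hd

theorem finrank_der_le (hgen : ∀ b : B, b ∈ Submodule.span k {z | ∃ j, IsMon x j z})
    (h0 : ∀ (D : Derivation k B (DualMod k B)) a b c,
      x c • x a • D (x b) = x c • x b • D (x a))
    (K : Submodule k B) (hK : ∀ (D : Derivation k B (DualMod k B)), ∀ b ∈ K, D b = 0) :
    Module.Finite k (Derivation k B (DualMod k B)) ∧
    Module.finrank k (Derivation k B (DualMod k B)) + Module.finrank k K ≤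
      Module.finrank k B + Fintype.card ι ^ 2 := by
  classical
  have hinj := derMap_injective hgen h0
  have : Module.Finite k (Derivation k B (DualMod k B)) := Module.Finite.of_injective _ hinj
  refine ⟨inferInstance, ?_⟩
  let f1 : Derivation k B (DualMod k B) →ₗ[k] K.dualAnnihilator :=
    ((LinearMap.fst k _ _).comp (derMap x)).codRestrict K.dualAnnihilator (by
      intro D
      rw [Submodule.mem_dualAnnihilator]
      intro b hb
      rw [LinearMap.comp_apply, LinearMap.fst_apply, derMap_fst, hK D b hb]
      rfl)
  let f2 : Derivation k B (DualMod k B) →ₗ[k] Module.Dual k (B ⧸ K) :=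
    (K.dualQuotEquivDualAnnihilator.symm.toLinearMap).comp f1
  let f : Derivation k B (DualMod k B) →ₗ[k] Module.Dual k (B ⧸ K) × (ι × ι → k) :=
    f2.prod ((LinearMap.snd k _ _).comp (derMap x))
  have hf : Function.Injective f := by
    intro a b hab
    apply hinj
    have e1 := K.dualQuotEquivDualAnnihilator.symm.injective (congrArg Prod.fst hab)
    have e2 := congrArg Prod.snd hab
    exact Prod.ext (congrArg Subtype.val e1) e2
  have h1 := LinearMap.finrank_le_finrank_of_injective hf
  rw [Module.finrank_prod, Module.finrank_fintype_fun_eq_card, Fintype.card_prod, ← sq,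
    Subspace.dual_finrank_eq] at h1
  have h3 := Submodule.finrank_quotient_add_finrank K
  omega

end bound

end Pool.Agent.W450.Der
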