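import Mathlib

/-! Length over a local algebra whose residue field is the ground field. -/

namespace Pool.Agent.W450.Der

section len

variable {k B : Type*} [Field k] [CommRing B] [IsLocalRing B] [Algebra k B]

theorem maxIdeal_smul_simple {N : Type*} [AddCommGroup N] [Module B N] [IsSimpleModule B N]
    {n : B} (hn : n ∈ IsLocalRing.maximalIdeal B) (v : N) : n • v = 0 := by
  by_contra h
  have h1 : Submodule.span B {n • v} = ⊤ := by
    rcases eq_bot_or_eq_top (Submodule.span B {n • v}) with h2 | h2
    · exact absurd (Submodule.span_singleton_eq_bot.mp h2) h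
    · exact h2
  have h2 : v ∈ Submodule.span B {n • v} := by rw [h1]; trivial
  obtain ⟨b, hb⟩ := Submodule.mem_span_singleton.mp h2
  have h3 : (1 - b * n) • v = 0 := by
    rw [sub_smul, one_smul, mul_smul, hb, sub_self]
  have h4 : IsUnit (1 - b * n) := by
    by_contra h5
    have h6 : (1 - b * n) ∈ IsLocalRing.maximalIdeal B := (IsLocalRing.mem_maximalIdeal _).mpr h5
    have h7 : b * n ∈ IsLocalRing.maximalIdeal B := Ideal.mul_mem_left _ _ hn
    have h8 : (1 : B) ∈ IsLocalRing.maximalIdeal B := by
      have := Ideal.add_mem _ h6 h7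
      simpa using this
    exact (IsLocalRing.maximalIdeal.isMaximal B).ne_top ((Ideal.eq_top_iff_one _).mpr h8)
  obtain ⟨u, hu⟩ := h4
  have h5 : v = 0 := by
    rw [← hu] at h3
    have := congrArg (fun t => (u⁻¹ : Bˣ).val • t) h3
    simpa [smul_smul] using this
  exact h (by rw [h5, smul_zero])

theorem finrank_simple (hres : ∀ b : B, ∃ c : k, b - algebraMap k B c ∈ IsLocalRing.maximalIdeal B)
    (N : Type*) [AddCommGroup N] [Module k N] [Module B N] [IsScalarTower k B N]
    [IsSimpleModule B N] : Module.Finite k N ∧ Module.finrank k N = 1 := by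
  haveI : Nontrivial N := IsSimpleModule.nontrivial B N
  obtain ⟨v, hv⟩ := exists_ne (0 : N)
  have h1 : ∀ w : N, ∃ c : k, c • v = w := by
    intro w
    have h2 : Submodule.span B {v} = ⊤ := by
      rcases eq_bot_or_eq_top (Submodule.span B {v}) with h2 | h2
      · exact absurd (Submodule.span_singleton_eq_bot.mp h2) hv
      · exact h2
    have h3 : w ∈ Submodule.span B {v} := by rw [h2]; trivial
    obtain ⟨b, hb⟩ := Submodule.mem_span_singleton.mp h3
    obtain ⟨c, hc⟩ := hres b
    refine ⟨c, ?_⟩
    have h4 := maxIdeal_smul_simple hc v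
    rw [sub_smul, algebraMap_smul, hb] at h4
    exact (sub_eq_zero.mp h4).symm
  have h2 : Module.finrank k N = 1 := finrank_eq_one v hv h1
  exact ⟨Module.finite_of_finrank_eq_succ h2, h2⟩

theorem length_eq_finrank (hres : ∀ b : B, ∃ c : k, b - algebraMap k B c ∈ IsLocalRing.maximalIdeal B)
    {N : Type*} [AddCommGroup N] [Module B N] (h : IsFiniteLength B N) :
    ∀ [Module k N] [IsScalarTower k B N],
      Module.Finite k N ∧ Module.length B N = Module.finrank k N := by
  induction h with
  | of_subsingleton =>
    intro _ _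
    exact ⟨inferInstance, by rw [Module.length_eq_zero, Module.finrank_zero_of_subsingleton]; rfl⟩
  | @of_simple_quotient N _ _ S _ _ ih =>
    intro _ _
    obtain ⟨f1, h1⟩ := ih
    obtain ⟨f2, h2⟩ := finrank_simple hres (N ⧸ S)
    have e1 := Module.length_eq_add_of_exact (R := B) S.subtype S.mkQ S.injective_subtype
      S.mkQ_surjective (LinearMap.exact_subtype_mkQ S)
    let S' : Submodule k N := S.restrictScalars k
    haveI : Module.Finite k S' := f1
    haveI : Module.Finite k (N ⧸ S') := f2
    haveI : Module.Finite k N := Module.Finite.of_submodule_quotient S'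
    refine ⟨inferInstance, ?_⟩
    have e2 := Submodule.finrank_quotient_add_finrank S'
    have e3 : Module.finrank k (N ⧸ S') = 1 := h2
    have e4 : Module.finrank k S' = Module.finrank k S := rfl
    rw [e1, h1, Module.length_eq_one, ← e2, e3, e4]
    push_cast
    rw [add_comm]

end len

end Pool.Agent.W450.Der
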