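import Mathlib
import Pool.Agent.W450.DerMon

/-! The local algebra: a quotient of the polynomial ring on pairs of binary vectors of
length 10 by the largest ideal killed by an explicit linear map. -/

namespace Pool.Agent.W450.Der

open Matrix MvPolynomial

/-- index set of the coordinates -/
abbrev Ix := Fin 3 ⊕ Fin 7
/-- variables: pairs of binary vectors -/
abbrev Vr := (Ix → ZMod 2) × (Ix → ZMod 2)
/-- the group of binary 10 x 10 matrices -/
abbrev Gp := Matrix Ix Ix (ZMod 2)

theorem mat_rank_add_le {K m n : Type*} [Field K] [Fintype m] [Fintype n]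
    (A B : Matrix m n K) : (A + B).rank ≤ A.rank + B.rank := by
  have h : LinearMap.range (A + B).mulVecLin ≤
      LinearMap.range A.mulVecLin ⊔ LinearMap.range B.mulVecLin := by
    rintro _ ⟨v, rfl⟩
    rw [Matrix.mulVecLin_add, LinearMap.add_apply]
    exact Submodule.add_mem_sup ⟨v, rfl⟩ ⟨v, rfl⟩
  exact (Submodule.finrank_mono h).trans (Submodule.finrank_add_le_finrank_add_finrank _ _)

theorem Gp.add_self (a : Gp) : a + a = 0 := by
  ext i j
  have : ∀ z : ZMod 2, z + z = 0 := by decide
  exact this (a i j)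

/-- the matrix of an exponent vector -/
noncomputable def sg : (Vr →₀ ℕ) →+ Gp :=
  Finsupp.liftAddHom (fun i => multiplesHom Gp (gg i))

theorem sg_single (i : Vr) (n : ℕ) : sg (Finsupp.single i n) = n • gg i := by
  simp [sg]

theorem rank_gg_le (i : Vr) : (gg i).rank ≤ 1 := Matrix.rank_vecMulVec_le _ _

theorem rank_sg_le (w : Vr →₀ ℕ) : (sg w).rank ≤ w.degree := by
  induction w using Finsupp.induction_linear with
  | zero => simp
  | add f g hf hg =>
    rw [map_add, map_add]
    exact (mat_rank_add_le _ _).trans (add_le_add hf hg)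
  | single i n =>
    rw [sg_single, Finsupp.degree_single]
    induction n with
    | zero => simp
    | succ n ih =>
      rw [succ_nsmul]
      exact (mat_rank_add_le _ _).trans (add_le_add ih (rank_gg_le i))

/-- sums of three rank one matrices -/
def T3 (χ : Gp) : Prop := ∃ w : Vr →₀ ℕ, w.degree = 3 ∧ sg w = χ

theorem T3.rank_le {χ : Gp} (h : T3 χ) : χ.rank ≤ 3 := by
  obtain ⟨w, h1, h2⟩ := h
  have h3 := rank_sg_le w
  rw [h1, h2] at h3
  exact h3

theorem rank_one_gp : (1 : Gp).rank = 10 := by
  rw [Matrix.rank_one]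
  rfl

/-- if `χ` has rank at most 4 then `χ + 1` is not a sum of three rank one matrices -/
theorem not_T3_add_one {χ : Gp} (h : χ.rank ≤ 4) : ¬ T3 (χ + 1) := by
  intro h3
  have h1 : (1 : Gp) = χ + (χ + 1) := by
    rw [← add_assoc, Gp.add_self, zero_add]
  have h2 : (1 : Gp).rank ≤ χ.rank + (χ + 1).rank := by
    conv_lhs => rw [h1]
    exact mat_rank_add_le _ _
  rw [rank_one_gp] at h2
  have := h3.rank_le
  omega

section ring

variable (k : Type*) [Field k]

open Classical in
/-- values of the structure map on monomials -/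
noncomputable def lamv (w : Vr →₀ ℕ) : Gp →₀ k :=
  if w.degree = 13 ∧ T3 (sg w + 1) then Finsupp.single (sg w) 1
  else if w.degree = 12 ∧ T3 (sg w) then - Finsupp.single (sg w + 1) 1
  else 0

/-- the structure map -/
noncomputable def Lam : MvPolynomial Vr k →ₗ[k] (Gp →₀ k) :=
  (basisMonomials Vr k).constr k (lamv k)

theorem Lam_monomial (w : Vr →₀ ℕ) : Lam k (monomial w 1) = lamv k w := by
  have := (basisMonomials Vr k).constr_basis k (lamv k) w
  rwa [coe_basisMonomials] at this

/-- the largest ideal killed by the structure map -/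
def JJ : Ideal (MvPolynomial Vr k) where
  carrier := {f | ∀ g, Lam k (g * f) = 0}
  add_mem' {a b} ha hb g := by rw [mul_add, map_add, ha g, hb g, add_zero]
  zero_mem' g := by simp
  smul_mem' c f hf g := by
    rw [smul_eq_mul, ← mul_assoc]
    exact hf _

theorem mem_JJ {f : MvPolynomial Vr k} :
    f ∈ JJ k ↔ ∀ w : Vr →₀ ℕ, Lam k (monomial w 1 * f) = 0 := by
  constructor
  · intro h w
    exact h _
  · intro h g
    have : (Lam k).comp (LinearMap.mulRight k f) = 0 := by
      apply (basisMonomials Vr k).ext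
      intro w
      rw [coe_basisMonomials]
      simpa using h w
    exact congrArg (fun l => l g) this

theorem lamv_congr {s t : Vr →₀ ℕ} (h1 : s.degree = t.degree) (h2 : sg s = sg t) :
    lamv k s = lamv k t := by
  unfold lamv
  rw [h1, h2]

theorem sub_mem_JJ {s t : Vr →₀ ℕ} (h1 : s.degree = t.degree) (h2 : sg s = sg t) :
    monomial s 1 - monomial t 1 ∈ JJ k := by
  rw [mem_JJ]
  intro w
  rw [mul_sub, monomial_mul, monomial_mul, mul_one, map_sub, Lam_monomial, Lam_monomial,
    lamv_congr k (s := w + s) (t := w + t) (by simp [h1]) (by simp [h2]), sub_self]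

theorem high_mem_JJ {s : Vr →₀ ℕ} (h : 14 ≤ s.degree) : monomial s 1 ∈ JJ k := by
  rw [mem_JJ]
  intro w
  rw [monomial_mul, mul_one, Lam_monomial, lamv]
  have h1 : (w + s).degree = w.degree + s.degree := by simp
  rw [if_neg (by rw [h1]; omega), if_neg (by rw [h1]; omega)]

/-- relation between the degrees 9 and 10 -/
theorem rel_mem_JJ {p q : Vr →₀ ℕ} (hp : p.degree = 9) (hq : q.degree = 10)
    (hp' : sg p = 0) (hq' : sg q = 1) : monomial p 1 + monomial q 1 ∈ JJ k := by
  rw [mem_JJ]
  intro w
  rw [mul_add, monomial_mul, monomial_mul, mul_one, map_add, Lam_monomial, Lam_monomial]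
  have h1 : (w + p).degree = w.degree + 9 := by simp [hp]
  have h2 : (w + q).degree = w.degree + 10 := by simp [hq]
  have h3 : sg (w + p) = sg w := by simp [hp']
  have h4 : sg (w + q) = sg w + 1 := by simp [hq']
  have h5 : sg w + 1 + 1 = sg w := by rw [add_assoc, Gp.add_self, add_zero]
  have h6 := rank_sg_le w
  rw [lamv, lamv, h1, h2, h3, h4, h5]
  by_cases d3 : w.degree = 3
  · have hT : T3 (sg w) := ⟨w, d3, rfl⟩
    rw [if_neg (by omega), if_pos ⟨by omega, hT⟩, if_pos ⟨by omega, hT⟩, neg_add_cancel]
  · rw [if_neg, if_neg (by omega), if_neg (by omega), if_neg, add_zero]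
    · rintro ⟨h7, h8⟩
      exact not_T3_add_one (by omega) h8
    · rintro ⟨h7, h8⟩
      exact not_T3_add_one (by omega) h8

/-- the algebra -/
def BB := MvPolynomial Vr k ⧸ JJ k

noncomputable instance : CommRing (BB k) :=
  inferInstanceAs (CommRing (MvPolynomial Vr k ⧸ JJ k))

noncomputable instance : Algebra k (BB k) :=
  inferInstanceAs (Algebra k (MvPolynomial Vr k ⧸ JJ k))

/-- the quotient map -/
noncomputable def mkB : MvPolynomial Vr k →ₐ[k] BB k := Ideal.Quotient.mkₐ k (JJ k)

theorem mkB_surjective : Function.Surjective (mkB k) := Ideal.Quotient.mkₐ_surjective k (JJ k)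

theorem mkB_eq_zero_iff {f : MvPolynomial Vr k} : mkB k f = 0 ↔ f ∈ JJ k :=
  Ideal.Quotient.eq_zero_iff_mem

/-- images of monomials -/
noncomputable def yy (s : Vr →₀ ℕ) : BB k := mkB k (monomial s 1)

theorem yy_zero : yy k 0 = 1 := by rw [yy, monomial_zero', C_1, map_one]

theorem yy_add (s t : Vr →₀ ℕ) : yy k (s + t) = yy k s * yy k t := by
  rw [yy, yy, yy, ← map_mul, monomial_mul, mul_one]

theorem yy_congr {s t : Vr →₀ ℕ} (h1 : s.degree = t.degree) (h2 : sg s = sg t) :
    yy k s = yy k t := by
  rw [← sub_eq_zero, yy, yy, ← map_sub, mkB_eq_zero_iff]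
  exact sub_mem_JJ k h1 h2

theorem yy_high {s : Vr →₀ ℕ} (h : 14 ≤ s.degree) : yy k s = 0 := by
  rw [yy, mkB_eq_zero_iff]
  exact high_mem_JJ k h

theorem yy_rel {p q : Vr →₀ ℕ} (hp : p.degree = 9) (hq : q.degree = 10)
    (hp' : sg p = 0) (hq' : sg q = 1) : yy k p + yy k q = 0 := by
  rw [yy, yy, ← map_add, mkB_eq_zero_iff]
  exact rel_mem_JJ k hp hq hp' hq'

/-- generators -/
noncomputable def xx (i : Vr) : BB k := yy k (Finsupp.single i 1)

theorem isMon_yy (s : Vr →₀ ℕ) : IsMon (xx k) s.degree (yy k s) := by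
  induction s using Finsupp.induction_linear with
  | zero =>
    rw [yy_zero]
    simpa using IsMon.one
  | add f g hf hg =>
    rw [yy_add, map_add]
    exact hf.mul_mul hg
  | single i n =>
    rw [Finsupp.degree_single]
    induction n with
    | zero =>
      rw [Finsupp.single_zero, yy_zero]
      exact IsMon.one
    | succ n ih =>
      have : yy k (Finsupp.single i (n + 1)) = yy k (Finsupp.single i n) * xx k i := by
        rw [xx, ← yy_add, ← Finsupp.single_add]
      rw [this]
      exact ih.mul i

theorem xx_quad (a b c d : Vr) (h : gg a + gg b = gg c + gg d) :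
    xx k a * xx k b = xx k c * xx k d := by
  rw [xx, xx, xx, xx, ← yy_add, ← yy_add]
  apply yy_congr
  · simp
  · simp [sg_single, h]

theorem xx_cubic (a b c a' b' c' : Vr) (h : gg a + gg b + gg c = gg a' + gg b' + gg c') :
    xx k a * xx k b * xx k c = xx k a' * xx k b' * xx k c' := by
  simp only [xx, ← yy_add]
  apply yy_congr
  · simp
  · simp [sg_single, h]

end ring

end Pool.Agent.W450.Der
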