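import Mathlib
import Pool.Agent.W450.DerRing
import Pool.Agent.W450.DerDual
import Pool.Agent.W450.DerLen

/-! The algebra is local, finite dimensional, with few derivations into its dual. -/

namespace Pool.Agent.W450.Der

open Matrix MvPolynomial

section

variable (k : Type*) [Field k]

theorem mk_mem_span (f : MvPolynomial Vr k) :
    mkB k f ∈ Submodule.span k {z | ∃ j, IsMon (xx k) j z} := by
  induction f using MvPolynomial.induction_on' with
  | monomial s a =>
    have h1 : mkB k (monomial s a) = a • yy k s := by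
      have : (monomial s a : MvPolynomial Vr k) = a • monomial s 1 := by
        rw [smul_monomial, smul_eq_mul, mul_one]
      rw [this, map_smul, yy]
    rw [h1]
    exact Submodule.smul_mem _ _ (Submodule.subset_span ⟨_, isMon_yy k s⟩)
  | add p q hp hq =>
    rw [map_add]
    exact Submodule.add_mem _ hp hq

theorem mem_span_mon (b : BB k) : b ∈ Submodule.span k {z | ∃ j, IsMon (xx k) j z} := by
  obtain ⟨f, rfl⟩ := mkB_surjective k b
  exact mk_mem_span k f

theorem xx_nilpotent (i : Vr) : IsNilpotent (xx k i) := by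
  refine ⟨14, ?_⟩
  have : ∀ n, xx k i ^ n = yy k (Finsupp.single i n) := by
    intro n
    induction n with
    | zero =>
      rw [pow_zero, Finsupp.single_zero, yy_zero]
    | succ n ih =>
      rw [pow_succ, ih, xx, ← yy_add, ← Finsupp.single_add]
  rw [this]
  exact yy_high k (by simp)

theorem isMon_succ_nilpotent {j : ℕ} {z : BB k} (h : IsMon (xx k) (j + 1) z) :
    IsNilpotent z := by
  cases h with
  | mul i _ => exact (Commute.all _ _).isNilpotent_mul_left (xx_nilpotent k i)

theorem decomp (b : BB k) : ∃ c : k, IsNilpotent (b - algebraMap k (BB k) c) := by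
  have hb := mem_span_mon k b
  induction hb using Submodule.span_induction with
  | zero => exact ⟨0, by simp⟩
  | add a b _ _ ha hb =>
    obtain ⟨c, hc⟩ := ha
    obtain ⟨d, hd⟩ := hb
    refine ⟨c + d, ?_⟩
    have : a + b - algebraMap k (BB k) (c + d) =
        (a - algebraMap k (BB k) c) + (b - algebraMap k (BB k) d) := by
      rw [map_add]; ring
    rw [this]
    exact (Commute.all _ _).isNilpotent_add hc hd
  | smul e a _ ha =>
    obtain ⟨c, hc⟩ := ha
    refine ⟨e * c, ?_⟩
    have : e • a - algebraMap k (BB k) (e * c) =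
        algebraMap k (BB k) e * (a - algebraMap k (BB k) c) := by
      rw [map_mul, Algebra.smul_def]; ring
    rw [this]
    exact (Commute.all _ _).isNilpotent_mul_left hc
  | mem z hz =>
    obtain ⟨j, hj⟩ := hz
    match j, hj with
    | 0, hj =>
      cases hj
      exact ⟨1, by simp⟩
    | j + 1, hj =>
      refine ⟨0, ?_⟩
      rw [map_zero, sub_zero]
      exact isMon_succ_nilpotent k hj

theorem T3_zero : T3 0 := by
  refine ⟨Finsupp.single (0, 0) 3, by simp, ?_⟩
  rw [sg_single]
  have : gg (0 : Vr) = 0 := by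
    ext i j
    simp [gg, vecMulVec]
  change 3 • gg (0 : Vr) = 0
  rw [this, smul_zero]

instance : Nontrivial (BB k) := by
  apply Ideal.Quotient.nontrivial_iff.mpr
  rw [Ne, Ideal.eq_top_iff_one, mem_JJ]
  intro h
  have h1 := h (Finsupp.single (0, 0) 12)
  have hg : gg (0 : Vr) = 0 := by
    ext i j
    simp [gg, vecMulVec]
  have hs : sg (Finsupp.single ((0, 0) : Vr) 12) = 0 := by
    rw [sg_single]
    change 12 • gg (0 : Vr) = 0
    rw [hg, smul_zero]
  rw [mul_one, Lam_monomial, lamv, if_neg (by simp), hs,
    if_pos ⟨by simp, T3_zero⟩] at h1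
  have h2 := DFunLike.congr_fun h1 (0 + 1)
  simp at h2

instance : IsLocalRing (BB k) := by
  apply IsLocalRing.of_nonunits_add
  have key : ∀ a : BB k, a ∈ nonunits (BB k) → IsNilpotent a := by
    intro a ha
    obtain ⟨c, hc⟩ := decomp k a
    by_cases h0 : c = 0
    · rw [h0, map_zero, sub_zero] at hc
      exact hc
    · exfalso
      apply ha
      have h1 : IsUnit (algebraMap k (BB k) c) := (IsUnit.mk0 c h0).map _
      have h2 := hc.isUnit_add_left_of_commute h1 (Commute.all _ _)
      rwa [add_sub_cancel] at h2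
  intro a b ha hb hab
  have h1 := (Commute.all a b).isNilpotent_add (key a ha) (key b hb)
  exact h1.not_isUnit hab

theorem nilpotent_mem_max {n : BB k} (h : IsNilpotent n) : n ∈ IsLocalRing.maximalIdeal (BB k) := by
  rw [IsLocalRing.mem_maximalIdeal]
  exact h.not_isUnit

theorem hres (b : BB k) : ∃ c : k, b - algebraMap k (BB k) c ∈ IsLocalRing.maximalIdeal (BB k) := by
  obtain ⟨c, hc⟩ := decomp k b
  exact ⟨c, nilpotent_mem_max k hc⟩

theorem residue_bijective :
    Function.Bijective (algebraMap k (IsLocalRing.ResidueField (BB k))) := by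
  refine ⟨(algebraMap k (IsLocalRing.ResidueField (BB k))).injective, ?_⟩
  intro r
  obtain ⟨b, rfl⟩ := IsLocalRing.residue_surjective r
  obtain ⟨c, hc⟩ := hres k b
  refine ⟨c, ?_⟩
  have h1 : IsLocalRing.residue (BB k) (b - algebraMap k (BB k) c) = 0 :=
    (IsLocalRing.residue_eq_zero_iff _).mpr hc
  rw [map_sub, sub_eq_zero] at h1
  rw [h1]
  rfl

instance : Module.Finite k (BB k) := by
  have : Algebra.IsIntegral k (BB k) := by
    constructor
    intro b
    obtain ⟨c, n, hn⟩ := decomp k b
    have h1 : IsIntegral k (b - algebraMap k (BB k) c) := by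
      apply IsIntegral.of_pow (n := n + 1) (Nat.succ_pos n)
      rw [pow_succ, hn, zero_mul]
      exact isIntegral_zero
    have h2 := h1.add (isIntegral_algebraMap (R := k) (x := c))
    rwa [sub_add_cancel] at h2
  have : Algebra.FiniteType k (BB k) :=
    Algebra.FiniteType.of_surjective (mkB k) (mkB_surjective k)
  exact Algebra.IsIntegral.finite

/-- exponent of the diagonal monomial -/
noncomputable def qq : Vr →₀ ℕ :=
  ∑ i : Ix, Finsupp.single ((Pi.single i 1, Pi.single i 1) : Vr) 1

theorem qq_degree : qq.degree = 10 := by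
  simp [qq]

theorem qq_sg : sg qq = 1 := by
  rw [qq, map_sum]
  simp only [sg_single, one_smul, gg]
  ext i j
  rw [Matrix.sum_apply, Matrix.one_apply]
  simp only [vecMulVec_apply, Pi.single_apply]
  by_cases h : i = j
  · subst h
    simp
  · rw [if_neg h]
    apply Finset.sum_eq_zero
    intro c _
    by_cases h1 : i = c
    · subst h1
      simp [Ne.symm h]
    · simp [h1]

/-- parameters -/
abbrev Pc := (Fin 3 → Fin 7 → ZMod 2) × (Fin 3 → Fin 7 → ZMod 2)

/-- exponents of the cubic monomials -/
noncomputable def al (c : Pc) : Vr →₀ ℕ :=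
  ∑ r : Fin 3, Finsupp.single
    ((Sum.elim (Pi.single r 1) (c.1 r), Sum.elim (Pi.single r 1) (c.2 r)) : Vr) 1

theorem al_degree (c : Pc) : (al c).degree = 3 := by
  simp [al]

theorem al_sg_apply (c : Pc) (i j : Ix) : sg (al c) i j =
    ∑ r : Fin 3, (Sum.elim (Pi.single r 1) (c.1 r) : Ix → ZMod 2) i *
      (Sum.elim (Pi.single r 1) (c.2 r) : Ix → ZMod 2) j := by
  rw [al, map_sum]
  simp only [sg_single, one_smul, gg]
  rw [Matrix.sum_apply]
  simp only [vecMulVec_apply]

theorem al_sg_injective : Function.Injective (fun c : Pc => sg (al c)) := by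
  intro c d h
  have h' : ∀ i j, sg (al c) i j = sg (al d) i j := fun i j => by
    have := congrFun (congrFun h i) j
    exact this
  ext r s
  · have h1 := h' (Sum.inr s) (Sum.inl r)
    rw [al_sg_apply, al_sg_apply] at h1
    simpa [Pi.single_apply] using h1
  · have h1 := h' (Sum.inl r) (Sum.inr s)
    rw [al_sg_apply, al_sg_apply] at h1
    simpa [Pi.single_apply] using h1

theorem Lam_al (c : Pc) :
    Lam k (monomial (al c + qq) 1) = Finsupp.single (sg (al c) + 1) 1 := by
  rw [Lam_monomial, lamv]
  have h1 : (al c + qq).degree = 13 := by rw [map_add, al_degree, qq_degree]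
  have h2 : sg (al c + qq) = sg (al c) + 1 := by rw [map_add, qq_sg]
  have h3 : sg (al c) + 1 + 1 = sg (al c) := by rw [add_assoc, Gp.add_self, add_zero]
  rw [h2, h3, if_pos ⟨h1, ⟨al c, al_degree c, rfl⟩⟩]

theorem li_al : LinearIndependent k (fun c : Pc => yy k (al c + qq)) := by
  classical
  rw [linearIndependent_iff']
  intro s g hg i hi
  have h1 : mkB k (∑ c ∈ s, g c • monomial (al c + qq) 1) = 0 := by
    rw [map_sum, ← hg]
    apply Finset.sum_congr rfl
    intro c _
    rw [map_smul, yy]
  rw [mkB_eq_zero_iff] at h1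
  have h2 := h1 1
  rw [one_mul, map_sum] at h2
  have h3 := DFunLike.congr_fun h2 (sg (al i) + 1)
  rw [Finsupp.finsetSum_apply] at h3
  simp only [map_smul, Lam_al] at h3
  rw [Finset.sum_eq_single i] at h3
  · simpa using h3
  · intro c _ hc
    have : sg (al c) + 1 ≠ sg (al i) + 1 := by
      intro h
      exact hc (al_sg_injective (add_right_cancel h))
    simp [this]
  · intro h
    exact absurd hi h

/-- elements with zero differential -/
noncomputable def KK : Submodule k (BB k) :=
  Submodule.span k (Set.range (fun c : Pc => yy k (al c + qq)))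

theorem finrank_KK : Module.finrank k (KK k) = 2 ^ 42 := by
  rw [KK, finrank_span_eq_card (li_al k)]
  simp [Pc]

end

section

variable (k : Type*) [Field k] [CharZero k]

theorem h0_BB {M : Type*} [AddCommGroup M] [Module k M] [Module (BB k) M]
    [IsScalarTower k (BB k) M] (D : Derivation k (BB k) M) (a b c : Vr) :
    xx k c • xx k a • D (xx k b) = xx k c • xx k b • D (xx k a) :=
  torsion_killed D (xx_quad k) (xx_cubic k) a b c

theorem KK_der {M : Type*} [AddCommGroup M] [Module k M] [Module (BB k) M]
    [IsScalarTower k (BB k) M] (D : Derivation k (BB k) M) (b : BB k) (hb : b ∈ KK k) :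
    D b = 0 := by
  rw [KK] at hb
  induction hb using Submodule.span_induction with
  | zero => exact map_zero D
  | add a b _ _ ha hb => rw [map_add, ha, hb, add_zero]
  | smul c a _ ha => rw [Derivation.map_smul, ha, smul_zero]
  | mem z hz =>
    obtain ⟨c, rfl⟩ := hz
    simp only
    rw [yy_add]
    have h1 := isMon_yy k (al c)
    rw [al_degree] at h1
    have h2 := isMon_yy k qq
    rw [qq_degree] at h2
    have h3 := isMon_yy k (Finsupp.single ((0, 0) : Vr) 9)
    have hg : gg (0 : Vr) = 0 := by
      ext i j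
      simp [gg, vecMulVec]
    have hs : sg (Finsupp.single ((0, 0) : Vr) 9) = 0 := by
      rw [sg_single]
      change 9 • gg (0 : Vr) = 0
      rw [hg, smul_zero]
    have hd : (Finsupp.single ((0, 0) : Vr) 9).degree = 9 := by simp
    rw [hd] at h3
    have h4 := yy_rel k hd qq_degree hs qq_sg
    exact der_eq_zero (h0_BB k D) (d := 2) (N := 6) h1 h3 h2 h4

theorem finrank_der :
    Module.Finite k (Derivation k (BB k) (DualMod k (BB k))) ∧
    Module.finrank k (Derivation k (BB k) (DualMod k (BB k))) + 2 ^ 42 ≤
      Module.finrank k (BB k) + 2 ^ 40 := by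
  have h := finrank_der_le (x := xx k) (mem_span_mon k) (h0_BB k) (KK k) (KK_der k)
  rw [finrank_KK] at h
  have h2 : Fintype.card Vr ^ 2 = 2 ^ 40 := by simp [Vr]
  rw [h2] at h
  exact h

end

end Pool.Agent.W450.Der
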