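/-
Representations of the Lie algebra with basis `e, f, h` and brackets `[f,e] = h`, `[e,h] = e`,
`[h,f] = f` (a form of `sl₂`), the induced action on linear maps, and the statement that the
Casimir operator is invertible off the invariants.
-/
import Mathlib

namespace W450.Rig

universe u

/-- A representation of the Lie algebra with basis `e, f, h` and the brackets
`[f,e] = h`, `[e,h] = e`, `[h,f] = f`. -/
structure SL (K : Type u) (V : Type u) [Field K] [AddCommGroup V] [Module K V] where
  e : Module.End K V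
  f : Module.End K V
  h : Module.End K V
  fe : f * e - e * f = h
  eh : e * h - h * e = e
  hf : h * f - f * h = f

variable {K : Type u} [Field K]
variable {V : Type u} [AddCommGroup V] [Module K V]
variable {V' : Type u} [AddCommGroup V'] [Module K V']

/-- `m ↦ a' ∘ m - m ∘ a` on linear maps. -/
def adj (a : Module.End K V) (a' : Module.End K V') : Module.End K (V →ₗ[K] V') :=
  LinearMap.llcomp K V V' V' a' - (LinearMap.llcomp K V V V').flip a

theorem adj_apply (a : Module.End K V) (a' : Module.End K V') (m : V →ₗ[K] V') :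
    adj a a' m = a' ∘ₗ m - m ∘ₗ a := rfl

/-- The Casimir operator on linear maps. -/
def casimir (S : SL K V) (S' : SL K V') : Module.End K (V →ₗ[K] V') :=
  adj S.e S'.e * adj S.f S'.f + adj S.f S'.f * adj S.e S'.e + adj S.h S'.h * adj S.h S'.h

/-- The Casimir operator of `Hom(V, V')` has a Green operator: an inverse `G` off the
invariants, where `P` is the projection to the invariants. -/
def Green (S : SL K V) (S' : SL K V') : Prop :=
  ∃ G P : Module.End K (V →ₗ[K] V'),
    casimir S S' * G + P = 1 ∧ G * casimir S S' + P = 1 ∧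
    G * adj S.e S'.e = adj S.e S'.e * G ∧
    G * adj S.f S'.f = adj S.f S'.f * G ∧
    G * adj S.h S'.h = adj S.h S'.h * G ∧
    adj S.e S'.e * P = 0 ∧ adj S.f S'.f * P = 0 ∧ adj S.h S'.h * P = 0 ∧
    P * adj S.e S'.e = 0 ∧ P * adj S.f S'.f = 0 ∧ P * adj S.h S'.h = 0

/-- Matrix of `e` on the irreducible representation of dimension `n + 1`. -/
def irrE (K : Type u) [Field K] (n : ℕ) : Matrix (Fin (n + 1)) (Fin (n + 1)) K :=
  fun i j => if (j : ℕ) = i + 1 then ((j : ℕ) : K) else 0

/-- Matrix of `f` on the irreducible representation of dimension `n + 1`. -/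
def irrF (K : Type u) [Field K] (n : ℕ) : Matrix (Fin (n + 1)) (Fin (n + 1)) K :=
  fun i j => if (i : ℕ) = j + 1 then ((n : K) - ((j : ℕ) : K)) / 2 else 0

/-- Matrix of `h` on the irreducible representation of dimension `n + 1`. -/
def irrH (K : Type u) [Field K] (n : ℕ) : Matrix (Fin (n + 1)) (Fin (n + 1)) K :=
  fun i j => if i = j then ((i : ℕ) : K) - (n : K) / 2 else 0

theorem irrE_apply (n : ℕ) (x : Fin (n + 1) → K) (i : Fin (n + 1)) :
    (irrE K n).mulVec x i = if h : (i : ℕ) + 1 < n + 1 then
      ((i : ℕ) + 1 : K) * x ⟨i + 1, h⟩ else 0 := by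
  unfold Matrix.mulVec dotProduct irrE
  split_ifs with h
  · rw [Finset.sum_eq_single (⟨i + 1, h⟩ : Fin (n + 1))]
    · simp
    · intro j _ hj
      have : (j : ℕ) ≠ i + 1 := fun h' => hj (Fin.ext h')
      simp [this]
    · simp
  · apply Finset.sum_eq_zero
    intro j _
    have : (j : ℕ) ≠ i + 1 := by have := j.isLt; omega
    simp [this]

theorem irrF_apply (n : ℕ) (x : Fin (n + 1) → K) (i : Fin (n + 1)) :
    (irrF K n).mulVec x i = if h : 0 < (i : ℕ) then
      ((n : K) - ((i : ℕ) : K) + 1) / 2 * x ⟨i - 1, by omega⟩ else 0 := by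
  unfold Matrix.mulVec dotProduct irrF
  split_ifs with h
  · rw [Finset.sum_eq_single (⟨i - 1, by omega⟩ : Fin (n + 1))]
    · have h1 : (i : ℕ) = (i : ℕ) - 1 + 1 := by omega
      have h2 : ((i : ℕ) : K) = (((i : ℕ) - 1 : ℕ) : K) + 1 := by
        rw [← Nat.cast_succ]; congr 1
      beta_reduce
      rw [if_pos h1, h2]
      ring
    · intro j _ hj
      have : ¬ ((i : ℕ) = j + 1) := fun h' => hj (Fin.ext (by simp only; omega))
      simp [this]
    · simp
  · apply Finset.sum_eq_zero
    intro j _
    have : ¬ ((i : ℕ) = j + 1) := by omega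
    simp [this]

theorem irrH_apply (n : ℕ) (x : Fin (n + 1) → K) (i : Fin (n + 1)) :
    (irrH K n).mulVec x i = (((i : ℕ) : K) - (n : K) / 2) * x i := by
  unfold Matrix.mulVec dotProduct irrH
  rw [Finset.sum_eq_single i]
  · simp
  · intro j _ hj
    simp [Ne.symm hj]
  · simp

theorem mulVecLin_ext {n : ℕ} {M N : Matrix (Fin (n + 1)) (Fin (n + 1)) K}
    (h : ∀ x, M.mulVec x = N.mulVec x) : M = N := by
  apply Matrix.mulVec_injective
  funext x
  exact h x

/-- The irreducible representation of dimension `n + 1` (characteristic zero). -/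
def irr (K : Type u) [Field K] [CharZero K] (n : ℕ) : SL K (Fin (n + 1) → K) where
  e := Matrix.toLin' (irrE K n)
  f := Matrix.toLin' (irrF K n)
  h := Matrix.toLin' (irrH K n)
  fe := by
    refine LinearMap.ext fun x => ?_
    funext i
    simp only [LinearMap.sub_apply, Module.End.mul_apply, Matrix.toLin'_apply, Pi.sub_apply]
    rw [irrF_apply, irrE_apply, irrH_apply]
    have hi := i.isLt
    by_cases h0 : 0 < (i : ℕ)
    · have h1 : (i : ℕ) - 1 + 1 < n + 1 := by omega
      have h2 : ((((i : ℕ) - 1 : ℕ) : K) + 1) = ((i : ℕ) : K) := by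
        rw [← Nat.cast_succ]; congr 1; omega
      have h3 : (⟨(i : ℕ) - 1 + 1, h1⟩ : Fin (n + 1)) = i := Fin.ext (by simp only; omega)
      rw [dif_pos h0, irrE_apply]
      simp only [h1, dif_pos]
      rw [h3, h2]
      by_cases h4 : (i : ℕ) + 1 < n + 1
      · rw [dif_pos h4, irrF_apply, dif_pos (by simp)]
        have h5 : (⟨(⟨(i : ℕ) + 1, h4⟩ : Fin (n + 1)) - 1, by omega⟩ : Fin (n + 1)) = i :=
          Fin.ext (by simp)
        rw [h5]
        push_cast
        ring
      · rw [dif_neg h4]
        have h5 : (i : ℕ) = n := by omega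
        rw [h5]
        ring
    · have h1 : (i : ℕ) = 0 := by omega
      rw [dif_neg h0]
      by_cases h4 : (i : ℕ) + 1 < n + 1
      · rw [dif_pos h4, irrF_apply, dif_pos (by simp)]
        have h5 : (⟨(⟨(i : ℕ) + 1, h4⟩ : Fin (n + 1)) - 1, by omega⟩ : Fin (n + 1)) = i :=
          Fin.ext (by simp)
        have h6 : ((i : ℕ) : K) = 0 := by rw [h1]; simp
        rw [h5]
        push_cast
        rw [h6]
        ring
      · rw [dif_neg h4]
        have h5 : n = 0 := by omega
        subst h5
        rw [h1]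
        simp
  eh := by
    refine LinearMap.ext fun x => ?_
    funext i
    simp only [LinearMap.sub_apply, Module.End.mul_apply, Matrix.toLin'_apply, Pi.sub_apply]
    rw [irrE_apply, irrH_apply, irrE_apply]
    by_cases h4 : (i : ℕ) + 1 < n + 1
    · rw [dif_pos h4, dif_pos h4, irrH_apply]
      push_cast
      ring
    · rw [dif_neg h4, dif_neg h4]; simp
  hf := by
    refine LinearMap.ext fun x => ?_
    funext i
    simp only [LinearMap.sub_apply, Module.End.mul_apply, Matrix.toLin'_apply, Pi.sub_apply]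
    rw [irrF_apply, irrH_apply, irrF_apply]
    by_cases h4 : 0 < (i : ℕ)
    · have h2 : (((i : ℕ) - 1 : ℕ) : K) = ((i : ℕ) : K) - 1 := by
        rw [Nat.cast_pred h4]
      rw [dif_pos h4, dif_pos h4, irrH_apply]
      simp only
      rw [h2]
      ring
    · rw [dif_neg h4, dif_neg h4]; simp

end W450.Rig
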