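/-
The integer tables of the 120-dimensional algebra (rows = images of the 120 basis elements).
Generated by computer; every property used later is checked by the kernel.
-/
import Mathlib

namespace W450.Rig

/-- A row: a formal integer combination of basis indices. -/
abbrev Row := List (ℤ × ℕ)
/-- A table: the list of images of the basis elements. -/
abbrev Tab := List Row

def tb_Ra : Tab := [
  [], [], [], [], [], [], [], [], [], [], [], [], [], [], [], [], [], [], [], [], [], [], [], [],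
  [], [], [], [], [], [], [], [], [], [], [], [], [], [], [], [], [], [], [], [], [], [], [], [],
  [], [], [], [], [], [], [], [], [], [], [], [], [(.ofNat 1, 15)], [(.ofNat 1, 16)],
  [(.ofNat 1, 17)], [(.ofNat 1, 18)], [(.ofNat 1, 19)], [(.ofNat 1, 20)], [(.ofNat 1, 21)],
  [(.ofNat 1, 22)], [(.ofNat 1, 23)], [(.ofNat 1, 24)], [(.ofNat 1, 25)], [(.ofNat 1, 26)],
  [(.ofNat 1, 27)], [(.ofNat 1, 28)], [(.ofNat 1, 29)], [], [], [], [], [], [], [], [], [], [],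
  [], [], [], [], [], [(.ofNat 1, 30)], [(.ofNat 1, 31)], [(.ofNat 1, 32)], [(.ofNat 1, 33)],
  [(.ofNat 1, 34)], [(.ofNat 1, 35)], [(.ofNat 1, 36)], [(.ofNat 1, 37)], [(.ofNat 1, 38)],
  [(.ofNat 1, 39)], [(.ofNat 1, 40)], [(.ofNat 1, 41)], [(.ofNat 1, 42)], [(.ofNat 1, 43)],
  [(.ofNat 1, 44)]]

def tb_Rb : Tab := [
  [], [], [], [], [], [], [], [], [], [], [], [], [], [], [], [], [], [], [], [], [], [], [], [],
  [], [], [], [], [], [], [], [], [], [], [], [], [], [], [], [], [], [], [], [], [], [], [], [],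
  [], [], [], [], [], [], [], [], [], [], [], [], [], [], [], [], [], [], [], [], [], [], [], [],
  [], [], [], [(.ofNat 1, 15)], [(.ofNat 1, 16)], [(.ofNat 1, 17)], [(.ofNat 1, 18)],
  [(.ofNat 1, 19)], [(.ofNat 1, 20)], [(.ofNat 1, 21)], [(.ofNat 1, 22)], [(.ofNat 1, 23)],
  [(.ofNat 1, 24)], [(.ofNat 1, 25)], [(.ofNat 1, 26)], [(.ofNat 1, 27)], [(.ofNat 1, 28)],
  [(.ofNat 1, 29)], [(.ofNat 1, 45)], [(.ofNat 1, 46)], [(.ofNat 1, 47)], [(.ofNat 1, 48)],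
  [(.ofNat 1, 49)], [(.ofNat 1, 50)], [(.ofNat 1, 51)], [(.ofNat 1, 52)], [(.ofNat 1, 53)],
  [(.ofNat 1, 54)], [(.ofNat 1, 55)], [(.ofNat 1, 56)], [(.ofNat 1, 57)], [(.ofNat 1, 58)],
  [(.ofNat 1, 59)]]

def tb_RA : Tab := [
  [(.ofNat 1, 60)], [(.ofNat 1, 61)], [(.ofNat 1, 62)], [(.ofNat 1, 63)], [(.ofNat 1, 64)],
  [(.ofNat 1, 65)], [(.ofNat 1, 66)], [(.ofNat 1, 67)], [(.ofNat 1, 68)], [(.ofNat 1, 69)],
  [(.ofNat 1, 70)], [(.ofNat 1, 71)], [(.ofNat 1, 72)], [(.ofNat 1, 73)], [(.ofNat 1, 74)], [],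
  [], [], [], [], [], [], [], [], [], [], [], [], [], [], [(.ofNat 1, 105)], [(.ofNat 1, 106)],
  [(.ofNat 1, 107)], [(.ofNat 1, 108)], [(.ofNat 1, 109)], [(.ofNat 1, 110)], [(.ofNat 1, 111)],
  [(.ofNat 1, 112)], [(.ofNat 1, 113)], [(.ofNat 1, 114)], [(.ofNat 1, 115)], [(.ofNat 1, 116)],
  [(.ofNat 1, 117)], [(.ofNat 1, 118)], [(.ofNat 1, 119)]]

def tb_RB : Tab := [
  [(.ofNat 1, 75)], [(.ofNat 1, 76)], [(.ofNat 1, 77)], [(.ofNat 1, 78)], [(.ofNat 1, 79)],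
  [(.ofNat 1, 80)], [(.ofNat 1, 81)], [(.ofNat 1, 82)], [(.ofNat 1, 83)], [(.ofNat 1, 84)],
  [(.ofNat 1, 85)], [(.ofNat 1, 86)], [(.ofNat 1, 87)], [(.ofNat 1, 88)], [(.ofNat 1, 89)], [],
  [], [], [], [], [], [], [], [], [], [], [], [], [], [], [], [], [], [], [], [], [], [], [], [],
  [], [], [], [], [], [(.ofNat 1, 105)], [(.ofNat 1, 106)], [(.ofNat 1, 107)], [(.ofNat 1, 108)],
  [(.ofNat 1, 109)], [(.ofNat 1, 110)], [(.ofNat 1, 111)], [(.ofNat 1, 112)], [(.ofNat 1, 113)],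
  [(.ofNat 1, 114)], [(.ofNat 1, 115)], [(.ofNat 1, 116)], [(.ofNat 1, 117)], [(.ofNat 1, 118)],
  [(.ofNat 1, 119)]]

def tb_Rf : Tab := [
  [], [], [], [], [], [], [], [], [], [], [(.ofNat 1, 2)], [(.ofNat 1, 5)], [(.ofNat 1, 7)],
  [(.ofNat 1, 8)], [(.ofNat 1, 12)], [], [], [], [], [], [], [], [], [], [], [(.ofNat 1, 17)],
  [(.ofNat 1, 20)], [(.ofNat 1, 22)], [(.ofNat 1, 23)], [(.ofNat 1, 27)], [], [], [], [], [], [],
  [], [], [], [], [(.ofNat 1, 32)], [(.ofNat 1, 35)], [(.ofNat 1, 37)], [(.ofNat 1, 38)],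
  [(.ofNat 1, 42)], [], [], [], [], [], [], [], [], [], [], [(.negSucc 0, 33), (.ofNat 1, 47)],
  [(.negSucc 0, 36), (.ofNat 1, 50)], [(.ofNat 1, 35), (.negSucc 0, 38), (.ofNat 1, 52)],
  [(.negSucc 0, 39), (.ofNat 1, 53)], [(.negSucc 0, 43), (.ofNat 1, 57)], [], [], [], [], [], [],
  [], [], [], [], [(.ofNat 1, 62), (.negSucc 0, 76), (.ofNat 1, 78)],
  [(.ofNat 1, 65), (.negSucc 0, 79), (.ofNat 1, 81)],
  [(.ofNat 1, 67), (.negSucc 1, 80), (.ofNat 1, 83)],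
  [(.ofNat 1, 68), (.negSucc 0, 81), (.ofNat 1, 84)],
  [(.ofNat 1, 72), (.negSucc 0, 86), (.ofNat 1, 88)], [], [], [], [], [], [], [], [], [], [],
  [(.ofNat 1, 77)], [(.ofNat 1, 80)], [(.ofNat 1, 82)], [(.ofNat 1, 83)], [(.ofNat 1, 87)], [],
  [], [], [], [], [], [], [], [], [], [(.ofNat 1, 92)], [(.ofNat 1, 95)], [(.ofNat 1, 97)],
  [(.ofNat 1, 98)], [(.ofNat 1, 102)], [], [], [], [], [], [], [], [], [], [], [(.ofNat 1, 107)],
  [(.ofNat 1, 110)], [(.ofNat 1, 112)], [(.ofNat 1, 113)], [(.ofNat 1, 117)]]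

def tb_Rh : Tab := [
  [], [], [], [], [], [], [], [], [], [], [(.ofNat 1, 3)], [(.ofNat 1, 6)],
  [(.negSucc 0, 5), (.ofNat 1, 8)], [(.ofNat 1, 9)], [(.ofNat 1, 13)], [], [], [], [], [], [], [],
  [], [], [], [(.negSucc 0, 16), (.ofNat 1, 18)], [(.negSucc 0, 19), (.ofNat 1, 21)],
  [(.negSucc 1, 20), (.ofNat 1, 23)], [(.negSucc 0, 21), (.ofNat 1, 24)],
  [(.negSucc 0, 26), (.ofNat 1, 28)], [], [], [], [], [], [], [], [], [], [], [(.ofNat 1, 33)],
  [(.ofNat 1, 36)], [(.negSucc 0, 35), (.ofNat 1, 38)], [(.ofNat 1, 39)], [(.ofNat 1, 43)], [],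
  [], [], [], [], [], [], [], [], [], [(.ofNat 1, 46), (.ofNat 1, 48)],
  [(.ofNat 1, 49), (.ofNat 1, 51)], [(.ofNat 1, 53)], [(.ofNat 1, 51), (.ofNat 1, 54)],
  [(.ofNat 1, 56), (.ofNat 1, 58)], [], [], [], [], [], [], [], [], [], [],
  [(.negSucc 0, 61), (.ofNat 1, 63)], [(.negSucc 0, 64), (.ofNat 1, 66)],
  [(.negSucc 1, 65), (.ofNat 1, 68)], [(.negSucc 0, 66), (.ofNat 1, 69)],
  [(.negSucc 0, 71), (.ofNat 1, 73)], [], [], [], [], [], [], [], [], [], [],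
  [(.negSucc 1, 76), (.ofNat 1, 78)], [(.negSucc 1, 79), (.ofNat 1, 81)],
  [(.negSucc 2, 80), (.ofNat 1, 83)], [(.negSucc 1, 81), (.ofNat 1, 84)],
  [(.negSucc 1, 86), (.ofNat 1, 88)], [], [], [], [], [], [], [], [], [], [], [(.ofNat 1, 93)],
  [(.ofNat 1, 96)], [(.negSucc 0, 95), (.ofNat 1, 98), (.negSucc 0, 109)], [(.ofNat 1, 99)],
  [(.ofNat 1, 103)], [], [], [], [], [], [], [], [], [], [], [(.negSucc 0, 106), (.ofNat 1, 108)],
  [(.negSucc 0, 109), (.ofNat 1, 111)], [(.negSucc 1, 110), (.ofNat 1, 113)],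
  [(.negSucc 0, 111), (.ofNat 1, 114)], [(.negSucc 0, 116), (.ofNat 1, 118)]]

def tb_Rz : Tab := [
  [], [], [], [], [], [], [], [], [], [], [(.ofNat 1, 1)], [(.ofNat 1, 4)], [(.ofNat 1, 5)],
  [(.ofNat 1, 6)], [(.ofNat 1, 11)], [], [], [], [], [], [], [], [], [], [], [(.ofNat 1, 16)],
  [(.ofNat 1, 19)], [(.ofNat 1, 20)], [(.ofNat 1, 21)], [(.ofNat 1, 26)], [], [], [], [], [], [],
  [], [], [], [], [(.ofNat 1, 31)], [(.ofNat 1, 34)], [(.ofNat 1, 35)], [(.ofNat 1, 36)],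
  [(.ofNat 1, 41)], [], [], [], [], [], [], [], [], [], [], [(.ofNat 1, 46)], [(.ofNat 1, 49)],
  [(.ofNat 1, 50)], [(.ofNat 1, 51)], [(.ofNat 1, 56)], [], [], [], [], [], [], [], [], [], [],
  [(.ofNat 1, 61)], [(.ofNat 1, 64)], [(.ofNat 1, 65)], [(.ofNat 1, 66)], [(.ofNat 1, 71)], [],
  [], [], [], [], [], [], [], [], [], [(.ofNat 1, 76)], [(.ofNat 1, 79)], [(.ofNat 1, 80)],
  [(.ofNat 1, 81)], [(.ofNat 1, 86)], [], [], [], [], [], [], [], [], [], [], [(.ofNat 1, 91)],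
  [(.ofNat 1, 94)], [(.ofNat 1, 95)], [(.ofNat 1, 96)], [(.ofNat 1, 101)], [], [], [], [], [], [],
  [], [], [], [], [(.ofNat 1, 106)], [(.ofNat 1, 109)], [(.ofNat 1, 110)], [(.ofNat 1, 111)],
  [(.ofNat 1, 116)]]

def tb_P00 : Tab := [
  [(.ofNat 1, 0)], [(.ofNat 1, 1)], [(.ofNat 1, 2)], [(.ofNat 1, 3)], [(.ofNat 1, 4)],
  [(.ofNat 1, 5)], [(.ofNat 1, 6)], [(.ofNat 1, 7)], [(.ofNat 1, 8)], [(.ofNat 1, 9)], [], [], [],
  [], [], [(.ofNat 1, 15)], [(.ofNat 1, 16)], [(.ofNat 1, 17)], [(.ofNat 1, 18)],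
  [(.ofNat 1, 19)], [(.ofNat 1, 20)], [(.ofNat 1, 21)], [(.ofNat 1, 22)], [(.ofNat 1, 23)],
  [(.ofNat 1, 24)], [], [], [], [], [], [(.ofNat 1, 30)], [(.ofNat 1, 31)], [(.ofNat 1, 32)],
  [(.ofNat 1, 33)], [(.ofNat 1, 34)], [(.ofNat 1, 35)], [(.ofNat 1, 36)], [(.ofNat 1, 37)],
  [(.ofNat 1, 38)], [(.ofNat 1, 39)], [], [], [], [], [], [(.ofNat 1, 45)], [(.ofNat 1, 46)],
  [(.ofNat 1, 47)], [(.ofNat 1, 48)], [(.ofNat 1, 49)], [(.ofNat 1, 50)], [(.ofNat 1, 51)],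
  [(.ofNat 1, 52)], [(.ofNat 1, 53)], [(.ofNat 1, 54)]]

def tb_P01 : Tab := [
  [], [], [], [], [], [], [], [], [], [], [(.ofNat 1, 10)], [(.ofNat 1, 11)], [(.ofNat 1, 12)],
  [(.ofNat 1, 13)], [], [], [], [], [], [], [], [], [], [], [], [(.ofNat 1, 25)],
  [(.ofNat 1, 26)], [(.ofNat 1, 27)], [(.ofNat 1, 28)], [], [], [], [], [], [], [], [], [], [],
  [], [(.ofNat 1, 40)], [(.ofNat 1, 41)], [(.ofNat 1, 42)], [(.ofNat 1, 43)], [], [], [], [], [],
  [], [], [], [], [], [], [(.ofNat 1, 55)], [(.ofNat 1, 56)], [(.ofNat 1, 57)], [(.ofNat 1, 58)]]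

def tb_P02 : Tab := [
  [], [], [], [], [], [], [], [], [], [], [], [], [], [], [(.ofNat 1, 14)], [], [], [], [], [],
  [], [], [], [], [], [], [], [], [], [(.ofNat 1, 29)], [], [], [], [], [], [], [], [], [], [],
  [], [], [], [], [(.ofNat 1, 44)], [], [], [], [], [], [], [], [], [], [], [], [], [], [],
  [(.ofNat 1, 59)]]

def tb_P10 : Tab := [
  [], [], [], [], [], [], [], [], [], [], [], [], [], [], [], [], [], [], [], [], [], [], [], [],
  [], [], [], [], [], [], [], [], [], [], [], [], [], [], [], [], [], [], [], [], [], [], [], [],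
  [], [], [], [], [], [], [], [], [], [], [], [], [(.ofNat 1, 60)], [(.ofNat 1, 61)],
  [(.ofNat 1, 62)], [(.ofNat 1, 63)], [(.ofNat 1, 64)], [(.ofNat 1, 65)], [(.ofNat 1, 66)],
  [(.ofNat 1, 67)], [(.ofNat 1, 68)], [(.ofNat 1, 69)], [], [], [], [], [], [(.ofNat 1, 75)],
  [(.ofNat 1, 76)], [(.ofNat 1, 77)], [(.ofNat 1, 78)], [(.ofNat 1, 79)], [(.ofNat 1, 80)],
  [(.ofNat 1, 81)], [(.ofNat 1, 82)], [(.ofNat 1, 83)], [(.ofNat 1, 84)], [], [], [], [], [],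
  [(.ofNat 1, 90)], [(.ofNat 1, 91)], [(.ofNat 1, 92)], [(.ofNat 1, 93)], [(.ofNat 1, 94)],
  [(.ofNat 1, 95)], [(.ofNat 1, 96)], [(.ofNat 1, 97)], [(.ofNat 1, 98)], [(.ofNat 1, 99)], [],
  [], [], [], [], [(.ofNat 1, 105)], [(.ofNat 1, 106)], [(.ofNat 1, 107)], [(.ofNat 1, 108)],
  [(.ofNat 1, 109)], [(.ofNat 1, 110)], [(.ofNat 1, 111)], [(.ofNat 1, 112)], [(.ofNat 1, 113)],
  [(.ofNat 1, 114)]]

def tb_P11 : Tab := [
  [], [], [], [], [], [], [], [], [], [], [], [], [], [], [], [], [], [], [], [], [], [], [], [],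
  [], [], [], [], [], [], [], [], [], [], [], [], [], [], [], [], [], [], [], [], [], [], [], [],
  [], [], [], [], [], [], [], [], [], [], [], [], [], [], [], [], [], [], [], [], [], [],
  [(.ofNat 1, 70)], [(.ofNat 1, 71)], [(.ofNat 1, 72)], [(.ofNat 1, 73)], [], [], [], [], [], [],
  [], [], [], [], [], [(.ofNat 1, 85)], [(.ofNat 1, 86)], [(.ofNat 1, 87)], [(.ofNat 1, 88)], [],
  [], [], [], [], [], [], [], [], [], [], [(.ofNat 1, 100)], [(.ofNat 1, 101)], [(.ofNat 1, 102)],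
  [(.ofNat 1, 103)], [], [], [], [], [], [], [], [], [], [], [], [(.ofNat 1, 115)],
  [(.ofNat 1, 116)], [(.ofNat 1, 117)], [(.ofNat 1, 118)]]

def tb_P12 : Tab := [
  [], [], [], [], [], [], [], [], [], [], [], [], [], [], [], [], [], [], [], [], [], [], [], [],
  [], [], [], [], [], [], [], [], [], [], [], [], [], [], [], [], [], [], [], [], [], [], [], [],
  [], [], [], [], [], [], [], [], [], [], [], [], [], [], [], [], [], [], [], [], [], [], [], [],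
  [], [], [(.ofNat 1, 74)], [], [], [], [], [], [], [], [], [], [], [], [], [], [],
  [(.ofNat 1, 89)], [], [], [], [], [], [], [], [], [], [], [], [], [], [], [(.ofNat 1, 104)], [],
  [], [], [], [], [], [], [], [], [], [], [], [], [], [(.ofNat 1, 119)]]

def tb_La : Tab := [
  [(.ofNat 1, 30)], [(.ofNat 1, 31)], [(.ofNat 1, 32)], [(.ofNat 1, 33)], [(.ofNat 1, 34)],
  [(.ofNat 1, 35)], [(.ofNat 1, 36)], [(.ofNat 1, 37)], [(.ofNat 1, 38)], [(.ofNat 1, 39)],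
  [(.ofNat 1, 40)], [(.ofNat 1, 41)], [(.ofNat 1, 42)], [(.ofNat 1, 43)], [(.ofNat 1, 44)], [],
  [], [], [], [], [], [], [], [], [], [], [], [], [], [], [], [], [], [], [], [], [], [], [], [],
  [], [], [], [], [], [], [], [], [], [], [], [], [], [], [], [], [], [], [], [],
  [(.ofNat 1, 105)], [(.ofNat 1, 106)], [(.ofNat 1, 107)], [(.ofNat 1, 108)], [(.ofNat 1, 109)],
  [(.ofNat 1, 110)], [(.ofNat 1, 111)], [(.ofNat 1, 112)], [(.ofNat 1, 113)], [(.ofNat 1, 114)],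
  [(.ofNat 1, 115)], [(.ofNat 1, 116)], [(.ofNat 1, 117)], [(.ofNat 1, 118)], [(.ofNat 1, 119)]]

def tb_Lb : Tab := [
  [(.ofNat 1, 45)], [(.ofNat 1, 46)], [(.negSucc 0, 33), (.ofNat 1, 47)],
  [(.ofNat 1, 46), (.ofNat 1, 48)], [(.ofNat 1, 49)], [(.negSucc 0, 36), (.ofNat 1, 50)],
  [(.ofNat 1, 49), (.ofNat 1, 51)], [(.ofNat 1, 35), (.negSucc 1, 38), (.ofNat 1, 52)],
  [(.negSucc 0, 36), (.negSucc 0, 39), (.ofNat 1, 50), (.ofNat 1, 53)],
  [(.ofNat 1, 49), (.ofNat 2, 51), (.ofNat 1, 54)], [(.ofNat 1, 55)], [(.ofNat 1, 56)],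
  [(.negSucc 0, 43), (.ofNat 1, 57)], [(.ofNat 1, 56), (.ofNat 1, 58)], [(.ofNat 1, 59)], [], [],
  [], [], [], [], [], [], [], [], [], [], [], [], [], [], [], [], [], [], [], [], [], [], [], [],
  [], [], [], [], [], [], [], [], [], [], [], [], [], [], [], [], [], [], [], [], [],
  [(.negSucc 0, 108)], [], [], [(.negSucc 0, 111)], [], [(.ofNat 1, 110), (.negSucc 1, 113)],
  [(.negSucc 0, 111), (.negSucc 0, 114)], [], [], [], [(.negSucc 0, 118)], [], [],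
  [(.ofNat 1, 105)], [(.ofNat 1, 106)], [(.ofNat 1, 107)], [(.ofNat 1, 106), (.ofNat 1, 108)],
  [(.ofNat 1, 109)], [(.ofNat 1, 110)], [(.ofNat 1, 109), (.ofNat 1, 111)], [(.ofNat 1, 112)],
  [(.ofNat 1, 110), (.ofNat 1, 113)], [(.ofNat 1, 109), (.ofNat 2, 111), (.ofNat 1, 114)],
  [(.ofNat 1, 115)], [(.ofNat 1, 116)], [(.ofNat 1, 117)], [(.ofNat 1, 116), (.ofNat 1, 118)],
  [(.ofNat 1, 119)]]

def tb_LA : Tab := [
  [], [], [], [], [], [], [], [], [], [], [], [], [], [], [], [], [], [], [], [], [], [], [], [],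
  [], [], [], [], [], [], [(.ofNat 1, 15)], [(.ofNat 1, 16)], [(.ofNat 1, 17)],
  [(.negSucc 0, 16), (.ofNat 1, 18)], [(.ofNat 1, 19)], [(.ofNat 1, 20)],
  [(.negSucc 0, 19), (.ofNat 1, 21)], [(.ofNat 1, 22)], [(.negSucc 0, 20), (.ofNat 1, 23)],
  [(.ofNat 1, 19), (.negSucc 1, 21), (.ofNat 1, 24)], [(.ofNat 1, 25)], [(.ofNat 1, 26)],
  [(.ofNat 1, 27)], [(.negSucc 0, 26), (.ofNat 1, 28)], [(.ofNat 1, 29)], [], [],
  [(.negSucc 0, 16), (.ofNat 1, 18)], [], [], [(.negSucc 0, 19), (.ofNat 1, 21)], [],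
  [(.negSucc 2, 20), (.ofNat 2, 23)], [(.ofNat 1, 19), (.negSucc 1, 21), (.ofNat 1, 24)], [], [],
  [], [(.negSucc 0, 26), (.ofNat 1, 28)], [], [], [], [], [], [], [], [], [], [], [], [], [], [],
  [], [], [], [], [], [], [], [], [], [], [], [], [], [], [], [], [], [], [(.ofNat 1, 60)],
  [(.ofNat 1, 61)], [(.ofNat 1, 62), (.negSucc 0, 76), (.ofNat 1, 78)],
  [(.negSucc 0, 61), (.ofNat 1, 63)], [(.ofNat 1, 64)],
  [(.ofNat 1, 65), (.negSucc 0, 79), (.ofNat 1, 81)], [(.negSucc 0, 64), (.ofNat 1, 66)],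
  [(.ofNat 1, 67), (.negSucc 2, 80), (.ofNat 2, 83)],
  [(.negSucc 0, 65), (.ofNat 1, 68), (.ofNat 1, 79), (.negSucc 1, 81), (.ofNat 1, 84)],
  [(.ofNat 1, 64), (.negSucc 1, 66), (.ofNat 1, 69)], [(.ofNat 1, 70)], [(.ofNat 1, 71)],
  [(.ofNat 1, 72), (.negSucc 0, 86), (.ofNat 1, 88)], [(.negSucc 0, 71), (.ofNat 1, 73)],
  [(.ofNat 1, 74)]]

def tb_LB : Tab := [
  [], [], [], [], [], [], [], [], [], [], [], [], [], [], [], [], [], [], [], [], [], [], [], [],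
  [], [], [], [], [], [], [], [], [], [], [], [], [], [], [], [], [], [], [], [], [],
  [(.ofNat 1, 15)], [(.ofNat 1, 16)], [(.ofNat 1, 17)], [(.negSucc 1, 16), (.ofNat 1, 18)],
  [(.ofNat 1, 19)], [(.ofNat 1, 20)], [(.negSucc 1, 19), (.ofNat 1, 21)], [(.ofNat 1, 22)],
  [(.negSucc 1, 20), (.ofNat 1, 23)], [(.ofNat 4, 19), (.negSucc 3, 21), (.ofNat 1, 24)],
  [(.ofNat 1, 25)], [(.ofNat 1, 26)], [(.ofNat 1, 27)], [(.negSucc 1, 26), (.ofNat 1, 28)],
  [(.ofNat 1, 29)], [], [], [], [], [], [], [], [], [], [], [], [], [], [], [], [], [], [], [],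
  [], [], [], [], [], [], [], [], [], [], [], [(.ofNat 1, 75)], [(.ofNat 1, 76)],
  [(.ofNat 1, 77)], [(.negSucc 1, 76), (.ofNat 1, 78)], [(.ofNat 1, 79)], [(.ofNat 1, 80)],
  [(.negSucc 1, 79), (.ofNat 1, 81)], [(.ofNat 1, 82)], [(.negSucc 1, 80), (.ofNat 1, 83)],
  [(.ofNat 4, 79), (.negSucc 3, 81), (.ofNat 1, 84)], [(.ofNat 1, 85)], [(.ofNat 1, 86)],
  [(.ofNat 1, 87)], [(.negSucc 1, 86), (.ofNat 1, 88)], [(.ofNat 1, 89)]]

def tb_Lf : Tab := [
  [(.ofNat 1, 2)], [(.ofNat 1, 5)], [(.ofNat 1, 7)], [(.negSucc 0, 5), (.ofNat 1, 8)], [], [], [],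
  [], [], [], [(.ofNat 1, 12)], [], [], [], [], [(.ofNat 1, 17)], [(.ofNat 1, 20)],
  [(.ofNat 1, 22)], [(.negSucc 0, 20), (.ofNat 1, 23)], [], [], [], [], [], [], [(.ofNat 1, 27)],
  [], [], [], [], [(.ofNat 1, 32)], [(.ofNat 1, 35)], [(.ofNat 1, 37)],
  [(.negSucc 0, 35), (.ofNat 1, 38)], [], [], [], [], [], [], [(.ofNat 1, 42)], [], [], [], [],
  [(.ofNat 1, 47)], [(.ofNat 1, 50)], [(.ofNat 1, 52)], [(.negSucc 0, 50), (.ofNat 1, 53)], [],
  [], [], [], [], [], [(.ofNat 1, 57)], [], [], [], [], [(.ofNat 1, 62)], [(.ofNat 1, 65)],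
  [(.ofNat 1, 67)], [(.negSucc 0, 65), (.ofNat 1, 68)], [], [], [], [], [], [], [(.ofNat 1, 72)],
  [], [], [], [], [(.ofNat 1, 77)], [(.ofNat 1, 80)], [(.ofNat 1, 82)],
  [(.negSucc 0, 80), (.ofNat 1, 83)], [], [], [], [], [], [], [(.ofNat 1, 87)], [], [], [], [],
  [(.ofNat 1, 92)], [(.ofNat 1, 95)], [(.ofNat 1, 97)],
  [(.negSucc 0, 95), (.ofNat 1, 98), (.negSucc 0, 109)], [], [], [], [], [], [],
  [(.ofNat 1, 102)], [], [], [], [], [(.ofNat 1, 107)], [(.ofNat 1, 110)], [(.ofNat 1, 112)],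
  [(.negSucc 0, 110), (.ofNat 1, 113)], [], [], [], [], [], [], [(.ofNat 1, 117)]]

def tb_Lh : Tab := [
  [(.ofNat 1, 3)], [(.ofNat 1, 6)], [(.ofNat 1, 8)], [(.ofNat 1, 9)], [], [], [], [], [], [],
  [(.ofNat 1, 13)], [], [], [], [], [(.ofNat 1, 18)], [(.ofNat 1, 21)], [(.ofNat 1, 23)],
  [(.ofNat 1, 24)], [], [], [], [], [], [], [(.ofNat 1, 28)], [], [], [], [], [(.ofNat 1, 33)],
  [(.ofNat 1, 36)], [(.ofNat 1, 38)], [(.ofNat 1, 39)], [], [], [], [], [], [], [(.ofNat 1, 43)],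
  [], [], [], [], [(.ofNat 1, 48)], [(.ofNat 1, 51)], [(.ofNat 1, 53)], [(.ofNat 1, 54)], [], [],
  [], [], [], [], [(.ofNat 1, 58)], [], [], [], [], [(.ofNat 1, 63)], [(.ofNat 1, 66)],
  [(.ofNat 1, 68)], [(.ofNat 1, 69)], [], [], [], [], [], [], [(.ofNat 1, 73)], [], [], [], [],
  [(.ofNat 1, 78)], [(.ofNat 1, 81)], [(.ofNat 1, 83)], [(.ofNat 1, 84)], [], [], [], [], [], [],
  [(.ofNat 1, 88)], [], [], [], [], [(.ofNat 1, 93)], [(.ofNat 1, 96)], [(.ofNat 1, 98)],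
  [(.ofNat 1, 99)], [], [], [], [], [], [], [(.ofNat 1, 103)], [], [], [], [], [(.ofNat 1, 108)],
  [(.ofNat 1, 111)], [(.ofNat 1, 113)], [(.ofNat 1, 114)], [], [], [], [], [], [],
  [(.ofNat 1, 118)]]

def tb_Lz : Tab := [
  [(.ofNat 1, 1)], [(.ofNat 1, 4)], [(.ofNat 1, 5)], [(.ofNat 1, 6)], [], [], [], [], [], [],
  [(.ofNat 1, 11)], [], [], [], [], [(.ofNat 1, 16)], [(.ofNat 1, 19)], [(.ofNat 1, 20)],
  [(.ofNat 1, 21)], [], [], [], [], [], [], [(.ofNat 1, 26)], [], [], [], [], [(.ofNat 1, 31)],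
  [(.ofNat 1, 34)], [(.ofNat 1, 35)], [(.ofNat 1, 36)], [], [], [], [], [], [], [(.ofNat 1, 41)],
  [], [], [], [], [(.ofNat 1, 46)], [(.ofNat 1, 49)], [(.ofNat 1, 50)], [(.ofNat 1, 51)], [], [],
  [], [], [], [], [(.ofNat 1, 56)], [], [], [], [], [(.ofNat 1, 61)], [(.ofNat 1, 64)],
  [(.ofNat 1, 65)], [(.ofNat 1, 66)], [], [], [], [], [], [], [(.ofNat 1, 71)], [], [], [], [],
  [(.ofNat 1, 76)], [(.ofNat 1, 79)], [(.ofNat 1, 80)], [(.ofNat 1, 81)], [], [], [], [], [], [],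
  [(.ofNat 1, 86)], [], [], [], [], [(.ofNat 1, 91)], [(.ofNat 1, 94)], [(.ofNat 1, 95)],
  [(.ofNat 1, 96)], [], [], [], [], [], [], [(.ofNat 1, 101)], [], [], [], [], [(.ofNat 1, 106)],
  [(.ofNat 1, 109)], [(.ofNat 1, 110)], [(.ofNat 1, 111)], [], [], [], [], [], [],
  [(.ofNat 1, 116)]]

def tb_T00 : Tab := [
  [(.ofNat 1, 0)], [], [], [], [], [], [], [], [], [], [], [], [], [], [], [(.ofNat 1, 15)], [],
  [], [], [], [], [], [], [], [], [], [], [], [], [], [], [], [], [], [], [], [], [], [], [], [],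
  [], [], [], [], [], [], [], [], [], [], [], [], [], [], [], [], [], [], [], [(.ofNat 1, 60)],
  [], [], [], [], [], [], [], [], [], [], [], [], [], [], [(.ofNat 1, 75)]]

def tb_T01 : Tab := [
  [], [(.ofNat 1, 1)], [(.ofNat 1, 2)], [(.ofNat 1, 3)], [], [], [], [], [], [], [(.ofNat 1, 10)],
  [], [], [], [], [], [(.ofNat 1, 16)], [(.ofNat 1, 17)], [(.ofNat 1, 18)], [], [], [], [], [],
  [], [(.ofNat 1, 25)], [], [], [], [], [], [], [], [], [], [], [], [], [], [], [], [], [], [],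
  [], [], [], [], [], [], [], [], [], [], [], [], [], [], [], [], [], [(.ofNat 1, 61)],
  [(.ofNat 1, 62)], [(.ofNat 1, 63)], [], [], [], [], [], [], [(.ofNat 1, 70)], [], [], [], [],
  [], [(.ofNat 1, 76)], [(.ofNat 1, 77)], [(.ofNat 1, 78)], [], [], [], [], [], [],
  [(.ofNat 1, 85)]]

def tb_T02 : Tab := [
  [], [], [], [], [(.ofNat 1, 4)], [(.ofNat 1, 5)], [(.ofNat 1, 6)], [(.ofNat 1, 7)],
  [(.ofNat 1, 8)], [(.ofNat 1, 9)], [], [(.ofNat 1, 11)], [(.ofNat 1, 12)], [(.ofNat 1, 13)],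
  [(.ofNat 1, 14)], [], [], [], [], [(.ofNat 1, 19)], [(.ofNat 1, 20)], [(.ofNat 1, 21)],
  [(.ofNat 1, 22)], [(.ofNat 1, 23)], [(.ofNat 1, 24)], [], [(.ofNat 1, 26)], [(.ofNat 1, 27)],
  [(.ofNat 1, 28)], [(.ofNat 1, 29)], [], [], [], [], [], [], [], [], [], [], [], [], [], [], [],
  [], [], [], [], [], [], [], [], [], [], [], [], [], [], [], [], [], [], [], [(.ofNat 1, 64)],
  [(.ofNat 1, 65)], [(.ofNat 1, 66)], [(.ofNat 1, 67)], [(.ofNat 1, 68)], [(.ofNat 1, 69)], [],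
  [(.ofNat 1, 71)], [(.ofNat 1, 72)], [(.ofNat 1, 73)], [(.ofNat 1, 74)], [], [], [], [],
  [(.ofNat 1, 79)], [(.ofNat 1, 80)], [(.ofNat 1, 81)], [(.ofNat 1, 82)], [(.ofNat 1, 83)],
  [(.ofNat 1, 84)], [], [(.ofNat 1, 86)], [(.ofNat 1, 87)], [(.ofNat 1, 88)], [(.ofNat 1, 89)]]

def tb_T10 : Tab := [
  [], [], [], [], [], [], [], [], [], [], [], [], [], [], [], [], [], [], [], [], [], [], [], [],
  [], [], [], [], [], [], [(.ofNat 1, 30)], [], [], [], [], [], [], [], [], [], [], [], [], [],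
  [], [(.ofNat 1, 45)], [], [], [], [], [], [], [], [], [], [], [], [], [], [], [], [], [], [],
  [], [], [], [], [], [], [], [], [], [], [], [], [], [], [], [], [], [], [], [], [], [], [], [],
  [], [], [(.ofNat 1, 90)], [], [], [], [], [], [], [], [], [], [], [], [], [], [],
  [(.ofNat 1, 105)]]

def tb_T11 : Tab := [
  [], [], [], [], [], [], [], [], [], [], [], [], [], [], [], [], [], [], [], [], [], [], [], [],
  [], [], [], [], [], [], [], [(.ofNat 1, 31)], [(.ofNat 1, 32)], [(.ofNat 1, 33)], [], [], [],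
  [], [], [], [(.ofNat 1, 40)], [], [], [], [], [], [(.ofNat 1, 46)], [(.ofNat 1, 47)],
  [(.ofNat 1, 48)], [], [], [], [], [], [], [(.ofNat 1, 55)], [], [], [], [], [], [], [], [], [],
  [], [], [], [], [], [], [], [], [], [], [], [], [], [], [], [], [], [], [], [], [], [], [], [],
  [], [], [(.ofNat 1, 91)], [(.ofNat 1, 92)], [(.ofNat 1, 93)], [], [], [], [], [], [],
  [(.ofNat 1, 100)], [], [], [], [], [], [(.ofNat 1, 106)], [(.ofNat 1, 107)], [(.ofNat 1, 108)],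
  [], [], [], [], [], [], [(.ofNat 1, 115)]]

def tb_T12 : Tab := [
  [], [], [], [], [], [], [], [], [], [], [], [], [], [], [], [], [], [], [], [], [], [], [], [],
  [], [], [], [], [], [], [], [], [], [], [(.ofNat 1, 34)], [(.ofNat 1, 35)], [(.ofNat 1, 36)],
  [(.ofNat 1, 37)], [(.ofNat 1, 38)], [(.ofNat 1, 39)], [], [(.ofNat 1, 41)], [(.ofNat 1, 42)],
  [(.ofNat 1, 43)], [(.ofNat 1, 44)], [], [], [], [], [(.ofNat 1, 49)], [(.ofNat 1, 50)],
  [(.ofNat 1, 51)], [(.ofNat 1, 52)], [(.ofNat 1, 53)], [(.ofNat 1, 54)], [], [(.ofNat 1, 56)],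
  [(.ofNat 1, 57)], [(.ofNat 1, 58)], [(.ofNat 1, 59)], [], [], [], [], [], [], [], [], [], [],
  [], [], [], [], [], [], [], [], [], [], [], [], [], [], [], [], [], [], [], [], [], [], [], [],
  [(.ofNat 1, 94)], [(.ofNat 1, 95)], [(.ofNat 1, 96)], [(.ofNat 1, 97)], [(.ofNat 1, 98)],
  [(.ofNat 1, 99)], [], [(.ofNat 1, 101)], [(.ofNat 1, 102)], [(.ofNat 1, 103)],
  [(.ofNat 1, 104)], [], [], [], [], [(.ofNat 1, 109)], [(.ofNat 1, 110)], [(.ofNat 1, 111)],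
  [(.ofNat 1, 112)], [(.ofNat 1, 113)], [(.ofNat 1, 114)], [], [(.ofNat 1, 116)],
  [(.ofNat 1, 117)], [(.ofNat 1, 118)], [(.ofNat 1, 119)]]

def tb_sg : Tab := [
  [], [], [], [], [], [], [], [], [], [], [], [], [], [], [], [(.ofNat 1, 75)], [(.ofNat 1, 76)],
  [(.ofNat 1, 77)], [(.ofNat 1, 78)], [(.ofNat 1, 79)], [(.ofNat 1, 80)], [(.ofNat 1, 81)],
  [(.ofNat 1, 82)], [(.ofNat 1, 83)], [(.ofNat 1, 84)], [(.ofNat 1, 85)], [(.ofNat 1, 86)],
  [(.ofNat 1, 87)], [(.ofNat 1, 88)], [(.ofNat 1, 89)], [], [], [], [], [], [], [], [], [], [],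
  [], [], [], [], [], [(.ofNat 1, 90)], [(.ofNat 1, 91)], [(.ofNat 1, 92)], [(.ofNat 1, 93)],
  [(.ofNat 1, 94)], [(.ofNat 1, 95)], [(.ofNat 1, 96)], [(.ofNat 1, 97)], [(.ofNat 1, 98)],
  [(.ofNat 1, 99)], [(.ofNat 1, 100)], [(.ofNat 1, 101)], [(.ofNat 1, 102)], [(.ofNat 1, 103)],
  [(.ofNat 1, 104)]]

def tb_ta : Tab := [
  [], [], [], [], [], [], [], [], [], [], [], [], [], [], [], [], [], [], [], [], [], [], [], [],
  [], [], [], [], [], [], [], [], [], [], [], [], [], [], [], [], [], [], [], [], [], [], [], [],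
  [], [], [], [], [], [], [], [], [], [], [], [], [(.ofNat 1, 0)], [(.ofNat 1, 1)],
  [(.ofNat 1, 2)], [(.ofNat 1, 3)], [(.ofNat 1, 4)], [(.ofNat 1, 5)], [(.ofNat 1, 6)],
  [(.ofNat 1, 7)], [(.ofNat 1, 8)], [(.ofNat 1, 9)], [(.ofNat 1, 10)], [(.ofNat 1, 11)],
  [(.ofNat 1, 12)], [(.ofNat 1, 13)], [(.ofNat 1, 14)], [], [], [], [], [], [], [], [], [], [],
  [], [], [], [], [], [], [], [], [], [], [], [], [], [], [], [], [], [], [], [],
  [(.ofNat 1, 30)], [(.ofNat 1, 31)], [(.ofNat 1, 32)], [(.ofNat 1, 33)], [(.ofNat 1, 34)],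
  [(.ofNat 1, 35)], [(.ofNat 1, 36)], [(.ofNat 1, 37)], [(.ofNat 1, 38)], [(.ofNat 1, 39)],
  [(.ofNat 1, 40)], [(.ofNat 1, 41)], [(.ofNat 1, 42)], [(.ofNat 1, 43)], [(.ofNat 1, 44)]]

def tb_ka : Tab := [
  [], [], [], [], [], [], [], [], [], [], [], [], [], [], [], [], [], [], [], [], [], [], [], [],
  [], [], [], [], [], [], [], [], [], [], [], [], [], [], [], [], [], [], [], [], [], [], [], [],
  [], [], [], [], [], [], [], [], [], [], [], [], [], [], [], [], [], [], [], [], [], [], [], [],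
  [], [(.ofNat 1, 14)], [], [], [], [], [], [], [], [], [], [], [], [], [], [], [], [], [], [],
  [], [], [], [], [], [], [], [], [], [], [], [], [], [], [], [], [], [], [], [], [], [], [], [],
  [], [], [(.ofNat 1, 44)]]

def tb_p1 : Tab := [
  [], [], [], [], [], [], [], [], [], [], [], [], [], [], [], [], [], [], [], [], [], [], [], [],
  [], [], [], [], [], [], [], [], [], [], [], [], [], [], [], [], [], [], [], [], [], [], [], [],
  [], [], [], [], [], [], [], [], [], [], [], [], [(.ofNat 1, 60)], [(.ofNat 1, 61)],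
  [(.ofNat 1, 62)], [(.ofNat 1, 63)], [(.ofNat 1, 64)], [(.ofNat 1, 65)], [(.ofNat 1, 66)],
  [(.ofNat 1, 67)], [(.ofNat 1, 68)], [(.ofNat 1, 69)], [(.ofNat 1, 70)], [(.ofNat 1, 71)],
  [(.ofNat 1, 72)], [(.ofNat 1, 73)], [(.ofNat 1, 74)], [], [], [], [], [], [], [], [], [], [],
  [], [], [], [], [], [], [], [], [], [], [], [], [], [], [], [], [], [], [], [],
  [(.ofNat 1, 105)], [(.ofNat 1, 106)], [(.ofNat 1, 107)], [(.ofNat 1, 108)], [(.ofNat 1, 109)],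
  [(.ofNat 1, 110)], [(.ofNat 1, 111)], [(.ofNat 1, 112)], [(.ofNat 1, 113)], [(.ofNat 1, 114)],
  [(.ofNat 1, 115)], [(.ofNat 1, 116)], [(.ofNat 1, 117)], [(.ofNat 1, 118)], [(.ofNat 1, 119)]]

def tb_g0 : Tab := [
  [], [], [], [], [], [], [], [], [], [], [], [], [], [], [], [], [], [], [], [], [], [], [], [],
  [], [], [], [], [], [], [], [], [], [], [], [], [], [], [], [], [], [], [], [], [], [], [], [],
  [], [], [], [], [], [], [], [], [], [], [], [], [], [], [(.ofNat 1, 70)], [], [],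
  [(.ofNat 1, 71)], [], [(.ofNat 1, 72)], [(.ofNat 1, 71)], [], [], [], [], [], [], [], [], [],
  [], [], [], [], [], [], [], [], [], [], [], [], [], [], [], [], [], [], [], [], [], [], [], [],
  [], [], [], [], [], [(.ofNat 1, 115)], [], [], [(.ofNat 1, 116)], [], [(.ofNat 1, 117)],
  [(.ofNat 1, 116)]]

def tb_g1 : Tab := [
  [], [], [], [], [], [], [], [], [], [], [], [], [], [], [], [], [], [], [], [], [], [], [], [],
  [], [], [], [], [], [], [], [], [], [], [], [], [], [], [], [], [], [], [], [], [], [], [], [],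
  [], [], [], [], [], [], [], [], [], [], [], [], [], [], [], [], [], [], [], [(.ofNat 1, 71)],
  [], [], [], [], [], [], [], [], [], [], [], [], [], [], [], [], [], [], [], [], [], [], [], [],
  [], [], [], [], [], [], [], [], [], [], [], [], [], [], [], [], [], [], [], [],
  [(.ofNat 1, 116)]]

def tb_g2 : Tab := [
  [], [], [], [], [], [], [], [], [], [], [], [], [], [], [], [], [], [], [], [], [], [], [], [],
  [], [], [], [], [], [], [], [], [], [], [], [], [], [], [], [], [], [], [], [], [], [], [], [],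
  [], [], [], [], [], [], [], [], [], [], [], [], [], [], [], [], [], [], [], [],
  [(.ofNat 1, 71)], [], [], [], [], [], [], [], [], [], [], [], [], [], [], [], [], [], [], [],
  [], [], [], [], [], [], [], [], [], [], [], [], [], [], [], [], [], [], [], [], [], [], [], [],
  [], [(.ofNat 1, 116)]]

def tb_r0 : Tab := [
  [], [], [], [], [], [], [], [], [], [], [], [], [], [], [], [], [], [], [], [], [], [], [], [],
  [], [], [], [], [], [], [], [], [], [], [], [], [], [], [], [], [], [], [], [], [], [], [], [],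
  [], [], [], [], [], [], [], [], [], [], [], [], [], [], [], [(.ofNat 1, 70)], [], [],
  [(.ofNat 1, 71)], [], [(.ofNat 1, 72)], [(.ofNat 1, 73)], [], [], [], [], [], [], [], [], [],
  [], [], [], [], [], [], [], [], [], [], [], [], [], [], [], [], [], [], [], [], [], [], [], [],
  [], [], [], [], [], [(.ofNat 1, 115)], [], [], [(.ofNat 1, 116)], [], [(.ofNat 1, 117)],
  [(.ofNat 1, 118)]]

def tb_r1 : Tab := [
  [], [], [], [], [], [], [], [], [], [], [], [], [], [], [], [], [], [], [], [], [], [], [], [],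
  [], [], [], [], [], [], [], [], [], [], [], [], [], [], [], [], [], [], [], [], [], [], [], [],
  [], [], [], [], [], [], [], [], [], [], [], [], [], [], [], [], [], [], [], [], [],
  [(.ofNat 1, 71)], [], [], [], [], [], [], [], [], [], [], [], [], [], [], [], [], [], [], [],
  [], [], [], [], [], [], [], [], [], [], [], [], [], [], [], [], [], [], [], [], [], [], [], [],
  [], [(.ofNat 1, 116)]]

def tb_rp : Tab := [
  [], [], [], [], [], [], [], [], [], [], [], [], [], [], [], [], [], [], [], [], [], [], [], [],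
  [], [], [], [], [], [], [], [], [], [], [], [], [], [], [], [], [], [], [], [], [], [], [], [],
  [], [], [], [], [], [], [], [], [], [], [], [], [], [], [], [], [], [], [], [], [], [], [], [],
  [], [(.ofNat 1, 74)], [], [], [], [], [], [], [], [], [], [], [], [], [], [], [], [], [], [],
  [], [], [], [], [], [], [], [], [], [], [], [], [], [], [], [], [], [], [], [], [], [], [], [],
  [], [], [(.ofNat 1, 119)]]

def tb_q1 : Tab := [
  [(.ofNat 1, 0)], [(.ofNat 1, 1)], [], [], [(.ofNat 1, 4)], [], [], [], [], [], [], [], [], [],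
  [], [], [], [], [], [], [], [], [], [], [], [], [], [], [], [], [(.ofNat 1, 30)],
  [(.ofNat 1, 31)], [], [], [(.ofNat 1, 34)]]

def tb_qf : Tab := [
  [], [], [(.ofNat 1, 1)], [], [], [(.ofNat 1, 4)], [], [], [], [], [], [], [], [], [], [], [],
  [], [], [], [], [], [], [], [], [], [], [], [], [], [], [], [(.ofNat 1, 31)], [], [],
  [(.ofNat 1, 34)]]

def tb_qh : Tab := [
  [], [], [], [(.ofNat 1, 1)], [], [], [(.ofNat 1, 4)], [], [], [], [], [], [], [], [], [], [],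
  [], [], [], [], [], [], [], [], [], [], [], [], [], [], [], [], [(.ofNat 1, 31)], [], [],
  [(.ofNat 1, 34)]]

def tb_qff : Tab := [
  [], [], [], [], [], [], [], [(.ofNat 1, 4)], [], [], [], [], [], [], [], [], [], [], [], [], [],
  [], [], [], [], [], [], [], [], [], [], [], [], [], [], [], [], [(.ofNat 1, 34)]]

def tb_qhf : Tab := [
  [], [], [], [], [], [], [], [], [(.ofNat 1, 4)], [], [], [], [], [], [], [], [], [], [], [], [],
  [], [], [], [], [], [], [], [], [], [], [], [], [], [], [], [], [], [(.ofNat 1, 34)]]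

def tb_qhh : Tab := [
  [], [], [], [], [], [], [], [], [], [(.ofNat 1, 4)], [], [], [], [], [], [], [], [], [], [], [],
  [], [], [], [], [], [], [], [], [], [], [], [], [], [], [], [], [], [], [(.ofNat 1, 34)]]

def tb_a0 : Tab := [
  [], [], [(.ofNat 1, 10)], [], [], [(.ofNat 1, 11)], [], [(.ofNat 1, 12)], [(.ofNat 1, 13)], [],
  [], [], [], [], [], [], [], [], [], [], [], [], [], [], [], [], [], [], [], [], [], [],
  [(.ofNat 1, 40)], [], [], [(.ofNat 1, 41)], [], [(.ofNat 1, 42)], [(.ofNat 1, 43)]]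

def tb_a1 : Tab := [
  [], [], [], [], [], [], [], [(.ofNat 1, 11)], [], [], [], [], [], [], [], [], [], [], [], [],
  [], [], [], [], [], [], [], [], [], [], [], [], [], [], [], [], [], [(.ofNat 1, 41)]]

def tb_b0 : Tab := [
  [], [], [], [(.ofNat 1, 10)], [], [], [(.ofNat 1, 11)], [], [], [(.ofNat 1, 13)], [], [], [],
  [], [], [], [], [], [], [], [], [], [], [], [], [], [], [], [], [], [], [], [],
  [(.ofNat 1, 40)], [], [], [(.ofNat 1, 41)], [], [], [(.ofNat 1, 43)]]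

def tb_b1 : Tab := [
  [], [], [], [], [], [], [], [], [], [(.ofNat 1, 11)], [], [], [], [], [], [], [], [], [], [],
  [], [], [], [], [], [], [], [], [], [], [], [], [], [], [], [], [], [], [], [(.ofNat 1, 41)]]

def tb_b2 : Tab := [
  [], [], [], [], [], [], [], [], [(.ofNat 1, 11)], [], [], [], [], [], [], [], [], [], [], [],
  [], [], [], [], [], [], [], [], [], [], [], [], [], [], [], [], [], [], [(.ofNat 1, 41)]]

def tb_zz : Tab := [
  [(.ofNat 1, 0)], [(.ofNat 1, 1)], [(.ofNat 1, 2)], [(.ofNat 1, 3)], [(.ofNat 1, 4)],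
  [(.ofNat 1, 5)], [(.ofNat 1, 6)], [(.ofNat 1, 7)], [(.ofNat 1, 8)], [(.ofNat 1, 9)], [], [], [],
  [], [], [], [], [], [], [], [], [], [], [], [], [], [], [], [], [], [(.ofNat 1, 30)],
  [(.ofNat 1, 31)], [(.ofNat 1, 32)], [(.ofNat 1, 33)], [(.ofNat 1, 34)], [(.ofNat 1, 35)],
  [(.ofNat 1, 36)], [(.ofNat 1, 37)], [(.ofNat 1, 38)], [(.ofNat 1, 39)]]

/-- All tables. -/
def allTabs : List Tab := [
  tb_Ra, tb_Rb, tb_RA, tb_RB, tb_Rf, tb_Rh, tb_Rz, tb_P00, tb_P01, tb_P02, tb_P10, tb_P11, tb_P12, tb_La, tb_Lb, tb_LA, tb_LB, tb_Lf, tb_Lh, tb_Lz, tb_T00, tb_T01, tb_T02, tb_T10, tb_T11, tb_T12, tb_sg, tb_ta, tb_ka, tb_p1, tb_g0, tb_g1, tb_g2, tb_r0, tb_r1, tb_rp, tb_q1, tb_qf, tb_qh, tb_qff, tb_qhf, tb_qhh, tb_a0, tb_a1, tb_b0, tb_b1, tb_b2, tb_zz]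

end W450.Rig
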