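/-
A small language of operators on `Fin 120 → V` (tables, letters acting on `V`) together with a
kernel-checkable zero test, for a representation `V` of a three-dimensional Lie algebra.
-/
import Pool.Agent.W450.RigTab
import Pool.Agent.W450.RigSL

namespace W450.Rig

/-- Index set of the basis. -/
abbrev B := Fin 120

/-- Formal sums: coefficient, word in the letters `0 = h`, `1 = f`, `2 = e`, basis index. -/
abbrev FS := List (ℤ × List ℕ × ℕ)

/-- The row number `i` of the table number `n`. -/
def tabRow (n i : ℕ) : Row := (allTabs.getD n []).getD i []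

/-- Operator expressions. -/
inductive Ex
  | one
  | tab (n : ℕ)
  | ltr (k : ℕ)
  | mul (a b : Ex)
  | add (a b : Ex)
  | smul (c : ℤ) (a : Ex)

namespace Ex

instance : Mul Ex := ⟨Ex.mul⟩
instance : Add Ex := ⟨Ex.add⟩
instance : Sub Ex := ⟨fun a b => Ex.add a (Ex.smul (-1) b)⟩
instance : One Ex := ⟨Ex.one⟩

/-- Symbolic evaluation. -/
def row : Ex → FS → FS
  | one, l => l
  | tab n, l => l.flatMap fun p => (tabRow n p.2.2).map fun q => (p.1 * q.1, p.2.1, q.2)
  | ltr k, l => l.map fun p => (p.1, k :: p.2.1, p.2.2)
  | mul a b, l => row a (row b l)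
  | add a b, l => row a l ++ row b l
  | smul c a, l => (row a l).map fun p => (c * p.1, p.2)

end Ex

/-- One rewriting step towards PBW order `h ≤ f ≤ e`. -/
def stepW : List ℕ → Option (List (ℤ × List ℕ))
  | [] => none
  | a :: w =>
    match a, w with
    | 2, 0 :: w' => some [(1, 0 :: 2 :: w'), (1, 2 :: w')]
    | 2, 1 :: w' => some [(1, 1 :: 2 :: w'), (-1, 0 :: w')]
    | 1, 0 :: w' => some [(1, 0 :: 1 :: w'), (-1, 1 :: w')]
    | a, w => (stepW w).map fun l => l.map fun p => (p.1, a :: p.2)

/-- Normal form of a word (with fuel). -/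
def nfW : ℕ → List ℕ → List (ℤ × List ℕ)
  | 0, w => [(1, w)]
  | n + 1, w =>
    match stepW w with
    | none => [(1, w)]
    | some l => l.flatMap fun p => (nfW n p.2).map fun q => (p.1 * q.1, q.2)

/-- Normal form of a formal sum. -/
def nfF (l : FS) : FS := l.flatMap fun p => (nfW 12 p.2.1).map fun q => (p.1 * q.1, q.2, p.2.2)

/-- Boolean equality of words. -/
def eqw : List ℕ → List ℕ → Bool
  | [], [] => true
  | a :: l, b :: m => Nat.beq a b && eqw l m
  | _, _ => false

theorem eqw_iff (l m : List ℕ) : eqw l m = true ↔ l = m := by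
  induction l generalizing m with
  | nil => cases m <;> simp [eqw]
  | cons a l ih =>
    cases m with
    | nil => simp [eqw]
    | cons b m => simp [eqw, ih]

/-- Coefficient of a word and an index in a formal sum. -/
def cf : FS → List ℕ → ℕ → ℤ
  | [], _, _ => 0
  | p :: l, w, i => cond (Nat.beq p.2.2 i && eqw p.2.1 w) p.1 0 + cf l w i

/-- The zero test for a formal sum. -/
def zchk (l : FS) : Bool := l.all fun p => cf l p.2.1 p.2.2 == 0

/-- The zero test for an operator expression. -/
def Ex.chk (x : Ex) : Bool := (List.range 120).all fun j => zchk (nfF (x.row [(1, [], j)]))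

/-- Coefficient in a row. -/
def coefR : Row → ℕ → ℤ
  | [], _ => 0
  | p :: l, i => (if p.2 = i then p.1 else 0) + coefR l i

universe u

variable {K : Type u} [Field K]
variable {V : Type u} [AddCommGroup V] [Module K V]
variable {V' : Type u} [AddCommGroup V'] [Module K V']

/-- The letters. -/
def SL.L (S : SL K V) : ℕ → Module.End K V
  | 0 => S.h
  | 1 => S.f
  | 2 => S.e
  | _ => 0

/-- The action of a word. -/
def SL.wd (S : SL K V) : List ℕ → Module.End K V
  | [] => 1
  | a :: w => S.L a * S.wd w

/-- Evaluation of a list of words with coefficients. -/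
def SL.wds (S : SL K V) : List (ℤ × List ℕ) → Module.End K V
  | [] => 0
  | p :: l => p.1 • S.wd p.2 + S.wds l

theorem SL.wds_append (S : SL K V) (l m : List (ℤ × List ℕ)) :
    S.wds (l ++ m) = S.wds l + S.wds m := by
  induction l with
  | nil => simp [SL.wds]
  | cons p l ih => simp [SL.wds, ih, add_assoc]

theorem SL.wds_map_cons (S : SL K V) (a : ℕ) (l : List (ℤ × List ℕ)) :
    S.wds (l.map fun p => (p.1, a :: p.2)) = S.L a * S.wds l := by
  induction l with
  | nil => simp [SL.wds]
  | cons p l ih =>
    rw [List.map_cons, SL.wds, ih, SL.wds, mul_add, mul_smul_comm]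
    rfl

theorem SL.wds_map_mul (S : SL K V) (c : ℤ) (l : List (ℤ × List ℕ)) :
    S.wds (l.map fun p => (c * p.1, p.2)) = c • S.wds l := by
  induction l with
  | nil => simp [SL.wds]
  | cons p l ih => rw [List.map_cons, SL.wds, ih, SL.wds, smul_add, mul_smul]

theorem SL.stepW_sound (S : SL K V) (w : List ℕ) (l : List (ℤ × List ℕ))
    (h : stepW w = some l) : S.wds l = S.wd w := by
  induction w generalizing l with
  | nil => simp [stepW] at h
  | cons a w ih =>
    unfold stepW at h
    split at h
    · simp only [Option.some.injEq] at h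
      subst h
      have h1 := S.eh
      simp only [SL.wds, SL.wd, SL.L, one_smul, add_zero]
      rw [← mul_assoc, ← mul_assoc, ← add_mul]
      congr 1
      rw [sub_eq_iff_eq_add] at h1
      rw [h1]; abel
    · simp only [Option.some.injEq] at h
      subst h
      have h1 := S.fe
      simp only [SL.wds, SL.wd, SL.L, one_smul, add_zero, neg_smul]
      rw [← mul_assoc, ← mul_assoc, ← sub_eq_add_neg, ← sub_mul]
      congr 1
      rw [← h1]; abel
    · simp only [Option.some.injEq] at h
      subst h
      have h1 := S.hf
      simp only [SL.wds, SL.wd, SL.L, one_smul, add_zero, neg_smul]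
      rw [← mul_assoc, ← mul_assoc, ← sub_eq_add_neg, ← sub_mul]
      congr 1
      nth_rewrite 2 [← h1]
      abel
    · cases hs : stepW w with
      | none => rw [hs] at h; simp at h
      | some m =>
        rw [hs] at h
        simp only [Option.map_some, Option.some.injEq] at h
        subst h
        rw [S.wds_map_cons, ih m hs]
        rfl

theorem SL.nfW_sound (S : SL K V) (n : ℕ) (w : List ℕ) : S.wds (nfW n w) = S.wd w := by
  induction n generalizing w with
  | zero => simp [nfW, SL.wds]
  | succ n ih =>
    unfold nfW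
    split
    · simp [SL.wds]
    · rename_i l hl
      rw [← S.stepW_sound w l hl]
      clear hl
      induction l with
      | nil => simp [SL.wds]
      | cons p l ih2 =>
        rw [List.flatMap_cons, S.wds_append, S.wds_map_mul, ih, ih2]
        rfl

/-- Evaluation of a formal sum at a vector. -/
def SL.val (S : SL K V) : FS → V → (B → V)
  | [], _ => 0
  | p :: l, v => (fun i : B => if (i : ℕ) = p.2.2 then p.1 • S.wd p.2.1 v else 0) + S.val l v

theorem SL.val_append (S : SL K V) (l m : FS) (v : V) :
    S.val (l ++ m) v = S.val l v + S.val m v := by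
  induction l with
  | nil => simp [SL.val]
  | cons p l ih => simp [SL.val, ih, add_assoc]

theorem SL.val_map_mul (S : SL K V) (c : ℤ) (l : FS) (v : V) :
    S.val (l.map fun p => (c * p.1, p.2)) v = c • S.val l v := by
  induction l with
  | nil => simp [SL.val]
  | cons p l ih =>
    rw [List.map_cons, SL.val, ih, SL.val, smul_add]
    congr 1
    funext i
    simp [mul_smul]

theorem SL.val_wds (S : SL K V) (l : List (ℤ × List ℕ)) (c : ℤ) (j : ℕ) (v : V) :
    S.val (l.map fun q => (c * q.1, q.2, j)) v =
      fun i : B => if (i : ℕ) = j then c • S.wds l v else 0 := by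
  induction l with
  | nil => funext i; simp [SL.val, SL.wds]
  | cons p l ih =>
    rw [List.map_cons, SL.val, ih]
    funext i
    by_cases hi : (i : ℕ) = j
    · simp [hi, SL.wds, mul_smul]
    · simp [hi]

theorem SL.nfF_sound (S : SL K V) (l : FS) (v : V) : S.val (nfF l) v = S.val l v := by
  induction l with
  | nil => simp [nfF]
  | cons p l ih =>
    have : nfF (p :: l) = ((nfW 12 p.2.1).map fun q => (p.1 * q.1, q.2, p.2.2)) ++ nfF l := by
      simp [nfF]
    rw [this, S.val_append, ih, S.val_wds, S.nfW_sound]
    rfl

/-- The formal sum as a finitely supported function. -/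
noncomputable def toFs : FS → ((List ℕ × ℕ) →₀ ℤ)
  | [] => 0
  | p :: l => Finsupp.single p.2 p.1 + toFs l

theorem toFs_apply (l : FS) (w : List ℕ) (i : ℕ) : toFs l (w, i) = cf l w i := by
  induction l with
  | nil => simp [toFs, cf]
  | cons p l ih =>
    obtain ⟨c, w', i'⟩ := p
    simp only [toFs, cf, Finsupp.add_apply, ih]
    congr 1
    rw [Finsupp.single_apply]
    by_cases h : w' = w ∧ i' = i
    · obtain ⟨rfl, rfl⟩ := h
      have : eqw w' w' = true := (eqw_iff _ _).2 rfl
      simp [this]
    · have h1 : ¬ ((w', i') = (w, i)) := by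
        intro h2; exact h ⟨(Prod.mk.inj h2).1, (Prod.mk.inj h2).2⟩
      rw [if_neg h1]
      cases h3 : (Nat.beq i' i && eqw w' w) with
      | false => simp
      | true =>
        exfalso
        simp only [Bool.and_eq_true, eqw_iff] at h3
        exact h ⟨h3.2, Nat.eq_of_beq_eq_true h3.1⟩

theorem cf_eq_zero_of_zchk (l : FS) (h : zchk l = true) (w : List ℕ) (i : ℕ) :
    cf l w i = 0 := by
  by_cases hm : ∃ p ∈ l, p.2 = (w, i)
  · obtain ⟨p, hp, hpe⟩ := hm
    simp only [zchk, List.all_eq_true] at h
    have := h p hp
    rw [hpe] at this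
    simpa using this
  · push Not at hm
    clear h
    induction l with
    | nil => rfl
    | cons p l ih =>
      have h1 := hm p (by simp)
      have h2 := ih (fun q hq => hm q (by simp [hq]))
      rw [cf, h2]
      cases h3 : (Nat.beq p.2.2 i && eqw p.2.1 w) with
      | false => simp
      | true =>
        exfalso
        simp only [Bool.and_eq_true, eqw_iff] at h3
        exact h1 (Prod.ext h3.2 (Nat.eq_of_beq_eq_true h3.1))

/-- Value of a basis symbol. -/
def SL.bs (S : SL K V) (v : V) (q : List ℕ × ℕ) : B → V :=
  fun i => if (i : ℕ) = q.2 then S.wd q.1 v else 0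

theorem SL.val_eq (S : SL K V) (l : FS) (v : V) :
    S.val l v = (toFs l).sum fun q c => c • S.bs v q := by
  induction l with
  | nil => simp [SL.val, toFs]
  | cons p l ih =>
    rw [SL.val, toFs, Finsupp.sum_add_index' (by simp) (by intros; rw [add_smul]), ih]
    congr 1
    rw [Finsupp.sum_single_index (by simp)]
    funext i
    simp [SL.bs]

theorem SL.val_eq_zero (S : SL K V) (l : FS) (h : zchk l = true) (v : V) : S.val l v = 0 := by
  rw [S.val_eq]
  have : toFs l = 0 := by
    ext ⟨w, i⟩
    rw [toFs_apply, cf_eq_zero_of_zchk l h]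
    rfl
  rw [this]; simp

/-! ### Operators -/

/-- The action of a matrix on `B → V`. -/
def tact (M : Matrix B B K) : Module.End K (B → V) where
  toFun x := fun i => ∑ j, M i j • x j
  map_add' x y := by funext i; simp [Finset.sum_add_distrib]
  map_smul' c x := by
    funext i
    simp only [Pi.smul_apply, RingHom.id_apply, Finset.smul_sum]
    exact Finset.sum_congr rfl fun j _ => smul_comm _ _ _

theorem tact_apply (M : Matrix B B K) (x : B → V) (i : B) :
    (tact M : Module.End K (B → V)) x i = ∑ j, M i j • x j := rfl

theorem tact_mul (M N : Matrix B B K) :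
    (tact (M * N) : Module.End K (B → V)) = tact M * tact N := by
  refine LinearMap.ext fun x => ?_
  funext i
  rw [Module.End.mul_apply, tact_apply, tact_apply]
  simp_rw [Matrix.mul_apply, tact_apply, Finset.sum_smul, Finset.smul_sum, mul_smul]
  rw [Finset.sum_comm]

theorem tact_one : (tact (1 : Matrix B B K) : Module.End K (B → V)) = 1 := by
  refine LinearMap.ext fun x => ?_
  funext i
  rw [tact_apply]
  simp [Matrix.one_apply]

theorem tact_add (M N : Matrix B B K) :
    (tact (M + N) : Module.End K (B → V)) = tact M + tact N := by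
  refine LinearMap.ext fun x => ?_
  funext i
  simp [tact_apply, add_smul, Finset.sum_add_distrib]

theorem tact_smul (c : K) (M : Matrix B B K) :
    (tact (c • M) : Module.End K (B → V)) = c • tact M := by
  refine LinearMap.ext fun x => ?_
  funext i
  simp [tact_apply, mul_smul, Finset.smul_sum]

/-- The matrix of a table. -/
def tmat (K : Type u) [Field K] (n : ℕ) : Matrix B B K :=
  fun i j => ((coefR (tabRow n j) i : ℤ) : K)

/-- A linear map acting coordinatewise. -/
def lact (m : V →ₗ[K] V') : (B → V) →ₗ[K] (B → V') where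
  toFun x := fun i => m (x i)
  map_add' x y := by funext i; simp
  map_smul' c x := by funext i; simp

theorem lact_apply (m : V →ₗ[K] V') (x : B → V) (i : B) : lact m x i = m (x i) := rfl

/-- Evaluation of an expression. -/
def SL.ev (S : SL K V) : Ex → Module.End K (B → V)
  | .one => 1
  | .tab n => tact (tmat K n)
  | .ltr k => lact (S.L k)
  | .mul a b => S.ev a * S.ev b
  | .add a b => S.ev a + S.ev b
  | .smul c a => c • S.ev a

theorem SL.ev_mul (S : SL K V) (a b : Ex) : S.ev (a * b) = S.ev a * S.ev b := rfl
theorem SL.ev_add (S : SL K V) (a b : Ex) : S.ev (a + b) = S.ev a + S.ev b := rfl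
theorem SL.ev_one (S : SL K V) : S.ev 1 = 1 := rfl
theorem SL.ev_sub (S : SL K V) (a b : Ex) : S.ev (a - b) = S.ev a - S.ev b := by
  show S.ev a + (-1 : ℤ) • S.ev b = _
  rw [neg_one_zsmul, sub_eq_add_neg]

theorem tabs_len : allTabs.all (fun t => Nat.ble t.length 120) = true := by decide +kernel

theorem tabRow_len (n i : ℕ) (hi : 120 ≤ i) : tabRow n i = [] := by
  unfold tabRow
  have h : (allTabs.getD n []).length ≤ 120 := by
    rw [List.getD_eq_getElem?_getD]
    cases hn : allTabs[n]? with
    | none => simp
    | some t =>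
      have h1 := tabs_len
      rw [List.all_eq_true] at h1
      have := h1 t (List.mem_of_getElem? hn)
      simpa using Nat.le_of_ble_eq_true this
  rw [List.getD_eq_default _ _ (by omega)]

theorem SL.val_tabRow (S : SL K V) (r : Row) (c : ℤ) (w : List ℕ) (v : V) :
    S.val (r.map fun q => (c * q.1, w, q.2)) v =
      fun i : B => coefR r i • (c • S.wd w v) := by
  induction r with
  | nil => funext i; simp [SL.val, coefR]
  | cons q r ih =>
    rw [List.map_cons, SL.val, ih]
    funext i
    simp only [Pi.add_apply, coefR, add_smul]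
    congr 1
    by_cases h : (i : ℕ) = q.2
    · rw [if_pos h, if_pos h.symm, smul_smul, mul_comm]
    · rw [if_neg h, if_neg (fun h' => h h'.symm), zero_smul]

theorem SL.ev_val (S : SL K V) (x : Ex) (l : FS) (v : V) :
    S.ev x (S.val l v) = S.val (x.row l) v := by
  induction x generalizing l with
  | one => rfl
  | tab n =>
    show tact (tmat K n) (S.val l v) = _
    induction l with
    | nil => simp [SL.val, Ex.row]
    | cons p l ih =>
      have e1 : Ex.row (Ex.tab n) (p :: l) =
        ((tabRow n p.2.2).map fun q => (p.1 * q.1, p.2.1, q.2)) ++ Ex.row (Ex.tab n) l := by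
        simp [Ex.row]
      rw [e1, S.val_append, SL.val, map_add, ih, S.val_tabRow]
      congr 1
      funext i
      rw [tact_apply]
      by_cases h : p.2.2 < 120
      · rw [Finset.sum_eq_single (⟨p.2.2, h⟩ : B)]
        · simp only [tmat, if_pos, Int.cast_smul_eq_zsmul]
        · intro j _ hj
          have : (j : ℕ) ≠ p.2.2 := fun h' => hj (Fin.ext h')
          simp [this]
        · simp
      · rw [tabRow_len n _ (by omega)]
        simp only [coefR, zero_smul]
        apply Finset.sum_eq_zero
        intro j _
        have : (j : ℕ) ≠ p.2.2 := by have := j.isLt; omega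
        simp [this]
  | ltr k =>
    show lact (S.L k) (S.val l v) = _
    induction l with
    | nil => simp [SL.val, Ex.row]
    | cons p l ih =>
      have e1 : Ex.row (Ex.ltr k) (p :: l) = (p.1, k :: p.2.1, p.2.2) :: Ex.row (Ex.ltr k) l := by
        simp [Ex.row]
      rw [e1, SL.val, SL.val, map_add, ih]
      congr 1
      funext i
      rw [lact_apply]
      by_cases h : (i : ℕ) = p.2.2
      · simp [h, SL.wd]
      · simp [h]
  | mul a b iha ihb =>
    show S.ev a (S.ev b (S.val l v)) = _
    rw [ihb, iha]
    rfl
  | add a b iha ihb =>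
    show S.ev a (S.val l v) + S.ev b (S.val l v) = _
    rw [iha, ihb, ← S.val_append]
    rfl
  | smul c a iha =>
    show c • S.ev a (S.val l v) = _
    rw [iha, ← S.val_map_mul]
    rfl

theorem SL.ev_eq_zero (S : SL K V) (x : Ex) (h : x.chk = true) : S.ev x = 0 := by
  apply LinearMap.pi_ext
  intro j v
  have e1 : (Pi.single j v : B → V) = S.val [(1, [], (j : ℕ))] v := by
    funext i
    simp only [SL.val, SL.wd, Pi.add_apply, Pi.zero_apply, add_zero, one_smul,
      Module.End.one_apply]
    by_cases hi : i = j
    · subst hi; simp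
    · have : (i : ℕ) ≠ (j : ℕ) := fun h' => hi (Fin.ext h')
      simp [hi, this]
  rw [e1, S.ev_val, ← S.nfF_sound]
  rw [S.val_eq_zero]
  · rfl
  · simp only [Ex.chk, List.all_eq_true] at h
    exact h j (List.mem_range.2 j.isLt)

/-- The main tool: two expressions are equal as operators. -/
theorem SL.ev_eq (S : SL K V) (x y : Ex) (h : (x - y).chk = true) : S.ev x = S.ev y := by
  have := S.ev_eq_zero (x - y) h
  rw [S.ev_sub] at this
  exact sub_eq_zero.1 this

end W450.Rig
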