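/-
The explicit resolution: operators, differentials, and `D ∘ D = 0`.
-/
import Pool.Agent.W450.RigAlg
import Pool.Agent.W450.RigIds2

namespace W450.Rig

universe u

variable {K : Type u} [Field K]
variable {V : Type u} [AddCommGroup V] [Module K V]

/-- Four copies of `Fin 120 → V`. -/
abbrev X4 (V : Type u) : Type u := (B → V) × (B → V) × (B → V) × (B → V)

namespace SL

variable (S : SL K V)

/-- `R_b - e R_a` -/
def E : (B → V) →ₗ[Rg K] (B → V) := S.evR X.EE rfl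
/-- `R_f - f R_z` -/
def F : (B → V) →ₗ[Rg K] (B → V) := S.evR X.FF rfl
/-- `R_h - h R_z` -/
def H : (B → V) →ₗ[Rg K] (B → V) := S.evR X.HH rfl
/-- `R_A + e R_B` -/
def W : (B → V) →ₗ[Rg K] (B → V) := S.evR X.WW rfl
/-- `R_a` -/
def ra : (B → V) →ₗ[Rg K] (B → V) := S.evR X.Ra rfl
/-- `R_b` -/
def rb : (B → V) →ₗ[Rg K] (B → V) := S.evR X.Rb rfl
/-- `R_A` -/
def rA : (B → V) →ₗ[Rg K] (B → V) := S.evR X.RA rfl
/-- `R_B` -/
def rB : (B → V) →ₗ[Rg K] (B → V) := S.evR X.RB rfl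
/-- `R_z` -/
def rz : (B → V) →ₗ[Rg K] (B → V) := S.evR X.Rz rfl
/-- homotopy -/
def sg : (B → V) →ₗ[K] (B → V) := S.ev X.sg
/-- homotopy -/
def ta : (B → V) →ₗ[K] (B → V) := S.ev X.ta

theorem opEq {x y : Ex} (h : (x - y).chk = true) (v : B → V) : S.ev x v = S.ev y v := by
  rw [S.ev_eq x y h]

theorem evZ (v : B → V) : S.ev Z v = 0 := by
  show (0 : ℤ) • S.ev 1 v = 0
  rw [zero_smul]

/-! Relations between the operators. -/

theorem r_EW (x : B → V) : S.E (S.W x) = 0 := by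
  have := S.opEq id_EW x
  rw [S.evZ] at this
  exact this

theorem r_WE (x : B → V) : S.W (S.E x) = 0 := by
  have := S.opEq id_WE x
  rw [S.evZ] at this
  exact this

theorem r_FE (x : B → V) : S.F (S.E x) = S.E (S.F x) - S.H (S.ra x) := by
  have := S.opEq id_FE x
  rw [S.ev_sub] at this
  exact this

theorem r_HE (x : B → V) : S.H (S.E x) = S.E (S.H x) + S.E (S.rz x) := by
  have := S.opEq id_HE x
  rw [← map_add]
  exact this

theorem r_WH (x : B → V) : S.W (S.H x) = S.H (S.W x) + S.rz (S.W x) := S.opEq id_WH x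

theorem r_Wa (x : B → V) : S.W (S.ra x) = S.rB (S.E x) := S.opEq id_WRa x

theorem r_WF (x : B → V) : S.W (S.F x) = S.F (S.W x) - (S.H (S.rB x) + S.rz (S.rB x)) := by
  have := S.opEq id_WF x
  rw [S.ev_sub] at this
  exact this

theorem r_aW (x : B → V) : S.ra (S.W x) = S.E (S.rB x) := S.opEq id_RaW x

theorem r_BH (x : B → V) : S.rB (S.H x) = S.H (S.rB x) + S.rz (S.rB x) + S.rz (S.rB x) :=
  S.opEq id_RBH x

theorem r_HF (x : B → V) :
    S.H (S.F x) = S.F (S.H x) - S.F (S.rz x) - S.rA (S.ra (S.rz (S.rz x))) := by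
  have := S.opEq id_HF x
  rw [S.ev_sub, S.ev_sub] at this
  exact this

theorem r_FB (x : B → V) : S.F (S.rB x) = S.rB (S.F x) := S.opEq id_FRB x
theorem r_Ha (x : B → V) : S.H (S.ra x) = S.ra (S.H x) := S.opEq id_HRa x
theorem r_Fa (x : B → V) : S.F (S.ra x) = S.ra (S.F x) := S.opEq id_FRa x
theorem r_za (x : B → V) : S.rz (S.ra x) = S.ra (S.rz x) := S.opEq id_zRa x
theorem r_zb (x : B → V) : S.rz (S.rb x) = S.rb (S.rz x) := S.opEq id_zRb x
theorem r_zA (x : B → V) : S.rz (S.rA x) = S.rA (S.rz x) := S.opEq id_zRA x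
theorem r_zB (x : B → V) : S.rz (S.rB x) = S.rB (S.rz x) := S.opEq id_zRB x

theorem ltr_tab (k n : ℕ) (x : B → V) :
    S.ev (Ex.tab n) (S.ev (Ex.ltr k) x) = S.ev (Ex.ltr k) (S.ev (Ex.tab n) x) :=
  tact_lact (tmat K n) (S.L k) x

theorem r_zE (x : B → V) : S.rz (S.E x) = S.E (S.rz x) := by
  show S.ev X.Rz (S.ev X.EE x) = S.ev X.EE (S.ev X.Rz x)
  have h1 := S.opEq id_zRb x
  have h2 := S.opEq id_zRa x
  rw [S.ev_mul, S.ev_mul] at h1 h2
  simp only [Module.End.mul_apply] at h1 h2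
  simp only [X.EE, S.ev_sub, S.ev_mul, LinearMap.sub_apply, Module.End.mul_apply, map_sub]
  rw [h1, ← h2]
  rw [show X.e = Ex.ltr 2 from rfl, show X.Rz = Ex.tab 6 from rfl, S.ltr_tab]

theorem r_zF (x : B → V) : S.rz (S.F x) = S.F (S.rz x) := by
  show S.ev X.Rz (S.ev X.FF x) = S.ev X.FF (S.ev X.Rz x)
  have h1 := S.opEq id_zRf x
  rw [S.ev_mul, S.ev_mul] at h1
  simp only [Module.End.mul_apply] at h1
  simp only [X.FF, S.ev_sub, S.ev_mul, LinearMap.sub_apply, Module.End.mul_apply, map_sub]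
  rw [h1]
  rw [show X.f = Ex.ltr 1 from rfl, show X.Rz = Ex.tab 6 from rfl, S.ltr_tab]

theorem r_zH (x : B → V) : S.rz (S.H x) = S.H (S.rz x) := by
  show S.ev X.Rz (S.ev X.HH x) = S.ev X.HH (S.ev X.Rz x)
  have h1 := S.opEq id_zRh x
  rw [S.ev_mul, S.ev_mul] at h1
  simp only [Module.End.mul_apply] at h1
  simp only [X.HH, S.ev_sub, S.ev_mul, LinearMap.sub_apply, Module.End.mul_apply, map_sub]
  rw [h1]
  rw [show X.h = Ex.ltr 0 from rfl, show X.Rz = Ex.tab 6 from rfl, S.ltr_tab]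

theorem r_zW (x : B → V) : S.rz (S.W x) = S.W (S.rz x) := by
  show S.ev X.Rz (S.ev X.WW x) = S.ev X.WW (S.ev X.Rz x)
  have h1 := S.opEq id_zRA x
  have h2 := S.opEq id_zRB x
  rw [S.ev_mul, S.ev_mul] at h1 h2
  simp only [Module.End.mul_apply] at h1 h2
  simp only [X.WW, S.ev_add, S.ev_mul, LinearMap.add_apply, Module.End.mul_apply, map_add]
  rw [h1, ← h2]
  rw [show X.e = Ex.ltr 2 from rfl, show X.Rz = Ex.tab 6 from rfl, S.ltr_tab]

/-! The differentials. -/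

/-- Differential in odd degrees (general). -/
def Do (k : ℤ) : X4 V →ₗ[Rg K] X4 V where
  toFun x := (S.E x.1 + S.H x.2.1 + S.F x.2.2.1 + k • S.ra (S.rz (S.rz x.2.2.2)),
    S.W x.2.1 - S.rB x.2.2.1 - S.F x.2.2.2, S.W x.2.2.1 + S.H x.2.2.2, S.E x.2.2.2)
  map_add' x y := by
    refine Prod.ext ?_ (Prod.ext ?_ (Prod.ext ?_ ?_)) <;>
    simp only [Prod.fst_add, Prod.snd_add, map_add, smul_add] <;> abel
  map_smul' r x := by
    refine Prod.ext ?_ (Prod.ext ?_ (Prod.ext ?_ ?_)) <;>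
    simp only [Prod.smul_fst, Prod.smul_snd, map_smul, smul_add, smul_sub, RingHom.id_apply,
      smul_comm k r]

/-- Differential in even degrees (general). -/
def De (c : ℤ) : X4 V →ₗ[Rg K] X4 V where
  toFun x := (S.W x.1 - (S.H x.2.1 + S.rz x.2.1) - S.F x.2.2.1 +
      c • S.rB (S.rz (S.rz x.2.2.2)),
    S.E x.2.1 + S.ra x.2.2.1 + S.F x.2.2.2, S.E x.2.2.1 - (S.H x.2.2.2 - S.rz x.2.2.2),
    S.W x.2.2.2)
  map_add' x y := by
    refine Prod.ext ?_ (Prod.ext ?_ (Prod.ext ?_ ?_)) <;>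
    simp only [Prod.fst_add, Prod.snd_add, map_add, smul_add] <;> abel
  map_smul' r x := by
    refine Prod.ext ?_ (Prod.ext ?_ (Prod.ext ?_ ?_)) <;>
    simp only [Prod.smul_fst, Prod.smul_snd, map_smul, smul_add, smul_sub, RingHom.id_apply,
      smul_comm c r]

/-- The first differential. -/
def D1 : X4 V →ₗ[Rg K] X4 V where
  toFun x := (S.E x.1 + S.H x.2.1 + S.F x.2.2.1, 0, 0, 0)
  map_add' x y := by
    refine Prod.ext ?_ (Prod.ext ?_ (Prod.ext ?_ ?_)) <;>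
    simp only [Prod.fst_add, Prod.snd_add, map_add, add_zero] <;> abel
  map_smul' r x := by
    refine Prod.ext ?_ (Prod.ext ?_ (Prod.ext ?_ ?_)) <;>
    simp only [Prod.smul_fst, Prod.smul_snd, map_smul, smul_add, RingHom.id_apply, smul_zero]

/-- The second differential. -/
def D2 : X4 V →ₗ[Rg K] X4 V where
  toFun x := (S.W x.1 - (S.H x.2.1 + S.rz x.2.1) - S.F x.2.2.1,
    S.E x.2.1 + S.ra x.2.2.1 + S.F x.2.2.2, S.E x.2.2.1 - (S.H x.2.2.2 - S.rz x.2.2.2), 0)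
  map_add' x y := by
    refine Prod.ext ?_ (Prod.ext ?_ (Prod.ext ?_ ?_)) <;>
    simp only [Prod.fst_add, Prod.snd_add, map_add, add_zero] <;> abel
  map_smul' r x := by
    refine Prod.ext ?_ (Prod.ext ?_ (Prod.ext ?_ ?_)) <;>
    simp only [Prod.smul_fst, Prod.smul_snd, map_smul, smul_add, smul_sub, RingHom.id_apply,
      smul_zero]

end SL

end W450.Rig
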