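/-
`D ∘ D = 0` for the explicit resolution.
-/
import Pool.Agent.W450.RigCplx

namespace W450.Rig

universe u

variable {K : Type u} [Field K]
variable {V : Type u} [AddCommGroup V] [Module K V]

namespace SL

variable (S : SL K V)

theorem r_BE (x : B → V) : S.rB (S.E x) = S.rA (S.ra x) := S.opEq id_BE x

/-- Support condition. -/
def In (P : Ex) (x : B → V) : Prop := S.ev P x = x

theorem In.add {P : Ex} {x y : B → V} {S : SL K V} (hx : S.In P x) (hy : S.In P y) :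
    S.In P (x + y) := by
  unfold In at *; rw [map_add, hx, hy]

theorem In.sub {P : Ex} {x y : B → V} {S : SL K V} (hx : S.In P x) (hy : S.In P y) :
    S.In P (x - y) := by
  unfold In at *; rw [map_sub, hx, hy]

theorem In.neg {P : Ex} {x : B → V} {S : SL K V} (hx : S.In P x) : S.In P (-x) := by
  unfold In at *; rw [map_neg, hx]

theorem In.zsmul {P : Ex} {x : B → V} {S : SL K V} (k : ℤ) (hx : S.In P x) :
    S.In P (k • x) := by
  unfold In at *; rw [map_zsmul, hx]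

theorem In.zero {P : Ex} {S : SL K V} : S.In P (0 : B → V) := by
  unfold In; rw [map_zero]

theorem In.map {P Q y : Ex} (h : (y * P - (Q * y)).chk = true) {x : B → V} {S : SL K V}
    (hx : S.In P x) : S.In Q (S.ev y x) := by
  have h1 := S.opEq h x
  rw [S.ev_mul, S.ev_mul] at h1
  simp only [Module.End.mul_apply] at h1
  unfold In at *
  rw [hx] at h1
  exact h1.symm

theorem ra_zero {x : B → V} (hx : S.In X.P02 x) : S.ra x = 0 := by
  have h1 := S.opEq id_aP02 x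
  rw [S.ev_mul, S.evZ, Module.End.mul_apply] at h1
  unfold In at hx
  rw [hx] at h1
  exact h1

theorem aux_A {x : B → V} (hx : S.In X.P02 x) : S.rA (S.ra (S.rz (S.rz x))) = 0 := by
  rw [← r_za, ← r_za, ra_zero S hx]; simp

theorem De_Do (c : ℤ) (x : X4 V) : S.De c (S.Do (1 - c) x) = 0 := by
  obtain ⟨x0, xh, xf, xx⟩ := x
  refine Prod.ext ?_ (Prod.ext ?_ (Prod.ext ?_ ?_))
  · show S.W (S.E x0 + S.H xh + S.F xf + (1 - c) • S.ra (S.rz (S.rz xx))) -
      (S.H (S.W xh - S.rB xf - S.F xx) + S.rz (S.W xh - S.rB xf - S.F xx)) -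
      S.F (S.W xf + S.H xx) + c • S.rB (S.rz (S.rz (S.E xx))) = 0
    simp only [map_add, map_sub, map_zsmul, r_WE, r_WH, r_WF, r_Wa, r_BE, r_HF, r_zF, r_zE,
      sub_smul, one_smul]
    abel
  · show S.E (S.W xh - S.rB xf - S.F xx) + S.ra (S.W xf + S.H xx) + S.F (S.E xx) = 0
    simp only [map_add, map_sub, r_EW, r_aW, r_FE, r_Ha]
    abel
  · show S.E (S.W xf + S.H xx) - (S.H (S.E xx) - S.rz (S.E xx)) = 0
    simp only [map_add, r_EW, r_HE, r_zE]
    abel
  · show S.W (S.E xx) = 0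
    exact S.r_WE xx

theorem Do_De (k : ℤ) (x : X4 V) (hx : S.In X.P02 x.2.2.2) : S.Do k (S.De (-k) x) = 0 := by
  obtain ⟨x0, xh, xf, xx⟩ := x
  have hx' : S.In X.P02 xx := hx
  refine Prod.ext ?_ (Prod.ext ?_ (Prod.ext ?_ ?_))
  · show S.E (S.W x0 - (S.H xh + S.rz xh) - S.F xf + (-k) • S.rB (S.rz (S.rz xx))) +
      S.H (S.E xh + S.ra xf + S.F xx) + S.F (S.E xf - (S.H xx - S.rz xx)) +
      k • S.ra (S.rz (S.rz (S.W xx))) = 0
    simp only [map_add, map_sub, map_zsmul, map_neg, r_EW, r_HE, r_FE, r_HF, S.aux_A hx', r_zW,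
      r_aW, neg_smul]
    abel
  · show S.W (S.E xh + S.ra xf + S.F xx) - S.rB (S.E xf - (S.H xx - S.rz xx)) -
      S.F (S.W xx) = 0
    simp only [map_add, map_sub, r_WE, r_Wa, r_WF, r_BH, r_zB]
    abel
  · show S.W (S.E xf - (S.H xx - S.rz xx)) + S.H (S.W xx) = 0
    simp only [map_sub, r_WE, r_WH, r_zW]
    abel
  · show S.E (S.W xx) = 0
    exact S.r_EW xx

theorem D1_D2 (x : X4 V) (hx : S.In X.P02 x.2.2.2) : S.D1 (S.D2 x) = 0 := by
  obtain ⟨x0, xh, xf, xx⟩ := x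
  have hx' : S.In X.P02 xx := hx
  refine Prod.ext ?_ rfl
  show S.E (S.W x0 - (S.H xh + S.rz xh) - S.F xf) +
      S.H (S.E xh + S.ra xf + S.F xx) + S.F (S.E xf - (S.H xx - S.rz xx)) = 0
  simp only [map_add, map_sub, r_EW, r_HE, r_FE, r_HF, S.aux_A hx']
  abel

theorem D2_Do (x : X4 V) : S.D2 (S.Do 1 x) = 0 := by
  have h := S.De_Do 0 x
  rw [sub_zero] at h
  have h1 : S.D2 (S.Do 1 x) = ((S.De 0 (S.Do 1 x)).1, (S.De 0 (S.Do 1 x)).2.1,
      (S.De 0 (S.Do 1 x)).2.2.1, 0) := by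
    refine Prod.ext ?_ rfl
    show _ = _ + (0 : ℤ) • _
    rw [zero_smul, add_zero]
    rfl
  rw [h1, h]
  rfl

end SL

end W450.Rig
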