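/-
The modules `W` (cokernels of the first differential) and the maps into them.
-/
import Pool.Agent.W450.RigLow

namespace W450.Rig

universe u

variable {K : Type u} [Field K]
variable {V : Type u} [AddCommGroup V] [Module K V]
variable {V' : Type u} [AddCommGroup V'] [Module K V']

namespace SL

/-- `P00` as a linear map. -/
def p00 (S : SL K V) : (B → V) →ₗ[Rg K] (B → V) := S.evR X.P00 rfl

/-- The relations of `W`. -/
def rel (S : SL K V) : X4 V →ₗ[Rg K] (B → V) where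
  toFun x := S.E x.1 + S.H x.2.1 + S.F x.2.2.1 + (x.2.2.2 - S.p00 x.2.2.2)
  map_add' x y := by
    simp only [Prod.fst_add, Prod.snd_add, map_add]; abel
  map_smul' r x := by
    simp only [Prod.smul_fst, Prod.smul_snd, map_smul, smul_add, smul_sub, RingHom.id_apply]

/-- The submodule of relations. -/
def N (S : SL K V) : Submodule (Rg K) (B → V) := LinearMap.range S.rel

/-- The module attached to a representation. -/
abbrev Wm (S : SL K V) : Type u := (B → V) ⧸ S.N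

/-- The quotient map. -/
def pr (S : SL K V) : (B → V) →ₗ[Rg K] S.Wm := S.N.mkQ

variable (S : SL K V)

theorem pr_surj : Function.Surjective S.pr := S.N.mkQ_surjective

theorem pr_eq_zero {x : B → V} : S.pr x = 0 ↔ x ∈ S.N := Submodule.Quotient.mk_eq_zero S.N

theorem pr_E (x : B → V) : S.pr (S.E x) = 0 :=
  S.pr_eq_zero.2 ⟨(x, 0, 0, 0), by simp [rel]⟩

theorem pr_H (x : B → V) : S.pr (S.H x) = 0 :=
  S.pr_eq_zero.2 ⟨(0, x, 0, 0), by simp [rel]⟩

theorem pr_F (x : B → V) : S.pr (S.F x) = 0 :=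
  S.pr_eq_zero.2 ⟨(0, 0, x, 0), by simp [rel]⟩

theorem pr_p00 (x : B → V) : S.pr (S.p00 x) = S.pr x := by
  have : S.pr (x - S.p00 x) = 0 := S.pr_eq_zero.2 ⟨(0, 0, 0, x), by simp [rel]⟩
  rw [map_sub, sub_eq_zero] at this
  exact this.symm

theorem in_p00 (x : B → V) : S.In X.P00 (S.p00 x) := S.opEq id_PP00_00 x

theorem q_p00 (x : B → V) : S.q (S.p00 x) = S.q x := by
  show S.ev X.EPS (S.ev X.ta (S.ev X.WW (S.ev X.P00 (S.ev X.P00 x)))) =
    S.ev X.EPS (S.ev X.ta (S.ev X.WW (S.ev X.P00 x)))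
  have : S.ev X.P00 (S.ev X.P00 x) = S.ev X.P00 x := S.opEq id_PP00_00 x
  rw [this]

theorem q_N {x : B → V} (hx : x ∈ S.N) : S.q x = 0 := by
  obtain ⟨y, rfl⟩ := hx
  show S.q (S.E y.1 + S.H y.2.1 + S.F y.2.2.1 + (y.2.2.2 - S.p00 y.2.2.2)) = 0
  simp only [map_add, map_sub, q_E, q_F, q_H, q_p00, add_zero, sub_self]

/-- The functional induced by `q` on the quotient. -/
def qb : S.Wm →ₗ[K] (B → V) :=
  (S.N.restrictScalars K).liftQ S.q (fun _ hx => S.q_N hx)

theorem qb_pr (x : B → V) : S.qb (S.pr x) = S.q x := rfl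

theorem pr_q (x : B → V) : S.pr (S.q x) = S.pr x := by
  obtain ⟨y0, yh, yf, _, _, _, h⟩ := S.q_dec (S.in_p00 x)
  have h1 : S.pr (S.p00 x) = S.pr (S.q (S.p00 x)) := by
    nth_rewrite 1 [h]
    simp only [map_add, pr_E, pr_H, pr_F, zero_add]
  rw [S.pr_p00, S.q_p00] at h1
  exact h1.symm

theorem qb_inj : Function.Injective S.qb := by
  rw [injective_iff_map_eq_zero]
  intro w hw
  obtain ⟨x, rfl⟩ := S.pr_surj w
  rw [qb_pr] at hw
  rw [← S.pr_q, hw, map_zero]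

theorem pr_zero_dec {x : B → V} (hx : S.In X.P00 x) (h : S.pr x = 0) :
    ∃ y0 yh yf : B → V, S.In X.P10 y0 ∧ S.In X.P01 yh ∧ S.In X.P01 yf ∧
      S.E y0 + S.H yh + S.F yf = x := by
  obtain ⟨y0, yh, yf, h1, h2, h3, h4⟩ := S.q_dec hx
  refine ⟨y0, yh, yf, h1, h2, h3, ?_⟩
  rw [S.q_N (S.pr_eq_zero.1 h), add_zero] at h4
  exact h4.symm

/-! ### Path maps -/

/-- Right multiplication by `z^j`. -/
def gz : ℕ → (B → V) →ₗ[Rg K] (B → V)
  | 0 => LinearMap.id
  | j + 1 => (gz j) ∘ₗ S.rz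

/-- Right multiplication by `z^j` or `a z^j`. -/
def gm (i : Bool) (j : ℕ) : (B → V) →ₗ[Rg K] (B → V) :=
  match i with
  | false => S.gz j
  | true => S.ra ∘ₗ (S.gz j)

theorem gm_z (i : Bool) (j : ℕ) (x : B → V) : S.gm i j (S.rz x) = S.gm i (j + 1) x := by
  cases i <;> rfl

theorem gm_comm (T : (B → V) →ₗ[Rg K] (B → V)) (hz : ∀ x, S.rz (T x) = T (S.rz x)) (j : ℕ)
    (x : B → V) : S.gm false j (T x) = T (S.gm false j x) := by
  induction j generalizing x with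
  | zero => rfl
  | succ j ih =>
    show S.gm false j (S.rz (T x)) = T (S.gm false j (S.rz x))
    rw [hz, ih]

theorem gm_a (j : ℕ) (x : B → V) : S.gm false j (S.ra x) = S.gm true j x :=
  S.gm_comm S.ra S.r_za j x

theorem gm_comm' (T : (B → V) →ₗ[Rg K] (B → V)) (hz : ∀ x, S.rz (T x) = T (S.rz x))
    (ha : ∀ x, S.ra (T x) = T (S.ra x)) (i : Bool) (j : ℕ)
    (x : B → V) : S.gm i j (T x) = T (S.gm i j x) := by
  cases i
  · exact S.gm_comm T hz j x
  · show S.ra (S.gm false j (T x)) = T (S.ra (S.gm false j x))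
    rw [S.gm_comm T hz, ha]

theorem lr_comm (m : V →ₗ[K] V') (S' : SL K V') (n : ℕ) (x : B → V) :
    S'.ev (Ex.tab n) (lact m x) = lact m (S.ev (Ex.tab n) x) := tact_lact (tmat K n) m x

/-- A letter as a linear map. -/
def lt (k : ℕ) : (B → V) →ₗ[Rg K] (B → V) := lactR (S.L k)

theorem E_def (x : B → V) : S.E x = S.rb x - lactR S.e (S.ra x) := by
  show S.ev (X.Rb - X.e * X.Ra) x = _
  rw [S.ev_sub]
  rfl

theorem F_def (x : B → V) :
    S.F x = S.ev X.Rf x - lactR S.f (S.rz x) := by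
  show S.ev (X.Rf - X.f * X.Rz) x = _
  rw [S.ev_sub]
  rfl

theorem H_def (x : B → V) :
    S.H x = S.ev X.Rh x - lactR S.h (S.rz x) := by
  show S.ev (X.Rh - X.h * X.Rz) x = _
  rw [S.ev_sub]
  rfl

theorem W_def (x : B → V) : S.W x = S.rA x + lactR S.e (S.rB x) := rfl

theorem raB (x : B → V) : S.ra (S.rB x) = 0 := by
  have h1 := S.opEq id_aB x
  rw [S.evZ] at h1
  exact h1

variable (S' : SL K V')

theorem la_ra (m : V →ₗ[K] V') (x : B → V) : S'.ra (lactR m x) = lactR m (S.ra x) :=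
  tact_lact (tmat K 0) m x
theorem la_rz (m : V →ₗ[K] V') (x : B → V) : S'.rz (lactR m x) = lactR m (S.rz x) :=
  tact_lact (tmat K 6) m x

theorem gm_la (m : V →ₗ[K] V') (i : Bool) (j : ℕ) (x : B → V) :
    S'.gm i j (lactR m x) = lactR m (S.gm i j x) := by
  have h0 : ∀ (j : ℕ) (x : B → V), S'.gm false j (lactR m x) = lactR m (S.gm false j x) := by
    intro j
    induction j with
    | zero => intro x; rfl
    | succ j ih =>
      intro x
      show S'.gm false j (S'.rz (lactR m x)) = lactR m (S.gm false j (S.rz x))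
      rw [la_rz S S', ih]
  cases i
  · exact h0 j x
  · show S'.ra (S'.gm false j (lactR m x)) = lactR m (S.ra (S.gm false j x))
    rw [h0, la_ra S S']

/-- The map `Fin 120 → V` to `W'` given by a linear map `V → V'` and a path. -/
def Ph (i : Bool) (j : ℕ) (m : V →ₗ[K] V') : (B → V) →ₗ[Rg K] S'.Wm :=
  S'.pr ∘ₗ (S'.gm i j) ∘ₗ (lactR m)

theorem Ph_apply (i : Bool) (j : ℕ) (m : V →ₗ[K] V') (x : B → V) :
    S'.Ph i j m x = S'.pr (S'.gm i j (lactR m x)) := rfl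

theorem lactR_add (m m' : V →ₗ[K] V') (x : B → V) :
    lactR (m + m') x = lactR m x + lactR m' x := rfl

theorem lactR_sub (m m' : V →ₗ[K] V') (x : B → V) :
    lactR (m - m') x = lactR m x - lactR m' x := rfl

theorem Ph_add (i : Bool) (j : ℕ) (m m' : V →ₗ[K] V') (x : B → V) :
    S'.Ph i j (m + m') x = S'.Ph i j m x + S'.Ph i j m' x := by
  simp only [Ph_apply, lactR_add, map_add]

theorem Ph_sub (i : Bool) (j : ℕ) (m m' : V →ₗ[K] V') (x : B → V) :
    S'.Ph i j (m - m') x = S'.Ph i j m x - S'.Ph i j m' x := by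
  simp only [Ph_apply, lactR_sub, map_sub]

theorem Ph_zero (i : Bool) (j : ℕ) (x : B → V) :
    S'.Ph i j (0 : V →ₗ[K] V') x = 0 := by
  have h : lactR (0 : V →ₗ[K] V') x = 0 := rfl
  rw [Ph_apply, h, map_zero, map_zero]

theorem Ph_zsmul (i : Bool) (j : ℕ) (k : ℤ) (m : V →ₗ[K] V') (x : B → V) :
    S'.Ph i j (k • m) x = k • S'.Ph i j m x := by
  have h : lactR (k • m) x = k • lactR m x := rfl
  rw [Ph_apply, h, map_zsmul, map_zsmul]
  rfl

theorem Ph_E (j : ℕ) (m : V →ₗ[K] V') (x : B → V) :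
    S'.Ph false j m (S.E x) = S'.Ph true j (adj S.e S'.e m) x := by
  have h1 : lactR m (S.E x) = S'.E (lactR m x) + S'.ra (lactR (adj S.e S'.e m) x) := by
    rw [S.E_def, S'.E_def, map_sub, adj_apply, lactR_sub, map_sub]
    have h2 : lactR m (S.rb x) = S'.rb (lactR m x) := (tact_lact (tmat K 1) m x).symm
    have h3 : lactR S'.e (S'.ra (lactR m x)) = S'.ra (lactR (S'.e ∘ₗ m) x) :=
      (la_ra S' S' S'.e (lactR m x)).symm
    have h4 : lactR m (lactR S.e (S.ra x)) = S'.ra (lactR (m ∘ₗ S.e) x) := by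
      rw [la_ra S S']
      rfl
    rw [h2, h3, h4]
    abel
  rw [Ph_apply, h1, map_add, S'.gm_comm S'.E S'.r_zE, map_add, S'.pr_E, zero_add, S'.gm_a]
  rfl

theorem Ph_F (i : Bool) (j : ℕ) (m : V →ₗ[K] V') (x : B → V) :
    S'.Ph i j m (S.F x) = S'.Ph i (j + 1) (adj S.f S'.f m) x := by
  have h1 : lactR m (S.F x) = S'.F (lactR m x) + S'.rz (lactR (adj S.f S'.f m) x) := by
    rw [S.F_def, S'.F_def, map_sub, adj_apply, lactR_sub, map_sub]
    have h2 : lactR m (S.ev X.Rf x) = S'.ev X.Rf (lactR m x) := (tact_lact (tmat K 4) m x).symm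
    have h3 : lactR S'.f (S'.rz (lactR m x)) = S'.rz (lactR (S'.f ∘ₗ m) x) :=
      (la_rz S' S' S'.f (lactR m x)).symm
    have h4 : lactR m (lactR S.f (S.rz x)) = S'.rz (lactR (m ∘ₗ S.f) x) := by
      rw [la_rz S S']
      rfl
    rw [h2, h3, h4]
    abel
  rw [Ph_apply, h1, map_add, S'.gm_comm' S'.F S'.r_zF (fun y => (S'.r_Fa y).symm), map_add,
    S'.pr_F, zero_add, S'.gm_z]
  rfl

theorem Ph_H (i : Bool) (j : ℕ) (m : V →ₗ[K] V') (x : B → V) :
    S'.Ph i j m (S.H x) = S'.Ph i (j + 1) (adj S.h S'.h m) x := by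
  have h1 : lactR m (S.H x) = S'.H (lactR m x) + S'.rz (lactR (adj S.h S'.h m) x) := by
    rw [S.H_def, S'.H_def, map_sub, adj_apply, lactR_sub, map_sub]
    have h2 : lactR m (S.ev X.Rh x) = S'.ev X.Rh (lactR m x) := (tact_lact (tmat K 5) m x).symm
    have h3 : lactR S'.h (S'.rz (lactR m x)) = S'.rz (lactR (S'.h ∘ₗ m) x) :=
      (la_rz S' S' S'.h (lactR m x)).symm
    have h4 : lactR m (lactR S.h (S.rz x)) = S'.rz (lactR (m ∘ₗ S.h) x) := by
      rw [la_rz S S']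
      rfl
    rw [h2, h3, h4]
    abel
  rw [Ph_apply, h1, map_add, S'.gm_comm' S'.H S'.r_zH (fun y => (S'.r_Ha y).symm), map_add,
    S'.pr_H, zero_add, S'.gm_z]
  rfl

theorem Ph_z (i : Bool) (j : ℕ) (m : V →ₗ[K] V') (x : B → V) :
    S'.Ph i j m (S.rz x) = S'.Ph i (j + 1) m x := by
  rw [Ph_apply, ← la_rz S S', S'.gm_z]
  rfl

theorem Ph_a (j : ℕ) (m : V →ₗ[K] V') (x : B → V) :
    S'.Ph false j m (S.ra x) = S'.Ph true j m x := by
  rw [Ph_apply, ← la_ra S S', S'.gm_a]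
  rfl

theorem Ph_B (j : ℕ) (m : V →ₗ[K] V') (x : B → V) :
    S'.Ph true j m (S.rB x) = 0 := by
  rw [Ph_apply]
  have h1 : lactR m (S.rB x) = S'.rB (lactR m x) := (tact_lact (tmat K 3) m x).symm
  rw [h1]
  show S'.pr (S'.ra (S'.gm false j (S'.rB (lactR m x)))) = 0
  rw [S'.gm_comm S'.rB S'.r_zB, S'.raB, map_zero]

theorem Ph_W (j : ℕ) (m : V →ₗ[K] V') (x : B → V) :
    S'.Ph true j m (S.W x) = 0 := by
  rw [S.W_def, map_add]
  have h0 : lactR S.e (S.rB x) = S.rB (lactR S.e x) := (tact_lact (tmat K 3) S.e x).symm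
  rw [h0, Ph_B S S', add_zero, Ph_apply]
  have h1 : lactR m (S.rA x) = S'.rA (lactR m x) := (tact_lact (tmat K 2) m x).symm
  rw [h1]
  show S'.pr (S'.ra (S'.gm false j (S'.rA (lactR m x)))) = 0
  rw [S'.gm_comm S'.rA S'.r_zA]
  have h2 : ∀ y, S'.ra (S'.rA y) = S'.E (S'.rB y) := by
    intro y
    rw [← S'.r_aW, S'.W_def, map_add, la_ra S' S', S'.raB, map_zero, add_zero]
  rw [h2, S'.pr_E]

end SL

end W450.Rig
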