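/-
Linear maps from the projective modules to the modules `W`.
-/
import Pool.Agent.W450.RigW

namespace W450.Rig

universe u

variable {K : Type u} [Field K]
variable {V : Type u} [AddCommGroup V] [Module K V]
variable {V' : Type u} [AddCommGroup V'] [Module K V']

/-- expression of `z^j` -/
def gzx : ℕ → Ex
  | 0 => .one
  | j + 1 => .mul (gzx j) X.Rz

/-- expression of `z^j` or `a z^j` -/
def gex (i : Bool) (j : ℕ) : Ex :=
  match i with
  | false => gzx j
  | true => .mul X.Ra (gzx j)

theorem ev_gzx (S : SL K V) (j : ℕ) (x : B → V) : S.ev (gzx j) x = S.gz j x := by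
  induction j generalizing x with
  | zero => rfl
  | succ j ih =>
    show S.ev (gzx j) (S.ev X.Rz x) = S.gz j (S.rz x)
    rw [ih]; rfl

theorem ev_gex (S : SL K V) (i : Bool) (j : ℕ) (x : B → V) :
    S.ev (gex i j) x = S.gm i j x := by
  cases i
  · exact ev_gzx S j x
  · show S.ev X.Ra (S.ev (gzx j) x) = S.ra (S.gz j x)
    rw [ev_gzx]; rfl

/-- Check that an operator only hits the coordinate `c`. -/
def schk (x : Ex) (c : ℕ) : Bool :=
  (List.range 120).all fun b => (x.row [(1, [], b)]).all fun p => Nat.beq p.2.2 c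

/-- Data of a vertex. -/
structure VD (i : Bool) (j : ℕ) where
  P : ℕ
  T : ℕ
  g : B
  c : B
  hP : P < 13
  hT : 13 ≤ T
  hT' : T < 26
  h1 : zchk (nfF ((Ex.tab P).row onesF ++ [(-1, [], (g : ℕ))])) = true
  h2 : zchk (nfF ((Ex.tab T).row [(1, [], (g : ℕ))] ++ [(-1, [], (g : ℕ))])) = true
  h3 : zchk (nfF ((X.QQ * gex i j).row [(1, [], (g : ℕ))] ++ [(-1, [], (c : ℕ))])) = true
  h4 : schk (X.QQ * Ex.tab T) c = true
  h5 : zchk (nfF ((Ex.tab P).row [(1, [], (g : ℕ))] ++ [(-1, [], (g : ℕ))])) = true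

/-- The vertex `00`. -/
def vd00 : VD false 0 := ⟨7, 20, 0, 0, by decide, by decide, by decide, by decide +kernel,
  by decide +kernel, by decide +kernel, by decide +kernel, by decide +kernel⟩
/-- The vertex `01`. -/
def vd01 : VD false 1 := ⟨8, 21, 10, 1, by decide, by decide, by decide, by decide +kernel,
  by decide +kernel, by decide +kernel, by decide +kernel, by decide +kernel⟩
/-- The vertex `02`. -/
def vd02 : VD false 2 := ⟨9, 22, 14, 4, by decide, by decide, by decide, by decide +kernel,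
  by decide +kernel, by decide +kernel, by decide +kernel, by decide +kernel⟩
/-- The vertex `10`. -/
def vd10 : VD true 0 := ⟨10, 23, 90, 30, by decide, by decide, by decide, by decide +kernel,
  by decide +kernel, by decide +kernel, by decide +kernel, by decide +kernel⟩
/-- The vertex `11`. -/
def vd11 : VD true 1 := ⟨11, 24, 100, 31, by decide, by decide, by decide, by decide +kernel,
  by decide +kernel, by decide +kernel, by decide +kernel, by decide +kernel⟩
/-- The vertex `12`. -/
def vd12 : VD true 2 := ⟨12, 25, 104, 34, by decide, by decide, by decide, by decide +kernel,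
  by decide +kernel, by decide +kernel, by decide +kernel, by decide +kernel⟩

theorem SL.val_one (S : SL K V) (b : B) (v : V) :
    S.val [(1, [], (b : ℕ))] v = (Pi.single b v : B → V) := by
  funext i
  simp only [SL.val, SL.wd, Pi.add_apply, Pi.zero_apply, add_zero, one_smul,
    Module.End.one_apply]
  by_cases hi : i = b
  · subst hi; simp
  · have : (i : ℕ) ≠ (b : ℕ) := fun h' => hi (Fin.ext h')
    simp [hi, this]

theorem SL.ev_single (S : SL K V) (x : Ex) (b c : B)
    (h : zchk (nfF (x.row [(1, [], (b : ℕ))] ++ [(-1, [], (c : ℕ))])) = true) (v : V) :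
    S.ev x (Pi.single b v) = Pi.single c v := by
  have h2 := S.val_eq_zero _ h v
  rw [S.nfF_sound, S.val_append, S.val_basis, ← S.ev_val, S.val_one] at h2
  exact sub_eq_zero.1 (by rw [sub_eq_add_neg]; exact h2)

theorem SL.ev_ones (S : SL K V) (x : Ex) (c : B)
    (h : zchk (nfF (x.row onesF ++ [(-1, [], (c : ℕ))])) = true) (v : V) :
    S.ev x (oneV v) = Pi.single c v := by
  have h2 := S.val_eq_zero _ h v
  rw [S.nfF_sound, S.val_append, S.val_basis, ← S.ev_val, S.val_ones] at h2
  exact sub_eq_zero.1 (by rw [sub_eq_add_neg]; exact h2)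

theorem SL.val_supp (S : SL K V) (l : FS) (c : ℕ) (h : (l.all fun p => Nat.beq p.2.2 c) = true)
    (v : V) (i : B) (hi : (i : ℕ) ≠ c) : S.val l v i = 0 := by
  induction l with
  | nil => rfl
  | cons p l ih =>
    simp only [List.all_cons, Bool.and_eq_true] at h
    have h1 : p.2.2 = c := Nat.eq_of_beq_eq_true h.1
    rw [SL.val, Pi.add_apply, ih h.2, add_zero, h1, if_neg hi]

theorem SL.ev_supp (S : SL K V) (x : Ex) (c : B) (h : schk x c = true) (y : B → V) (i : B)
    (hi : i ≠ c) : S.ev x y i = 0 := by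
  have key : (LinearMap.proj i : (B → V) →ₗ[K] V) ∘ₗ S.ev x = 0 := by
    apply LinearMap.pi_ext
    intro b v
    show S.ev x (Pi.single b v) i = 0
    rw [← S.val_one, S.ev_val]
    rw [schk, List.all_eq_true] at h
    exact S.val_supp _ c (h b (List.mem_range.2 b.isLt)) v i (fun h' => hi (Fin.ext h'))
  exact LinearMap.congr_fun key y

theorem lactR_single (m : V →ₗ[K] V') (b : B) (v : V) :
    lactR m (Pi.single b v) = (Pi.single b (m v) : B → V') := by
  funext i
  rw [lactR_apply, lact_apply]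
  by_cases hi : i = b
  · subst hi; simp
  · simp [hi]

theorem sum_lam (S : SL K V) (x : B → V) : ∑ b, lam K b • (oneV (x b) : B → V) = x := by
  funext i
  rw [Finset.sum_apply, Finset.sum_eq_single i]
  · rw [lam_oneV S]; simp
  · intro b _ hb
    rw [lam_oneV S]; simp [hb.symm]
  · simp

namespace SL

variable (S : SL K V) (S' : SL K V')

theorem In_gen {i : Bool} {j : ℕ} (d : VD i j) (v : V) :
    S.In (Ex.tab d.P) (Pi.single d.g v) := S.ev_single _ d.g d.g d.h5 v

theorem q_gen {i : Bool} {j : ℕ} (d : VD i j) (v : V) :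
    S.q (S.gm i j (Pi.single d.g v)) = Pi.single d.c v := by
  rw [← ev_gex]
  exact S.ev_single (X.QQ * gex i j) d.g d.c d.h3 v

theorem Ph_inj {i : Bool} {j : ℕ} (d : VD i j) (m : V →ₗ[K] V')
    (h : ∀ x, S.In (Ex.tab d.P) x → S'.Ph i j m x = 0) : m = 0 := by
  refine LinearMap.ext fun v => ?_
  have h1 := h _ (S.In_gen d v)
  rw [Ph_apply, lactR_single] at h1
  have h2 := congrArg S'.qb h1
  rw [qb_pr, q_gen, map_zero] at h2
  have h3 := congrFun h2 d.c
  simpa using h3

theorem Ph_surj {i : Bool} {j : ℕ} (d : VD i j) (g : (B → V) →ₗ[Rg K] S'.Wm) :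
    ∃ m : V →ₗ[K] V', ∀ x, S.In (Ex.tab d.P) x → g x = S'.Ph i j m x := by
  let m : V →ₗ[K] V' := (LinearMap.proj d.c) ∘ₗ S'.qb ∘ₗ (g.restrictScalars K) ∘ₗ
    (LinearMap.single K (fun _ : B => V) d.g)
  have hm : ∀ v, m v = S'.qb (g (Pi.single d.g v)) d.c := fun v => rfl
  have key : ∀ v, g (Pi.single d.g v) = S'.Ph i j m (Pi.single d.g v) := by
    intro v
    obtain ⟨w, hw⟩ : ∃ w, w = g (Pi.single d.g v) := ⟨_, rfl⟩
    let T : Rg K := mkR K (tmat K d.T) (tmat_mem d.T d.hT d.hT')
    have hT : T • (Pi.single d.g v : B → V) = Pi.single d.g v :=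
      S.ev_single (Ex.tab d.T) d.g d.g d.h2 v
    have hTw : T • w = w := by rw [hw, ← map_smul, hT]
    obtain ⟨y, hy⟩ := S'.pr_surj w
    obtain ⟨s, hs⟩ : ∃ s, s = S'.q (T • y) := ⟨_, rfl⟩
    have hws : S'.qb w = s := by
      rw [← hTw, ← hy, ← map_smul, qb_pr, hs]
    have hsup : s = Pi.single d.c (s d.c) := by
      funext k
      by_cases hk : k = d.c
      · subst hk; simp
      · rw [Pi.single_eq_of_ne hk, hs]
        exact S'.ev_supp (X.QQ * Ex.tab d.T) d.c d.h4 y k hk
    have hmv : m v = s d.c := by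
      rw [hm, ← hw, hws]
    apply S'.qb_inj
    rw [← hw, hws, Ph_apply, lactR_single, qb_pr, q_gen, hmv, ← hsup]
  refine ⟨m, fun x hx => ?_⟩
  have hx' : x = ∑ b, lam K b • (Pi.single d.g (x b) : B → V) := by
    have h1 : S.evR (Ex.tab d.P) (by have := d.hP; simpa [Ex.rt] using this) x = x := hx
    rw [← h1]
    nth_rewrite 1 [← sum_lam S x]
    rw [map_sum]
    refine Finset.sum_congr rfl fun b _ => ?_
    rw [map_smul, h1]
    congr 1
    exact S.ev_ones _ d.g d.h1 (x b)
  rw [hx', map_sum, map_sum]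
  refine Finset.sum_congr rfl fun b _ => ?_
  rw [map_smul, map_smul, key]

end SL

end W450.Rig
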