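/-
The Green operator for `Hom(V_m, V_n)`.
-/
import Pool.Agent.W450.RigSL

namespace W450.Rig

open Polynomial

universe u

section algebraic

variable {K : Type u} [Field K]
variable {V : Type u} [AddCommGroup V] [Module K V]
variable {V' : Type u} [AddCommGroup V'] [Module K V']

theorem adj_fe (S : SL K V) (S' : SL K V') :
    adj S.f S'.f * adj S.e S'.e = adj S.e S'.e * adj S.f S'.f + adj S.h S'.h := by
  have f1 : ∀ v, S.h v = S.f (S.e v) - S.e (S.f v) := fun v => by
    rw [← S.fe]; rfl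
  have f1' : ∀ v, S'.h v = S'.f (S'.e v) - S'.e (S'.f v) := fun v => by
    rw [← S'.fe]; rfl
  refine LinearMap.ext fun m => LinearMap.ext fun v => ?_
  simp only [Module.End.mul_apply, adj_apply, LinearMap.sub_apply, LinearMap.add_apply,
    LinearMap.comp_apply, map_sub, f1, f1']
  abel

theorem adj_eh (S : SL K V) (S' : SL K V') :
    adj S.e S'.e * adj S.h S'.h = adj S.h S'.h * adj S.e S'.e + adj S.e S'.e := by
  have f2 : ∀ v, S.e (S.h v) = S.h (S.e v) + S.e v := fun v => by
    have := LinearMap.congr_fun S.eh v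
    exact sub_eq_iff_eq_add'.1 this
  have f2' : ∀ v, S'.e (S'.h v) = S'.h (S'.e v) + S'.e v := fun v => by
    have := LinearMap.congr_fun S'.eh v
    exact sub_eq_iff_eq_add'.1 this
  refine LinearMap.ext fun m => LinearMap.ext fun v => ?_
  simp only [Module.End.mul_apply, adj_apply, LinearMap.sub_apply, LinearMap.add_apply,
    LinearMap.comp_apply, map_sub, f2, f2', map_add]
  abel

theorem adj_hf (S : SL K V) (S' : SL K V') :
    adj S.h S'.h * adj S.f S'.f = adj S.f S'.f * adj S.h S'.h + adj S.f S'.f := by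
  have f3 : ∀ v, S.h (S.f v) = S.f (S.h v) + S.f v := fun v => by
    have := LinearMap.congr_fun S.hf v
    exact sub_eq_iff_eq_add'.1 this
  have f3' : ∀ v, S'.h (S'.f v) = S'.f (S'.h v) + S'.f v := fun v => by
    have := LinearMap.congr_fun S'.hf v
    exact sub_eq_iff_eq_add'.1 this
  refine LinearMap.ext fun m => LinearMap.ext fun v => ?_
  simp only [Module.End.mul_apply, adj_apply, LinearMap.sub_apply, LinearMap.add_apply,
    LinearMap.comp_apply, map_sub, f3, f3', map_add]
  abel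

section ring

variable {R : Type u} [Ring R] {E F H : R}

theorem cas_e (fe : F * E = E * F + H) (eh : E * H = H * E + E) :
    Commute (E * F + F * E + H * H) E := by
  have h1 : F * (E * E) = E * (E * F) + E * H + H * E := by
    rw [← mul_assoc, fe, add_mul, mul_assoc, fe, mul_add]
  have h2 : E * (H * H) = H * (H * E) + H * E + E * H := by
    rw [← mul_assoc, eh, add_mul, mul_assoc, eh, mul_add]
  have h3 : E * (F * E) = E * (E * F) + E * H := by rw [fe, mul_add]
  show (E * F + F * E + H * H) * E = E * (E * F + F * E + H * H)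
  simp only [add_mul, mul_add, mul_assoc, h1, h2, h3]
  abel

theorem cas_f (fe : F * E = E * F + H) (hf : H * F = F * H + F) :
    Commute (E * F + F * E + H * H) F := by
  have fe' : E * F = F * E - H := by rw [fe]; abel
  have h1 : E * (F * F) = F * (F * E) - F * H - H * F := by
    rw [← mul_assoc, fe', sub_mul, mul_assoc, fe', mul_sub]
  have h2 : H * (H * F) = F * (H * H) + F * H + H * F := by
    rw [hf, mul_add, ← mul_assoc, hf, add_mul, mul_assoc]
  have h3 : F * (E * F) = F * (F * E) - F * H := by rw [fe', mul_sub]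
  show (E * F + F * E + H * H) * F = F * (E * F + F * E + H * H)
  simp only [add_mul, mul_add, mul_assoc, h1, h2, h3]
  abel

theorem cas_h (eh : E * H = H * E + E) (hf : H * F = F * H + F) :
    Commute (E * F + F * E + H * H) H := by
  have hf' : F * H = H * F - F := by rw [hf]; abel
  have h1 : E * (F * H) = H * (E * F) := by
    rw [hf', mul_sub, ← mul_assoc, eh, add_mul, mul_assoc]; abel
  have h2 : F * (E * H) = H * (F * E) := by
    rw [eh, mul_add, ← mul_assoc, hf', sub_mul, mul_assoc]; abel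
  show (E * F + F * E + H * H) * H = H * (E * F + F * E + H * H)
  simp only [add_mul, mul_add, mul_assoc, h1, h2]

end ring

theorem commute_aeval {A : Type u} [Ring A] [Algebra K A] {C E : A} (h : Commute C E)
    (p : K[X]) : Commute (aeval C p) E := by
  induction p using Polynomial.induction_on' with
  | add p q hp hq => rw [map_add]; exact hp.add_left hq
  | monomial n a =>
    rw [aeval_monomial]
    exact (Algebra.commute_algebraMap_left a E).mul_left (h.pow_left n)

/-- Green operators from a polynomial in the Casimir operator killing the non-invariants. -/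
theorem green_of_poly (S : SL K V) (S' : SL K V') (s : K[X]) (hs : s.coeff 0 = 1)
    (he : adj S.e S'.e * aeval (casimir S S') s = 0)
    (hf : adj S.f S'.f * aeval (casimir S S') s = 0)
    (hh : adj S.h S'.h * aeval (casimir S S') s = 0) : Green S S' := by
  have ce : Commute (casimir S S') (adj S.e S'.e) := cas_e (adj_fe S S') (adj_eh S S')
  have cf : Commute (casimir S S') (adj S.f S'.f) := cas_f (adj_fe S S') (adj_hf S S')
  have ch : Commute (casimir S S') (adj S.h S'.h) := cas_h (adj_eh S S') (adj_hf S S')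
  have hp : X * (- divX s) + s = 1 := by
    have h1 := divX_mul_X_add s
    rw [hs, C_1] at h1
    nth_rewrite 2 [← h1]
    ring
  have hp' : (- divX s) * X + s = 1 := by rw [mul_comm]; exact hp
  refine ⟨aeval (casimir S S') (- divX s), aeval (casimir S S') s, ?_, ?_,
    commute_aeval ce _, commute_aeval cf _, commute_aeval ch _, he, hf, hh, ?_, ?_, ?_⟩
  · have := congrArg (aeval (casimir S S')) hp
    rwa [map_add, map_mul, aeval_X, map_one] at this
  · have := congrArg (aeval (casimir S S')) hp'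
    rwa [map_add, map_mul, aeval_X, map_one] at this
  · rw [commute_aeval ce s]; exact he
  · rw [commute_aeval cf s]; exact hf
  · rw [commute_aeval ch s]; exact hh

end algebraic

/-! ### Positivity over `ℚ` -/

section pos

variable {m n : ℕ}

/-- `X ↦ A' X - X A` on rational matrices. -/
def mad (A : Matrix (Fin (m + 1)) (Fin (m + 1)) ℚ) (A' : Matrix (Fin (n + 1)) (Fin (n + 1)) ℚ) :
    Module.End ℚ (Matrix (Fin (n + 1)) (Fin (m + 1)) ℚ) where
  toFun X := A' * X - X * A
  map_add' X Y := by rw [Matrix.mul_add, Matrix.add_mul]; abel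
  map_smul' c X := by
    rw [Matrix.mul_smul, Matrix.smul_mul, RingHom.id_apply, smul_sub]

/-- The weights. -/
def wt (n : ℕ) (k : Fin (n + 1)) : ℚ := (((k : ℕ).factorial * (n - k).factorial : ℕ) : ℚ)

theorem wt_pos (n : ℕ) (k : Fin (n + 1)) : 0 < wt n k := by
  unfold wt
  exact_mod_cast Nat.mul_pos (Nat.factorial_pos _) (Nat.factorial_pos _)

theorem wt_succ (n : ℕ) (k : ℕ) (hk : k + 1 < n + 1) :
    wt n ⟨k, by omega⟩ * ((k : ℚ) + 1) = wt n ⟨k + 1, hk⟩ * ((n : ℚ) - k) := by
  unfold wt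
  simp only
  have h1 : n - k = (n - (k + 1)) + 1 := by omega
  have h2 : ((n - (k + 1) : ℕ) : ℚ) = (n : ℚ) - k - 1 := by
    rw [Nat.cast_sub (by omega)]; push_cast; ring
  rw [h1, Nat.factorial_succ, Nat.factorial_succ]
  push_cast
  rw [h2]
  ring

theorem wE (n : ℕ) : (irrE ℚ n).transpose * Matrix.diagonal (wt n) =
    (2 : ℚ) • (Matrix.diagonal (wt n) * irrF ℚ n) := by
  ext i j
  rw [Matrix.mul_diagonal, Matrix.smul_apply, Matrix.diagonal_mul, Matrix.transpose_apply,
    smul_eq_mul]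
  unfold irrE irrF
  by_cases h : (i : ℕ) = j + 1
  · rw [if_pos h, if_pos h]
    have h1 := wt_succ n j (by have := i.isLt; omega)
    have h2 : (⟨(j : ℕ) + 1, by have := i.isLt; omega⟩ : Fin (n + 1)) = i := Fin.ext h.symm
    rw [h2] at h1
    have h3 : (((i : ℕ) : ℚ)) = (j : ℕ) + 1 := by rw [h]; push_cast; ring
    rw [h3]
    have h4 : (⟨(j : ℕ), by have := i.isLt; omega⟩ : Fin (n + 1)) = j := rfl
    rw [h4] at h1
    linear_combination h1
  · rw [if_neg h, if_neg h]; ring

theorem wH (n : ℕ) : (irrH ℚ n).transpose * Matrix.diagonal (wt n) =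
    Matrix.diagonal (wt n) * irrH ℚ n := by
  ext i j
  rw [Matrix.mul_diagonal, Matrix.diagonal_mul, Matrix.transpose_apply]
  unfold irrH
  by_cases h : i = j
  · subst h; ring
  · rw [if_neg h, if_neg (fun h' => h h'.symm)]; ring

/-- The inverse weights. -/
def wi (n : ℕ) (k : Fin (n + 1)) : ℚ := (wt n k)⁻¹

theorem wi_pos (n : ℕ) (k : Fin (n + 1)) : 0 < wi n k := inv_pos.2 (wt_pos n k)

theorem dd1 (n : ℕ) : Matrix.diagonal (wi n) * Matrix.diagonal (wt n) = 1 := by
  rw [Matrix.diagonal_mul_diagonal, ← Matrix.diagonal_one]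
  congr 1
  funext i
  exact inv_mul_cancel₀ (wt_pos n i).ne'

theorem dd2 (n : ℕ) : Matrix.diagonal (wt n) * Matrix.diagonal (wi n) = 1 := by
  rw [Matrix.diagonal_mul_diagonal, ← Matrix.diagonal_one]
  congr 1
  funext i
  exact mul_inv_cancel₀ (wt_pos n i).ne'

theorem wE' (n : ℕ) : Matrix.diagonal (wi n) * (irrE ℚ n).transpose =
    (2 : ℚ) • (irrF ℚ n * Matrix.diagonal (wi n)) := by
  have h := congrArg (fun Z => Matrix.diagonal (wi n) * Z * Matrix.diagonal (wi n)) (wE n)
  rw [Matrix.mul_assoc, Matrix.mul_assoc, dd2, Matrix.mul_one, Matrix.mul_smul,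
    ← Matrix.mul_assoc (Matrix.diagonal (wi n)), dd1, Matrix.one_mul, Matrix.smul_mul] at h
  exact h

theorem wH' (n : ℕ) : Matrix.diagonal (wi n) * (irrH ℚ n).transpose =
    irrH ℚ n * Matrix.diagonal (wi n) := by
  have h := congrArg (fun Z => Matrix.diagonal (wi n) * Z * Matrix.diagonal (wi n)) (wH n)
  rw [Matrix.mul_assoc, Matrix.mul_assoc, dd2, Matrix.mul_one,
    ← Matrix.mul_assoc (Matrix.diagonal (wi n)), dd1, Matrix.one_mul] at h
  exact h

/-- The form. -/
def bf (X Y : Matrix (Fin (n + 1)) (Fin (m + 1)) ℚ) : ℚ :=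
  (Matrix.diagonal (wi m) * X.transpose * Matrix.diagonal (wt n) * Y).trace

theorem bf_eq (X Y : Matrix (Fin (n + 1)) (Fin (m + 1)) ℚ) :
    bf X Y = ∑ j, ∑ i, wi m j * X i j * wt n i * Y i j := by
  unfold bf Matrix.trace
  refine Finset.sum_congr rfl fun j _ => ?_
  rw [Matrix.diag_apply, Matrix.mul_apply]
  refine Finset.sum_congr rfl fun i _ => ?_
  rw [Matrix.mul_diagonal, Matrix.diagonal_mul, Matrix.transpose_apply]

theorem bf_symm (X Y : Matrix (Fin (n + 1)) (Fin (m + 1)) ℚ) : bf X Y = bf Y X := by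
  rw [bf_eq, bf_eq]
  refine Finset.sum_congr rfl fun j _ => Finset.sum_congr rfl fun i _ => ?_
  ring

theorem bf_nonneg (X : Matrix (Fin (n + 1)) (Fin (m + 1)) ℚ) : 0 ≤ bf X X := by
  rw [bf_eq]
  refine Finset.sum_nonneg fun j _ => Finset.sum_nonneg fun i _ => ?_
  have h1 := (wi_pos m j).le
  have h2 := (wt_pos n i).le
  have : wi m j * X i j * wt n i * X i j = wi m j * wt n i * (X i j * X i j) := by ring
  rw [this]
  exact mul_nonneg (mul_nonneg h1 h2) (mul_self_nonneg _)

theorem bf_def {X : Matrix (Fin (n + 1)) (Fin (m + 1)) ℚ} (h : bf X X = 0) : X = 0 := by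
  rw [bf_eq] at h
  ext i j
  have hnn : ∀ j i, 0 ≤ wi m j * X i j * wt n i * X i j := by
    intro j i
    have h1 := (wi_pos m j).le
    have h2 := (wt_pos n i).le
    have : wi m j * X i j * wt n i * X i j = wi m j * wt n i * (X i j * X i j) := by ring
    rw [this]
    exact mul_nonneg (mul_nonneg h1 h2) (mul_self_nonneg _)
  have h1 := (Finset.sum_eq_zero_iff_of_nonneg
    (fun j _ => Finset.sum_nonneg fun i _ => hnn j i)).1 h j (Finset.mem_univ _)
  have h2 := (Finset.sum_eq_zero_iff_of_nonneg (fun i _ => hnn j i)).1 h1 i (Finset.mem_univ _)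
  have h3 := (wi_pos m j).ne'
  have h4 := (wt_pos n i).ne'
  have h5 : (wi m j * wt n i) * (X i j * X i j) = 0 := by rw [← h2]; ring
  rcases mul_eq_zero.1 h5 with h6 | h6
  · exact absurd h6 (mul_ne_zero h3 h4)
  · simpa using h6

theorem bf_add_right (X Y Z : Matrix (Fin (n + 1)) (Fin (m + 1)) ℚ) :
    bf X (Y + Z) = bf X Y + bf X Z := by
  unfold bf; rw [Matrix.mul_add, Matrix.trace_add]

/-- `E`, `F`, `H` on rational matrices. -/
def qE (m n : ℕ) : Module.End ℚ (Matrix (Fin (n + 1)) (Fin (m + 1)) ℚ) :=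
  mad (irrE ℚ m) (irrE ℚ n)
/-- `E`, `F`, `H` on rational matrices. -/
def qF (m n : ℕ) : Module.End ℚ (Matrix (Fin (n + 1)) (Fin (m + 1)) ℚ) :=
  mad (irrF ℚ m) (irrF ℚ n)
/-- `E`, `F`, `H` on rational matrices. -/
def qH (m n : ℕ) : Module.End ℚ (Matrix (Fin (n + 1)) (Fin (m + 1)) ℚ) :=
  mad (irrH ℚ m) (irrH ℚ n)

theorem bf_E (X Y : Matrix (Fin (n + 1)) (Fin (m + 1)) ℚ) :
    bf (qE m n X) Y = 2 * bf X (qF m n Y) := by
  show (Matrix.diagonal (wi m) * (irrE ℚ n * X - X * irrE ℚ m).transpose *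
    Matrix.diagonal (wt n) * Y).trace = 2 * (Matrix.diagonal (wi m) * X.transpose *
    Matrix.diagonal (wt n) * (irrF ℚ n * Y - Y * irrF ℚ m)).trace
  rw [Matrix.transpose_sub, Matrix.transpose_mul, Matrix.transpose_mul, Matrix.mul_sub,
    Matrix.sub_mul, Matrix.sub_mul, Matrix.trace_sub, Matrix.mul_sub, Matrix.trace_sub, mul_sub]
  congr 1
  · have h1 : Matrix.diagonal (wi m) * (X.transpose * (irrE ℚ n).transpose) *
        Matrix.diagonal (wt n) * Y = Matrix.diagonal (wi m) * X.transpose *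
        ((irrE ℚ n).transpose * Matrix.diagonal (wt n)) * Y := by
      simp only [Matrix.mul_assoc]
    rw [h1, wE, Matrix.mul_smul, Matrix.smul_mul, Matrix.trace_smul, smul_eq_mul]
    simp only [Matrix.mul_assoc]
  · have h1 : Matrix.diagonal (wi m) * ((irrE ℚ m).transpose * X.transpose) *
        Matrix.diagonal (wt n) * Y = (Matrix.diagonal (wi m) * (irrE ℚ m).transpose) *
        (X.transpose * Matrix.diagonal (wt n) * Y) := by
      simp only [Matrix.mul_assoc]
    rw [h1, wE', Matrix.smul_mul, Matrix.trace_smul, smul_eq_mul, Matrix.mul_assoc,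
      Matrix.trace_mul_comm]
    simp only [Matrix.mul_assoc]

theorem bf_H (X Y : Matrix (Fin (n + 1)) (Fin (m + 1)) ℚ) :
    bf (qH m n X) Y = bf X (qH m n Y) := by
  show (Matrix.diagonal (wi m) * (irrH ℚ n * X - X * irrH ℚ m).transpose *
    Matrix.diagonal (wt n) * Y).trace = (Matrix.diagonal (wi m) * X.transpose *
    Matrix.diagonal (wt n) * (irrH ℚ n * Y - Y * irrH ℚ m)).trace
  rw [Matrix.transpose_sub, Matrix.transpose_mul, Matrix.transpose_mul, Matrix.mul_sub,
    Matrix.sub_mul, Matrix.sub_mul, Matrix.trace_sub, Matrix.mul_sub, Matrix.trace_sub]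
  refine congrArg₂ (· - ·) ?_ ?_
  · have h1 : Matrix.diagonal (wi m) * (X.transpose * (irrH ℚ n).transpose) *
        Matrix.diagonal (wt n) * Y = Matrix.diagonal (wi m) * X.transpose *
        ((irrH ℚ n).transpose * Matrix.diagonal (wt n)) * Y := by
      simp only [Matrix.mul_assoc]
    rw [h1, wH]
    simp only [Matrix.mul_assoc]
  · have h1 : Matrix.diagonal (wi m) * ((irrH ℚ m).transpose * X.transpose) *
        Matrix.diagonal (wt n) * Y = (Matrix.diagonal (wi m) * (irrH ℚ m).transpose) *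
        (X.transpose * Matrix.diagonal (wt n) * Y) := by
      simp only [Matrix.mul_assoc]
    rw [h1, wH', Matrix.mul_assoc, Matrix.trace_mul_comm]
    simp only [Matrix.mul_assoc]

/-- The Casimir operator on rational matrices. -/
def qC (m n : ℕ) : Module.End ℚ (Matrix (Fin (n + 1)) (Fin (m + 1)) ℚ) :=
  qE m n * qF m n + qF m n * qE m n + qH m n * qH m n

theorem bf_C (X Y : Matrix (Fin (n + 1)) (Fin (m + 1)) ℚ) :
    bf X (qC m n Y) = 2 * bf (qF m n X) (qF m n Y) + (1 / 2) * bf (qE m n X) (qE m n Y) +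
      bf (qH m n X) (qH m n Y) := by
  show bf X (qE m n (qF m n Y) + qF m n (qE m n Y) + qH m n (qH m n Y)) = _
  rw [bf_add_right, bf_add_right]
  have h1 : bf X (qE m n (qF m n Y)) = 2 * bf (qF m n X) (qF m n Y) := by
    rw [bf_symm, bf_E, bf_symm]
  have h2 : bf X (qF m n (qE m n Y)) = (1 / 2) * bf (qE m n X) (qE m n Y) := by
    rw [bf_E]; ring
  rw [h1, h2, bf_H]

theorem ker_C {X : Matrix (Fin (n + 1)) (Fin (m + 1)) ℚ} (h : qC m n X = 0) :
    qE m n X = 0 ∧ qF m n X = 0 ∧ qH m n X = 0 := by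
  have h1 := bf_C X X
  rw [h] at h1
  have h0 : bf X (0 : Matrix (Fin (n + 1)) (Fin (m + 1)) ℚ) = 0 := by
    unfold bf; rw [Matrix.mul_zero, Matrix.trace_zero]
  rw [h0] at h1
  have e1 := bf_nonneg (qE m n X)
  have e2 := bf_nonneg (qF m n X)
  have e3 := bf_nonneg (qH m n X)
  exact ⟨bf_def (by linarith), bf_def (by linarith), bf_def (by linarith)⟩

theorem C_symm (X Y : Matrix (Fin (n + 1)) (Fin (m + 1)) ℚ) :
    bf X (qC m n Y) = bf (qC m n X) Y := by
  rw [bf_symm (qC m n X) Y, bf_C, bf_C, bf_symm (qF m n X), bf_symm (qE m n X),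
    bf_symm (qH m n X)]

theorem ker_C2 {X : Matrix (Fin (n + 1)) (Fin (m + 1)) ℚ} (h : qC m n (qC m n X) = 0) :
    qC m n X = 0 := by
  apply bf_def
  rw [← C_symm, h]
  unfold bf; rw [Matrix.mul_zero, Matrix.trace_zero]

theorem ker_pow (k : ℕ) {X : Matrix (Fin (n + 1)) (Fin (m + 1)) ℚ}
    (h : ((qC m n) ^ k) X = 0) : qC m n X = 0 := by
  induction k generalizing X with
  | zero =>
    have : X = 0 := h
    rw [this, map_zero]
  | succ k ih =>
    rw [pow_succ, Module.End.mul_apply] at h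
    exact ker_C2 (ih h)

theorem exists_s (m n : ℕ) : ∃ s : ℚ[X], s.coeff 0 = 1 ∧
    ∀ X, qE m n (aeval (qC m n) s X) = 0 ∧ qF m n (aeval (qC m n) s X) = 0 ∧
      qH m n (aeval (qC m n) s X) = 0 := by
  obtain ⟨p, hp, hp0⟩ : ∃ p : ℚ[X], p ≠ 0 ∧ aeval (qC m n) p = 0 := by
    have hint : IsIntegral ℚ (qC m n) := Algebra.IsIntegral.isIntegral _
    exact ⟨minpoly ℚ (qC m n), minpoly.ne_zero hint, minpoly.aeval _ _⟩
  obtain ⟨q, hq, hnd⟩ := exists_eq_pow_rootMultiplicity_mul_and_not_dvd p hp 0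
  rw [C_0, sub_zero] at hq hnd
  have hq0 : q.coeff 0 ≠ 0 := fun h => hnd (X_dvd_iff.2 h)
  refine ⟨C (q.coeff 0)⁻¹ * q, ?_, ?_⟩
  · rw [coeff_C_mul, inv_mul_cancel₀ hq0]
  · intro Y
    have h1 : qC m n (aeval (qC m n) (C (q.coeff 0)⁻¹ * q) Y) = 0 := by
      apply ker_pow (rootMultiplicity 0 p)
      rw [map_mul, aeval_C, Module.End.mul_apply, Module.algebraMap_end_apply, map_smul]
      have h2 : ((qC m n) ^ (rootMultiplicity 0 p)) (aeval (qC m n) q Y) = 0 := by
        rw [← Module.End.mul_apply, ← aeval_X (R := ℚ) (x := qC m n), ← map_pow, aeval_X,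
          ← map_mul, ← hq, hp0]
        rfl
      rw [h2, smul_zero]
    exact ker_C h1

end pos

/-! ### Base change -/

section change

variable (K : Type u) [Field K] [CharZero K] (m n : ℕ)

theorem irrE_map (n : ℕ) : irrE K n = (irrE ℚ n).map (algebraMap ℚ K) := by
  ext i j
  rw [Matrix.map_apply]
  unfold irrE
  split_ifs <;> simp

theorem irrF_map (n : ℕ) : irrF K n = (irrF ℚ n).map (algebraMap ℚ K) := by
  ext i j
  rw [Matrix.map_apply]
  unfold irrF
  split_ifs <;> simp

theorem irrH_map (n : ℕ) : irrH K n = (irrH ℚ n).map (algebraMap ℚ K) := by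
  ext i j
  rw [Matrix.map_apply]
  unfold irrH
  split_ifs <;> simp

/-- Base change of matrices. -/
def bc (X : Matrix (Fin (n + 1)) (Fin (m + 1)) ℚ) : (Fin (m + 1) → K) →ₗ[K] (Fin (n + 1) → K) :=
  Matrix.toLin' (X.map (algebraMap ℚ K))

theorem bc_add (X Y : Matrix (Fin (n + 1)) (Fin (m + 1)) ℚ) :
    bc K m n (X + Y) = bc K m n X + bc K m n Y := by
  unfold bc
  rw [← map_add, Matrix.map_add _ (fun a b => map_add _ a b)]

theorem bc_smul (c : ℚ) (X : Matrix (Fin (n + 1)) (Fin (m + 1)) ℚ) :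
    bc K m n (c • X) = (algebraMap ℚ K c) • bc K m n X := by
  unfold bc
  rw [← map_smul]
  congr 1
  ext i j
  simp

theorem bc_mad (A : Matrix (Fin (m + 1)) (Fin (m + 1)) ℚ)
    (A' : Matrix (Fin (n + 1)) (Fin (n + 1)) ℚ) (X : Matrix (Fin (n + 1)) (Fin (m + 1)) ℚ) :
    bc K m n (mad A A' X) = adj (Matrix.toLin' (A.map (algebraMap ℚ K)))
      (Matrix.toLin' (A'.map (algebraMap ℚ K))) (bc K m n X) := by
  show Matrix.toLin' ((A' * X - X * A).map (algebraMap ℚ K)) = _
  rw [adj_apply, Matrix.map_sub _ (fun a b => map_sub _ a b), Matrix.map_mul, Matrix.map_mul,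
    map_sub, Matrix.toLin'_mul, Matrix.toLin'_mul]
  rfl

theorem bc_E (X : Matrix (Fin (n + 1)) (Fin (m + 1)) ℚ) :
    adj (irr K m).e (irr K n).e (bc K m n X) = bc K m n (qE m n X) := by
  rw [qE, bc_mad, ← irrE_map, ← irrE_map]
  rfl

theorem bc_F (X : Matrix (Fin (n + 1)) (Fin (m + 1)) ℚ) :
    adj (irr K m).f (irr K n).f (bc K m n X) = bc K m n (qF m n X) := by
  rw [qF, bc_mad, ← irrF_map, ← irrF_map]
  rfl

theorem bc_H (X : Matrix (Fin (n + 1)) (Fin (m + 1)) ℚ) :
    adj (irr K m).h (irr K n).h (bc K m n X) = bc K m n (qH m n X) := by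
  rw [qH, bc_mad, ← irrH_map, ← irrH_map]
  rfl

theorem bc_C (X : Matrix (Fin (n + 1)) (Fin (m + 1)) ℚ) :
    casimir (irr K m) (irr K n) (bc K m n X) = bc K m n (qC m n X) := by
  simp only [casimir, qC, LinearMap.add_apply, Module.End.mul_apply, bc_E, bc_F, bc_H, bc_add]

theorem bc_pow (k : ℕ) (X : Matrix (Fin (n + 1)) (Fin (m + 1)) ℚ) :
    (casimir (irr K m) (irr K n) ^ k) (bc K m n X) = bc K m n ((qC m n ^ k) X) := by
  induction k generalizing X with
  | zero => rfl
  | succ k ih => rw [pow_succ, pow_succ, Module.End.mul_apply, Module.End.mul_apply, bc_C, ih]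

theorem bc_aeval (s : ℚ[X]) (X : Matrix (Fin (n + 1)) (Fin (m + 1)) ℚ) :
    aeval (casimir (irr K m) (irr K n)) (s.map (algebraMap ℚ K)) (bc K m n X) =
      bc K m n (aeval (qC m n) s X) := by
  induction s using Polynomial.induction_on' with
  | add p q hp hq =>
    rw [Polynomial.map_add, map_add, map_add, LinearMap.add_apply, LinearMap.add_apply, hp, hq,
      bc_add]
  | monomial k a =>
    rw [Polynomial.map_monomial, aeval_monomial, aeval_monomial, Module.End.mul_apply,
      Module.End.mul_apply, Module.algebraMap_end_apply, Module.algebraMap_end_apply, bc_smul,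
      bc_pow]

theorem zero_of_bc {T : Module.End K ((Fin (m + 1) → K) →ₗ[K] (Fin (n + 1) → K))}
    (h : ∀ X, T (bc K m n X) = 0) : T = 0 := by
  have h1 : T ∘ₗ (Matrix.toLin' (R := K) (m := Fin (n + 1)) (n := Fin (m + 1))).toLinearMap =
      0 := by
    apply Matrix.ext_linearMap
    intro i j
    apply LinearMap.ext_ring
    have h2 := h (Matrix.single i j 1)
    have h3 : (Matrix.single i j (1 : ℚ)).map (algebraMap ℚ K) = Matrix.single i j (1 : K) := by
      ext a b
      rw [Matrix.map_apply, Matrix.single_apply, Matrix.single_apply]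
      split_ifs <;> simp
    unfold bc at h2
    rw [h3] at h2
    exact h2
  refine LinearMap.ext fun x => ?_
  have h2 := LinearMap.congr_fun h1 (LinearMap.toMatrix' x)
  rw [LinearMap.comp_apply] at h2
  have h3 : (Matrix.toLin' (R := K) (m := Fin (n + 1)) (n := Fin (m + 1))).toLinearMap
      (LinearMap.toMatrix' x) = x := Matrix.toLin'_toMatrix' x
  rw [h3] at h2
  exact h2

/-- The Green operator exists for all pairs of irreducible representations. -/
theorem green_irr : Green (irr K m) (irr K n) := by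
  obtain ⟨s, hs, h⟩ := exists_s m n
  refine green_of_poly _ _ (s.map (algebraMap ℚ K)) ?_ ?_ ?_ ?_
  · rw [coeff_map, hs, map_one]
  · apply zero_of_bc
    intro X
    rw [Module.End.mul_apply, bc_aeval, bc_E, (h X).1]
    unfold bc
    rw [Matrix.map_zero _ (map_zero _), map_zero]
  · apply zero_of_bc
    intro X
    rw [Module.End.mul_apply, bc_aeval, bc_F, (h X).2.1]
    unfold bc
    rw [Matrix.map_zero _ (map_zero _), map_zero]
  · apply zero_of_bc
    intro X
    rw [Module.End.mul_apply, bc_aeval, bc_H, (h X).2.2]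
    unfold bc
    rw [Matrix.map_zero _ (map_zero _), map_zero]

end change

end W450.Rig
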