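/-
The algebra is not semisimple.
-/
import Pool.Agent.W450.RigHom

namespace W450.Rig

universe u

theorem not_semisimple_of {A : Type u} [Ring A] (x : A) (hx : x ≠ 0)
    (h : ∀ a : A, x * a * x = 0) : ¬ IsSemisimpleRing A := by
  intro hs
  obtain ⟨N', hN'⟩ := exists_isCompl (Submodule.span A {x})
  have h1 : (1 : A) ∈ Submodule.span A {x} ⊔ N' := by
    rw [hN'.sup_eq_top]; exact Submodule.mem_top
  obtain ⟨y, hy, z, hz, hyz⟩ := Submodule.mem_sup.1 h1
  obtain ⟨a, rfl⟩ := Submodule.mem_span_singleton.1 hy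
  have h2 : x = x * z := by
    calc x = x * (a • x + z) := by rw [hyz, mul_one]
      _ = x * a * x + x * z := by rw [mul_add, smul_eq_mul, mul_assoc]
      _ = x * z := by rw [h, zero_add]
  have h3 : x ∈ N' := by
    rw [h2]; exact N'.smul_mem x hz
  have h4 : x ∈ Submodule.span A {x} ⊓ N' := ⟨Submodule.mem_span_singleton_self x, h3⟩
  rw [hN'.inf_eq_bot] at h4
  exact hx ((Submodule.mem_bot A).1 h4)

variable {K : Type u} [Field K]

theorem id_T00z : ((X.T00 * X.Rz) - Z).chk = true := by decide +kernel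

theorem lam1_sq (a : Rg K) : lam K 1 * a * lam K 1 = 0 := by
  apply smul_oneV_inj
  rw [zero_smul, mul_smul, mul_smul, lam_oneV (trivSL K)]
  have h1 : (Pi.single (1 : B) (1 : K) : B → K) =
      (trivSL K).ev X.Rz (Pi.single (10 : B) (1 : K)) :=
    ((trivSL K).ev_single X.Rz 10 1 (by decide +kernel) 1).symm
  have h2 : a • (trivSL K).ev X.Rz (Pi.single (10 : B) (1 : K) : B → K) =
      (trivSL K).ev X.Rz (a • (Pi.single (10 : B) (1 : K) : B → K)) :=
    ((trivSL K).ev_rsmul X.Rz rfl a _).symm
  rw [h1, h2]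
  have h3 : ∀ y : B → K, lam K 1 • y = (trivSL K).ev X.Lz ((trivSL K).ev X.T00 y) := by
    intro y
    rw [rg_smul]
    show tact (wmat K (lwords.getD ((1 : B) : ℕ) [])) y = _
    have : lwords.getD ((1 : B) : ℕ) [] = [19, 20] := by decide +kernel
    rw [this]
    show tact (tmat K 19 * (tmat K 20 * 1)) y = _
    rw [mul_one, tact_mul]
    rfl
  rw [h3]
  have h4 : ∀ y : B → K, (trivSL K).ev X.T00 ((trivSL K).ev X.Rz y) = 0 := by
    intro y
    have := (trivSL K).opEq id_T00z y
    rw [(trivSL K).evZ] at this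
    exact this
  rw [h4, map_zero]

theorem alg_not_semisimple (K : Type u) [Field K] : ¬ IsSemisimpleRing (Alg K) := by
  apply not_semisimple_of (lam K 1).unop
  · intro h
    have h1 : lam K 1 = 0 := MulOpposite.unop_injective h
    have h2 := lam_oneV (trivSL K) 1 (1 : K)
    rw [h1, zero_smul] at h2
    have h3 := congrFun h2 1
    simp at h3
  · intro a
    have h1 := lam1_sq (MulOpposite.op a)
    have h2 := congrArg MulOpposite.unop h1
    simp only [MulOpposite.unop_mul, MulOpposite.unop_op, MulOpposite.unop_zero] at h2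
    rw [mul_assoc]
    exact h2

end W450.Rig
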