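/-
Dimension shifting for `Ext` of modules.
-/
import Mathlib

namespace W450.Rig

open CategoryTheory CategoryTheory.Abelian

universe u

variable {R : Type u} [Ring R] {M P N Y : Type u}
  [AddCommGroup M] [AddCommGroup P] [AddCommGroup N] [AddCommGroup Y]
  [Module R M] [Module R P] [Module R N] [Module R Y]

/-- The short complex of a short exact sequence of modules. -/
def sc (i : N →ₗ[R] P) (p : P →ₗ[R] M) (hex : Function.Exact i p) :
    ShortComplex (ModuleCat.{u} R) :=
  ShortComplex.mk (ModuleCat.ofHom i) (ModuleCat.ofHom p) (by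
    ext x
    exact hex.apply_apply_eq_zero x)

theorem sc_exact (i : N →ₗ[R] P) (p : P →ₗ[R] M) (hex : Function.Exact i p)
    (hi : Function.Injective i) (hp : Function.Surjective p) : (sc i p hex).ShortExact where
  exact := (ShortComplex.ShortExact.moduleCat_exact_iff_function_exact _).2 hex
  mono_f := (ModuleCat.mono_iff_injective _).2 hi
  epi_g := (ModuleCat.epi_iff_surjective _).2 hp

theorem ext_step (i : N →ₗ[R] P) (p : P →ₗ[R] M) (hex : Function.Exact i p)
    (hi : Function.Injective i) (hp : Function.Surjective p) [Module.Projective R P] (n : ℕ)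
    (h : Subsingleton (Ext (ModuleCat.of R N) (ModuleCat.of R Y) n)) :
    Subsingleton (Ext (ModuleCat.of R M) (ModuleCat.of R Y) (n + 1)) := by
  refine subsingleton_of_forall_eq 0 fun x => ?_
  have hS := sc_exact i p hex hi hp
  have : Projective (ModuleCat.of R P) := inferInstance
  obtain ⟨y, hy⟩ := Ext.contravariant_sequence_exact₃ (S := sc i p hex) hS
    (ModuleCat.of R Y) (n₁ := n + 1) x
    (Ext.eq_zero_of_projective (P := ModuleCat.of R P) _) (n₀ := n) (add_comm 1 n)
  have h0 : y = 0 := @Subsingleton.elim _ h y 0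
  rw [← hy, h0, Ext.comp_zero]
  rfl

theorem ext_one (i : N →ₗ[R] P) (p : P →ₗ[R] M) (hex : Function.Exact i p)
    (hi : Function.Injective i) (hp : Function.Surjective p) [Module.Projective R P]
    (h : ∀ g : N →ₗ[R] Y, ∃ g' : P →ₗ[R] Y, g' ∘ₗ i = g) :
    Subsingleton (Ext (ModuleCat.of R M) (ModuleCat.of R Y) 1) := by
  refine subsingleton_of_forall_eq 0 fun x => ?_
  have hS := sc_exact i p hex hi hp
  have : Projective (ModuleCat.of R P) := inferInstance
  obtain ⟨y, hy⟩ := Ext.contravariant_sequence_exact₃ (S := sc i p hex) hS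
    (ModuleCat.of R Y) (n₁ := 1) x
    (Ext.eq_zero_of_projective (P := ModuleCat.of R P) _) (n₀ := 0) (add_comm 1 0)
  obtain ⟨g, rfl⟩ := Ext.addEquiv₀.symm.surjective y
  obtain ⟨g', hg'⟩ := h g.hom
  have e1 : g = (sc i p hex).f ≫ ModuleCat.ofHom g' := by
    ext x
    exact (LinearMap.congr_fun hg' x).symm
  have e2 : (Ext.addEquiv₀.symm ((sc i p hex).f ≫ ModuleCat.ofHom g') :
      Ext (sc i p hex).X₁ (ModuleCat.of R Y) 0) =
      (Ext.mk₀ (sc i p hex).f).comp
        (Ext.mk₀ (Y := ModuleCat.of R Y) (X := (sc i p hex).X₂) (ModuleCat.ofHom g'))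
        (add_zero 0) :=
    (Ext.mk₀_comp_mk₀ (sc i p hex).f
      (Z := ModuleCat.of R Y) (ModuleCat.ofHom g')).symm
  rw [← hy, e1, e2, hS.extClass_comp_assoc]
  rfl

end W450.Rig
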