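import Mathlib

set_option autoImplicit false
set_option linter.unusedSectionVars false

namespace Pool.Agent.W450

open Polynomial Matrix
open scoped ComplexOrder

noncomputable section

/-- `f(t) ↦ f(-t)` -/
def sg : ℝ[X] →+* ℝ[X] := compRingHom (-X)

lemma sg_apply (f : ℝ[X]) : sg f = f.comp (-X) := rfl

@[simp] lemma sg_sg (f : ℝ[X]) : sg (sg f) = f := by
  simp [sg_apply, comp_assoc]

@[simp] lemma sg_X : sg X = -X := by simp [sg_apply]
@[simp] lemma sg_C (a : ℝ) : sg (C a) = C a := by simp [sg_apply]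

lemma sg_inj : Function.Injective sg := fun a b h => by
  have := congrArg sg h
  simpa using this

lemma sg_ne_zero {f : ℝ[X]} (h : f ≠ 0) : sg f ≠ 0 := fun h0 => h (sg_inj (by simpa using h0))

lemma natDegree_sg (f : ℝ[X]) : (sg f).natDegree = f.natDegree := by
  rw [sg_apply, natDegree_comp]; simp

lemma coeff_sg (f : ℝ[X]) (k : ℕ) : (sg f).coeff k = (-1) ^ k * f.coeff k := by
  induction f using Polynomial.induction_on' with
  | add p q hp hq => simp [hp, hq]; ring
  | monomial n a =>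
    rw [← C_mul_X_pow_eq_monomial]
    rw [map_mul, map_pow, sg_X, sg_C, neg_pow]
    have : (C a * ((-1) ^ n * X ^ n) : ℝ[X]) = C ((-1) ^ n * a) * X ^ n := by
      rw [C_mul, C_pow]; simp; ring
    rw [this, coeff_C_mul, coeff_C_mul, coeff_X_pow]
    split_ifs with h
    · subst h; ring
    · simp

/-- evaluation at `i τ` -/
def ev (τ : ℝ) : ℝ[X] →+* ℂ := (aeval (Complex.I * τ) : ℝ[X] →ₐ[ℝ] ℂ).toRingHom

lemma ev_apply (τ : ℝ) (f : ℝ[X]) : ev τ f = aeval (Complex.I * τ) f := rfl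

lemma ev_eq (τ : ℝ) (f : ℝ[X]) : ev τ f = (f.map (algebraMap ℝ ℂ)).eval (Complex.I * τ) := by
  rw [ev_apply, aeval_def, eval_map]

@[simp] lemma ev_X (τ : ℝ) : ev τ X = Complex.I * τ := by simp [ev_apply]
@[simp] lemma ev_C (τ : ℝ) (a : ℝ) : ev τ (C a) = a := by simp [ev_apply]

lemma ev_sg (τ : ℝ) (f : ℝ[X]) : ev τ (sg f) = star (ev τ f) := by
  induction f using Polynomial.induction_on' with
  | add p q hp hq => simp [hp, hq]
  | monomial n a =>
    rw [← C_mul_X_pow_eq_monomial]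
    simp only [map_mul, map_pow, sg_X, sg_C, map_neg, ev_X, ev_C, star_mul', star_pow]
    simp

/-- adjoint -/
def st {m n : Type*} (A : Matrix m n ℝ[X]) : Matrix n m ℝ[X] := (A.map sg)ᵀ

/-- evaluation of matrices -/
def evm {m n : Type*} (τ : ℝ) (A : Matrix m n ℝ[X]) : Matrix m n ℂ := A.map (ev τ)

section
variable {l m n : Type*} [Fintype l] [Fintype m] [Fintype n]

@[simp] lemma st_apply (A : Matrix m n ℝ[X]) (i j) : st A i j = sg (A j i) := rfl
@[simp] lemma evm_apply (τ : ℝ) (A : Matrix m n ℝ[X]) (i j) : evm τ A i j = ev τ (A i j) := rfl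

@[simp] lemma st_st (A : Matrix m n ℝ[X]) : st (st A) = A := by
  ext i j : 2; simp

lemma st_mul (A : Matrix l m ℝ[X]) (B : Matrix m n ℝ[X]) : st (A * B) = st B * st A := by
  unfold st
  rw [Matrix.map_mul, Matrix.transpose_mul]

lemma st_smul (f : ℝ[X]) (A : Matrix m n ℝ[X]) : st (f • A) = sg f • st A := by
  ext i j : 2; simp

lemma st_neg (A : Matrix m n ℝ[X]) : st (-A) = - st A := by
  ext i j : 2; simp

lemma st_one [DecidableEq n] : st (1 : Matrix n n ℝ[X]) = 1 := by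
  unfold st
  rw [Matrix.map_one _ (map_zero _) (map_one _)]; simp

lemma det_st [DecidableEq n] (A : Matrix n n ℝ[X]) : (st A).det = sg A.det := by
  unfold st
  rw [Matrix.det_transpose, RingHom.map_det]; rfl

lemma evm_st (τ : ℝ) (A : Matrix m n ℝ[X]) : evm τ (st A) = (evm τ A)ᴴ := by
  ext i j
  simp [ev_sg]

lemma evm_mul (τ : ℝ) (A : Matrix l m ℝ[X]) (B : Matrix m n ℝ[X]) :
    evm τ (A * B) = evm τ A * evm τ B := by
  unfold evm; rw [Matrix.map_mul]

lemma evm_smul (τ : ℝ) (f : ℝ[X]) (A : Matrix m n ℝ[X]) :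
    evm τ (f • A) = ev τ f • evm τ A := by
  ext i j; simp

lemma det_evm [DecidableEq n] (τ : ℝ) (A : Matrix n n ℝ[X]) : (evm τ A).det = ev τ A.det := by
  unfold evm; rw [RingHom.map_det]; rfl

lemma evm_herm (τ : ℝ) (G : Matrix n n ℝ[X]) (h : st G = G) : (evm τ G).IsHermitian := by
  unfold Matrix.IsHermitian
  rw [← evm_st, h]

end

lemma hasDerivAt_ev (f : ℝ[X]) (τ : ℝ) :
    HasDerivAt (fun x : ℝ => ev x f) (Complex.I * ev τ (derivative f)) τ := by
  have h1 : HasDerivAt (fun z : ℂ => (f.map (algebraMap ℝ ℂ)).eval (Complex.I * z))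
      ((derivative (f.map (algebraMap ℝ ℂ))).eval (Complex.I * τ) * Complex.I) (τ : ℂ) := by
    have h2 := (f.map (algebraMap ℝ ℂ)).hasDerivAt (Complex.I * τ)
    have h3 : HasDerivAt (fun z : ℂ => Complex.I * z) Complex.I (τ : ℂ) := by
      simpa using (hasDerivAt_id (τ : ℂ)).const_mul Complex.I
    exact h2.comp (τ : ℂ) h3
  have h4 := h1.comp_ofReal
  have h5 : (fun y : ℝ => (f.map (algebraMap ℝ ℂ)).eval (Complex.I * y)) = fun x : ℝ => ev x f := by
    funext x; rw [ev_eq]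
  rw [h5, derivative_map, ← ev_eq, mul_comm] at h4
  exact h4

end

end Pool.Agent.W450
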