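import Pool.Agent.W450.Det9

set_option autoImplicit false
set_option linter.unusedSectionVars false

namespace Pool.Agent.W450

open Polynomial Matrix Filter Topology
open scoped ComplexOrder MatrixOrder

noncomputable section

variable {n : ℕ} {S : Finset (Fin 2 →₀ ℕ)} {c : (Fin 2 →₀ ℕ) → ℂ}

/-- evaluation at a complex point -/
def evc (t : ℂ) : ℝ[X] →+* ℂ := (aeval t : ℝ[X] →ₐ[ℝ] ℂ).toRingHom

lemma ev_eq_evc (τ : ℝ) : ev τ = evc (Complex.I * τ) := rfl

@[simp] lemma evc_X (t : ℂ) : evc t X = t := by simp [evc]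
@[simp] lemma evc_C (t : ℂ) (a : ℝ) : evc t (C a) = a := by simp [evc]

def rho (n : ℕ) (c : (Fin 2 →₀ ℕ) → ℂ) (m : Fin 2 →₀ ℕ) : ℝ :=
  (Complex.I ^ n * (-Complex.I) ^ (m 0 + m 1) * c m).re

lemma Adm.rho_eq (h : Adm n S c) (m : Fin 2 →₀ ℕ) (hm : m ∈ S) :
    (rho n c m : ℂ) = Complex.I ^ n * (-Complex.I) ^ (m 0 + m 1) * c m := by
  have h1 := h.real_coeff m hm
  have h2 := h.deg m hm
  have h3 := h.par m hm
  obtain ⟨k, hk⟩ : ∃ k, n = (m 0 + m 1) + 2 * k := ⟨(n - (m 0 + m 1)) / 2, by omega⟩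
  have h4 : Complex.I ^ n * (-Complex.I) ^ (m 0 + m 1) = (-1) ^ k := by
    rw [hk, pow_add, pow_mul, Complex.I_sq]
    have : Complex.I ^ (m 0 + m 1) * (-Complex.I) ^ (m 0 + m 1) = 1 := by
      rw [← mul_pow]; simp
    linear_combination (-1) ^ k * this
  unfold rho
  rw [h4]
  have h5 : (c m) = ((c m).re : ℂ) := by
    apply Complex.ext <;> simp [h1]
  rw [h5]
  have h6 : ((-1 : ℂ) ^ k * ((c m).re : ℂ)) = (((-1) ^ k * (c m).re : ℝ) : ℂ) := by push_cast; rfl
  rw [h6, Complex.ofReal_re]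

/-- the twisted real polynomial `q(s,t) = i^n p(-i s, -i t)` -/
def qq (n : ℕ) (S : Finset (Fin 2 →₀ ℕ)) (c : (Fin 2 →₀ ℕ) → ℂ) : ℝ[X][X] :=
  ∑ m ∈ S, C (C (rho n c m) * X ^ (m 1)) * X ^ (m 0)

lemma Adm.eval_qq (h : Adm n S c) (s t : ℂ) :
    ((qq n S c).map (evc t)).eval s = Complex.I ^ n * fn S c (-Complex.I * s) (-Complex.I * t) := by
  unfold qq fn
  rw [Polynomial.map_sum, eval_finsetSum, Finset.mul_sum]
  refine Finset.sum_congr rfl fun m hm => ?_
  rw [Polynomial.map_mul, Polynomial.map_C, Polynomial.map_pow, Polynomial.map_X, eval_mul, eval_C,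
    eval_pow, eval_X, map_mul, map_pow, evc_C, evc_X, h.rho_eq m hm, mul_pow, mul_pow, pow_add]
  ring

lemma Adm.qq_monic (h : Adm n S c) : (qq n S c).Monic ∧ (qq n S c).natDegree = n := by
  refine gen_monic S n h.deg (fun m => C (rho n c m) * X ^ (m 1)) ?_ h.mem
  have h1 := h.rho_eq (top0 n) h.mem
  rw [h.one] at h1
  have h2 : (rho n c (top0 n) : ℂ) = 1 := by
    rw [h1]
    simp only [Finsupp.single_eq_same, mul_one]
    rw [Finsupp.single_eq_of_ne (by decide), add_zero, ← mul_pow]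
    simp
  have h3 : rho n c (top0 n) = 1 := by exact_mod_cast h2
  rw [h3, Finsupp.single_eq_of_ne (by decide)]
  simp

lemma Adm.rootsOk (h : Adm n S c) : RootsOk (qq n S c) := by
  obtain ⟨K, hK⟩ := h.growth
  refine ⟨K, fun τ s hs => ?_⟩
  rw [ev_eq_evc, h.eval_qq] at hs
  have h1 : -Complex.I * (Complex.I * (τ : ℂ)) = (τ : ℂ) := by
    rw [← mul_assoc]; simp
  rw [h1] at hs
  have h2 : fn S c (-Complex.I * s) (τ : ℂ) = 0 := by
    rcases mul_eq_zero.1 hs with h3 | h3
    · exact absurd h3 (pow_ne_zero _ Complex.I_ne_zero)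
    · exact h3
  refine ⟨?_, ?_⟩
  · have := h.real_roots _ _ h2
    simpa using this
  · have := hK _ _ h2
    simpa using this

/-- complexification of a real matrix -/
abbrev cm {m : Type*} (A : Matrix m m ℝ) : Matrix m m ℂ := A.map (fun a => (a : ℂ))

lemma Adm.exists_matrices (h : Adm n S c) : ∃ A B : Matrix (Fin n) (Fin n) ℝ,
    Aᵀ = -A ∧ Bᵀ = B ∧ ∀ x y : ℂ,
      fn S c x y = (-Complex.I) ^ n * (cm A + Complex.I • (x • 1 + y • cm B)).det := by
  obtain ⟨N, M, hM, hc⟩ := exists_skew _ h.qq_monic.1 h.rootsOk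
  have hN : N = n := by
    have := Matrix.charpoly_natDegree_eq_dim M
    rw [hc, h.qq_monic.2, Fintype.card_fin] at this
    exact this.symm
  subst hN
  obtain ⟨M0, M1, h1, h2, h3⟩ := exists_linear M hM (by rw [hc]; exact h.rootsOk)
  refine ⟨-M0, -M1, by rw [transpose_neg, h2], by rw [transpose_neg, h3], fun x y => ?_⟩
  have h4 := h.eval_qq (Complex.I * x) (Complex.I * y)
  have e1 : -Complex.I * (Complex.I * x) = x := by rw [← mul_assoc]; simp
  have e2 : -Complex.I * (Complex.I * y) = y := by rw [← mul_assoc]; simp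
  rw [e1, e2, ← hc, ← Matrix.charpoly_map, Matrix.eval_charpoly] at h4
  have h5 : (Matrix.scalar (Fin N)) (Complex.I * x) - M.map (evc (Complex.I * y)) =
      cm (-M0) + Complex.I • (x • 1 + y • cm (-M1)) := by
    ext i j
    rw [h1]
    simp [Matrix.scalar_apply, Matrix.diagonal_apply, Matrix.one_apply]
    split_ifs <;> ring
  rw [h5] at h4
  rw [h4, ← mul_assoc, ← mul_pow]
  simp

lemma tendsto_fn_zero (hdeg : ∀ m ∈ S, m 0 + m 1 ≤ n) (hmem : Finsupp.single 1 n ∈ S) :
    Tendsto (fun R : ℝ => fn S c 0 (R : ℂ) / (R : ℂ) ^ n) atTop (𝓝 (c (Finsupp.single 1 n))) := by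
  have h1 : ∀ R : ℝ, 0 < R → fn S c 0 (R : ℂ) / (R : ℂ) ^ n =
      ∑ m ∈ S, (c m * 0 ^ m 0) * (((R⁻¹) ^ (n - m 1) : ℝ) : ℂ) := by
    intro R hR
    have hR' : (R : ℂ) ≠ 0 := by exact_mod_cast hR.ne'
    unfold fn
    rw [Finset.sum_div]
    refine Finset.sum_congr rfl fun m hm => ?_
    have h2 := hdeg m hm
    have h3 : (R : ℂ) ^ n = (R : ℂ) ^ m 1 * (R : ℂ) ^ (n - m 1) := by
      rw [← pow_add]; congr 1; omega
    rw [h3]
    push_cast
    rw [inv_pow]
    field_simp
  have h2 : Tendsto (fun R : ℝ => ∑ m ∈ S, (c m * 0 ^ m 0) * (((R⁻¹) ^ (n - m 1) : ℝ) : ℂ)) atTop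
      (𝓝 (∑ m ∈ S, if m = Finsupp.single 1 n then c m else 0)) := by
    refine tendsto_finsetSum _ fun m hm => ?_
    have h2 := hdeg m hm
    by_cases h0 : m 0 = 0
    · by_cases h3 : m 1 = n
      · have h4 : m = Finsupp.single 1 n := by
          ext i
          fin_cases i
          · simpa using h0
          · simpa using h3
        rw [if_pos h4, h0, h3]
        simp
      · have h4 : m ≠ Finsupp.single 1 n := by
          rintro rfl; simp at h3
        rw [if_neg h4]
        have h5 : Tendsto (fun R : ℝ => (R⁻¹) ^ (n - m 1)) atTop (𝓝 (0 : ℝ)) := by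
          have := (tendsto_inv_atTop_zero (𝕜 := ℝ)).pow (n - m 1)
          rwa [zero_pow (by omega)] at this
        have h6 := (Complex.continuous_ofReal.tendsto (0 : ℝ)).comp h5
        have h7 := h6.const_mul (c m * 0 ^ m 0)
        simpa [Function.comp_def] using h7
    · have h4 : m ≠ Finsupp.single 1 n := by
        rintro rfl
        apply h0
        exact Finsupp.single_eq_of_ne (by decide)
      rw [if_neg h4, zero_pow h0]
      simp
  rw [Finset.sum_ite_eq', if_pos hmem] at h2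
  refine h2.congr' ?_
  filter_upwards [eventually_gt_atTop 0] with R hR
  exact (h1 R hR).symm

lemma Adm.posDef (h : Adm n S c) (hmem : Finsupp.single 1 n ∈ S)
    (hne : c (Finsupp.single 1 n) ≠ 0) {A B : Matrix (Fin n) (Fin n) ℝ} (hB : Bᵀ = B)
    (hAB : ∀ x y : ℂ,
      fn S c x y = (-Complex.I) ^ n * (cm A + Complex.I • (x • 1 + y • cm B)).det) :
    B.PosDef := by
  have hdet : B.det ≠ 0 := by
    intro h0
    apply hne
    have h1 := tendsto_fn_zero (c := c) h.deg hmem
    have h2 : Tendsto (fun R : ℝ => (-Complex.I) ^ n *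
        (((R⁻¹ : ℝ) : ℂ) • cm A + Complex.I • cm B).det) atTop
        (𝓝 ((-Complex.I) ^ n * (((0 : ℝ) : ℂ) • cm A + Complex.I • cm B).det)) := by
      have hcont : Continuous fun r : ℝ => (-Complex.I) ^ n *
          ((r : ℂ) • cm A + Complex.I • cm B).det := by fun_prop
      exact (hcont.tendsto 0).comp tendsto_inv_atTop_zero
    have h3 : (fun R : ℝ => fn S c 0 (R : ℂ) / (R : ℂ) ^ n) =ᶠ[atTop] (fun R : ℝ =>
        (-Complex.I) ^ n * (((R⁻¹ : ℝ) : ℂ) • cm A + Complex.I • cm B).det) := by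
      filter_upwards [eventually_gt_atTop 0] with R hR
      have hR' : (R : ℂ) ≠ 0 := by exact_mod_cast hR.ne'
      rw [hAB]
      have e1 : cm A + Complex.I • ((0 : ℂ) • 1 + (R : ℂ) • cm B) =
          (R : ℂ) • (((R⁻¹ : ℝ) : ℂ) • cm A + Complex.I • cm B) := by
        rw [zero_smul, zero_add, smul_add, smul_smul, smul_smul, smul_smul, mul_comm Complex.I]
        push_cast
        rw [mul_inv_cancel₀ hR', one_smul]
      rw [e1, det_smul, Fintype.card_fin]
      field_simp
    have h4 := tendsto_nhds_unique (h1.congr' h3) h2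
    rw [h4]
    have h5 : (((0 : ℝ) : ℂ) • cm A + Complex.I • cm B).det = 0 := by
      have h6 : (cm B).det = 0 := by
        have : (cm B).det = ((B.det : ℝ) : ℂ) := by
          exact (RingHom.map_det Complex.ofRealHom B).symm
        rw [this, h0]; simp
      simp [det_smul, h6]
    rw [h5, mul_zero]
  have hpos : ∀ x : ℝ, 0 < x → (x • (1 : Matrix (Fin n) (Fin n) ℝ) + B).det ≠ 0 := by
    intro x hx h0
    have h1 : ∀ r : ℝ, 0 < r → x ^ n ≤ ‖((r : ℂ) • cm A - ((x : ℂ) • 1 + cm B)).det‖ := by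
      intro r hr
      have hr' : (r : ℂ) ≠ 0 := by exact_mod_cast hr.ne'
      have h2 := h.bound_up (Complex.I * ((x / r : ℝ) : ℂ)) (Complex.I * ((1 / r : ℝ) : ℂ))
        (by simpa using by positivity) (by simpa using by positivity)
      rw [hAB, norm_mul, norm_pow, norm_neg, Complex.norm_I, one_pow, one_mul] at h2
      have e1 : cm A + Complex.I • ((Complex.I * ((x / r : ℝ) : ℂ)) • (1 : Matrix (Fin n) (Fin n) ℂ)
          + (Complex.I * ((1 / r : ℝ) : ℂ)) • cm B) =
          ((r⁻¹ : ℝ) : ℂ) • ((r : ℂ) • cm A - ((x : ℂ) • 1 + cm B)) := by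
        rw [smul_add, smul_smul, smul_smul, ← mul_assoc, ← mul_assoc, Complex.I_mul_I, smul_sub,
          smul_smul, smul_add, smul_smul]
        push_cast
        rw [inv_mul_cancel₀ hr', one_smul, sub_eq_add_neg, neg_add, ← neg_smul, ← neg_smul]
        congr 2
        · congr 1; field_simp
        · congr 1; field_simp
      rw [e1, det_smul, norm_mul, Fintype.card_fin, norm_pow, Complex.norm_real,
        Real.norm_eq_abs, abs_of_pos (by positivity)] at h2
      have e2 : (Complex.I * ((x / r : ℝ) : ℂ)).im = r⁻¹ * x := by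
        rw [Complex.mul_im]
        simp only [Complex.I_re, Complex.I_im, Complex.ofReal_re, Complex.ofReal_im]
        ring
      rw [e2, mul_pow] at h2
      exact le_of_mul_le_mul_left h2 (by positivity)
    have hcont : Continuous fun r : ℝ => ‖((r : ℂ) • cm A - ((x : ℂ) • 1 + cm B)).det‖ := by
      fun_prop
    have h2 : Tendsto (fun k : ℕ => ‖(((1 / ((k : ℝ) + 1) : ℝ) : ℂ) • cm A
        - ((x : ℂ) • 1 + cm B)).det‖) atTop
        (𝓝 ‖(((0 : ℝ) : ℂ) • cm A - ((x : ℂ) • 1 + cm B)).det‖) :=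
      (hcont.tendsto 0).comp tendsto_one_div_add_atTop_nhds_zero_nat
    have h3 := ge_of_tendsto h2 (Filter.Eventually.of_forall fun k => h1 _ (by positivity))
    have h4 : (((0 : ℝ) : ℂ) • cm A - ((x : ℂ) • 1 + cm B)).det = 0 := by
      have h5 : ((x : ℂ) • (1 : Matrix (Fin n) (Fin n) ℂ) + cm B).det = 0 := by
        have e3 : (x : ℂ) • (1 : Matrix (Fin n) (Fin n) ℂ) + cm B = cm (x • 1 + B) := by
          ext i j
          simp only [Matrix.add_apply, Matrix.smul_apply, Matrix.one_apply, Matrix.map_apply,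
            smul_eq_mul, Complex.ofReal_add, Complex.ofReal_mul]
          split_ifs <;> simp
        rw [e3]
        have : (cm (x • (1 : Matrix (Fin n) (Fin n) ℝ) + B)).det =
            (((x • (1 : Matrix (Fin n) (Fin n) ℝ) + B).det : ℝ) : ℂ) :=
          (RingHom.map_det Complex.ofRealHom _).symm
        rw [this, h0]; simp
      rw [Complex.ofReal_zero, zero_smul, zero_sub, det_neg, h5, mul_zero]
    rw [h4, norm_zero] at h3
    have : 0 < x ^ n := pow_pos hx n
    linarith
  have hH : B.IsHermitian := by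
    unfold Matrix.IsHermitian
    rw [conjTranspose_eq_transpose_of_trivial, hB]
  rw [hH.posDef_iff_eigenvalues_pos]
  intro i
  set v : Fin n → ℝ := ⇑(hH.eigenvectorBasis i) with hv
  have hBv : B *ᵥ v = hH.eigenvalues i • v := hH.mulVec_eigenvectorBasis i
  have hv0 : v ≠ 0 := by
    intro h0
    have h1 := hH.eigenvectorBasis.orthonormal.1 i
    have h2 : hH.eigenvectorBasis i = 0 := by
      ext j; exact congrFun h0 j
    rw [h2] at h1
    simp at h1
  rcases lt_trichotomy (hH.eigenvalues i) 0 with h1 | h1 | h1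
  · exfalso
    apply hpos (-hH.eigenvalues i) (by linarith)
    rw [← Matrix.exists_mulVec_eq_zero_iff]
    refine ⟨v, hv0, ?_⟩
    rw [add_mulVec, smul_mulVec, one_mulVec, hBv, neg_smul, neg_add_cancel]
  · exfalso
    apply hdet
    rw [← Matrix.exists_mulVec_eq_zero_iff]
    exact ⟨v, hv0, by rw [hBv, h1, zero_smul]⟩
  · exact h1

end

end Pool.Agent.W450
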