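import Pool.Agent.W450.Det1

set_option autoImplicit false
set_option linter.unusedSectionVars false

namespace Pool.Agent.W450

open Polynomial Matrix
open scoped ComplexOrder

noncomputable section

lemma dvd_of_root {π f : ℝ[X]} (hπ : Irreducible π) {z : ℂ} (hz : aeval z π = 0)
    (hf : aeval z f = 0) : π ∣ f := by
  have hint : IsIntegral ℝ z := Algebra.IsIntegral.isIntegral z
  have h1 := minpoly.dvd ℝ z hz
  have h2 := minpoly.dvd ℝ z hf
  have h3 := (minpoly.irreducible hint).associated_of_dvd hπ h1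
  exact h3.symm.dvd.trans h2

lemma exists_imag_root {π : ℝ[X]} (hπ : Irreducible π) (h : ¬ IsCoprime π (sg π)) :
    ∃ β : ℝ, ev β π = 0 := by
  have hd : π ∣ sg π := by
    by_contra hnd
    exact h (hπ.coprime_iff_not_dvd.2 hnd)
  obtain ⟨z, hz⟩ := IsAlgClosed.exists_aeval_eq_zero ℂ π hπ.degree_pos.ne'
  have hz2 : aeval (-z) π = 0 := by
    obtain ⟨g, hg⟩ := hd
    have : aeval z (sg π) = 0 := by rw [hg, map_mul, hz, zero_mul]
    rw [sg_apply, aeval_comp] at this
    simpa using this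
  have hQ : π ∣ (X ^ 2 - C (2 * z.re) * X + C (Complex.normSq z)) := by
    apply dvd_of_root hπ hz
    apply Complex.ext
    · simp [Complex.normSq_apply, pow_two]; ring
    · simp [pow_two]; ring
  obtain ⟨g, hg⟩ := hQ
  have h3 : aeval (-z) (X ^ 2 - C (2 * z.re) * X + C (Complex.normSq z)) = 0 := by
    rw [hg, map_mul, hz2, zero_mul]
  have h4 := congrArg Complex.re h3
  simp [Complex.normSq_apply, pow_two] at h4
  have h5 : z.re = 0 := by nlinarith
  refine ⟨z.im, ?_⟩
  rw [ev_apply]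
  have : (Complex.I * (z.im : ℂ)) = z := by
    apply Complex.ext <;> simp [h5]
  rw [this, hz]

lemma sq_dvd {π f : ℝ[X]} (hπ : Irreducible π) {β : ℝ} (h0 : ev β π = 0) (h1 : ev β f = 0)
    (h2 : ev β (derivative f) = 0) : π * π ∣ f := by
  obtain ⟨g, rfl⟩ := dvd_of_root hπ h0 h1
  have h3 : ev β (derivative π) * ev β g = 0 := by
    rw [derivative_mul, map_add, map_mul, map_mul, h0] at h2
    simpa using h2
  have h4 : ev β (derivative π) ≠ 0 := by
    intro h5
    have hs := hπ.separable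
    obtain ⟨a, b, hab⟩ := hs
    have := congrArg (ev β) hab
    rw [map_add, map_mul, map_mul, h0, h5] at this
    simp at this
  have h5 : ev β g = 0 := by
    rcases mul_eq_zero.1 h3 with h | h
    · exact absurd h h4
    · exact h
  exact mul_dvd_mul_left π (dvd_of_root hπ h0 h5)

section
variable {n : Type*} [Fintype n]

/-- positivity on the imaginary axis -/
def Psd (G : Matrix n n ℝ[X]) : Prop := ∀ τ : ℝ, (evm τ G).PosSemidef

lemma hasDerivAt_form (G : Matrix n n ℝ[X]) (β : ℝ) (v w : n → ℂ) :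
    HasDerivAt (fun τ : ℝ => star v ⬝ᵥ (evm τ G *ᵥ w))
      (Complex.I * (star v ⬝ᵥ (evm β (G.map derivative) *ᵥ w))) β := by
  have h : HasDerivAt (fun τ : ℝ => ∑ i, star (v i) * ∑ j, ev τ (G i j) * w j)
      (∑ i, star (v i) * ∑ j, (Complex.I * ev β (derivative (G i j))) * w j) β := by
    refine HasDerivAt.fun_sum fun i _ => ?_
    refine HasDerivAt.const_mul _ ?_
    refine HasDerivAt.fun_sum fun j _ => ?_
    exact (hasDerivAt_ev (G i j) β).mul_const (w j)
  have h2 : (∑ i, star (v i) * ∑ j, (Complex.I * ev β (derivative (G i j))) * w j) =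
      (Complex.I * (star v ⬝ᵥ (evm β (G.map derivative) *ᵥ w))) := by
    simp only [dotProduct, mulVec, evm_apply, Matrix.map_apply, Finset.mul_sum, Pi.star_apply]
    refine Finset.sum_congr rfl fun i _ => Finset.sum_congr rfl fun j _ => ?_
    ring
  rw [h2] at h
  exact h

lemma form_deriv_diag (G : Matrix n n ℝ[X]) (hP : Psd G) (β : ℝ) (v : n → ℂ)
    (hv : evm β G *ᵥ v = 0) :
    star v ⬝ᵥ (evm β (G.map derivative) *ᵥ v) = 0 := by
  set φ : ℝ → ℂ := fun τ : ℝ => star v ⬝ᵥ (evm τ G *ᵥ v) with hφ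
  have h1 := hasDerivAt_form G β v v
  have hnn : ∀ τ, 0 ≤ φ τ := fun τ => (hP τ).dotProduct_mulVec_nonneg v
  have hre : ∀ τ, φ τ = ((φ τ).re : ℂ) := by
    intro τ
    have := (Complex.nonneg_iff.1 (hnn τ)).2
    apply Complex.ext <;> simp [← this]
  have h0 : φ β = 0 := by simp [hφ, hv]
  set X := star v ⬝ᵥ (evm β (G.map derivative) *ᵥ v) with hX
  have h2 : HasDerivAt (fun τ => (φ τ).re) (Complex.I * X).re β := by
    exact (Complex.reCLM.hasFDerivAt.comp_hasDerivAt β h1)
  have hmin : IsLocalMin (fun τ => (φ τ).re) β := by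
    refine Filter.Eventually.of_forall fun τ => ?_
    show (φ β).re ≤ (φ τ).re
    rw [h0]
    simpa using (Complex.nonneg_iff.1 (hnn τ)).1
  have h3 := hmin.hasDerivAt_eq_zero h2
  have h4 : HasDerivAt (fun τ => (φ τ).im) (Complex.I * X).im β := by
    exact (Complex.imCLM.hasFDerivAt.comp_hasDerivAt β h1)
  have h5 : (fun τ => (φ τ).im) = fun _ => (0 : ℝ) := by
    funext τ; rw [hre τ]; simp
  rw [h5] at h4
  have h6 := h4.unique (hasDerivAt_const β (0 : ℝ))
  have h7 : Complex.I * X = 0 := Complex.ext h3 h6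
  simpa using h7

lemma form_deriv_zero (G : Matrix n n ℝ[X]) (hP : Psd G) (β : ℝ) (v w : n → ℂ)
    (hv : evm β G *ᵥ v = 0) (hw : evm β G *ᵥ w = 0) :
    star v ⬝ᵥ (evm β (G.map derivative) *ᵥ w) = 0 := by
  have h1 := form_deriv_diag G hP β v hv
  have h2 := form_deriv_diag G hP β w hw
  have h3 := form_deriv_diag G hP β (v + w) (by rw [mulVec_add, hv, hw, add_zero])
  have h4 := form_deriv_diag G hP β (v + Complex.I • w)
    (by rw [mulVec_add, mulVec_smul, hv, hw]; simp)
  simp only [star_add, mulVec_add, dotProduct_add, add_dotProduct, h1, h2, star_smul,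
    mulVec_smul, smul_dotProduct, dotProduct_smul, smul_eq_mul, Complex.star_def,
    Complex.conj_I] at h3 h4
  have h5 := congrArg (fun z => Complex.I * z) h4
  simp only [mul_add, mul_zero] at h5
  have hI : Complex.I * Complex.I = -1 := Complex.I_mul_I
  linear_combination (1/2 : ℂ) * h3 - (1/2 : ℂ) * h5 + (1/2 : ℂ) *
    ((star v ⬝ᵥ (evm β (G.map derivative) *ᵥ w)) - (star w ⬝ᵥ (evm β (G.map derivative) *ᵥ v))) * hI

/-- the pairing `y* G z` -/
def form (G : Matrix n n ℝ[X]) (y z : n → ℝ[X]) : ℝ[X] := (fun i => sg (y i)) ⬝ᵥ (G *ᵥ z)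

lemma st_mulVec (G : Matrix n n ℝ[X]) (y z : n → ℝ[X]) :
    (fun i => sg ((G *ᵥ y) i)) ⬝ᵥ z = (fun i => sg (y i)) ⬝ᵥ (st G *ᵥ z) := by
  simp only [dotProduct, mulVec, map_sum, map_mul, st_apply, Finset.sum_mul, Finset.mul_sum]
  rw [Finset.sum_comm]
  refine Finset.sum_congr rfl fun i _ => Finset.sum_congr rfl fun j _ => ?_
  ring

lemma ev_dvd {π f : ℝ[X]} {β : ℝ} (h0 : ev β π = 0) (h : π ∣ f) : ev β f = 0 := by
  obtain ⟨g, rfl⟩ := h
  rw [map_mul, h0, zero_mul]

lemma form_dvd (G : Matrix n n ℝ[X]) (hG : st G = G) (hP : Psd G) {π : ℝ[X]}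
    (hπ : Irreducible π) (y z : n → ℝ[X]) (hy : ∀ i, π ∣ (G *ᵥ y) i)
    (hz : ∀ i, π ∣ (G *ᵥ z) i) : π * sg π ∣ form G y z := by
  have d1 : π ∣ form G y z := Finset.dvd_sum fun i _ => Dvd.dvd.mul_left (hz i) _
  have e1 : form G y z = (fun i => sg ((G *ᵥ y) i)) ⬝ᵥ z := by
    rw [st_mulVec, hG]; rfl
  have d2 : sg π ∣ form G y z := by
    rw [e1]
    refine Finset.dvd_sum fun i _ => Dvd.dvd.mul_right ?_ _
    exact map_dvd sg (hy i)
  by_cases hc : IsCoprime π (sg π)
  · exact hc.mul_dvd d1 d2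
  obtain ⟨β, hβ⟩ := exists_imag_root hπ hc
  have hass : sg π ∣ π := by
    have hd : π ∣ sg π := by
      by_contra hnd
      exact hc (hπ.coprime_iff_not_dvd.2 hnd)
    have := map_dvd sg hd
    simpa using this
  refine dvd_trans (mul_dvd_mul_left π hass) ?_
  refine sq_dvd hπ hβ (ev_dvd hβ d1) ?_
  have key : ev β (derivative (form G y z)) =
      star (fun i => ev β (y i)) ⬝ᵥ (evm β (G.map derivative) *ᵥ (fun i => ev β (z i))) := by
    have h1 : derivative (form G y z) =
        (∑ i, derivative (sg (y i)) * (G *ᵥ z) i) +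
        (∑ i, sg (y i) * ∑ j, derivative (G i j) * z j) +
        (fun i => sg ((G *ᵥ y) i)) ⬝ᵥ (fun j => derivative (z j)) := by
      rw [st_mulVec, hG]
      simp only [form, dotProduct, mulVec, derivative_sum, derivative_mul, Finset.mul_sum,
        mul_add, Finset.sum_add_distrib]
      ring
    rw [h1, map_add, map_add]
    have z1 : ev β (∑ i, derivative (sg (y i)) * (G *ᵥ z) i) = 0 := by
      rw [map_sum]
      refine Finset.sum_eq_zero fun i _ => ?_
      rw [map_mul, ev_dvd hβ (hz i), mul_zero]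
    have z2 : ev β ((fun i => sg ((G *ᵥ y) i)) ⬝ᵥ (fun j => derivative (z j))) = 0 := by
      rw [dotProduct, map_sum]
      refine Finset.sum_eq_zero fun i _ => ?_
      rw [map_mul, ev_sg, ev_dvd hβ (hy i), star_zero, zero_mul]
    rw [z1, z2, zero_add, add_zero]
    simp only [dotProduct, mulVec, map_sum, map_mul, ev_sg, evm_apply, Matrix.map_apply,
      Pi.star_apply]
  rw [key]
  refine form_deriv_zero G hP β _ _ ?_ ?_
  · funext i
    have := ev_dvd hβ (hy i)
    simpa only [mulVec, dotProduct, map_sum, map_mul, evm_apply, Pi.zero_apply] using this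
  · funext i
    have := ev_dvd hβ (hz i)
    simpa only [mulVec, dotProduct, map_sum, map_mul, evm_apply, Pi.zero_apply] using this

end

end

end Pool.Agent.W450
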