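import Pool.Agent.W450.Det2

set_option autoImplicit false
set_option linter.unusedSectionVars false

namespace Pool.Agent.W450

open Polynomial Matrix
open scoped ComplexOrder

noncomputable section

variable {n : Type*} [Fintype n] [DecidableEq n]

def lat (G : Matrix n n ℝ[X]) (π : ℝ[X]) : Submodule ℝ[X] (n → ℝ[X]) where
  carrier := {y | ∀ i, π ∣ (G *ᵥ y) i}
  add_mem' := by
    intro a b ha hb i
    rw [mulVec_add]
    exact dvd_add (ha i) (hb i)
  zero_mem' := by intro i; simp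
  smul_mem' := by
    intro c a ha i
    rw [mulVec_smul]
    exact Dvd.dvd.mul_left (ha i) c

lemma mem_lat (G : Matrix n n ℝ[X]) (π : ℝ[X]) (y : n → ℝ[X]) :
    y ∈ lat G π ↔ ∀ i, π ∣ (G *ᵥ y) i := Iff.rfl

lemma pi_smul_mem (G : Matrix n n ℝ[X]) (π : ℝ[X]) (y : n → ℝ[X]) : π • y ∈ lat G π := by
  intro i
  rw [mulVec_smul]
  exact Dvd.intro _ rfl

lemma finrank_lat (G : Matrix n n ℝ[X]) {π : ℝ[X]} (hπ : π ≠ 0) :
    Module.finrank ℝ[X] (lat G π) = Module.finrank ℝ[X] (n → ℝ[X]) := by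
  refine le_antisymm (Submodule.finrank_le _) ?_
  let f : (n → ℝ[X]) →ₗ[ℝ[X]] lat G π :=
    LinearMap.codRestrict (lat G π) (LinearMap.lsmul ℝ[X] (n → ℝ[X]) π)
      (fun y => pi_smul_mem G π y)
  have hf : Function.Injective f := by
    intro a b hab
    have h1 := congrArg Subtype.val hab
    have h2 : π • a = π • b := h1
    exact smul_right_injective _ hπ h2
  exact LinearMap.finrank_le_finrank_of_injective hf

lemma exists_basis_matrix (G : Matrix n n ℝ[X]) {π : ℝ[X]} (hπ : π ≠ 0) :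
    ∃ B : Matrix n n ℝ[X], (∀ c, B *ᵥ c ∈ lat G π) ∧ ∀ y ∈ lat G π, ∃ c, y = B *ᵥ c := by
  obtain ⟨b', a, b, hb⟩ := Submodule.exists_smith_normal_form_of_rank_eq
    (Pi.basisFun ℝ[X] n) (finrank_lat G hπ)
  refine ⟨Matrix.of fun i j => (b j : n → ℝ[X]) i, ?_, ?_⟩
  · intro c
    have h1 : (Matrix.of fun i j => (b j : n → ℝ[X]) i) *ᵥ c =
        ((∑ j, c j • b j : lat G π) : n → ℝ[X]) := by
      funext i
      simp [mulVec, dotProduct, mul_comm]
    rw [h1]
    exact Subtype.property _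
  · intro y hy
    refine ⟨fun j => b.repr ⟨y, hy⟩ j, ?_⟩
    have h2 := congrArg Subtype.val (b.sum_repr ⟨y, hy⟩)
    have h3 : y = ((∑ j, b.repr ⟨y, hy⟩ j • b j : lat G π) : n → ℝ[X]) := h2.symm
    refine h3.trans ?_
    funext i
    simp only [Submodule.coe_sum, Submodule.coe_smul, Finset.sum_apply, Pi.smul_apply,
      smul_eq_mul, mulVec, dotProduct, of_apply]
    exact Finset.sum_congr rfl fun j _ => mul_comm _ _

lemma charpoly_eq_of_mul {M M' B : Matrix n n ℝ[X]} (h : M * B = B * M') (hB : B.det ≠ 0) :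
    M'.charpoly = M.charpoly := by
  have h1 : M.charmatrix * B.map (C : ℝ[X] → ℝ[X][X]) =
      B.map (C : ℝ[X] → ℝ[X][X]) * M'.charmatrix := by
    rw [Matrix.charmatrix, Matrix.charmatrix, sub_mul, mul_sub]
    have h2 : (C : ℝ[X] →+* ℝ[X][X]).mapMatrix M * B.map (C : ℝ[X] → ℝ[X][X]) =
        B.map (C : ℝ[X] → ℝ[X][X]) * (C : ℝ[X] →+* ℝ[X][X]).mapMatrix M' := by
      have h3 := congrArg ((C : ℝ[X] →+* ℝ[X][X]).mapMatrix) h
      rw [map_mul, map_mul] at h3
      exact h3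
    have h4 := (Matrix.scalar_commute (X : ℝ[X][X]) (fun _ => Commute.all _ _)
      (B.map (C : ℝ[X] → ℝ[X][X]))).eq
    rw [h2, h4]
  have h2 := congrArg Matrix.det h1
  rw [det_mul, det_mul, mul_comm] at h2
  have h3 : (B.map (C : ℝ[X] → ℝ[X][X])).det ≠ 0 := by
    have : (B.map (C : ℝ[X] → ℝ[X][X])).det = C B.det := (RingHom.map_det (C : ℝ[X] →+* ℝ[X][X]) B).symm
    rw [this]
    exact C_ne_zero.2 hB
  exact (mul_left_cancel₀ h3 h2).symm

lemma finite_ev_zero {π : ℝ[X]} (hπ : π ≠ 0) : {τ : ℝ | ev τ π = 0}.Finite := by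
  have h1 : (π.rootSet ℂ).Finite := Polynomial.rootSet_finite π ℂ
  refine (h1.preimage (f := fun τ : ℝ => Complex.I * (τ : ℂ)) ?_).subset ?_
  · intro a _ b _ hab
    simpa using hab
  · intro τ hτ
    rw [Set.mem_preimage, Polynomial.mem_rootSet]
    exact ⟨hπ, hτ⟩

lemma psd_of_ae (G : Matrix n n ℝ[X]) (hG : st G = G) {S : Set ℝ} (hS : S.Finite)
    (h : ∀ τ, τ ∉ S → (evm τ G).PosSemidef) : Psd G := by
  intro τ
  refine Matrix.PosSemidef.of_dotProduct_mulVec_nonneg (evm_herm τ G hG) fun x => ?_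
  have hcont : Continuous (fun τ : ℝ => star x ⬝ᵥ (evm τ G *ᵥ x)) :=
    continuous_iff_continuousAt.2 fun β => (hasDerivAt_form G β x x).continuousAt
  have hcl : IsClosed {τ : ℝ | 0 ≤ star x ⬝ᵥ (evm τ G *ᵥ x)} :=
    isClosed_le continuous_const hcont
  have hd : Dense Sᶜ := hS.countable.dense_compl ℝ
  have hsub : Sᶜ ⊆ {τ : ℝ | 0 ≤ star x ⬝ᵥ (evm τ G *ᵥ x)} := fun τ hτ =>
    (h τ hτ).dotProduct_mulVec_nonneg x
  have := hcl.closure_subset_iff.2 hsub
  rw [hd.closure_eq] at this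
  exact this (Set.mem_univ τ)

end

end Pool.Agent.W450
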