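import Pool.Agent.W450.Det3

set_option autoImplicit false
set_option linter.unusedSectionVars false

namespace Pool.Agent.W450

open Polynomial Matrix
open scoped ComplexOrder

noncomputable section

variable {n : Type*} [Fintype n] [DecidableEq n]

lemma exists_col_matrix (B N : Matrix n n ℝ[X]) (h : ∀ j, ∃ c, (fun i => N i j) = B *ᵥ c) :
    ∃ P : Matrix n n ℝ[X], N = B * P := by
  choose c hc using h
  refine ⟨Matrix.of fun i j => c j i, ?_⟩
  refine Matrix.ext fun i j => ?_
  have := congrFun (hc j) i
  simpa [Matrix.mul_apply, mulVec, dotProduct] using this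

lemma form_mulVec (G B : Matrix n n ℝ[X]) (i j : n) :
    (st B * G * B) i j = form G (B *ᵥ Pi.single i 1) (B *ᵥ Pi.single j 1) := by
  simp only [form, mulVec_single_one]
  simp only [Matrix.mul_apply, mulVec, dotProduct, Matrix.col_apply,
    st_apply, Finset.sum_mul, Finset.mul_sum]
  rw [Finset.sum_comm]
  refine Finset.sum_congr rfl fun i _ => Finset.sum_congr rfl fun j _ => ?_
  ring

/-- A pair of matrices: `M` is skew for the form `G`. -/
structure Pair (M G : Matrix n n ℝ[X]) : Prop where
  herm : st G = G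
  skew : st M * G = -(G * M)
  psd : Psd G
  det : G.det ≠ 0

lemma Pair.step {M G : Matrix n n ℝ[X]} (h : Pair M G) (hu : ¬ IsUnit G.det) :
    ∃ M' G' : Matrix n n ℝ[X], Pair M' G' ∧ G'.det.natDegree < G.det.natDegree ∧
      M'.charpoly = M.charpoly := by
  obtain ⟨π, hπ, hdvd⟩ := WfDvdMonoid.exists_irreducible_factor hu h.det
  have hπ0 := hπ.ne_zero
  obtain ⟨B, hB1, hB2⟩ := exists_basis_matrix G hπ0
  obtain ⟨P, hP⟩ : ∃ P : Matrix n n ℝ[X], π • (1 : Matrix n n ℝ[X]) = B * P := by
    apply exists_col_matrix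
    intro j
    apply hB2
    have h1 : (fun i => (π • (1 : Matrix n n ℝ[X])) i j) = π • (fun i => (1 : Matrix n n ℝ[X]) i j) := by
      funext i; simp
    rw [h1]
    exact pi_smul_mem G π _
  have hdet1 : B.det * P.det = π ^ Fintype.card n := by
    have := congrArg Matrix.det hP
    rw [det_smul, det_one, mul_one, det_mul] at this
    exact this.symm
  have hBd : B.det ≠ 0 := fun h0 => by
    rw [h0, zero_mul] at hdet1
    exact pow_ne_zero _ hπ0 hdet1.symm
  have hPd : P.det ≠ 0 := fun h0 => by
    rw [h0, mul_zero] at hdet1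
    exact pow_ne_zero _ hπ0 hdet1.symm
  obtain ⟨M', hM'⟩ : ∃ M' : Matrix n n ℝ[X], M * B = B * M' := by
    apply exists_col_matrix
    intro j
    apply hB2
    have h1 : (fun i => (M * B) i j) = M *ᵥ (B *ᵥ Pi.single j 1) := by
      rw [mulVec_mulVec, mulVec_single_one]; rfl
    rw [h1]
    have h2 := hB1 (Pi.single j 1)
    rw [mem_lat] at h2 ⊢
    intro i
    have h3 : G *ᵥ (M *ᵥ (B *ᵥ Pi.single j 1)) = -(st M *ᵥ (G *ᵥ (B *ᵥ Pi.single j 1))) := by
      rw [mulVec_mulVec, mulVec_mulVec _ (st M), h.skew, neg_mulVec, neg_neg]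
    rw [h3, Pi.neg_apply, dvd_neg]
    exact Finset.dvd_sum fun k _ => Dvd.dvd.mul_left (h2 k) _
  have hG' : ∀ i j, ∃ g : ℝ[X], (st B * G * B) i j = (π * sg π) * g := by
    intro i j
    have := form_dvd G h.herm h.psd hπ _ _ (hB1 (Pi.single i 1)) (hB1 (Pi.single j 1))
    rw [form_mulVec]
    exact this
  choose g hg using hG'
  have hπ2 : π * sg π ≠ 0 := mul_ne_zero hπ0 (sg_ne_zero hπ0)
  have hGG : st B * G * B = (π * sg π) • Matrix.of g := by
    ext i j : 2
    rw [hg]; rfl
  refine ⟨M', Matrix.of g, ⟨?_, ?_, ?_, ?_⟩, ?_, charpoly_eq_of_mul hM' hBd⟩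
  · have h1 : st (st B * G * B) = st B * G * B := by
      rw [st_mul, st_mul, st_st, h.herm, Matrix.mul_assoc]
    rw [hGG, st_smul] at h1
    have h2 : sg (π * sg π) = π * sg π := by rw [map_mul, sg_sg, mul_comm]
    rw [h2] at h1
    exact smul_right_injective _ hπ2 h1
  · have h1 : st M' * (st B * G * B) = -((st B * G * B) * M') := by
      have h2 : st M' * st B = st B * st M := by rw [← st_mul, ← hM', st_mul]
      calc st M' * (st B * G * B) = (st M' * st B) * G * B := by simp only [Matrix.mul_assoc]
        _ = st B * (st M * G) * B := by rw [h2]; simp only [Matrix.mul_assoc]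
        _ = -(st B * G * (M * B)) := by
            rw [h.skew]; simp only [Matrix.mul_assoc, Matrix.mul_neg, Matrix.neg_mul]
        _ = -((st B * G * B) * M') := by rw [hM']; simp only [Matrix.mul_assoc]
    rw [hGG, Matrix.mul_smul, Matrix.smul_mul, ← smul_neg] at h1
    exact smul_right_injective _ hπ2 h1
  · have hst : st (Matrix.of g) = Matrix.of g := by
      have h1 : st (st B * G * B) = st B * G * B := by
        rw [st_mul, st_mul, st_st, h.herm, Matrix.mul_assoc]
      rw [hGG, st_smul] at h1
      have h2 : sg (π * sg π) = π * sg π := by rw [map_mul, sg_sg, mul_comm]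
      rw [h2] at h1
      exact smul_right_injective _ hπ2 h1
    refine psd_of_ae _ hst (finite_ev_zero hπ0) fun τ hτ => ?_
    have hτ' : ev τ π ≠ 0 := hτ
    have h1 : (evm τ (st B * G * B)).PosSemidef := by
      rw [evm_mul, evm_mul, evm_st]
      exact (h.psd τ).conjTranspose_mul_mul_same _
    rw [hGG, evm_smul, map_mul, ev_sg] at h1
    have h2 : 0 < ev τ π * star (ev τ π) := by
      have : ev τ π * star (ev τ π) = ((Complex.normSq (ev τ π) : ℝ) : ℂ) := Complex.mul_conj _
      rw [this]
      exact_mod_cast Complex.normSq_pos.2 hτ'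
    have h3 := h1.smul (a := (ev τ π * star (ev τ π))⁻¹) (by
      exact (inv_pos.2 h2).le)
    rwa [smul_smul, inv_mul_cancel₀ h2.ne', one_smul] at h3
  · intro h0
    have h1 := congrArg Matrix.det hGG
    rw [det_smul, h0, mul_zero, det_mul, det_mul, det_st] at h1
    exact mul_ne_zero (mul_ne_zero (sg_ne_zero hBd) h.det) hBd h1
  · have h1 := congrArg Matrix.det hGG
    rw [det_smul, det_mul, det_mul, det_st] at h1
    have hg0 : (Matrix.of g).det ≠ 0 := by
      intro h0
      rw [h0, mul_zero] at h1
      exact mul_ne_zero (mul_ne_zero (sg_ne_zero hBd) h.det) hBd h1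
    have h2 := congrArg natDegree h1
    rw [natDegree_mul (mul_ne_zero (sg_ne_zero hBd) h.det) hBd,
      natDegree_mul (sg_ne_zero hBd) h.det, natDegree_sg,
      natDegree_mul (pow_ne_zero _ hπ2) hg0, natDegree_pow,
      natDegree_mul hπ0 (sg_ne_zero hπ0), natDegree_sg] at h2
    have h3 := congrArg natDegree hdet1
    rw [natDegree_mul hBd hPd, natDegree_pow] at h3
    have h4 : 0 < P.det.natDegree := by
      by_contra hcon
      have h5 : P.det.natDegree = 0 := by omega
      have h6 : IsUnit P.det := by
        rw [Polynomial.isUnit_iff]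
        refine ⟨P.det.coeff 0, ?_, (eq_C_of_natDegree_eq_zero h5).symm⟩
        rw [isUnit_iff_ne_zero]
        intro h7
        apply hPd
        rw [eq_C_of_natDegree_eq_zero h5, h7, C_0]
      -- then lat = π K^n
      have h8 : ∀ y ∈ lat G π, ∃ z, y = π • z := by
        intro y hy
        obtain ⟨c, rfl⟩ := hB2 y hy
        refine ⟨P⁻¹ *ᵥ c, ?_⟩
        have h9 : B = π • P⁻¹ := by
          have := congrArg (fun A => A * P⁻¹) hP
          simp only [smul_mul, Matrix.one_mul, Matrix.mul_assoc] at this
          rw [Matrix.mul_nonsing_inv _ h6, Matrix.mul_one] at this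
          exact this.symm
        rw [h9, smul_mulVec]
      -- contradiction with a kernel vector mod π
      have hprime : Prime π := hπ.prime
      have : (Ideal.span {π}).IsPrime := (Ideal.span_singleton_prime hπ0).2 hprime
      set q := Ideal.Quotient.mk (Ideal.span {π}) with hq
      have h10 : (G.map q).det = 0 := by
        have : (G.map q).det = q G.det := (RingHom.map_det q G).symm
        rw [this, hq, Ideal.Quotient.eq_zero_iff_mem, Ideal.mem_span_singleton]
        exact hdvd
      obtain ⟨v, hv0, hv⟩ := Matrix.exists_mulVec_eq_zero_iff.2 h10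
      choose y hy using fun i => Ideal.Quotient.mk_surjective (v i)
      have h11 : y ∈ lat G π := by
        intro i
        have := congrFun hv i
        rw [← Ideal.mem_span_singleton, ← Ideal.Quotient.eq_zero_iff_mem]
        simp only [mulVec, dotProduct, map_sum, map_mul, Matrix.map_apply, Pi.zero_apply] at this ⊢
        rw [← this]
        refine Finset.sum_congr rfl fun j _ => ?_
        rw [hy]
      obtain ⟨z, hz⟩ := h8 y h11
      apply hv0
      funext i
      rw [← hy i, hz, Pi.zero_apply, Ideal.Quotient.eq_zero_iff_mem, Ideal.mem_span_singleton]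
      exact Dvd.intro _ rfl
    have h5 : (Matrix.of g).det.natDegree = G.det.natDegree + 2 * B.det.natDegree
        - Fintype.card n * (π.natDegree + π.natDegree) := by omega
    have h6 : Fintype.card n * (π.natDegree + π.natDegree) = 2 * (Fintype.card n * π.natDegree) := by
      ring
    omega

lemma Pair.exists_unimodular {M G : Matrix n n ℝ[X]} (h : Pair M G) :
    ∃ M' G' : Matrix n n ℝ[X], Pair M' G' ∧ IsUnit G'.det ∧ M'.charpoly = M.charpoly := by
  induction' hd : G.det.natDegree using Nat.strong_induction_on with d ih generalizing M G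
  by_cases hu : IsUnit G.det
  · exact ⟨M, G, h, hu, rfl⟩
  · obtain ⟨M', G', h1, h2, h3⟩ := h.step hu
    obtain ⟨M'', G'', h4, h5, h6⟩ := ih _ (hd ▸ h2) h1 rfl
    exact ⟨M'', G'', h4, h5, h6.trans h3⟩

end

end Pool.Agent.W450
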