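import Pool.Agent.W450.Det4

set_option autoImplicit false
set_option linter.unusedSectionVars false

namespace Pool.Agent.W450

open Polynomial Matrix Filter Topology
open scoped ComplexOrder MatrixOrder

noncomputable section

variable {n : Type*} [Fintype n] [DecidableEq n]

lemma tendsto_ev (D : ℝ[X]) (N : ℕ) (hD : D.natDegree ≤ N) :
    Tendsto (fun τ : ℝ => ev τ D / (τ : ℂ) ^ N) atTop (𝓝 (Complex.I ^ N * D.coeff N)) := by
  have h1 : ∀ τ : ℝ, 0 < τ → ev τ D / (τ : ℂ) ^ N =
      ∑ k ∈ Finset.range (N + 1), ((Complex.I ^ k * D.coeff k) * (((τ⁻¹) ^ (N - k) : ℝ) : ℂ)) := by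
    intro τ hτ
    have hτ' : (τ : ℂ) ≠ 0 := by exact_mod_cast hτ.ne'
    rw [ev_apply, aeval_eq_sum_range' (Nat.lt_succ_of_le hD), Finset.sum_div]
    refine Finset.sum_congr rfl fun k hk => ?_
    have hk' : k ≤ N := Nat.lt_succ_iff.1 (Finset.mem_range.1 hk)
    have h2 : (τ : ℂ) ^ N = (τ : ℂ) ^ k * (τ : ℂ) ^ (N - k) := by
      rw [← pow_add, Nat.add_sub_cancel' hk']
    rw [h2, mul_pow, Complex.real_smul]
    push_cast
    rw [inv_pow]
    field_simp
  have h3 : Tendsto (fun τ : ℝ => ∑ k ∈ Finset.range (N + 1),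
      ((Complex.I ^ k * D.coeff k) * (((τ⁻¹) ^ (N - k) : ℝ) : ℂ))) atTop
      (𝓝 (∑ k ∈ Finset.range (N + 1), (Complex.I ^ k * D.coeff k) * (if k = N then 1 else 0))) := by
    refine tendsto_finsetSum _ fun k hk => ?_
    have hk' : k ≤ N := Nat.lt_succ_iff.1 (Finset.mem_range.1 hk)
    refine Tendsto.const_mul _ ?_
    split_ifs with h
    · subst h; simp
    · have h4 : Tendsto (fun τ : ℝ => (τ⁻¹) ^ (N - k)) atTop (𝓝 (0 : ℝ)) := by
        have := (tendsto_inv_atTop_zero (𝕜 := ℝ)).pow (N - k)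
        rwa [zero_pow (by omega)] at this
      have h5 := (Complex.continuous_ofReal.tendsto (0 : ℝ)).comp h4
      simpa [Function.comp_def] using h5
  have h4 : (∑ k ∈ Finset.range (N + 1), (Complex.I ^ k * (D.coeff k : ℂ)) * (if k = N then 1 else 0))
      = Complex.I ^ N * D.coeff N := by
    simp [Finset.sum_ite_eq']
  rw [h4] at h3
  refine h3.congr' ?_
  filter_upwards [eventually_gt_atTop 0] with τ hτ
  exact (h1 τ hτ).symm

lemma minor_nonneg (G : Matrix n n ℝ[X]) (hG : st G = G) (hP : Psd G) (i j : n) (τ : ℝ) :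
    0 ≤ ev τ (G i i * G j j - G i j * sg (G i j)) := by
  have h1 := ((hP τ).submatrix ![i, j]).det_nonneg
  rw [det_fin_two] at h1
  have h2 : G j i = sg (G i j) := by
    have := congrFun (congrFun hG j) i
    simpa using this.symm
  simpa [h2] using h1

lemma ev_mul_sg (τ : ℝ) (f : ℝ[X]) : ev τ (f * sg f) = ((‖ev τ f‖ ^ 2 : ℝ) : ℂ) := by
  rw [map_mul, ev_sg, Complex.star_def, Complex.mul_conj, Complex.normSq_eq_norm_sq]

lemma eq_zero_of_ev (f : ℝ[X]) (h : ∀ τ : ℝ, ev τ f = 0) : f = 0 := by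
  by_contra hf
  have h1 := finite_ev_zero hf
  have h2 : {τ : ℝ | ev τ f = 0} = Set.univ := Set.eq_univ_of_forall h
  rw [h2] at h1
  exact Set.infinite_univ h1

lemma natDegree_sg_eq_even {f : ℝ[X]} (h : sg f = f) (hf : f ≠ 0) : Even f.natDegree := by
  have h1 := congrArg (fun g => coeff g f.natDegree) h
  simp only [coeff_sg] at h1
  rcases Nat.even_or_odd f.natDegree with h2 | h2
  · exact h2
  · rw [h2.neg_one_pow] at h1
    have h3 : f.coeff f.natDegree ≠ 0 := by
      rw [coeff_natDegree, Ne, leadingCoeff_eq_zero]; exact hf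
    exfalso; apply h3; linarith

lemma diag_ne_zero (G : Matrix n n ℝ[X]) (hG : st G = G) (hP : Psd G) (hd : G.det ≠ 0) (j : n) :
    G j j ≠ 0 := by
  intro h0
  apply hd
  apply Matrix.det_eq_zero_of_column_eq_zero j
  intro i
  apply eq_zero_of_ev
  intro τ
  have h1 := minor_nonneg G hG hP i j τ
  rw [h0, mul_zero, zero_sub, map_neg, ev_mul_sg] at h1
  have h2 : 0 ≤ -(‖ev τ (G i j)‖ ^ 2) := by exact_mod_cast h1
  have h3 : ‖ev τ (G i j)‖ ^ 2 = 0 := le_antisymm (by linarith) (by positivity)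
  simpa using h3

/-- half of the degree of the diagonal entry -/
def hd (G : Matrix n n ℝ[X]) (i : n) : ℕ := (G i i).natDegree / 2

lemma two_hd (G : Matrix n n ℝ[X]) (hG : st G = G) (hP : Psd G) (hdet : G.det ≠ 0) (i : n) :
    (G i i).natDegree = 2 * hd G i := by
  have h1 : sg (G i i) = G i i := by
    have := congrFun (congrFun hG i) i
    simpa using this
  obtain ⟨k, hk⟩ := natDegree_sg_eq_even h1 (diag_ne_zero G hG hP hdet i)
  unfold hd
  omega

lemma natDegree_le (G : Matrix n n ℝ[X]) (hG : st G = G) (hP : Psd G) (hdet : G.det ≠ 0)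
    (i j : n) : (G i j).natDegree ≤ hd G i + hd G j := by
  by_contra hcon
  push Not at hcon
  set k := (G i j).natDegree with hk
  have hne : G i j ≠ 0 := by
    intro h0; rw [h0] at hk; simp at hk; omega
  set D := G i i * G j j - G i j * sg (G i j) with hD
  have d1 : (G i i * G j j).natDegree < 2 * k := by
    refine lt_of_le_of_lt natDegree_mul_le ?_
    rw [two_hd G hG hP hdet i, two_hd G hG hP hdet j]; omega
  have d2 : (G i j * sg (G i j)).natDegree ≤ 2 * k := by
    refine natDegree_mul_le.trans ?_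
    rw [natDegree_sg, ← hk]; omega
  have d3 : D.natDegree ≤ 2 * k := (natDegree_sub_le _ _).trans (max_le d1.le d2)
  have c1 : D.coeff (2 * k) = -((G i j).leadingCoeff * ((-1) ^ k * (G i j).leadingCoeff)) := by
    rw [hD, coeff_sub, coeff_eq_zero_of_natDegree_lt d1, zero_sub]
    have : 2 * k = (G i j).natDegree + (sg (G i j)).natDegree := by
      rw [natDegree_sg]; omega
    rw [this, coeff_mul_degree_add_degree]
    congr 2
    rw [leadingCoeff, natDegree_sg, coeff_sg]; rfl
  have h1 := tendsto_ev D (2 * k) d3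
  have h2 : Complex.I ^ (2 * k) * ((D.coeff (2 * k) : ℝ) : ℂ) =
      ((-((G i j).leadingCoeff ^ 2) : ℝ) : ℂ) := by
    rw [c1, pow_mul, Complex.I_sq]
    push_cast
    have : ((-1 : ℂ) ^ k) * ((-1 : ℂ) ^ k) = 1 := by
      rw [← mul_pow]; simp
    linear_combination (-(((G i j).leadingCoeff : ℂ)) ^ 2) * this
  rw [h2] at h1
  have h3 : 0 ≤ ((-((G i j).leadingCoeff ^ 2) : ℝ) : ℂ) := by
    refine ge_of_tendsto h1 ?_
    filter_upwards [eventually_gt_atTop 0] with τ hτ
    have h4 := minor_nonneg G hG hP i j τ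
    have h5 : (0 : ℂ) ≤ ((τ ^ (2 * k) : ℝ) : ℂ)⁻¹ := by
      rw [← Complex.ofReal_inv]
      exact_mod_cast (by positivity : (0 : ℝ) ≤ (τ ^ (2 * k))⁻¹)
    rw [div_eq_mul_inv]
    have := mul_nonneg h4 h5
    simpa [hD] using this
  have h4 : 0 ≤ -((G i j).leadingCoeff ^ 2) := by exact_mod_cast h3
  have h5 : 0 < (G i j).leadingCoeff ^ 2 := by
    have := leadingCoeff_ne_zero.2 hne
    positivity
  linarith

lemma coeff_det (A : Matrix n n ℝ[X]) (d : ℕ) (h : ∀ i j, (A i j).natDegree ≤ d) :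
    A.det.coeff (Fintype.card n * d) = (Matrix.of fun i j => (A i j).coeff d).det := by
  rw [det_apply, det_apply, finsetSum_coeff]
  refine Finset.sum_congr rfl fun σ _ => ?_
  rw [coeff_smul]
  congr 1
  have := coeff_prod_of_natDegree_le (s := Finset.univ) (fun i => A (σ i) i) d (fun i _ => h _ _)
  rw [Finset.card_univ] at this
  rw [this]; rfl

lemma natDegree_det_le (A : Matrix n n ℝ[X]) (d : ℕ) (h : ∀ i j, (A i j).natDegree ≤ d) :
    A.det.natDegree ≤ Fintype.card n * d := by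
  rw [det_apply]
  refine natDegree_sum_le_of_forall_le _ _ fun σ _ => ?_
  refine (natDegree_smul_le _ _).trans ?_
  refine (natDegree_prod_le _ _).trans ?_
  refine (Finset.sum_le_card_nsmul _ _ d fun i _ => h _ _).trans ?_
  simp

end

end Pool.Agent.W450
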