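import Pool.Agent.W450.Det5

set_option autoImplicit false
set_option linter.unusedSectionVars false

namespace Pool.Agent.W450

open Polynomial Matrix Filter Topology
open scoped ComplexOrder MatrixOrder

noncomputable section

variable {n : Type*} [Fintype n] [DecidableEq n]

/-- leading coefficient matrix -/
def ldc (G : Matrix n n ℝ[X]) : Matrix n n ℝ := Matrix.of fun i j => (G i j).coeff (hd G i + hd G j)

lemma hd_zero_of_ldc (G : Matrix n n ℝ[X]) (hG : st G = G) (hP : Psd G) (hu : IsUnit G.det)
    (hL : (ldc G).det ≠ 0) (i : n) : hd G i = 0 := by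
  have hdet : G.det ≠ 0 := hu.ne_zero
  set N := ∑ i, hd G i with hN
  have hle : ∀ i, hd G i ≤ N := fun i => Finset.single_le_sum (f := fun i => hd G i)
    (fun _ _ => Nat.zero_le _) (Finset.mem_univ i)
  set D : Matrix n n ℝ[X] := Matrix.diagonal fun i => X ^ (N - hd G i) with hD
  have hA : ∀ i j, (D * G * D) i j = X ^ (N - hd G i + (N - hd G j)) * G i j := by
    intro i j
    rw [hD, mul_diagonal, diagonal_mul, pow_add]; ring
  have h1 : ∀ i j, ((D * G * D) i j).natDegree ≤ 2 * N := by
    intro i j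
    rw [hA]
    refine natDegree_mul_le.trans ?_
    rw [natDegree_X_pow]
    have := natDegree_le G hG hP hdet i j
    have := hle i
    have := hle j
    omega
  have h2 : (Matrix.of fun i j => ((D * G * D) i j).coeff (2 * N)) = ldc G := by
    ext i j
    rw [of_apply, hA, ldc, of_apply]
    have e : 2 * N = (hd G i + hd G j) + (N - hd G i + (N - hd G j)) := by
      have := hle i
      have := hle j
      omega
    rw [e, coeff_X_pow_mul]
  have h3 := coeff_det _ _ h1
  rw [h2] at h3
  have h4 : (D * G * D).det.natDegree = 2 * ∑ i, (N - hd G i) := by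
    have hDd : D.det = X ^ (∑ i, (N - hd G i)) := by
      rw [hD, det_diagonal, Finset.prod_pow_eq_pow_sum]
    rw [det_mul, det_mul, hDd, natDegree_mul (mul_ne_zero (pow_ne_zero _ X_ne_zero) hdet)
      (pow_ne_zero _ X_ne_zero), natDegree_mul (pow_ne_zero _ X_ne_zero) hdet,
      natDegree_eq_zero_of_isUnit hu, natDegree_X_pow]
    omega
  by_contra hne
  have h5 : ∑ i, (N - hd G i) < Fintype.card n * N := by
    rw [← smul_eq_mul, ← Finset.card_univ, ← Finset.sum_const]
    refine Finset.sum_lt_sum (fun i _ => Nat.sub_le _ _) ⟨i, Finset.mem_univ i, ?_⟩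
    have := hle i
    omega
  have h6 : (D * G * D).det.coeff (Fintype.card n * (2 * N)) = 0 := by
    apply coeff_eq_zero_of_natDegree_lt
    rw [h4]
    calc 2 * ∑ i, (N - hd G i) < 2 * (Fintype.card n * N) := by omega
      _ = Fintype.card n * (2 * N) := by ring
  rw [h6] at h3
  exact hL h3.symm

/-- the constant case -/
lemma const_case (G : Matrix n n ℝ[X]) (hG : st G = G) (hP : Psd G) (hu : IsUnit G.det)
    (h0 : ∀ i, hd G i = 0) : ∃ B : Matrix n n ℝ[X], IsUnit B.det ∧ st B * G * B = 1 := by
  have hdet : G.det ≠ 0 := hu.ne_zero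
  have h1 : ∀ i j, G i j = C ((G i j).coeff 0) := by
    intro i j
    apply eq_C_of_natDegree_le_zero
    have := natDegree_le G hG hP hdet i j
    rw [h0 i, h0 j] at this
    exact this
  set G0 : Matrix n n ℝ := Matrix.of fun i j => (G i j).coeff 0 with hG0
  have h2 : G = G0.map C := by
    refine Matrix.ext fun i j => ?_
    rw [Matrix.map_apply, hG0, of_apply]; exact h1 i j
  have hsym : G0.IsHermitian := by
    ext i j
    have h3 := congrFun (congrFun hG i) j
    rw [st_apply, h1 i j, h1 j i, sg_C] at h3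
    have := C_injective h3
    simpa [hG0] using this
  have hpsd : G0.PosSemidef := by
    refine Matrix.PosSemidef.of_dotProduct_mulVec_nonneg hsym fun x => ?_
    have h3 := (hP 0).dotProduct_mulVec_nonneg (fun i => (x i : ℂ))
    have h4 : star (fun i => (x i : ℂ)) ⬝ᵥ (evm 0 G *ᵥ fun i => (x i : ℂ)) =
        ((star x ⬝ᵥ (G0 *ᵥ x) : ℝ) : ℂ) := by
      rw [h2]
      simp [dotProduct, mulVec]
    rw [h4] at h3
    exact_mod_cast h3
  obtain ⟨E, hE⟩ := CStarAlgebra.nonneg_iff_eq_star_mul_self.mp hpsd.nonneg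
  have hEd : E.det ≠ 0 := by
    intro h3
    apply hdet
    have h4 : G.det = C G0.det := by
      rw [h2]; exact (RingHom.map_det (C : ℝ →+* ℝ[X]) G0).symm
    rw [h4, hE, det_mul, h3, mul_zero, C_0]
  have hEu : IsUnit E.det := isUnit_iff_ne_zero.2 hEd
  refine ⟨(E⁻¹).map C, ?_, ?_⟩
  · have h4 : ((E⁻¹).map (C : ℝ → ℝ[X])).det = C (E⁻¹).det :=
      (RingHom.map_det (C : ℝ →+* ℝ[X]) _).symm
    rw [h4]
    exact (isUnit_nonsing_inv_det _ hEu).map C
  · have h5 : st ((E⁻¹).map (C : ℝ → ℝ[X])) = ((E⁻¹)ᵀ).map C := by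
      refine Matrix.ext fun i j => ?_
      simp
    rw [h5, h2, hE, ← Matrix.map_mul, ← Matrix.map_mul]
    have h6 : (E⁻¹)ᵀ * (star E * E) * E⁻¹ = 1 := by
      rw [← Matrix.mul_assoc, Matrix.mul_assoc, Matrix.mul_nonsing_inv _ hEu, Matrix.mul_one]
      have : star E = Eᵀ := by ext i j; simp [star_apply]
      rw [this, ← transpose_mul, Matrix.mul_nonsing_inv _ hEu, transpose_one]
    rw [h6]
    simp

lemma form_single (G : Matrix n n ℝ[X]) (i j : n) :
    form G (Pi.single i 1) (Pi.single j 1) = G i j := by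
  have := form_mulVec G 1 i j
  rw [st_one, Matrix.one_mul, Matrix.mul_one, one_mulVec, one_mulVec] at this
  exact this.symm

lemma reduce_step (G : Matrix n n ℝ[X]) (hG : st G = G) (hP : Psd G) (hu : IsUnit G.det)
    (hL : (ldc G).det = 0) : ∃ B : Matrix n n ℝ[X], IsUnit B.det ∧
      ∑ i, ((st B * G * B) i i).natDegree < ∑ i, (G i i).natDegree := by
  have hdet : G.det ≠ 0 := hu.ne_zero
  obtain ⟨c, hc0, hc⟩ := Matrix.exists_mulVec_eq_zero_iff.2 hL
  obtain ⟨j, hj, hmax⟩ := Finset.exists_max_image (Finset.univ.filter fun i => c i ≠ 0) (hd G)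
    (by
      obtain ⟨i, hi⟩ := Function.ne_iff.1 hc0
      exact ⟨i, by simpa using hi⟩)
  have hcj : c j ≠ 0 := (Finset.mem_filter.1 hj).2
  have hmax' : ∀ i, c i ≠ 0 → hd G i ≤ hd G j := fun i hi => hmax i (by simpa using hi)
  set y : n → ℝ[X] := fun i => C (c i) * X ^ (hd G j - hd G i) with hy
  have hyj : y j = C (c j) := by simp [hy]
  set B : Matrix n n ℝ[X] := (1 : Matrix n n ℝ[X]).updateCol j y with hB
  have hBd : B.det = C (c j) := by
    rw [hB, ← cramer_apply, cramer_one]
    exact hyj
  have hBu : IsUnit B.det := by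
    rw [hBd, isUnit_C, isUnit_iff_ne_zero]; exact hcj
  have hBne : ∀ i, i ≠ j → B *ᵥ Pi.single i 1 = Pi.single i 1 := by
    intro i hi
    rw [mulVec_single_one]
    funext k
    rw [col_apply, hB, updateCol_apply, if_neg hi, one_apply, Pi.single_apply]
  have hBj : B *ᵥ Pi.single j 1 = y := by
    rw [mulVec_single_one]
    funext k
    rw [col_apply, hB, updateCol_apply, if_pos rfl]
  have hdiag : ∀ i, i ≠ j → (st B * G * B) i i = G i i := by
    intro i hi
    rw [form_mulVec, hBne i hi, form_single]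
  have hjj : (st B * G * B) j j = form G y y := by
    rw [form_mulVec, hBj]
  -- degree of the new diagonal entry
  have hexp : form G y y = ∑ i, ∑ k, sg (y i) * G i k * y k := by
    simp only [form, dotProduct, mulVec, Finset.mul_sum, mul_assoc]
  have hdeg : (form G y y).natDegree ≤ 2 * hd G j := by
    rw [hexp]
    refine natDegree_sum_le_of_forall_le _ _ fun i _ => ?_
    refine natDegree_sum_le_of_forall_le _ _ fun k _ => ?_
    by_cases hi : c i = 0
    · have : y i = 0 := by simp [hy, hi]
      rw [this]; simp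
    by_cases hk : c k = 0
    · have : y k = 0 := by simp [hy, hk]
      rw [this]; simp
    have h1 := hmax' i hi
    have h2 := hmax' k hk
    have h3 : (y i).natDegree = hd G j - hd G i := by
      rw [hy]; exact natDegree_C_mul_X_pow _ _ hi
    have h4 : (y k).natDegree = hd G j - hd G k := by
      rw [hy]; exact natDegree_C_mul_X_pow _ _ hk
    refine natDegree_mul_le.trans ?_
    refine (Nat.add_le_add_right natDegree_mul_le _).trans ?_
    rw [natDegree_sg, h3, h4]
    have h5 := natDegree_le G hG hP hdet i k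
    omega
  have hcoeff : (form G y y).coeff (2 * hd G j) = 0 := by
    have h1 : ∀ i k, (sg (y i) * G i k * y k).coeff (2 * hd G j) =
        ((-1) ^ (hd G j - hd G i) * c i) * (ldc G i k * c k) := by
      intro i k
      by_cases hi : c i = 0
      · have : y i = 0 := by simp [hy, hi]
        rw [this, hi]; simp
      by_cases hk : c k = 0
      · have : y k = 0 := by simp [hy, hk]
        rw [this, hk]; simp
      have h1 := hmax' i hi
      have h2 := hmax' k hk
      have e1 : sg (y i) * G i k * y k =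
          C ((-1) ^ (hd G j - hd G i) * c i * c k) *
            (X ^ ((hd G j - hd G i) + (hd G j - hd G k)) * G i k) := by
        simp only [hy, map_mul, map_pow, sg_C, sg_X, C_neg, C_1, pow_add]
        rw [neg_pow (X : ℝ[X])]
        ring
      have e2 : 2 * hd G j = (hd G i + hd G k) + ((hd G j - hd G i) + (hd G j - hd G k)) := by
        omega
      rw [e1, coeff_C_mul, e2, coeff_X_pow_mul]
      have e3 : (hd G j - hd G i) = (hd G j - hd G i) := rfl
      rw [ldc, of_apply]
      ring
    rw [hexp, finsetSum_coeff]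
    simp only [finsetSum_coeff, h1]
    refine Finset.sum_eq_zero fun i _ => ?_
    rw [← Finset.mul_sum]
    have h2 := congrFun hc i
    simp only [mulVec, dotProduct, Pi.zero_apply] at h2
    rw [h2, mul_zero]
  have hst' : st (st B * G * B) = st B * G * B := by
    rw [st_mul, st_mul, st_st, hG, Matrix.mul_assoc]
  have hP' : Psd (st B * G * B) := by
    intro τ
    rw [evm_mul, evm_mul, evm_st]
    exact (hP τ).conjTranspose_mul_mul_same _
  have hdet' : (st B * G * B).det ≠ 0 := by
    rw [det_mul, det_mul, det_st]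
    exact mul_ne_zero (mul_ne_zero (sg_ne_zero hBu.ne_zero) hdet) hBu.ne_zero
  have hne := diag_ne_zero _ hst' hP' hdet' j
  rw [hjj] at hne
  have hpos : hd G j ≠ 0 := by
    intro h0
    rw [h0] at hdeg hcoeff
    apply hne
    rw [eq_C_of_natDegree_le_zero hdeg]
    simp only [mul_zero] at hcoeff
    rw [hcoeff, C_0]
  have hlt : (form G y y).natDegree < (G j j).natDegree := by
    rw [two_hd G hG hP hdet j]
    refine lt_of_le_of_ne hdeg fun h => ?_
    rw [← h, coeff_natDegree, leadingCoeff_eq_zero] at hcoeff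
    exact hne hcoeff
  refine ⟨B, hBu, ?_⟩
  refine Finset.sum_lt_sum (fun i _ => ?_) ⟨j, Finset.mem_univ j, ?_⟩
  · by_cases hi : i = j
    · subst hi; rw [hjj]; exact hlt.le
    · rw [hdiag i hi]
  · rw [hjj]; exact hlt

lemma reduce (G : Matrix n n ℝ[X]) (hG : st G = G) (hP : Psd G) (hu : IsUnit G.det) :
    ∃ B : Matrix n n ℝ[X], IsUnit B.det ∧ st B * G * B = 1 := by
  induction' hs : ∑ i, (G i i).natDegree using Nat.strong_induction_on with d ih generalizing G
  by_cases hL : (ldc G).det = 0
  · obtain ⟨B, hB, hlt⟩ := reduce_step G hG hP hu hL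
    have hst' : st (st B * G * B) = st B * G * B := by
      rw [st_mul, st_mul, st_st, hG, Matrix.mul_assoc]
    have hP' : Psd (st B * G * B) := by
      intro τ
      rw [evm_mul, evm_mul, evm_st]
      exact (hP τ).conjTranspose_mul_mul_same _
    have hu' : IsUnit (st B * G * B).det := by
      rw [det_mul, det_mul, det_st]
      exact ((hB.map sg).mul hu).mul hB
    obtain ⟨B', hB', h1⟩ := ih _ (hs ▸ hlt) (st B * G * B) hst' hP' hu' rfl
    refine ⟨B * B', ?_, ?_⟩
    · rw [det_mul]; exact hB.mul hB'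
    · rw [st_mul, ← h1]; simp only [Matrix.mul_assoc]
  · exact const_case G hG hP hu (hd_zero_of_ldc G hG hP hu hL)

/-- From a skew pair to a skew matrix. -/
lemma Pair.exists_skew {M G : Matrix n n ℝ[X]} (h : Pair M G) :
    ∃ M' : Matrix n n ℝ[X], st M' = -M' ∧ M'.charpoly = M.charpoly := by
  obtain ⟨M1, G1, h1, hu, hc⟩ := h.exists_unimodular
  obtain ⟨B, hB, hB1⟩ := reduce G1 h1.herm h1.psd hu
  refine ⟨B⁻¹ * M1 * B, ?_, ?_⟩
  · set M' := B⁻¹ * M1 * B with hM'
    have e1 : M1 * B = B * M' := by
      rw [hM', ← Matrix.mul_assoc, ← Matrix.mul_assoc, Matrix.mul_nonsing_inv _ hB, Matrix.one_mul]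
    have e2 : st M' * st B = st B * st M1 := by rw [← st_mul, ← e1, st_mul]
    calc st M' = st M' * (st B * G1 * B) := by rw [hB1, Matrix.mul_one]
      _ = (st M' * st B) * G1 * B := by simp only [Matrix.mul_assoc]
      _ = st B * (st M1 * G1) * B := by rw [e2]; simp only [Matrix.mul_assoc]
      _ = -(st B * G1 * (M1 * B)) := by
          rw [h1.skew]; simp only [Matrix.mul_assoc, Matrix.mul_neg, Matrix.neg_mul]
      _ = -((st B * G1 * B) * M') := by rw [e1]; simp only [Matrix.mul_assoc]
      _ = -M' := by rw [hB1, Matrix.one_mul]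
  · rw [← hc]
    refine charpoly_eq_of_mul (B := B) ?_ hB.ne_zero
    rw [← Matrix.mul_assoc, ← Matrix.mul_assoc, Matrix.mul_nonsing_inv _ hB, Matrix.one_mul]

end

end Pool.Agent.W450
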