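import Pool.Agent.W450.Det6

set_option autoImplicit false
set_option linter.unusedSectionVars false

namespace Pool.Agent.W450

open Polynomial Matrix Filter Topology
open scoped ComplexOrder MatrixOrder

noncomputable section

variable {n : Type*} [Fintype n] [DecidableEq n]

/-- entries of a Hermitian matrix are bounded by its spectral radius -/
lemma norm_entry_le {A : Matrix n n ℂ} (hA : A.IsHermitian) {R : ℝ} (hR : 0 ≤ R)
    (h : ∀ (l : ℝ) (v : n → ℂ), v ≠ 0 → A *ᵥ v = (l : ℂ) • v → |l| ≤ R) (i j : n) :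
    ‖A i j‖ ≤ R := by
  have hl : ∀ k, |hA.eigenvalues k| ≤ R := by
    intro k
    refine h _ (⇑(hA.eigenvectorBasis k)) ?_ ?_
    · intro h0
      have h1 := hA.eigenvectorBasis.orthonormal.1 k
      have h2 : hA.eigenvectorBasis k = 0 := by
        ext i; exact congrFun h0 i
      rw [h2] at h1
      simp at h1
    · rw [hA.mulVec_eigenvectorBasis]
      rfl
  set U : Matrix n n ℂ := (hA.eigenvectorUnitary : Matrix n n ℂ) with hU
  have hUU : U * star U = 1 := by
    rw [hU]; exact Unitary.coe_mul_star_self _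
  have hrow : ∀ i, ∑ k, ‖U i k‖ ^ 2 = 1 := by
    intro i
    have h1 := congrFun (congrFun hUU i) i
    rw [Matrix.mul_apply, one_apply_eq] at h1
    have h2 : ∀ k, U i k * (star U) k i = ((‖U i k‖ ^ 2 : ℝ) : ℂ) := by
      intro k
      rw [star_apply, Complex.star_def, Complex.mul_conj, Complex.normSq_eq_norm_sq]
    simp only [h2] at h1
    exact_mod_cast h1
  have hspec : A i j = ∑ k, U i k * (hA.eigenvalues k : ℂ) * star (U j k) := by
    have h1 := hA.spectral_theorem
    rw [Unitary.conjStarAlgAut_apply] at h1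
    have h2 := congrFun (congrFun h1 i) j
    rw [h2, Matrix.mul_apply]
    refine Finset.sum_congr rfl fun k _ => ?_
    rw [mul_diagonal]
    rfl
  rw [hspec]
  refine (norm_sum_le _ _).trans ?_
  have h3 : ∀ k, ‖U i k * (hA.eigenvalues k : ℂ) * star (U j k)‖ ≤
      R * ((‖U i k‖ ^ 2 + ‖U j k‖ ^ 2) / 2) := by
    intro k
    rw [norm_mul, norm_mul, norm_star]
    have h4 : ‖(hA.eigenvalues k : ℂ)‖ ≤ R := by
      rw [Complex.norm_real]; exact hl k
    have h5 : ‖U i k‖ * ‖U j k‖ ≤ (‖U i k‖ ^ 2 + ‖U j k‖ ^ 2) / 2 := by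
      nlinarith [sq_nonneg (‖U i k‖ - ‖U j k‖)]
    calc ‖U i k‖ * ‖(hA.eigenvalues k : ℂ)‖ * ‖U j k‖
        = ‖(hA.eigenvalues k : ℂ)‖ * (‖U i k‖ * ‖U j k‖) := by ring
      _ ≤ R * ((‖U i k‖ ^ 2 + ‖U j k‖ ^ 2) / 2) := by
          apply mul_le_mul h4 h5 (by positivity) hR
  refine (Finset.sum_le_sum fun k _ => h3 k).trans ?_
  rw [← Finset.mul_sum, ← Finset.sum_div, Finset.sum_add_distrib, hrow, hrow]
  norm_num

lemma natDegree_le_one_of_growth (f : ℝ[X]) (K : ℝ)
    (h : ∀ τ : ℝ, 0 < τ → ‖ev τ f‖ ≤ K * (1 + τ)) : f.natDegree ≤ 1 := by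
  by_contra hcon
  push Not at hcon
  have hf : f ≠ 0 := by
    rintro rfl; simp at hcon
  have h1 := (tendsto_ev f f.natDegree le_rfl).norm
  have h2 : Tendsto (fun τ : ℝ => K * (1 + τ) / τ ^ f.natDegree) atTop (𝓝 0) := by
    have e1 : Tendsto (fun τ : ℝ => K * (τ⁻¹) ^ f.natDegree + K * (τ⁻¹) ^ (f.natDegree - 1)) atTop
        (𝓝 0) := by
      have a1 : Tendsto (fun τ : ℝ => (τ⁻¹) ^ f.natDegree) atTop (𝓝 (0 : ℝ)) := by
        have := (tendsto_inv_atTop_zero (𝕜 := ℝ)).pow f.natDegree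
        rwa [zero_pow (by omega)] at this
      have a2 : Tendsto (fun τ : ℝ => (τ⁻¹) ^ (f.natDegree - 1)) atTop (𝓝 (0 : ℝ)) := by
        have := (tendsto_inv_atTop_zero (𝕜 := ℝ)).pow (f.natDegree - 1)
        rwa [zero_pow (by omega)] at this
      simpa using (a1.const_mul K).add (a2.const_mul K)
    refine e1.congr' ?_
    filter_upwards [eventually_gt_atTop 0] with τ hτ
    have e2 : τ ^ f.natDegree = τ ^ (f.natDegree - 1) * τ := by
      rw [← pow_succ]; congr 1; omega
    rw [inv_pow, inv_pow, e2]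
    field_simp
  have h3 : ‖Complex.I ^ f.natDegree * ((f.coeff f.natDegree : ℝ) : ℂ)‖ ≤ 0 := by
    refine le_of_tendsto_of_tendsto h1 h2 ?_
    filter_upwards [eventually_gt_atTop 0] with τ hτ
    rw [norm_div, norm_pow, Complex.norm_real, Real.norm_eq_abs, abs_of_pos hτ]
    exact div_le_div_of_nonneg_right (h τ hτ) (by positivity)
  have h4 : ‖Complex.I ^ f.natDegree * ((f.coeff f.natDegree : ℝ) : ℂ)‖ = |f.leadingCoeff| := by
    rw [norm_mul, norm_pow, Complex.norm_I, one_pow, one_mul, Complex.norm_real]; rfl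
  rw [h4] at h3
  exact hf (leadingCoeff_eq_zero.1 (abs_nonpos_iff.1 h3))

/-- the roots of `q(·, iτ)` are purely imaginary and of linear growth -/
def RootsOk (q : ℝ[X][X]) : Prop := ∃ K : ℝ, ∀ (τ : ℝ) (s : ℂ),
  (q.map (ev τ)).eval s = 0 → s.re = 0 ∧ ‖s‖ ≤ K * (1 + |τ|)

lemma charpoly_evm (τ : ℝ) (M : Matrix n n ℝ[X]) :
    (evm τ M).charpoly = M.charpoly.map (ev τ) := by
  unfold evm
  exact (Matrix.charpoly_map M (ev τ))

lemma skew_linear (M : Matrix n n ℝ[X]) (hM : st M = -M) (hr : RootsOk M.charpoly) (i j : n) :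
    (M i j).natDegree ≤ 1 := by
  obtain ⟨K, hK⟩ := hr
  set K' := max K 0 with hK'
  apply natDegree_le_one_of_growth _ K'
  intro τ hτ
  have hH : (Complex.I • evm τ M).IsHermitian := by
    unfold Matrix.IsHermitian
    rw [conjTranspose_smul, ← evm_st, hM]
    have : evm τ (-M) = -evm τ M := by ext i j; simp
    rw [this]
    simp
  have h1 := norm_entry_le hH (R := K' * (1 + τ)) (by positivity) ?_ i j
  · rw [Matrix.smul_apply, norm_smul, Complex.norm_I, one_mul] at h1
    exact h1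
  · intro l v hv hlv
    have h2 : evm τ M *ᵥ v = (-Complex.I * l) • v := by
      have h3 : evm τ M *ᵥ v = (-Complex.I) • ((Complex.I • evm τ M) *ᵥ v) := by
        rw [smul_mulVec, smul_smul]; simp
      rw [h3, hlv, smul_smul]
    have h4 : (M.charpoly.map (ev τ)).eval (-Complex.I * l) = 0 := by
      rw [← charpoly_evm, Matrix.eval_charpoly]
      rw [← Matrix.exists_mulVec_eq_zero_iff]
      refine ⟨v, hv, ?_⟩
      rw [sub_mulVec, h2]
      ext i
      simp [Matrix.scalar_apply, mulVec_diagonal]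
    have h5 := (hK τ _ h4).2
    rw [norm_mul, norm_neg, Complex.norm_I, one_mul, Complex.norm_real, Real.norm_eq_abs,
      abs_of_pos hτ] at h5
    exact h5.trans (mul_le_mul_of_nonneg_right (le_max_left _ _) (by positivity))

lemma exists_linear (M : Matrix n n ℝ[X]) (hM : st M = -M) (hr : RootsOk M.charpoly) :
    ∃ M0 M1 : Matrix n n ℝ, M = M0.map C + (X : ℝ[X]) • M1.map C ∧ M0ᵀ = -M0 ∧ M1ᵀ = M1 := by
  refine ⟨Matrix.of fun i j => (M i j).coeff 0, Matrix.of fun i j => (M i j).coeff 1, ?_, ?_, ?_⟩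
  · refine Matrix.ext fun i j => ?_
    have h1 := eq_X_add_C_of_natDegree_le_one (skew_linear M hM hr i j)
    rw [Matrix.add_apply, Matrix.smul_apply, Matrix.map_apply, Matrix.map_apply, of_apply, of_apply,
      smul_eq_mul]
    conv_lhs => rw [h1]
    ring
  · ext i j
    have h1 := congrFun (congrFun hM i) j
    rw [st_apply, Matrix.neg_apply] at h1
    have h2 := congrArg (fun f => coeff f 0) h1
    simp only [coeff_sg, coeff_neg, pow_zero, one_mul] at h2
    simpa using h2
  · ext i j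
    have h1 := congrFun (congrFun hM i) j
    rw [st_apply, Matrix.neg_apply] at h1
    have h2 := congrArg (fun f => coeff f 1) h1
    simp only [coeff_sg, coeff_neg, pow_one, neg_mul, one_mul, neg_inj] at h2
    simpa using h2

end

end Pool.Agent.W450
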