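import Pool.Agent.W450.Det7

set_option autoImplicit false
set_option linter.unusedSectionVars false

namespace Pool.Agent.W450

open Polynomial Matrix Filter Topology
open scoped ComplexOrder MatrixOrder

noncomputable section

lemma eq_of_ev {f g : ℝ[X]} {S : Set ℝ} (hS : S.Finite) (h : ∀ τ, τ ∉ S → ev τ f = ev τ g) :
    f = g := by
  by_contra hne
  have h1 := finite_ev_zero (sub_ne_zero.2 hne)
  have h2 : (Set.univ : Set ℝ) ⊆ S ∪ {τ | ev τ (f - g) = 0} := by
    intro τ _
    by_cases hτ : τ ∈ S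
    · exact Or.inl hτ
    · right
      show ev τ (f - g) = 0
      rw [map_sub, h τ hτ, sub_self]
  exact Set.infinite_univ ((hS.union h1).subset h2)

lemma matrix_eq_of_ev {m n : Type*} {A B : Matrix m n ℝ[X]} {S : Set ℝ} (hS : S.Finite)
    (h : ∀ τ, τ ∉ S → evm τ A = evm τ B) : A = B := by
  refine Matrix.ext fun i j => eq_of_ev hS fun τ hτ => ?_
  exact congrFun (congrFun (h τ hτ) i) j

/-- clearing denominators in the Bezout relation -/
lemma exists_bezout (r : ℝ[X][X]) (hr : Irreducible r) (hm : r.Monic) :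
    ∃ (a b : ℝ[X][X]) (d : ℝ[X]), d ≠ 0 ∧ a * r + b * derivative r = C d := by
  set F := FractionRing ℝ[X]
  have h1 : Irreducible (r.map (algebraMap ℝ[X] F)) :=
    (hm.irreducible_iff_irreducible_map_fraction_map).1 hr
  obtain ⟨A, B, hAB⟩ := h1.separable
  obtain ⟨b1, hb1', hb1⟩ := IsLocalization.integerNormalization_spec (nonZeroDivisors ℝ[X]) A
  obtain ⟨b2, hb2', hb2⟩ := IsLocalization.integerNormalization_spec (nonZeroDivisors ℝ[X]) B
  set A' := IsLocalization.integerNormalization (nonZeroDivisors ℝ[X]) A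
  set B' := IsLocalization.integerNormalization (nonZeroDivisors ℝ[X]) B
  refine ⟨C b2 * A', C b1 * B', b1 * b2,
    mul_ne_zero (nonZeroDivisors.ne_zero hb1') (nonZeroDivisors.ne_zero hb2'), ?_⟩
  apply Polynomial.map_injective (algebraMap ℝ[X] F) (IsFractionRing.injective ℝ[X] F)
  have e : ∀ (b : ℝ[X]) (P : F[X]), b • P = C (algebraMap ℝ[X] F b) * P := by
    intro b P
    rw [← Polynomial.smul_eq_C_mul, algebraMap_smul]
  rw [e] at hb1 hb2
  rw [Polynomial.map_add, Polynomial.map_mul, Polynomial.map_mul, Polynomial.map_mul,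
    Polynomial.map_mul, hb1, hb2, Polynomial.map_C, Polynomial.map_C, Polynomial.map_C,
    ← Polynomial.derivative_map, map_mul, C_mul]
  linear_combination (C (algebraMap ℝ[X] F b1) * C (algebraMap ℝ[X] F b2)) * hAB

/-- for all but finitely many `τ` the roots of `r(·, iτ)` are distinct -/
lemma exists_good (r : ℝ[X][X]) (hr : Irreducible r) (hm : r.Monic) :
    ∃ S : Set ℝ, S.Finite ∧ ∀ τ, τ ∉ S → ∃ l : Fin r.natDegree → ℂ, Function.Injective l ∧
      ∀ k, (r.map (ev τ)).eval (l k) = 0 := by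
  obtain ⟨a, b, d, hd, hab⟩ := exists_bezout r hr hm
  refine ⟨{τ | ev τ d = 0}, finite_ev_zero hd, fun τ hτ => ?_⟩
  have hτ' : ev τ d ≠ 0 := hτ
  set q := r.map (ev τ) with hq
  have hqm : q.Monic := hm.map _
  have hqd : q.natDegree = r.natDegree := hm.natDegree_map _
  have hsep : q.Separable := by
    refine ⟨C (ev τ d)⁻¹ * a.map (ev τ), C (ev τ d)⁻¹ * b.map (ev τ), ?_⟩
    have h1 := congrArg (fun f : ℝ[X][X] => f.map (ev τ)) hab
    simp only [Polynomial.map_add, Polynomial.map_mul, Polynomial.map_C] at h1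
    rw [hq, Polynomial.derivative_map]
    have h2 : (C (ev τ d)⁻¹ : ℂ[X]) * C (ev τ d) = 1 := by
      rw [← C_mul, inv_mul_cancel₀ hτ', C_1]
    linear_combination (C (ev τ d)⁻¹ : ℂ[X]) * h1 + h2
  have hnd : q.roots.Nodup := nodup_roots hsep
  have hcard : q.roots.card = r.natDegree := by
    rw [← hqd]
    exact IsAlgClosed.card_roots_eq_natDegree
  have hcard2 : q.roots.toFinset.card = r.natDegree := by
    rw [Multiset.toFinset_card_of_nodup hnd, hcard]
  let e := q.roots.toFinset.equivFinOfCardEq hcard2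
  refine ⟨fun k => (e.symm k : ℂ), ?_, ?_⟩
  · intro x y hxy
    exact e.symm.injective (Subtype.ext hxy)
  · intro k
    have h1 := (e.symm k).2
    rw [Multiset.mem_toFinset, mem_roots hqm.ne_zero] at h1
    exact h1

section
variable {r : ℝ[X][X]} (hm : r.Monic)

/-- multiplication by the variable -/
def mulM : Matrix (Fin r.natDegree) (Fin r.natDegree) ℝ[X] :=
  Algebra.leftMulMatrix (AdjoinRoot.powerBasisAux' hm) (AdjoinRoot.root r)

lemma charpoly_mulM : (mulM hm).charpoly = r := by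
  have h1 := charpoly_leftMulMatrix (AdjoinRoot.powerBasis' hm)
  have h2 : minpoly ℝ[X] (AdjoinRoot.powerBasis' hm).gen = r := by
    rw [AdjoinRoot.powerBasis'_gen]
    symm
    apply minpoly.unique' _ _ hm
    · rw [AdjoinRoot.aeval_eq, AdjoinRoot.mk_self]
    · intro q hq
      by_cases hq0 : q = 0
      · exact Or.inl hq0
      · right
        rw [AdjoinRoot.aeval_eq, Ne, AdjoinRoot.mk_eq_zero]
        intro hdvd
        have := Polynomial.degree_le_of_dvd hdvd hq0
        exact absurd hq (not_lt.2 this)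
  rw [h2] at h1
  exact h1

lemma vandermonde_mulM (τ : ℝ) (l : Fin r.natDegree → ℂ)
    (hl : ∀ k, (r.map (ev τ)).eval (l k) = 0) :
    vandermonde l * evm τ (mulM hm) = diagonal l * vandermonde l := by
  ext k j
  rw [diagonal_mul, vandermonde_apply, Matrix.mul_apply]
  set φ : AdjoinRoot r →+* ℂ := AdjoinRoot.lift (ev τ) (l k) (by
    rw [← eval_map]; exact hl k) with hφ
  set b := AdjoinRoot.powerBasisAux' hm with hb
  have hbp : ∀ i, b i = AdjoinRoot.root r ^ (i : ℕ) := by
    intro i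
    have := (AdjoinRoot.powerBasis' hm).basis_eq_pow i
    exact this
  have h3 : φ (AdjoinRoot.root r) = l k := AdjoinRoot.lift_root _
  have h4 : ∀ f : ℝ[X], φ (algebraMap ℝ[X] (AdjoinRoot r) f) = ev τ f := by
    intro f
    have h4 : algebraMap ℝ[X] (AdjoinRoot r) = AdjoinRoot.of r := rfl
    rw [h4, hφ, AdjoinRoot.lift_of]
  have h2 : ∑ i, φ (mulM hm i j • b i) = l k * l k ^ (j : ℕ) := by
    rw [← map_sum]
    have h1 : ∑ i, mulM hm i j • b i = AdjoinRoot.root r * b j := by
      refine Eq.trans (Finset.sum_congr rfl fun i _ => ?_)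
        (b.sum_repr (AdjoinRoot.root r * b j))
      rw [mulM, Algebra.leftMulMatrix_eq_repr_mul, ← hb]
    rw [h1, map_mul, hbp, map_pow, h3]
  rw [← h2]
  refine Finset.sum_congr rfl fun i _ => ?_
  rw [vandermonde_apply, evm_apply, hbp i, Algebra.smul_def, map_mul, map_pow, h3, h4, mul_comm]

/-- the Hermite form -/
def herm : Matrix (Fin r.natDegree) (Fin r.natDegree) ℝ[X] :=
  Matrix.of fun i j => (-1) ^ (i : ℕ) * ((mulM hm) ^ ((i : ℕ) + (j : ℕ))).trace

lemma evm_pow {n : Type*} [Fintype n] [DecidableEq n] (τ : ℝ) (M : Matrix n n ℝ[X]) (k : ℕ) :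
    evm τ (M ^ k) = (evm τ M) ^ k := by
  have := map_pow ((ev τ).mapMatrix (m := n)) M k
  exact this

lemma ev_trace {n : Type*} [Fintype n] [DecidableEq n] (τ : ℝ) (M : Matrix n n ℝ[X]) :
    ev τ M.trace = (evm τ M).trace := by
  simp [Matrix.trace]

lemma evm_herm_eq (τ : ℝ) (l : Fin r.natDegree → ℂ) (hinj : Function.Injective l)
    (hl : ∀ k, (r.map (ev τ)).eval (l k) = 0) (hre : ∀ k, (l k).re = 0) :
    evm τ (herm hm) = (vandermonde l)ᴴ * vandermonde l := by
  set V := vandermonde l with hV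
  have hVd : IsUnit V.det := isUnit_iff_ne_zero.2 (det_vandermonde_ne_zero_iff.2 hinj)
  have h1 := vandermonde_mulM hm τ l hl
  have h2 : ∀ m : ℕ, V * (evm τ (mulM hm)) ^ m = (diagonal l) ^ m * V := by
    intro m
    induction m with
    | zero => simp
    | succ m ih =>
      rw [pow_succ, ← Matrix.mul_assoc, ih, Matrix.mul_assoc, h1, ← Matrix.mul_assoc, ← pow_succ]
  have h3 : ∀ m : ℕ, ((evm τ (mulM hm)) ^ m).trace = ∑ k, l k ^ m := by
    intro m
    have h4 : (evm τ (mulM hm)) ^ m = V⁻¹ * ((diagonal l) ^ m * V) := by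
      rw [← h2, ← Matrix.mul_assoc, Matrix.nonsing_inv_mul _ hVd, Matrix.one_mul]
    rw [h4, Matrix.trace_mul_comm, Matrix.mul_assoc, Matrix.mul_nonsing_inv _ hVd, Matrix.mul_one,
      diagonal_pow, trace_diagonal]
    rfl
  ext i j
  rw [evm_apply, herm, of_apply, map_mul, map_pow, map_neg, map_one, ev_trace, evm_pow, h3,
    Matrix.mul_apply, Finset.mul_sum]
  refine Finset.sum_congr rfl fun k _ => ?_
  simp only [hV, conjTranspose_apply, vandermonde_apply, star_pow]
  have h5 : star (l k) = - l k := by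
    apply Complex.ext <;> simp [hre k]
  rw [h5, neg_pow, pow_add]
  ring

lemma exists_pair (hr : Irreducible r) (hok : RootsOk r) : Pair (mulM hm) (herm hm) := by
  obtain ⟨S, hS, hgood⟩ := exists_good r hr hm
  obtain ⟨K, hK⟩ := hok
  have key : ∀ τ, τ ∉ S → ∃ l : Fin r.natDegree → ℂ, Function.Injective l ∧
      (∀ k, star (l k) = - l k) ∧ evm τ (herm hm) = (vandermonde l)ᴴ * vandermonde l ∧
      vandermonde l * evm τ (mulM hm) = diagonal l * vandermonde l := by
    intro τ hτ
    obtain ⟨l, hinj, hl⟩ := hgood τ hτ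
    have hre : ∀ k, (l k).re = 0 := fun k => (hK τ _ (hl k)).1
    refine ⟨l, hinj, fun k => ?_, evm_herm_eq hm τ l hinj hl hre, vandermonde_mulM hm τ l hl⟩
    apply Complex.ext <;> simp [hre k]
  have hst : st (herm hm) = herm hm := by
    apply matrix_eq_of_ev hS
    intro τ hτ
    obtain ⟨l, -, -, h1, -⟩ := key τ hτ
    rw [evm_st, h1, conjTranspose_mul, conjTranspose_conjTranspose]
  refine ⟨hst, ?_, ?_, ?_⟩
  · apply matrix_eq_of_ev hS
    intro τ hτ
    obtain ⟨l, -, hl, h1, h2⟩ := key τ hτ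
    have e : evm τ (-(herm hm * mulM hm)) = -(evm τ (herm hm) * evm τ (mulM hm)) := by
      rw [← evm_mul]; ext i j; simp
    rw [e, evm_mul, evm_st, h1, ← Matrix.mul_assoc, ← conjTranspose_mul, h2, Matrix.mul_assoc, h2,
      conjTranspose_mul, diagonal_conjTranspose]
    have e2 : diagonal (star l) = - diagonal l := by
      have : star l = -l := by funext k; exact hl k
      rw [this, diagonal_neg]; rfl
    rw [e2, Matrix.mul_neg, Matrix.neg_mul, Matrix.mul_assoc]
  · apply psd_of_ae _ hst hS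
    intro τ hτ
    obtain ⟨l, -, -, h1, -⟩ := key τ hτ
    rw [h1]
    exact posSemidef_conjTranspose_mul_self _
  · intro h0
    obtain ⟨τ, hτ⟩ : ∃ τ, τ ∉ S := by
      by_contra hcon
      push Not at hcon
      exact Set.infinite_univ (hS.subset (fun τ _ => hcon τ))
    obtain ⟨l, hinj, -, h1, -⟩ := key τ hτ
    have h2 := det_evm τ (herm hm)
    rw [h0, map_zero, h1, det_mul, det_conjTranspose] at h2
    have h3 := det_vandermonde_ne_zero_iff.2 hinj
    rcases mul_eq_zero.1 h2 with h4 | h4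
    · exact h3 (star_eq_zero.1 h4)
    · exact h3 h4

end

lemma exists_skew_irreducible {r : ℝ[X][X]} (hm : r.Monic) (hr : Irreducible r) (hok : RootsOk r) :
    ∃ (N : ℕ) (M : Matrix (Fin N) (Fin N) ℝ[X]), st M = -M ∧ M.charpoly = r := by
  obtain ⟨M, h1, h2⟩ := (exists_pair hm hr hok).exists_skew
  exact ⟨_, M, h1, h2.trans (charpoly_mulM hm)⟩

lemma RootsOk.of_dvd {q r : ℝ[X][X]} (h : RootsOk q) (hd : r ∣ q) : RootsOk r := by
  obtain ⟨K, hK⟩ := h
  obtain ⟨w, rfl⟩ := hd
  refine ⟨K, fun τ s hs => hK τ s ?_⟩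
  rw [Polynomial.map_mul, eval_mul, hs, zero_mul]

/-- The skew realisation of a monic polynomial with imaginary roots on the imaginary axis. -/
lemma exists_skew (q : ℝ[X][X]) (hm : q.Monic) (hok : RootsOk q) :
    ∃ (N : ℕ) (M : Matrix (Fin N) (Fin N) ℝ[X]), st M = -M ∧ M.charpoly = q := by
  induction' hd : q.natDegree using Nat.strong_induction_on with d ih generalizing q
  by_cases hu : IsUnit q
  · have hq1 : q = 1 := hm.eq_one_of_isUnit hu
    refine ⟨0, 0, ?_, ?_⟩
    · ext i; exact i.elim0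
    · rw [hq1, Matrix.charpoly]; simp
  obtain ⟨r0, hr0, hr0d⟩ := WfDvdMonoid.exists_irreducible_factor hu hm.ne_zero
  obtain ⟨w0, hw0⟩ := hr0d
  have hlc : r0.leadingCoeff * w0.leadingCoeff = 1 := by
    rw [← leadingCoeff_mul, ← hw0]; exact hm
  have hlc' : w0.leadingCoeff * r0.leadingCoeff = 1 := by rw [mul_comm]; exact hlc
  set r := C w0.leadingCoeff * r0 with hr
  set w := C r0.leadingCoeff * w0 with hw
  have hq : q = r * w := by
    have : (C w0.leadingCoeff : ℝ[X][X]) * C r0.leadingCoeff = 1 := by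
      rw [← C_mul, hlc', C_1]
    rw [hr, hw, hw0]
    linear_combination (-r0 * w0) * this
  have hrm : r.Monic := by
    rw [Monic, hr, leadingCoeff_mul, leadingCoeff_C, hlc']
  have hwm : w.Monic := by
    rw [Monic, hw, leadingCoeff_mul, leadingCoeff_C, hlc]
  have hrirr : Irreducible r := by
    have hunit : IsUnit (C w0.leadingCoeff : ℝ[X][X]) :=
      (IsUnit.of_mul_eq_one _ hlc').map C
    rw [hr]
    exact (irreducible_isUnit_mul hunit).2 hr0
  have hdeg : q.natDegree = r.natDegree + w.natDegree := by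
    rw [hq]; exact hrm.natDegree_mul hwm
  have hrpos : 0 < r.natDegree := by
    by_contra h0
    have h1 : r.natDegree = 0 := by omega
    have : r = 1 := by
      rw [← hrm.degree_le_zero_iff_eq_one, degree_eq_natDegree hrm.ne_zero, h1]; simp
    rw [this] at hrirr
    exact not_irreducible_one hrirr
  obtain ⟨N1, M1, h1, h2⟩ := exists_skew_irreducible hrm hrirr (hok.of_dvd ⟨w, hq⟩)
  obtain ⟨N2, M2, h3, h4⟩ := ih w.natDegree (by omega) w hwm
    (hok.of_dvd ⟨r, by rw [hq, mul_comm]⟩) rfl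
  refine ⟨N1 + N2, (Matrix.fromBlocks M1 0 0 M2).submatrix finSumFinEquiv.symm finSumFinEquiv.symm,
    ?_, ?_⟩
  · have h5 : st (Matrix.fromBlocks M1 0 0 M2) = -Matrix.fromBlocks M1 0 0 M2 := by
      unfold st at h1 h3 ⊢
      rw [Matrix.fromBlocks_map, Matrix.fromBlocks_transpose, h1, h3, Matrix.fromBlocks_neg]
      simp
    have h6 := congrArg (fun A => A.submatrix (finSumFinEquiv (m := N1) (n := N2)).symm
      finSumFinEquiv.symm) h5
    exact h6
  · have := Matrix.charpoly_reindex (finSumFinEquiv (m := N1) (n := N2)) (Matrix.fromBlocks M1 0 0 M2)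
    rw [Matrix.reindex_apply] at this
    rw [this, Matrix.charpoly_fromBlocks_zero₁₂, h2, h4, hq]

end

end Pool.Agent.W450
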