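import Pool.Agent.W450.Det8

set_option autoImplicit false
set_option linter.unusedSectionVars false

namespace Pool.Agent.W450

open Polynomial Matrix Filter Topology
open scoped ComplexOrder MatrixOrder

noncomputable section

lemma prod_bound (x : ℂ) (hx : 0 < x.im) (s : Multiset ℂ) (h : ∀ z ∈ s, z.im ≤ 0) :
    x.im ^ s.card ≤ ‖(s.map (x - ·)).prod‖ := by
  induction s using Multiset.induction_on with
  | empty => simp
  | cons a s ih =>
    rw [Multiset.card_cons, Multiset.map_cons, Multiset.prod_cons, norm_mul, pow_succ, mul_comm]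
    have h1 : x.im ≤ ‖x - a‖ := by
      have h2 := h a (Multiset.mem_cons_self a s)
      have h3 := Complex.abs_im_le_norm (x - a)
      rw [Complex.sub_im] at h3
      have h4 := le_abs_self (x.im - a.im)
      linarith
    exact mul_le_mul h1 (ih fun z hz => h z (Multiset.mem_cons_of_mem hz)) (by positivity)
      (norm_nonneg _)

lemma bound {P : ℂ[X]} (hP : P.Monic) (h : ∀ z, P.eval z = 0 → z.im ≤ 0) (x : ℂ)
    (hx : 0 < x.im) : x.im ^ P.natDegree ≤ ‖P.eval x‖ := by
  have hs := IsAlgClosed.splits P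
  rw [hs.eval_eq_prod_roots_of_monic hP, hs.natDegree_eq_card_roots]
  refine prod_bound x hx _ fun z hz => h z ?_
  rw [mem_roots hP.ne_zero] at hz
  exact hz

/-- the index of `x ^ n` -/
abbrev top0 (n : ℕ) : Fin 2 →₀ ℕ := Finsupp.single 0 n

lemma eq_top0 {m : Fin 2 →₀ ℕ} {n : ℕ} (h : m 0 + m 1 ≤ n) (h0 : n ≤ m 0) : m = top0 n := by
  ext i
  fin_cases i
  · simp; omega
  · simp; omega

lemma gen_monic {R : Type*} [CommRing R] [Nontrivial R] (S : Finset (Fin 2 →₀ ℕ)) (n : ℕ)
    (hS : ∀ m ∈ S, m 0 + m 1 ≤ n) (f : (Fin 2 →₀ ℕ) → R) (hf : f (top0 n) = 1)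
    (hmem : top0 n ∈ S) :
    (∑ m ∈ S, C (f m) * X ^ (m 0) : R[X]).Monic ∧
      (∑ m ∈ S, C (f m) * X ^ (m 0) : R[X]).natDegree = n := by
  have h1 : (∑ m ∈ S, C (f m) * X ^ (m 0) : R[X]) =
      X ^ n + ∑ m ∈ S.erase (top0 n), C (f m) * X ^ (m 0) := by
    rw [← Finset.add_sum_erase S _ hmem, hf]
    simp
  have h2 : (∑ m ∈ S.erase (top0 n), C (f m) * X ^ (m 0) : R[X]).degree < n := by
    rw [degree_lt_iff_coeff_zero]
    intro k hk
    rw [finsetSum_coeff]
    refine Finset.sum_eq_zero fun m hm => ?_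
    have h3 := hS m (Finset.mem_of_mem_erase hm)
    have h4 := Finset.ne_of_mem_erase hm
    have h5 : m 0 < n := by
      by_contra hcon
      exact h4 (eq_top0 h3 (by omega))
    rw [coeff_C_mul, coeff_X_pow, if_neg (by omega), mul_zero]
  rw [h1]
  refine ⟨monic_X_pow_add h2, natDegree_eq_of_degree_eq_some ?_⟩
  rw [degree_add_eq_left_of_degree_lt (by rwa [degree_X_pow]), degree_X_pow]

/-- an admissible polynomial, normalised, given by its coefficients -/
structure Adm (n : ℕ) (S : Finset (Fin 2 →₀ ℕ)) (c : (Fin 2 →₀ ℕ) → ℂ) : Prop where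
  deg : ∀ m ∈ S, m 0 + m 1 ≤ n
  mem : top0 n ∈ S
  one : c (top0 n) = 1
  par : ∀ m ∈ S, (m 0 + m 1) % 2 = n % 2
  stable : ∀ x y : ℂ, 0 < x.im → 0 < y.im → ∑ m ∈ S, c m * x ^ m 0 * y ^ m 1 ≠ 0

/-- the function -/
def fn (S : Finset (Fin 2 →₀ ℕ)) (c : (Fin 2 →₀ ℕ) → ℂ) (x y : ℂ) : ℂ :=
  ∑ m ∈ S, c m * x ^ m 0 * y ^ m 1

/-- section at `y` -/
def sec (S : Finset (Fin 2 →₀ ℕ)) (c : (Fin 2 →₀ ℕ) → ℂ) (y : ℂ) : ℂ[X] :=
  ∑ m ∈ S, C (c m * y ^ m 1) * X ^ (m 0)

variable {n : ℕ} {S : Finset (Fin 2 →₀ ℕ)} {c : (Fin 2 →₀ ℕ) → ℂ}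

lemma eval_sec (x y : ℂ) : (sec S c y).eval x = fn S c x y := by
  simp only [sec, fn, eval_finsetSum, eval_mul, eval_C, eval_pow, eval_X]
  exact Finset.sum_congr rfl fun m _ => by ring

lemma Adm.sec_monic (h : Adm n S c) (y : ℂ) : (sec S c y).Monic ∧ (sec S c y).natDegree = n :=
  gen_monic S n h.deg (fun m => c m * y ^ m 1) (by simp [h.one]) h.mem

lemma continuous_fn (x : ℂ) : Continuous fun y => fn S c x y := by
  unfold fn
  fun_prop

/-- lower bound in the upper half plane -/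
lemma Adm.bound_up (h : Adm n S c) (x y : ℂ) (hx : 0 < x.im) (hy : 0 ≤ y.im) :
    x.im ^ n ≤ ‖fn S c x y‖ := by
  have key : ∀ y : ℂ, 0 < y.im → x.im ^ n ≤ ‖fn S c x y‖ := by
    intro y hy
    obtain ⟨h1, h2⟩ := h.sec_monic y
    have h3 := bound h1 (fun z hz => by
      by_contra hcon
      rw [eval_sec] at hz
      exact h.stable z y (by linarith) hy hz) x hx
    rwa [h2, eval_sec] at h3
  have hc : Tendsto (fun k : ℕ => fn S c x (y + Complex.I * ((1 / ((k : ℝ) + 1) : ℝ) : ℂ))) atTop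
      (𝓝 (fn S c x y)) := by
    have h1 : Tendsto (fun k : ℕ => y + Complex.I * ((1 / ((k : ℝ) + 1) : ℝ) : ℂ)) atTop
        (𝓝 (y + Complex.I * ((0 : ℝ) : ℂ))) := by
      refine Tendsto.const_add _ (Tendsto.const_mul _ ?_)
      exact (Complex.continuous_ofReal.tendsto 0).comp tendsto_one_div_add_atTop_nhds_zero_nat
    have h2 := ((continuous_fn (S := S) (c := c) x).tendsto (y + Complex.I * ((0 : ℝ) : ℂ))).comp h1
    simpa [Function.comp_def] using h2
  refine ge_of_tendsto hc.norm (Filter.Eventually.of_forall fun k => key _ ?_)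
  have : (0 : ℝ) < 1 / ((k : ℝ) + 1) := by positivity
  simp only [Complex.add_im, Complex.mul_im, Complex.I_re, Complex.I_im, Complex.ofReal_im,
    Complex.ofReal_re]
  linarith

lemma Adm.fn_neg (h : Adm n S c) (x y : ℂ) : fn S c (-x) (-y) = (-1) ^ n * fn S c x y := by
  simp only [fn, Finset.mul_sum]
  refine Finset.sum_congr rfl fun m hm => ?_
  have h1 := h.par m hm
  rw [neg_pow x, neg_pow y]
  have h2 : ((-1 : ℂ)) ^ n = (-1) ^ (m 0) * (-1) ^ (m 1) := by
    rw [← pow_add]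
    rcases Nat.mod_two_eq_zero_or_one n with h3 | h3
    · rw [(Nat.even_iff.2 h3).neg_one_pow, (Nat.even_iff.2 (h1.trans h3)).neg_one_pow]
    · rw [(Nat.odd_iff.2 h3).neg_one_pow, (Nat.odd_iff.2 (h1.trans h3)).neg_one_pow]
  rw [h2]; ring

/-- for real `y` all roots are real -/
lemma Adm.real_roots (h : Adm n S c) (x : ℂ) (y : ℝ) (h0 : fn S c x y = 0) : x.im = 0 := by
  rcases lt_trichotomy x.im 0 with h1 | h1 | h1
  · have h2 := h.bound_up (-x) (-(y : ℂ)) (by simpa using h1) (by simp)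
    rw [h.fn_neg, h0, mul_zero, norm_zero] at h2
    have : 0 < (-x).im ^ n := pow_pos (by simpa using h1) n
    linarith
  · exact h1
  · have h2 := h.bound_up x (y : ℂ) h1 (by simp)
    rw [h0, norm_zero] at h2
    have : 0 < x.im ^ n := pow_pos h1 n
    linarith

/-- growth of the real roots -/
lemma Adm.growth (h : Adm n S c) : ∃ K : ℝ, ∀ (x : ℂ) (y : ℝ), fn S c x y = 0 →
    ‖x‖ ≤ K * (1 + |y|) := by
  set A := ∑ m ∈ S.erase (top0 n), ‖c m‖ with hA
  have hA0 : 0 ≤ A := Finset.sum_nonneg fun _ _ => norm_nonneg _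
  refine ⟨1 + A, fun x y h0 => ?_⟩
  by_contra hcon
  push Not at hcon
  have hy : 0 ≤ |y| := abs_nonneg y
  have hx1 : 1 + |y| ≤ ‖x‖ := by
    have : 1 * (1 + |y|) ≤ (1 + A) * (1 + |y|) := by
      apply mul_le_mul_of_nonneg_right <;> linarith
    linarith
  have hxpos : 0 < ‖x‖ := by linarith
  have hn : n ≠ 0 := by
    rintro rfl
    have h1 : S = {top0 0} := by
      ext m
      rw [Finset.mem_singleton]
      constructor
      · intro hm
        exact eq_top0 (h.deg m hm) (Nat.zero_le _)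
      · rintro rfl; exact h.mem
    have h2 : fn S c x y = 1 := by
      have h3 := h.one
      unfold fn
      rw [h1, Finset.sum_singleton, h3]
      simp
    rw [h2] at h0
    exact one_ne_zero h0
  have h1 : x ^ n = -∑ m ∈ S.erase (top0 n), c m * x ^ m 0 * (y : ℂ) ^ m 1 := by
    unfold fn at h0
    rw [← Finset.add_sum_erase S _ h.mem, h.one] at h0
    simp only [Finsupp.single_eq_same, Finsupp.single_apply] at h0
    simp at h0
    linear_combination h0
  have h2 : ‖x‖ ^ n ≤ A * (‖x‖ ^ (n - 1) * (1 + |y|)) := by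
    rw [← norm_pow, h1, norm_neg, hA, Finset.sum_mul]
    refine (norm_sum_le _ _).trans (Finset.sum_le_sum fun m hm => ?_)
    rw [norm_mul, norm_mul, norm_pow, norm_pow, Complex.norm_real, Real.norm_eq_abs, mul_assoc]
    refine mul_le_mul_of_nonneg_left ?_ (norm_nonneg _)
    have h3 := h.deg m (Finset.mem_of_mem_erase hm)
    have h5 : m 0 < n := by
      by_contra hcon
      exact Finset.ne_of_mem_erase hm (eq_top0 h3 (by omega))
    have h6 : |y| ^ m 1 ≤ (1 + |y|) ^ (n - m 0) := by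
      calc |y| ^ m 1 ≤ (1 + |y|) ^ m 1 := pow_le_pow_left₀ hy (by linarith) _
        _ ≤ (1 + |y|) ^ (n - m 0) := pow_le_pow_right₀ (by linarith) (by omega)
    have h7 : (1 + |y|) ^ (n - m 0) ≤ ‖x‖ ^ (n - 1 - m 0) * (1 + |y|) := by
      have : n - m 0 = (n - 1 - m 0) + 1 := by omega
      rw [this, pow_succ]
      exact mul_le_mul_of_nonneg_right (pow_le_pow_left₀ (by linarith) hx1 _) (by linarith)
    calc ‖x‖ ^ m 0 * |y| ^ m 1 ≤ ‖x‖ ^ m 0 * (‖x‖ ^ (n - 1 - m 0) * (1 + |y|)) :=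
          mul_le_mul_of_nonneg_left (h6.trans h7) (by positivity)
      _ = ‖x‖ ^ (n - 1) * (1 + |y|) := by
          rw [← mul_assoc, ← pow_add]; congr 2; omega
  have h3 : ‖x‖ ^ n = ‖x‖ ^ (n - 1) * ‖x‖ := by
    rw [← pow_succ]; congr 1; omega
  rw [h3] at h2
  have h4 : ‖x‖ ≤ A * (1 + |y|) := by
    have h5 : 0 < ‖x‖ ^ (n - 1) := by positivity
    have h6 : ‖x‖ ^ (n - 1) * ‖x‖ ≤ ‖x‖ ^ (n - 1) * (A * (1 + |y|)) := by
      linarith [h2]
    exact le_of_mul_le_mul_left h6 h5
  nlinarith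

/-- the coefficients are real -/
lemma Adm.real_coeff (h : Adm n S c) : ∀ m ∈ S, (c m).im = 0 := by
  -- for real `x`, `y` the value is real
  have hreal : ∀ x y : ℝ, star (fn S c x y) = fn S c x y := by
    intro x y
    obtain ⟨h1, h2⟩ := h.sec_monic (y : ℂ)
    have hs := IsAlgClosed.splits (sec S c (y : ℂ))
    rw [← eval_sec, hs.eval_eq_prod_roots_of_monic h1]
    have h3 : ∀ z ∈ (sec S c (y : ℂ)).roots, star z = z := by
      intro z hz
      rw [mem_roots h1.ne_zero, IsRoot, eval_sec] at hz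
      have := h.real_roots z y hz
      apply Complex.ext <;> simp [this]
    rw [← starRingEnd_apply, map_multiset_prod, Multiset.map_map]
    congr 1
    refine Multiset.map_congr rfl fun z hz => ?_
    simp only [Function.comp_apply, map_sub, Complex.conj_ofReal]
    rw [starRingEnd_apply, h3 z hz]
  set P : MvPolynomial (Fin 2) ℂ := ∑ m ∈ S, MvPolynomial.monomial m (c m - star (c m)) with hP
  have hP0 : P = 0 := by
    apply MvPolynomial.funext_set (fun _ : Fin 2 => Set.range ((↑) : ℝ → ℂ))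
    · intro i
      exact Set.infinite_range_of_injective Complex.ofReal_injective
    · intro v hv
      obtain ⟨x, hx⟩ := hv 0 (Set.mem_univ _)
      obtain ⟨y, hy⟩ := hv 1 (Set.mem_univ _)
      rw [map_zero, hP, map_sum]
      have h1 := hreal x y
      have h2 : fn S c x y - star (fn S c x y) = 0 := by rw [h1, sub_self]
      rw [← h2]
      unfold fn
      rw [star_sum, ← Finset.sum_sub_distrib]
      refine Finset.sum_congr rfl fun m _ => ?_
      rw [MvPolynomial.eval_monomial, Finsupp.prod_fintype _ _ (by simp), Fin.prod_univ_two, ← hx,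
        ← hy]
      simp only [star_mul', star_pow, Complex.star_def, Complex.conj_ofReal]
      ring
  intro m hm
  have h1 : P.coeff m = c m - star (c m) := by
    rw [hP, MvPolynomial.coeff_sum]
    simp only [MvPolynomial.coeff_monomial]
    rw [Finset.sum_ite_eq' S m, if_pos hm]
  rw [hP0, MvPolynomial.coeff_zero] at h1
  have h2 := congrArg Complex.im h1
  simp at h2
  linarith

end

end Pool.Agent.W450
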