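/-
Whitehead-type lemmas from a Green operator.
-/
import Pool.Agent.W450.RigSL

namespace W450.Rig

universe u

section abstractM

variable {K : Type u} [Field K] {M : Type u} [AddCommGroup M] [Module K M]

/-- The relations used. -/
structure CohData (E F H G P : Module.End K M) : Prop where
  fe : ∀ x, F (E x) = E (F x) + H x
  eh : ∀ x, E (H x) = H (E x) + E x
  hf : ∀ x, H (F x) = F (H x) + F x
  cg : ∀ x, E (F (G x)) + F (E (G x)) + H (H (G x)) + P x = x
  gc : ∀ x, G (E (F x) + F (E x) + H (H x)) + P x = x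
  ge : ∀ x, E (G x) = G (E x)
  gf : ∀ x, F (G x) = G (F x)
  gh : ∀ x, H (G x) = G (H x)
  ep : ∀ x, E (P x) = 0
  fp : ∀ x, F (P x) = 0
  hp : ∀ x, H (P x) = 0
  pe : ∀ x, P (E x) = 0
  pf : ∀ x, P (F x) = 0
  ph : ∀ x, P (H x) = 0

variable {E F H G P : Module.End K M}

theorem CohData.h1 (D : CohData E F H G P) {m0 mh mf : M} (h1 : E mh - (H m0 + m0) = 0)
    (h2 : E mf - F m0 + mh = 0) (h3 : F mh - (H mf - mf) = 0) :
    ∃ n, E n = m0 ∧ H n = mh ∧ F n = mf := by
  have e1 : E mh = H m0 + m0 := sub_eq_zero.1 h1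
  have e2 : E mf = F m0 - mh := by rw [← sub_eq_zero, ← h2]; abel
  have e3 : F mh = H mf - mf := sub_eq_zero.1 h3
  have p0 : P m0 = 0 := by
    have := congrArg P e1
    rw [D.pe, map_add, D.ph, zero_add] at this
    exact this.symm
  have p1 : P mh = 0 := by
    have := congrArg P e2
    rw [D.pe, map_sub, D.pf, zero_sub] at this
    exact neg_eq_zero.1 this.symm
  have p2 : P mf = 0 := by
    have := congrArg P e3
    rw [D.pf, map_sub, D.ph, zero_sub] at this
    exact neg_eq_zero.1 this.symm
  refine ⟨G (E mf + F m0 + H mh), ?_, ?_, ?_⟩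
  · rw [D.ge]
    have h := D.gc m0
    rw [p0, add_zero] at h
    refine (congrArg G ?_).trans h
    simp only [map_add, e2, map_sub, e1, D.eh, D.fe]
    abel
  · rw [D.gh]
    have h := D.gc mh
    rw [p1, add_zero] at h
    refine (congrArg G ?_).trans h
    have a1 : H (E mf) = E (F mh) := by
      rw [e3, map_sub, D.eh]; abel
    have a2 : H (F m0) = F (E mh) := by
      rw [e1, map_add, D.hf]
    rw [map_add, map_add, a1, a2]
  · rw [D.gf]
    have h := D.gc mf
    rw [p2, add_zero] at h
    refine (congrArg G ?_).trans h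
    have a1 : F (F m0) = F (E mf) + F mh := by
      rw [e2, map_sub]; abel
    have a2 : H (F mh) = F (H mh) + F mh := D.hf mh
    have a3 : F (H mh) = H (F mh) - F mh := by rw [a2]; abel
    rw [map_add, map_add, a1, a3, e3]
    have a4 : F (E mf) = E (F mf) + H mf := D.fe mf
    rw [map_sub, a4]
    abel

theorem CohData.h2 (D : CohData E F H G P) {a b c : M} (h : E c - F a + H b = 0) :
    ∃ x0 xh xf, E xh - (H x0 + x0) = a ∧ E xf - F x0 + xh = b ∧ F xh - (H xf - xf) = c := by
  refine ⟨- G (E b + H a) - P a, G (E c + F a) + P b, G (F b - H c) + P c, ?_, ?_, ?_⟩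
  · have e1 : E (G (E c + F a) + P b) - (H (- G (E b + H a) - P a) + (- G (E b + H a) - P a)) =
        G (E (E c + F a) + H (E b + H a) + (E b + H a)) + P a := by
      simp only [map_add, map_sub, map_neg, D.ge, D.gh, D.ep, D.hp]
      abel
    rw [e1]
    refine (congrArg (fun z => G z + P a) ?_).trans (D.gc a)
    have e2 : E c = F a - H b := by rw [← sub_eq_zero, ← h]; abel
    simp only [map_add, e2, map_sub, D.eh, D.fe]
    abel
  · have e1 : E (G (F b - H c) + P c) - F (- G (E b + H a) - P a) + (G (E c + F a) + P b) =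
        G (E (F b - H c) + F (E b + H a) + (E c + F a)) + P b := by
      simp only [map_add, map_sub, map_neg, D.ge, D.gf, D.gh, D.ep, D.fp]
      abel
    rw [e1]
    refine (congrArg (fun z => G z + P b) ?_).trans (D.gc b)
    have e3 : H (E c) = H (F a) - H (H b) := by
      rw [← map_sub]
      congr 1
      rw [← sub_eq_zero, ← h]; abel
    simp only [map_add, map_sub, D.eh, e3, D.hf]
    abel
  · have e1 : F (G (E c + F a) + P b) - (H (G (F b - H c) + P c) - (G (F b - H c) + P c)) =
        G (F (E c + F a) - H (F b - H c) + (F b - H c)) + P c := by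
      simp only [map_add, map_sub, D.gf, D.gh, D.fp, D.hp]
      abel
    rw [e1]
    refine (congrArg (fun z => G z + P c) ?_).trans (D.gc c)
    have e2 : F a = E c + H b := by rw [← sub_eq_zero, ← neg_eq_zero, ← h]; abel
    simp only [map_add, e2, map_sub, D.fe, D.hf]
    abel

theorem CohData.h3 (D : CohData E F H G P) (t : M) :
    ∃ c u v w, E c = 0 ∧ F c = 0 ∧ H c = 0 ∧ c + E u + F v + H w = t := by
  refine ⟨P t, F (G t), E (G t), H (G t), D.ep t, D.fp t, D.hp t, ?_⟩
  refine Eq.trans ?_ (D.cg t)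
  abel

theorem CohData.h4 (D : CohData E F H G P) [CharZero K] {n u v w : M} {k : ℤ} (hk : k ≠ 0)
    (h1 : E n = 0) (h2 : F n = 0) (h3 : H n = 0)
    (h : k • n + (E u + F v + H w) = 0) : n = 0 := by
  have e1 := congrArg P h
  rw [map_add, map_add, map_add, D.pe, D.pf, D.ph, map_zero, map_zsmul, add_zero, add_zero,
    add_zero, ← Int.cast_smul_eq_zsmul K] at e1
  have e2 : P n = 0 := (smul_eq_zero.1 e1).resolve_left (by exact_mod_cast hk)
  have e3 := D.gc n
  rw [h1, h2, h3, e2] at e3
  simpa using e3.symm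

end abstractM

variable {K : Type u} [Field K]
variable {V : Type u} [AddCommGroup V] [Module K V]
variable {V' : Type u} [AddCommGroup V'] [Module K V']

theorem cohData_of_green (S : SL K V) (S' : SL K V') (h : Green S S') :
    ∃ G P, CohData (adj S.e S'.e) (adj S.f S'.f) (adj S.h S'.h) G P := by
  obtain ⟨G, P, h1, h2, h3, h4, h5, h6, h7, h8, h9, h10, h11⟩ := h
  have f1 : ∀ v, S.h v = S.f (S.e v) - S.e (S.f v) := fun v => by
    rw [← S.fe]; rfl
  have f1' : ∀ v, S'.h v = S'.f (S'.e v) - S'.e (S'.f v) := fun v => by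
    rw [← S'.fe]; rfl
  have f2 : ∀ v, S.e (S.h v) = S.h (S.e v) + S.e v := fun v => by
    have := LinearMap.congr_fun S.eh v
    exact sub_eq_iff_eq_add'.1 this
  have f2' : ∀ v, S'.e (S'.h v) = S'.h (S'.e v) + S'.e v := fun v => by
    have := LinearMap.congr_fun S'.eh v
    exact sub_eq_iff_eq_add'.1 this
  have f3 : ∀ v, S.h (S.f v) = S.f (S.h v) + S.f v := fun v => by
    have := LinearMap.congr_fun S.hf v
    exact sub_eq_iff_eq_add'.1 this
  have f3' : ∀ v, S'.h (S'.f v) = S'.f (S'.h v) + S'.f v := fun v => by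
    have := LinearMap.congr_fun S'.hf v
    exact sub_eq_iff_eq_add'.1 this
  refine ⟨G, P, ⟨?_, ?_, ?_, ?_, ?_, ?_, ?_, ?_, ?_, ?_, ?_, ?_, ?_, ?_⟩⟩
  · intro m
    refine LinearMap.ext fun v => ?_
    simp only [adj_apply, LinearMap.sub_apply, LinearMap.add_apply, LinearMap.comp_apply,
      map_sub, f1, f1']
    abel
  · intro m
    refine LinearMap.ext fun v => ?_
    simp only [adj_apply, LinearMap.sub_apply, LinearMap.add_apply, LinearMap.comp_apply,
      map_sub, f2, f2', map_add]
    abel
  · intro m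
    refine LinearMap.ext fun v => ?_
    simp only [adj_apply, LinearMap.sub_apply, LinearMap.add_apply, LinearMap.comp_apply,
      map_sub, f3, f3', map_add]
    abel
  · intro m; exact LinearMap.congr_fun h1 m
  · intro m; exact LinearMap.congr_fun h2 m
  · intro m; exact (LinearMap.congr_fun h3 m).symm
  · intro m; exact (LinearMap.congr_fun h4 m).symm
  · intro m; exact (LinearMap.congr_fun h5 m).symm
  · intro m; exact LinearMap.congr_fun h6 m
  · intro m; exact LinearMap.congr_fun h7 m
  · intro m; exact LinearMap.congr_fun h8 m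
  · intro m; exact LinearMap.congr_fun h9 m
  · intro m; exact LinearMap.congr_fun h10 m
  · intro m; exact LinearMap.congr_fun h11 m

end W450.Rig
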