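/-
Vanishing of `Ext` between the modules `W`.
-/
import Pool.Agent.W450.RigRes

namespace W450.Rig

open CategoryTheory CategoryTheory.Abelian

universe u

variable {K : Type u} [Field K]
variable {V : Type u} [AddCommGroup V] [Module K V]
variable {V' : Type u} [AddCommGroup V'] [Module K V']

namespace SL

variable (S : SL K V) (S' : SL K V')

theorem odd_eqs {a b c : V →ₗ[K] V'} (h : ∀ y : X4 V, S.In X.P00 y.1 → S.In X.P11 y.2.1 →
    S.In X.P11 y.2.2.1 → S.In X.P02 y.2.2.2 →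
    S'.Ph true 1 a y.2.1 + S'.Ph true 1 b y.2.2.1 + S'.Ph false 2 c y.2.2.2 = 0) :
    a = 0 ∧ b = 0 ∧ c = 0 := by
  refine ⟨S.Ph_inj S' vd11 a fun x hx => ?_, S.Ph_inj S' vd11 b fun x hx => ?_,
    S.Ph_inj S' vd02 c fun x hx => ?_⟩
  · have := h (0, x, 0, 0) In.zero hx In.zero In.zero
    simpa using this
  · have := h (0, 0, x, 0) In.zero In.zero hx In.zero
    simpa using this
  · have := h (0, 0, 0, x) In.zero In.zero In.zero hx
    simpa using this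

theorem even_eqs {a b c d : V →ₗ[K] V'} (h : ∀ y : X4 V, S.In X.P10 y.1 → S.In X.P01 y.2.1 →
    S.In X.P01 y.2.2.1 → S.In X.P12 y.2.2.2 → S'.Go a b c d y = 0) :
    a = 0 ∧ b = 0 ∧ c = 0 ∧ d = 0 := by
  refine ⟨S.Ph_inj S' vd10 a fun x hx => ?_, S.Ph_inj S' vd01 b fun x hx => ?_,
    S.Ph_inj S' vd01 c fun x hx => ?_, S.Ph_inj S' vd12 d fun x hx => ?_⟩
  · have := h (x, 0, 0, 0) hx In.zero In.zero In.zero
    simpa [Go_apply] using this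
  · have := h (0, x, 0, 0) In.zero hx In.zero In.zero
    simpa [Go_apply] using this
  · have := h (0, 0, x, 0) In.zero In.zero hx In.zero
    simpa [Go_apply] using this
  · have := h (0, 0, 0, x) In.zero In.zero In.zero hx
    simpa [Go_apply] using this

theorem coc_even [CharZero K] {G P : Module.End K (V →ₗ[K] V')}
    (D : CohData (adj S.e S'.e) (adj S.f S'.f) (adj S.h S'.h) G P) (k : ℤ) (hk : k ≠ 0)
    {n0 nh nf nx : V →ₗ[K] V'}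
    (h : ∀ y : X4 V, S.In X.P10 y.1 → S.In X.P01 y.2.1 → S.In X.P01 y.2.2.1 →
      S.In X.P12 y.2.2.2 → S'.Ge n0 nh nf nx (S.Do k y) = 0) :
    ∃ x0 xh xf : V →ₗ[K] V', n0 = 0 ∧ adj S.e S'.e xh - (adj S.h S'.h x0 + x0) = nh ∧
      adj S.e S'.e xf - adj S.f S'.f x0 + xh = nf ∧
      adj S.f S'.f xh - (adj S.h S'.h xf - xf) = nx := by
  obtain ⟨h1, h2, h3, h4⟩ := S.even_eqs S' (fun y i1 i2 i3 i4 => by
    rw [← S.Ge_Do S' k n0 nh nf nx y]; exact h y i1 i2 i3 i4)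
  have e0 : n0 = 0 := D.h4 hk h1 h3 h2 h4
  rw [e0, smul_zero, zero_add, map_neg, ← sub_eq_add_neg] at h4
  obtain ⟨x0, xh, xf, g1, g2, g3⟩ := D.h2 h4
  exact ⟨x0, xh, xf, e0, g1, g2, g3⟩

theorem coc [CharZero K] {G P : Module.End K (V →ₗ[K] V')}
    (D : CohData (adj S.e S'.e) (adj S.f S'.f) (adj S.h S'.h) G P) (n : ℕ)
    (g : X4 V →ₗ[Rg K] S'.Wm) (hg : ∀ y ∈ S.Rn (n + 2), g (S.D (n + 1) y) = 0) :
    ∃ φ : X4 V →ₗ[Rg K] S'.Wm, ∀ x ∈ S.Rn (n + 1), g x = φ (S.D n x) := by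
  match n with
  | 0 =>
    obtain ⟨m0, mh, mf, mx, hm⟩ := S.Go_surj S' g
    have hm' : ∀ x ∈ S.Rn 1, g x = S'.Go m0 mh mf mx x := by
      intro x hx
      obtain ⟨i1, i2, i3, i4⟩ := S.mem_R1.1 hx
      exact hm x i1 i2 i3 (i4 ▸ In.zero)
    obtain ⟨a1, a2, a3⟩ := S.odd_eqs S' (fun y i1 i2 i3 i4 => by
      rw [← S.Go_D2 S' m0 mh mf mx y]
      have hy : y ∈ S.Rn 2 := (S.mem_Re 0).2 ⟨i1, i2, i3, i4⟩
      have := hg y hy
      rw [hm' _ (S.D_mem 1 hy)] at this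
      exact this)
    obtain ⟨n0, b1, b2, b3⟩ := D.h1 a1 a2 a3
    refine ⟨S'.Ge n0 0 0 0, fun x hx => ?_⟩
    rw [hm' x hx, ← b1, ← b2, ← b3]
    exact (S.Ge_D1 S' n0 0 0 0 mx x (S.mem_R1.1 hx).2.2.2).symm
  | 1 =>
    obtain ⟨n0, nh, nf, nx, hm⟩ := S.Ge_surj S' g
    have hm' : ∀ x ∈ S.Rn 2, g x = S'.Ge n0 nh nf nx x := by
      intro x hx
      obtain ⟨i1, i2, i3, i4⟩ := (S.mem_Re 0).1 hx
      exact hm x i1 i2 i3 i4
    obtain ⟨x0, xh, xf, e0, g1, g2, g3⟩ := S.coc_even S' D 1 one_ne_zero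
      (n0 := n0) (nh := nh) (nf := nf) (nx := nx) (fun y i1 i2 i3 i4 => by
        have hy : y ∈ S.Rn 3 := (S.mem_Ro 0).2 ⟨i1, i2, i3, i4⟩
        have h1 := hg y hy
        rw [hm' _ (S.D_mem 2 hy)] at h1
        have h2 := S.D_even 0
        simp only [mul_zero, zero_add, Nat.cast_zero] at h2
        rw [← h2]
        exact h1)
    refine ⟨S'.Go x0 xh xf 0, fun x hx => ?_⟩
    rw [hm' x hx]
    show _ = S'.Go x0 xh xf 0 (S.D2 x)
    rw [S.Go_D2 S', g1, g2, g3, Ge_apply, e0, Ph_zero, zero_add, add_assoc]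
  | n + 2 =>
    rcases Nat.even_or_odd' n with ⟨m, rfl | rfl⟩
    · obtain ⟨m0, mh, mf, mx, hm⟩ := S.Go_surj S' g
      have hm' : ∀ x ∈ S.Rn (2 * m + 3), g x = S'.Go m0 mh mf mx x := by
        intro x hx
        obtain ⟨i1, i2, i3, i4⟩ := (S.mem_Ro m).1 hx
        exact hm x i1 i2 i3 i4
      obtain ⟨a1, a2, a3⟩ := S.odd_eqs S' (fun y i1 i2 i3 i4 => by
        rw [← S.Go_De S' (-((m : ℤ) + 1)) m0 mh mf mx y, ← S.D_odd]
        have hy : y ∈ S.Rn (2 * m + 3 + 1) := by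
          rw [show 2 * m + 3 + 1 = 2 * (m + 1) + 2 by omega]
          exact (S.mem_Re (m + 1)).2 ⟨i1, i2, i3, i4⟩
        have := hg y hy
        rw [show 2 * m + 2 + 1 = 2 * m + 3 by omega] at this
        rw [hm' _ (S.D_mem (2 * m + 3) hy)] at this
        exact this)
      obtain ⟨n0, b1, b2, b3⟩ := D.h1 a1 a2 a3
      have hk : ((m : ℤ) + 1) ≠ 0 := by omega
      have hkK : (((m : ℤ) + 1 : ℤ) : K) ≠ 0 := by exact_mod_cast hk
      obtain ⟨c0, u, v, w, c1, c2, c3, c4⟩ := D.h3 (mx - ((m : ℤ) + 1) • n0)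
      let c : V →ₗ[K] V' := (((m : ℤ) + 1 : ℤ) : K)⁻¹ • c0
      have hc : ((m : ℤ) + 1) • c = c0 := by
        rw [← Int.cast_smul_eq_zsmul K]
        exact smul_inv_smul₀ hkK c0
      have hc1 : adj S.e S'.e c = 0 := by rw [map_smul, c1, smul_zero]
      have hc2 : adj S.f S'.f c = 0 := by rw [map_smul, c2, smul_zero]
      have hc3 : adj S.h S'.h c = 0 := by rw [map_smul, c3, smul_zero]
      refine ⟨S'.Ge (n0 + c) (-v) w u, fun x hx => ?_⟩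
      rw [show 2 * m + 2 + 1 = 2 * m + 3 by omega] at hx
      rw [hm' x hx, S.D_even, S.Ge_Do S', map_add, map_add, map_add, hc1, hc2, hc3, add_zero,
        add_zero, add_zero, b1, b2, b3, neg_neg]
      congr 1
      rw [smul_add, hc]
      have : mx = ((m : ℤ) + 1) • n0 + (c0 + adj S.e S'.e u + adj S.f S'.f v +
          adj S.h S'.h w) := by
        rw [c4]; abel
      rw [this]
      congr 1
      abel
    · obtain ⟨n0, nh, nf, nx, hm⟩ := S.Ge_surj S' g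
      have hm' : ∀ x ∈ S.Rn (2 * m + 1 + 2 + 1), g x = S'.Ge n0 nh nf nx x := by
        intro x hx
        rw [show 2 * m + 1 + 2 + 1 = 2 * (m + 1) + 2 by omega] at hx
        obtain ⟨i1, i2, i3, i4⟩ := (S.mem_Re (m + 1)).1 hx
        exact hm x i1 i2 i3 i4
      obtain ⟨x0, xh, xf, e0, g1, g2, g3⟩ := S.coc_even S' D (((m + 1 : ℕ) : ℤ) + 1)
        (by omega) (n0 := n0) (nh := nh) (nf := nf) (nx := nx) (fun y i1 i2 i3 i4 => by
          have hy : y ∈ S.Rn (2 * m + 1 + 2 + 2) := by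
            rw [show 2 * m + 1 + 2 + 2 = 2 * (m + 1) + 3 by omega]
            exact (S.mem_Ro (m + 1)).2 ⟨i1, i2, i3, i4⟩
          have h1 := hg y hy
          rw [hm' _ (S.D_mem (2 * m + 1 + 2 + 1) hy)] at h1
          have h2 := S.D_even (m + 1)
          rw [show 2 * (m + 1) + 2 = 2 * m + 1 + 2 + 1 by omega] at h2
          rw [← h2]
          exact h1)
      refine ⟨S'.Go x0 xh xf 0, fun x hx => ?_⟩
      rw [hm' x hx, show 2 * m + 1 + 2 = 2 * m + 3 by omega, S.D_odd, S.Go_De S', g1, g2, g3,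
        Ge_apply, e0, Ph_zero, zero_add, add_assoc]

/-- The images of the differentials. -/
def Zn (n : ℕ) : Submodule (Rg K) (X4 V) := (S.Rn (n + 1)).map (S.D n)

theorem Zn_le (n : ℕ) : S.Zn n ≤ S.Rn n := by
  rintro _ ⟨x, hx, rfl⟩
  exact S.D_mem n hx

/-- The inclusion. -/
def Zi (n : ℕ) : S.Zn n →ₗ[Rg K] S.Rn n := Submodule.inclusion (S.Zn_le n)

/-- The surjection. -/
def Zp (n : ℕ) : S.Rn (n + 1) →ₗ[Rg K] S.Zn n :=
  ((S.D n).domRestrict (S.Rn (n + 1))).codRestrict (S.Zn n) (fun x => ⟨x, x.2, rfl⟩)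

theorem Zp_surj (n : ℕ) : Function.Surjective (S.Zp n) := by
  rintro ⟨_, x, hx, rfl⟩
  exact ⟨⟨x, hx⟩, rfl⟩

theorem Zi_inj (n : ℕ) : Function.Injective (S.Zi n) := Submodule.inclusion_injective _

theorem Z_exact (n : ℕ) : Function.Exact (S.Zi (n + 1)) (S.Zp n) := by
  intro x
  constructor
  · intro h
    obtain ⟨y, hy, hy2⟩ := S.D_ex n x.2 (congrArg Subtype.val h)
    exact ⟨⟨x, ⟨y, hy, hy2⟩⟩, rfl⟩
  · rintro ⟨⟨_, y, hy, rfl⟩, rfl⟩
    exact Subtype.ext (S.D_D n hy)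

/-- The surjection onto `W`. -/
def Wp : S.Rn 0 →ₗ[Rg K] S.Wm := S.pr ∘ₗ LinearMap.fst (Rg K) _ _ ∘ₗ (S.Rn 0).subtype

theorem Wp_surj : Function.Surjective S.Wp := by
  intro w
  obtain ⟨x, rfl⟩ := S.pr_surj w
  exact ⟨⟨(S.p00 x, 0), S.mem_R0.2 ⟨S.in_p00 x, rfl⟩⟩, S.pr_p00 x⟩

theorem W_exact : Function.Exact (S.Zi 0) S.Wp := by
  intro x
  obtain ⟨⟨x0, x1⟩, hx⟩ := x
  obtain ⟨h1, h2⟩ := S.mem_R0.1 hx
  simp only at h1 h2
  subst h2
  constructor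
  · intro h
    obtain ⟨y0, yh, yf, i0, ih, iff, e⟩ := S.pr_zero_dec h1 h
    refine ⟨⟨(x0, 0), ⟨(y0, yh, yf, 0), S.mem_R1.2 ⟨i0, ih, iff, rfl⟩, ?_⟩⟩, rfl⟩
    exact Prod.ext e rfl
  · rintro ⟨⟨_, y, hy, rfl⟩, h⟩
    have h3 : x0 = S.E y.1 + S.H y.2.1 + S.F y.2.2.1 :=
      (congrArg (fun p : S.Rn 0 => p.1.1) h).symm
    show S.pr x0 = 0
    rw [h3, map_add, map_add, pr_E, pr_H, pr_F, add_zero, add_zero]

/-- The projection onto `Rn n`. -/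
def pR (n : ℕ) : X4 V →ₗ[Rg K] S.Rn n := (S.pn n).codRestrict (S.Rn n) (S.pn_idem n)

theorem pR_mem (n : ℕ) {x : X4 V} (hx : x ∈ S.Rn n) : S.pR n x = ⟨x, hx⟩ := Subtype.ext hx

theorem lift [CharZero K] {G P : Module.End K (V →ₗ[K] V')}
    (D : CohData (adj S.e S'.e) (adj S.f S'.f) (adj S.h S'.h) G P) (n : ℕ)
    (g : S.Zn n →ₗ[Rg K] S'.Wm) : ∃ g' : S.Rn n →ₗ[Rg K] S'.Wm, g' ∘ₗ S.Zi n = g := by
  obtain ⟨φ, hφ⟩ := S.coc S' D n (g ∘ₗ S.Zp n ∘ₗ S.pR (n + 1)) (by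
    intro y hy
    rw [LinearMap.comp_apply, LinearMap.comp_apply, S.pR_mem _ (S.D_mem (n + 1) hy)]
    have : S.Zp n ⟨S.D (n + 1) y, S.D_mem (n + 1) hy⟩ = 0 := Subtype.ext (S.D_D n hy)
    rw [this, map_zero])
  refine ⟨φ ∘ₗ (S.Rn n).subtype, LinearMap.ext ?_⟩
  rintro ⟨_, x, hx, rfl⟩
  have h1 := hφ x hx
  rw [LinearMap.comp_apply, LinearMap.comp_apply, S.pR_mem _ hx] at h1
  exact h1.symm

theorem ext_Z [CharZero K] [Module.Finite K V] {G P : Module.End K (V →ₗ[K] V')}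
    (D : CohData (adj S.e S'.e) (adj S.f S'.f) (adj S.h S'.h) G P) (i : ℕ) (n : ℕ) :
    Subsingleton (Ext (ModuleCat.of (Rg K) (S.Zn n)) (ModuleCat.of (Rg K) S'.Wm) (i + 1)) := by
  induction i generalizing n with
  | zero =>
    have : Module.Projective (Rg K) (S.Rn (n + 1)) := proj_Rsub _ (S.pn_idem (n + 1))
    exact ext_one (R := Rg K) (M := S.Zn n) (P := S.Rn (n + 1)) (N := S.Zn (n + 1))
      (Y := S'.Wm) (S.Zi (n + 1)) (S.Zp n) (S.Z_exact n) (S.Zi_inj (n + 1)) (S.Zp_surj n)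
      (S.lift S' D (n + 1))
  | succ i ih =>
    have : Module.Projective (Rg K) (S.Rn (n + 1)) := proj_Rsub _ (S.pn_idem (n + 1))
    exact ext_step (R := Rg K) (M := S.Zn n) (P := S.Rn (n + 1)) (N := S.Zn (n + 1))
      (Y := S'.Wm) (S.Zi (n + 1)) (S.Zp n) (S.Z_exact n) (S.Zi_inj (n + 1)) (S.Zp_surj n)
      (i + 1) (ih (n + 1))

theorem ext_W [CharZero K] [Module.Finite K V] (hG : Green S S') (i : ℕ) (hi : 1 ≤ i) :
    Subsingleton (Ext (ModuleCat.of (Rg K) S.Wm) (ModuleCat.of (Rg K) S'.Wm) i) := by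
  obtain ⟨G, P, D⟩ := cohData_of_green S S' hG
  have : Module.Projective (Rg K) (S.Rn 0) := proj_Rsub _ (S.pn_idem 0)
  obtain ⟨j, rfl⟩ : ∃ j, i = j + 1 := ⟨i - 1, by omega⟩
  cases j with
  | zero =>
    exact ext_one (R := Rg K) (M := S.Wm) (P := S.Rn 0) (N := S.Zn 0)
      (Y := S'.Wm) (S.Zi 0) S.Wp S.W_exact (S.Zi_inj 0) S.Wp_surj (S.lift S' D 0)
  | succ j =>
    exact ext_step (R := Rg K) (M := S.Wm) (P := S.Rn 0) (N := S.Zn 0)
      (Y := S'.Wm) (S.Zi 0) S.Wp S.W_exact (S.Zi_inj 0) S.Wp_surj (j + 1)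
      (S.ext_Z S' D j 0)

end SL

end W450.Rig
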