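/-
The family of modules: endomorphisms, indecomposability, pairwise non-isomorphic.
-/
import Pool.Agent.W450.RigVan
import Pool.Agent.W450.RigDefs

namespace W450.Rig

open CategoryTheory CategoryTheory.Limits CategoryTheory.Abelian

universe u

variable {K : Type u} [Field K]
variable {V : Type u} [AddCommGroup V] [Module K V]
variable {V' : Type u} [AddCommGroup V'] [Module K V']

namespace SL

variable (S : SL K V) (S' : SL K V')

theorem hom_desc (φ : S.Wm →ₗ[Rg K] S'.Wm) :
    ∃ m : V →ₗ[K] V', (∀ x, φ (S.pr x) = S'.pr (lactR m x)) ∧ adj S.e S'.e m = 0 ∧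
      adj S.f S'.f m = 0 ∧ adj S.h S'.h m = 0 := by
  obtain ⟨m, hm⟩ := S.Ph_surj S' vd00 (φ ∘ₗ S.pr)
  have hm0 : ∀ x, S.In X.P00 x → φ (S.pr x) = S'.Ph false 0 m x := hm
  have h1 : ∀ x, φ (S.pr x) = S'.pr (lactR m x) := by
    intro x
    rw [← S.pr_p00 x, hm0 _ (S.in_p00 x)]
    have h2 : lactR m (S.p00 x) = S'.p00 (lactR m x) := (tact_lact (tmat K 7) m x).symm
    show S'.pr (lactR m (S.p00 x)) = _
    rw [h2, S'.pr_p00]
  refine ⟨m, h1, S.Ph_inj S' vd10 _ fun x _ => ?_, S.Ph_inj S' vd01 _ fun x _ => ?_,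
    S.Ph_inj S' vd01 _ fun x _ => ?_⟩
  · rw [← S.Ph_E S' 0 m x]
    show S'.pr (lactR m (S.E x)) = 0
    rw [← h1, S.pr_E, map_zero]
  · rw [← S.Ph_F S' false 0 m x]
    show S'.pr (lactR m (S.F x)) = 0
    rw [← h1, S.pr_F, map_zero]
  · rw [← S.Ph_H S' false 0 m x]
    show S'.pr (lactR m (S.H x)) = 0
    rw [← h1, S.pr_H, map_zero]

include S in
theorem pr_lact_inj {m : V →ₗ[K] V'} (h : ∀ x, S'.pr (lactR m x) = 0) : m = 0 :=
  S.Ph_inj S' vd00 m fun x _ => h x

theorem equiv_of_iso (φ : S.Wm ≃ₗ[Rg K] S'.Wm) : Nonempty (V ≃ₗ[K] V') := by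
  obtain ⟨m, hm, -⟩ := S.hom_desc S' φ.toLinearMap
  obtain ⟨m', hm', -⟩ := S'.hom_desc S φ.symm.toLinearMap
  refine ⟨LinearEquiv.ofLinearMap m m' ?_ ?_⟩
  · rw [← sub_eq_zero]
    refine S'.pr_lact_inj S' fun x => ?_
    rw [lactR_sub, map_sub]
    have h1 : S'.pr (lactR (m ∘ₗ m') x) = φ (φ.symm (S'.pr x)) := by
      have := hm' x
      rw [show φ.symm (S'.pr x) = S.pr (lactR m' x) from this]
      exact (hm (lactR m' x)).symm
    rw [h1, LinearEquiv.apply_symm_apply]
    exact sub_self _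
  · rw [← sub_eq_zero]
    refine S.pr_lact_inj S fun x => ?_
    rw [lactR_sub, map_sub]
    have h1 : S.pr (lactR (m' ∘ₗ m) x) = φ.symm (φ (S.pr x)) := by
      have := hm x
      rw [show φ (S.pr x) = S'.pr (lactR m x) from this]
      exact (hm' (lactR m x)).symm
    rw [h1, LinearEquiv.symm_apply_apply]
    exact sub_self _

theorem Wm_finite [Module.Finite K V] : Module.Finite (Rg K) S.Wm := by
  have := finite_BV (K := K) (V := V)
  exact Module.Finite.of_surjective S.pr S.pr_surj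

theorem Wm_nontrivial [Nontrivial V] : Nontrivial S.Wm := by
  obtain ⟨v, hv⟩ := exists_ne (0 : V)
  refine ⟨⟨S.pr (Pi.single vd00.g v), 0, fun h => hv ?_⟩⟩
  have h2 := congrArg S.qb h
  rw [qb_pr, map_zero] at h2
  have h3 : S.q (Pi.single vd00.g v) = Pi.single vd00.c v := S.q_gen vd00 v
  rw [h3] at h2
  have h4 := congrFun h2 vd00.c
  simpa using h4

theorem Wm_indec [Nontrivial V]
    (hs : ∀ m : V →ₗ[K] V, adj S.e S.e m = 0 → adj S.h S.h m = 0 → ∃ c : K, m = c • LinearMap.id) :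
    Indecomposable (ModuleCat.of (Rg K) S.Wm) := by
  have hnt := S.Wm_nontrivial
  have hend : ∀ φ : S.Wm →ₗ[Rg K] S.Wm, ∃ c : K, ∀ w, φ w = c • w := by
    intro φ
    obtain ⟨m, hm, h1, -, h3⟩ := S.hom_desc S φ
    obtain ⟨c, hc⟩ := hs m h1 h3
    refine ⟨c, fun w => ?_⟩
    obtain ⟨x, rfl⟩ := S.pr_surj w
    rw [hm, hc]
    rfl
  constructor
  · intro h
    have h0 : Subsingleton S.Wm := ModuleCat.isZero_iff_subsingleton.1 h
    exact not_subsingleton S.Wm h0
  · intro Y Z e
    let p : ModuleCat.of (Rg K) S.Wm ⟶ ModuleCat.of (Rg K) S.Wm :=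
      e.hom ≫ biprod.fst ≫ biprod.inl ≫ e.inv
    have hp : p ≫ p = p := by simp [p]
    obtain ⟨c, hc⟩ := hend p.hom
    obtain ⟨w, hw⟩ := exists_ne (0 : S.Wm)
    have hcc : c * c = c := by
      have h1 : p.hom (p.hom w) = p.hom w := by
        have := congrArg (fun q : ModuleCat.of (Rg K) S.Wm ⟶ ModuleCat.of (Rg K) S.Wm =>
          q.hom w) hp
        exact this
      rw [hc, hc, smul_smul] at h1
      have h2 : (c * c - c) • w = 0 := by rw [sub_smul, h1, sub_self]
      by_contra hne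
      apply hw
      have h3 : c * c - c ≠ 0 := fun h4 => hne (sub_eq_zero.1 h4)
      have h5 := congrArg (fun z => (c * c - c)⁻¹ • z) h2
      simp only [smul_zero] at h5
      rwa [smul_smul, inv_mul_cancel₀ h3, one_smul] at h5
    have hc01 : c = 0 ∨ c = 1 := by
      have : c * (c - 1) = 0 := by rw [mul_sub, hcc, mul_one, sub_self]
      rcases mul_eq_zero.1 this with h | h
      · exact Or.inl h
      · exact Or.inr (sub_eq_zero.1 h)
    rcases hc01 with h | h
    · left
      have hp0 : p = 0 := by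
        apply ModuleCat.hom_ext
        refine LinearMap.ext fun w => ?_
        rw [hc, h, zero_smul]
        rfl
      rw [IsZero.iff_id_eq_zero]
      have : (𝟙 Y : Y ⟶ Y) = biprod.inl ≫ e.inv ≫ p ≫ e.hom ≫ biprod.fst := by simp [p]
      rw [this, hp0]
      simp
    · right
      have hp1 : p = 𝟙 _ := by
        apply ModuleCat.hom_ext
        refine LinearMap.ext fun w => ?_
        rw [hc, h, one_smul]
        rfl
      rw [IsZero.iff_id_eq_zero]
      have h2 : (𝟙 Z : Z ⟶ Z) = biprod.inr ≫ e.inv ≫ 𝟙 _ ≫ e.hom ≫ biprod.snd := by simp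
      rw [h2, ← hp1]
      simp [p]

end SL

theorem irr_end [CharZero K] (n : ℕ) (m : (Fin (n + 1) → K) →ₗ[K] (Fin (n + 1) → K))
    (he : adj (irr K n).e (irr K n).e m = 0) (hh : adj (irr K n).h (irr K n).h m = 0) :
    ∃ c : K, m = c • LinearMap.id := by
  have e1 : ∀ x, (irrE K n).mulVec (m x) = m ((irrE K n).mulVec x) := fun x =>
    sub_eq_zero.1 (LinearMap.congr_fun he x)
  have h1 : ∀ x, (irrH K n).mulVec (m x) = m ((irrH K n).mulVec x) := fun x =>
    sub_eq_zero.1 (LinearMap.congr_fun hh x)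
  have hb : ∀ k : Fin (n + 1), (irrH K n).mulVec (Pi.single k 1) =
      (((k : ℕ) : K) - (n : K) / 2) • (Pi.single k 1 : Fin (n + 1) → K) := by
    intro k
    funext i
    rw [irrH_apply, Pi.smul_apply, smul_eq_mul]
    by_cases hi : i = k
    · subst hi; rfl
    · rw [Pi.single_eq_of_ne hi, mul_zero, mul_zero]
  have hd : ∀ i k : Fin (n + 1), i ≠ k → m (Pi.single k 1) i = 0 := by
    intro i k hik
    have h2 := congrFun (h1 (Pi.single k 1)) i
    rw [hb, map_smul, irrH_apply, Pi.smul_apply, smul_eq_mul] at h2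
    have h3 : (((i : ℕ) : K) - ((k : ℕ) : K)) * m (Pi.single k 1) i = 0 := by
      linear_combination h2
    rcases mul_eq_zero.1 h3 with h4 | h4
    · exfalso
      apply hik
      apply Fin.ext
      exact_mod_cast sub_eq_zero.1 h4
    · exact h4
  have hs : ∀ (k : ℕ) (hk : k + 1 < n + 1),
      m (Pi.single ⟨k + 1, hk⟩ 1) ⟨k + 1, hk⟩ =
        m (Pi.single ⟨k, by omega⟩ 1) ⟨k, by omega⟩ := by
    intro k hk
    have h2 : (irrE K n).mulVec (Pi.single ⟨k + 1, hk⟩ 1) =
        ((k : K) + 1) • (Pi.single ⟨k, by omega⟩ 1 : Fin (n + 1) → K) := by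
      funext i
      rw [irrE_apply, Pi.smul_apply, smul_eq_mul]
      by_cases hi : i = ⟨k, by omega⟩
      · subst hi
        simp [hk]
      · rw [Pi.single_eq_of_ne hi, mul_zero]
        split_ifs with h5
        · have : (⟨(i : ℕ) + 1, h5⟩ : Fin (n + 1)) ≠ ⟨k + 1, hk⟩ := by
            intro h6
            apply hi
            have := congrArg Fin.val h6
            simp only at this
            exact Fin.ext (by simp only; omega)
          rw [Pi.single_eq_of_ne this, mul_zero]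
        · rfl
    have h3 := congrFun (e1 (Pi.single ⟨k + 1, hk⟩ 1)) ⟨k, by omega⟩
    rw [h2, map_smul, irrE_apply, Pi.smul_apply, smul_eq_mul] at h3
    simp only [hk, dif_pos] at h3
    have h4 : ((k : K) + 1) ≠ 0 := by exact_mod_cast Nat.succ_ne_zero k
    exact mul_left_cancel₀ h4 h3
  have hc : ∀ (k : ℕ) (hk : k < n + 1),
      m (Pi.single ⟨k, hk⟩ 1) ⟨k, hk⟩ = m (Pi.single 0 1) 0 := by
    intro k
    induction k with
    | zero => intro hk; rfl
    | succ k ih =>
      intro hk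
      rw [hs k hk, ih]
  refine ⟨m (Pi.single 0 1) 0, ?_⟩
  apply LinearMap.pi_ext'
  intro k
  apply LinearMap.ext_ring
  funext i
  simp only [LinearMap.comp_apply, LinearMap.single_apply, LinearMap.smul_apply,
    LinearMap.id_apply, Pi.smul_apply, smul_eq_mul]
  by_cases hi : i = k
  · subst hi
    rw [Pi.single_eq_same, mul_one]
    exact hc i i.isLt
  · rw [Pi.single_eq_of_ne hi, mul_zero]
    exact hd i k hi

/-- The family of modules over `Rg K`. -/
noncomputable def Xfam (K : Type u) [Field K] [CharZero K] (n : ℕ) : ModuleCat.{u} (Rg K) :=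
  ModuleCat.of (Rg K) (irr K n).Wm

theorem orth_family (K : Type u) [Field K] [CharZero K]
    (hG : ∀ m n, Green (irr K m) (irr K n)) : IsOrthFamily (Xfam K) where
  fin n := (irr K n).Wm_finite
  indec n := (irr K n).Wm_indec (irr_end n)
  inj m n h := by
    obtain ⟨e⟩ := h
    obtain ⟨e'⟩ := (irr K m).equiv_of_iso (irr K n) e.toLinearEquiv
    have := e'.finrank_eq
    simpa using this
  ext m n i hi := (irr K m).ext_W (irr K n) (hG m n) i hi

end W450.Rig
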